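import Pool.Agent.Lib.MP_c12170_pr.Spec

section
/-!
# MP_c12170_pr: modules DFOP and THIN
-/
open MeasureTheory ProbabilityTheory Filter Topology
open scoped ENNReal NNReal

namespace Pool.Agent.Lib.MP_c12170_pr

namespace Dfop

variable {V : Type}

/-- Positive association of a finite measure. -/
def As (ν : Measure (Finset V)) : Prop :=
  ∀ f g : Finset V → ℝ, Monotone f → Monotone g →
    (∀ A, 0 ≤ f A ∧ f A ≤ 1) → (∀ A, 0 ≤ g A ∧ g A ≤ 1) →
    (∫ A, f A ∂ν) * (∫ A, g A ∂ν) ≤ (∫ A, f A * g A ∂ν) * ν.real Set.univ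

/-- `ν₁` dominates `ν₂`. -/
def Dm (ν₁ ν₂ : Measure (Finset V)) : Prop :=
  ∀ f : Finset V → ℝ, Monotone f → (∀ A, 0 ≤ f A ∧ f A ≤ 1) →
    (∫ A, f A ∂ν₂) * ν₁.real Set.univ ≤ (∫ A, f A ∂ν₁) * ν₂.real Set.univ

theorem integrable_bdd (ν : Measure (Finset V)) [IsFiniteMeasure ν] (f : Finset V → ℝ)
    (C : ℝ) (h : ∀ A, |f A| ≤ C) : Integrable f ν :=
  Integrable.of_bound (measurable_from_top.aestronglyMeasurable) C
    (Filter.Eventually.of_forall h)

theorem integrable_unit (ν : Measure (Finset V)) [IsFiniteMeasure ν] (f : Finset V → ℝ)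
    (h : ∀ A, 0 ≤ f A ∧ f A ≤ 1) : Integrable f ν :=
  integrable_bdd ν f 1 fun A => abs_le.2 ⟨by linarith [(h A).1], (h A).2⟩

theorem int_le_mass (ν : Measure (Finset V)) [IsFiniteMeasure ν] (f : Finset V → ℝ)
    (h : ∀ A, 0 ≤ f A ∧ f A ≤ 1) : ∫ A, f A ∂ν ≤ ν.real Set.univ := by
  have h1 := integral_mono (integrable_unit ν f h) (integrable_const (1 : ℝ))
    (fun A => (h A).2)
  simpa using h1

theorem mix (ν₁ ν₂ : Measure (Finset V)) [IsFiniteMeasure ν₁] [IsFiniteMeasure ν₂]
    (h₁ : As ν₁) (h₂ : As ν₂) (hd : Dm ν₁ ν₂) : As (ν₁ + ν₂) := by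
  intro f g hf hg hf1 hg1
  have hfg : ∀ A, 0 ≤ f A * g A ∧ f A * g A ≤ 1 := fun A =>
    ⟨mul_nonneg (hf1 A).1 (hg1 A).1, mul_le_one₀ (hf1 A).2 (hg1 A).1 (hg1 A).2⟩
  rw [integral_add_measure (integrable_unit _ f hf1) (integrable_unit _ f hf1),
    integral_add_measure (integrable_unit _ g hg1) (integrable_unit _ g hg1),
    integral_add_measure (integrable_unit _ _ hfg) (integrable_unit _ _ hfg),
    measureReal_add_apply]
  have a1 := h₁ f g hf hg hf1 hg1
  have a2 := h₂ f g hf hg hf1 hg1
  have b1 := hd f hf hf1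
  have b2 := hd g hg hg1
  have c1 := int_le_mass ν₁ f hf1
  have c2 := int_le_mass ν₁ g hg1
  have c3 := int_le_mass ν₂ f hf1
  have c4 := int_le_mass ν₂ g hg1
  have p1 : 0 ≤ ∫ A, f A ∂ν₁ := integral_nonneg fun A => (hf1 A).1
  have p2 : 0 ≤ ∫ A, g A ∂ν₁ := integral_nonneg fun A => (hg1 A).1
  have p3 : 0 ≤ ∫ A, f A ∂ν₂ := integral_nonneg fun A => (hf1 A).1
  have p4 : 0 ≤ ∫ A, g A ∂ν₂ := integral_nonneg fun A => (hg1 A).1
  have p5 : 0 ≤ ∫ A, f A * g A ∂ν₁ := integral_nonneg fun A => (hfg A).1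
  have p6 : 0 ≤ ∫ A, f A * g A ∂ν₂ := integral_nonneg fun A => (hfg A).1
  have m1 : 0 ≤ ν₁.real Set.univ := measureReal_nonneg
  have m2 : 0 ≤ ν₂.real Set.univ := measureReal_nonneg
  generalize (∫ A, f A ∂ν₁) = F1 at *
  generalize (∫ A, g A ∂ν₁) = G1 at *
  generalize (∫ A, f A ∂ν₂) = F2 at *
  generalize (∫ A, g A ∂ν₂) = G2 at *
  generalize (∫ A, f A * g A ∂ν₁) = H1 at *
  generalize (∫ A, f A * g A ∂ν₂) = H2 at *
  generalize ν₁.real Set.univ = M1 at *
  generalize ν₂.real Set.univ = M2 at *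
  rcases m1.eq_or_lt with h0 | h0
  · have : F1 = 0 := le_antisymm (by linarith) p1
    have : G1 = 0 := le_antisymm (by linarith) p2
    subst_vars
    nlinarith
  rcases m2.eq_or_lt with h0' | h0'
  · have : F2 = 0 := le_antisymm (by linarith) p3
    have : G2 = 0 := le_antisymm (by linarith) p4
    subst_vars
    nlinarith
  have key : (F1 * G2 + F2 * G1) * (M1 * M2) ≤ (H1 * M2 + H2 * M1) * (M1 * M2) := by
    have e1 : F1 * G1 * M2 ^ 2 ≤ H1 * M1 * M2 ^ 2 := by
      exact mul_le_mul_of_nonneg_right a1 (by positivity)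
    have e2 : F2 * G2 * M1 ^ 2 ≤ H2 * M2 * M1 ^ 2 := by
      exact mul_le_mul_of_nonneg_right a2 (by positivity)
    have e3 : 0 ≤ (F1 * M2 - F2 * M1) * (G1 * M2 - G2 * M1) :=
      mul_nonneg (by linarith) (by linarith)
    nlinarith
  have key2 := le_of_mul_le_mul_right key (by positivity)
  nlinarith

theorem as_smul (ν : Measure (Finset V)) (c : ℝ≥0∞) (h : As ν) : As (c • ν) := by
  intro f g hf hg hf1 hg1
  rw [integral_smul_measure, integral_smul_measure, integral_smul_measure,
    measureReal_ennreal_smul_apply]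
  have := h f g hf hg hf1 hg1
  have hc : 0 ≤ c.toReal := ENNReal.toReal_nonneg
  simp only [smul_eq_mul]
  nlinarith [mul_le_mul_of_nonneg_left this (mul_nonneg hc hc)]

theorem dm_smul (ν₁ ν₂ : Measure (Finset V)) (c c' : ℝ≥0∞) (h : Dm ν₁ ν₂) :
    Dm (c • ν₁) (c' • ν₂) := by
  intro f hf hf1
  rw [integral_smul_measure, integral_smul_measure, measureReal_ennreal_smul_apply,
    measureReal_ennreal_smul_apply]
  have := h f hf hf1
  have hc : 0 ≤ c.toReal := ENNReal.toReal_nonneg
  have hc' : 0 ≤ c'.toReal := ENNReal.toReal_nonneg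
  simp only [smul_eq_mul]
  nlinarith [mul_le_mul_of_nonneg_left this (mul_nonneg hc hc')]

theorem as_map (ν : Measure (Finset V)) (φ : Finset V → Finset V) (hφ : Monotone φ)
    (h : As ν) : As (ν.map φ) := by
  intro f g hf hg hf1 hg1
  have hm : Measurable φ := measurable_from_top
  rw [integral_map hm.aemeasurable measurable_from_top.aestronglyMeasurable,
    integral_map hm.aemeasurable measurable_from_top.aestronglyMeasurable,
    integral_map hm.aemeasurable measurable_from_top.aestronglyMeasurable,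
    map_measureReal_apply hm MeasurableSet.univ, Set.preimage_univ]
  exact h _ _ (hf.comp hφ) (hg.comp hφ) (fun A => hf1 _) (fun A => hg1 _)

theorem dm_map_right (ν : Measure (Finset V)) [IsFiniteMeasure ν] (φ : Finset V → Finset V)
    (hφ : ∀ A, φ A ≤ A) : Dm ν (ν.map φ) := by
  intro f hf hf1
  have hm : Measurable φ := measurable_from_top
  rw [integral_map hm.aemeasurable measurable_from_top.aestronglyMeasurable,
    map_measureReal_apply hm MeasurableSet.univ, Set.preimage_univ]
  exact mul_le_mul_of_nonneg_right (integral_mono (integrable_unit _ _ fun A => hf1 _)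
    (integrable_unit _ _ hf1) fun A => hf (hφ A)) measureReal_nonneg

theorem dm_map_left (ν : Measure (Finset V)) [IsFiniteMeasure ν] (φ : Finset V → Finset V)
    (hφ : ∀ A, A ≤ φ A) : Dm (ν.map φ) ν := by
  intro f hf hf1
  have hm : Measurable φ := measurable_from_top
  rw [integral_map hm.aemeasurable measurable_from_top.aestronglyMeasurable,
    map_measureReal_apply hm MeasurableSet.univ, Set.preimage_univ]
  exact mul_le_mul_of_nonneg_right (integral_mono (integrable_unit _ _ hf1)
    (integrable_unit _ _ fun A => hf1 _) fun A => hf (hφ A)) measureReal_nonneg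

theorem mst (s : Set (Finset V)) : MeasurableSet s := trivial

variable [DecidableEq V]

/-- Restriction to sets avoiding `Z`. -/
noncomputable abbrev rs (μ : Measure (Finset V)) (Z : Finset V) : Measure (Finset V) :=
  μ.restrict {A | Disjoint A Z}

omit [DecidableEq V] in
theorem df_iff (μ : Measure (Finset V)) : DF μ ↔ ∀ Z, As (rs μ Z) := by
  constructor
  · intro h Z f g hf hg hf1 hg1
    have := h Z f g hf hg hf1 hg1
    rwa [← measureReal_restrict_apply_univ] at this
  · intro h Z f g hf hg hf1 hg1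
    have := h Z f g hf hg hf1 hg1
    rwa [measureReal_restrict_apply_univ] at this

/-- Removing the sets which contain `v` decreases stochastically. -/
theorem dm_restrict (ν : Measure (Finset V)) [IsFiniteMeasure ν] (h : As ν) (v : V) :
    ∀ f : Finset V → ℝ, Monotone f → (∀ A, 0 ≤ f A ∧ f A ≤ 1) →
      (∫ A in {A | v ∉ A}, f A ∂ν) * ν.real Set.univ ≤
        (∫ A, f A ∂ν) * ν.real {A | v ∉ A} := by
  intro f hf hf1
  have hmono : Monotone (fun A : Finset V => if v ∈ A then (1 : ℝ) else 0) := by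
    intro A B hAB
    by_cases h1 : v ∈ A
    · simp [h1, hAB h1]
    · by_cases h2 : v ∈ B <;> simp [h1, h2]
  have h1 : ∀ A : Finset V, 0 ≤ (if v ∈ A then (1 : ℝ) else 0) ∧
      (if v ∈ A then (1 : ℝ) else 0) ≤ 1 := by
    intro A; by_cases h1 : v ∈ A <;> simp [h1]
  have key := h f _ hf hmono hf1 h1
  have hms : ∀ s : Set (Finset V), MeasurableSet s := fun s => trivial
  have e1 : (∫ A, (if v ∈ A then (1 : ℝ) else 0) ∂ν) = ν.real Set.univ - ν.real {A | v ∉ A} := by
    have : (fun A : Finset V => if v ∈ A then (1 : ℝ) else 0) =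
        Set.indicator {A | v ∈ A} (fun _ => (1 : ℝ)) := by
      ext A; simp [Set.indicator]
    rw [this, integral_indicator (hms _), setIntegral_const, smul_eq_mul, mul_one]
    have h2 := measureReal_compl (μ := ν) (hms {A : Finset V | v ∈ A})
    have h3 : ({A : Finset V | v ∈ A})ᶜ = {A | v ∉ A} := rfl
    rw [h3] at h2
    linarith
  have e2 : (∫ A, f A * (if v ∈ A then (1 : ℝ) else 0) ∂ν) =
      (∫ A, f A ∂ν) - ∫ A in {A | v ∉ A}, f A ∂ν := by
    rw [← integral_indicator (hms _), ← integral_sub (integrable_unit _ f hf1)]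
    · congr 1; ext A
      by_cases h1 : v ∈ A <;> simp [Set.indicator, h1]
    · exact (integrable_unit _ f hf1).indicator (hms _)
  rw [e1, e2] at key
  nlinarith

omit [DecidableEq V] in
theorem rs_map (μ : Measure (Finset V)) (φ : Finset V → Finset V) (Z : Finset V) :
    rs (μ.map φ) Z = (μ.restrict (φ ⁻¹' {A | Disjoint A Z})).map φ := by
  rw [rs, Measure.restrict_map (measurable_from_top) (mst _)]

end Dfop

open Dfop in
theorem dfop_holds : DFOP_spec := by
  intro V _ μ _ hμ q hq0 hq1 o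
  rw [df_iff] at hμ ⊢
  intro Z
  have e0 : rs (ENNReal.ofReal (1 - q) • μ + ENNReal.ofReal q • μ.map o.app) Z =
      ENNReal.ofReal (1 - q) • rs μ Z + ENNReal.ofReal q •
        (μ.restrict (o.app ⁻¹' {A | Disjoint A Z})).map o.app := by
    rw [rs, Measure.restrict_add, Measure.restrict_smul, Measure.restrict_smul, ← rs_map]
  rw [e0]
  have hfin : ∀ s : Set (Finset V), IsFiniteMeasure ((μ.restrict s).map o.app) := fun s =>
    Measure.isFiniteMeasure_map _ _
  have hf1 : ∀ (ν : Measure (Finset V)) [IsFiniteMeasure ν] (c : ℝ),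
      IsFiniteMeasure (ENNReal.ofReal c • ν) := fun ν _ c => by
    exact Measure.smul_finite ν ENNReal.ofReal_ne_top
  have := hf1 (rs μ Z) (1 - q)
  have := hf1 ((μ.restrict (o.app ⁻¹' {A | Disjoint A Z})).map o.app) q
  cases o with
  | del v =>
    have hmono : Monotone (Op.del v : Op V).app := by
      intro A B hAB
      exact Finset.erase_subset_erase v hAB
    by_cases hv : v ∈ Z
    · -- second dominates first
      have hpre : (Op.del v : Op V).app ⁻¹' {A | Disjoint A Z} = {A | Disjoint A (Z.erase v)} := by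
        ext A
        simp only [Set.mem_preimage, Set.mem_ofPred_eq, Op.app, Finset.disjoint_left,
          Finset.mem_erase]
        constructor
        · intro h a ha h2
          exact h ⟨h2.1, ha⟩ h2.2
        · intro h a ha h2
          exact h ha.2 ⟨ha.1, h2⟩
      rw [hpre, add_comm]
      refine mix _ _ (as_smul _ _ (as_map _ _ hmono (hμ _))) (as_smul _ _ (hμ Z)) ?_
      refine dm_smul _ _ _ _ ?_
      intro f hf hf1
      have hm : Measurable (Op.del v : Op V).app := measurable_from_top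
      rw [integral_map hm.aemeasurable measurable_from_top.aestronglyMeasurable,
        map_measureReal_apply hm MeasurableSet.univ, Set.preimage_univ]
      have key := dm_restrict (rs μ (Z.erase v)) (hμ _) v (fun A => f ((Op.del v : Op V).app A))
        (hf.comp hmono) (fun A => hf1 _)
      have hset : {A : Finset V | Disjoint A Z} = {A | v ∉ A} ∩ {A | Disjoint A (Z.erase v)} := by
        ext A
        simp only [Set.mem_ofPred_eq, Set.mem_inter_iff, Finset.disjoint_left, Finset.mem_erase]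
        constructor
        · intro h
          exact ⟨fun h2 => h h2 hv, fun a ha h2 => h ha h2.2⟩
        · rintro ⟨h1, h2⟩ a ha h3
          by_cases hav : a = v
          · subst hav; exact h1 ha
          · exact h2 ha ⟨hav, h3⟩
      have e1 : (rs μ (Z.erase v)).restrict {A | v ∉ A} = rs μ Z := by
        rw [rs, Measure.restrict_restrict (mst _), ← hset]
      rw [e1] at key
      have e2 : (∫ A, f ((Op.del v : Op V).app A) ∂(rs μ Z)) = ∫ A, f A ∂(rs μ Z) := by
        refine setIntegral_congr_fun (mst _) ?_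
        intro A hA
        have : v ∉ A := fun h2 => Finset.disjoint_left.1 hA h2 hv
        simp [Op.app, Finset.erase_eq_of_notMem this]
      have e3 : (rs μ (Z.erase v)).real {A | v ∉ A} = (rs μ Z).real Set.univ := by
        rw [measureReal_restrict_apply_univ, measureReal_restrict_apply (mst _), ← hset]
      rw [e2, e3] at key
      exact key
    · have hpre : (Op.del v : Op V).app ⁻¹' {A | Disjoint A Z} = {A | Disjoint A Z} := by
        ext A
        simp only [Set.mem_preimage, Set.mem_ofPred_eq, Op.app, Finset.disjoint_left,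
          Finset.mem_erase]
        constructor
        · intro h a ha h2
          exact h ⟨fun h3 => hv (h3 ▸ h2), ha⟩ h2
        · intro h a ha h2
          exact h ha.2 h2
      rw [hpre]
      exact mix _ _ (as_smul _ _ (hμ Z)) (as_smul _ _ (as_map _ _ hmono (hμ _)))
        (dm_smul _ _ _ _ (dm_map_right _ _ fun A => Finset.erase_subset v A))
  | arr v v' =>
    have hmono : Monotone (Op.arr v v' : Op V).app := by
      intro A B hAB
      simp only [Op.app]
      by_cases h1 : v ∈ A
      · rw [if_pos h1, if_pos (hAB h1)]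
        exact Finset.insert_subset_insert v' hAB
      · rw [if_neg h1]
        by_cases h2 : v ∈ B
        · rw [if_pos h2]; exact hAB.trans (Finset.subset_insert v' B)
        · rw [if_neg h2]; exact hAB
    by_cases hv : v' ∈ Z
    · have hpre : (Op.arr v v' : Op V).app ⁻¹' {A | Disjoint A Z} =
          {A | Disjoint A (insert v Z)} := by
        ext A
        simp only [Set.mem_preimage, Set.mem_ofPred_eq, Op.app, Finset.disjoint_insert_right]
        by_cases h1 : v ∈ A
        · simp [h1, hv]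
        · simp [h1]
      rw [hpre]
      have e1 : (μ.restrict {A | Disjoint A (insert v Z)}).map (Op.arr v v' : Op V).app =
          rs μ (insert v Z) := by
        have : (Op.arr v v' : Op V).app =ᵐ[rs μ (insert v Z)] id := by
          refine (ae_restrict_iff' (mst _)).2 (Filter.Eventually.of_forall ?_)
          intro A hA
          have : v ∉ A := fun h2 =>
            Finset.disjoint_left.1 hA h2 (Finset.mem_insert_self v Z)
          simp [Op.app, this]
        rw [Measure.map_congr this, Measure.map_id]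
      rw [e1]
      have : IsFiniteMeasure (ENNReal.ofReal q • rs μ (insert v Z)) := hf1 _ q
      refine mix _ _ (as_smul _ _ (hμ Z)) (as_smul _ _ (hμ _)) (dm_smul _ _ _ _ ?_)
      intro f hf hf1
      have key := dm_restrict (rs μ Z) (hμ _) v f hf hf1
      have hset : {A : Finset V | Disjoint A (insert v Z)} = {A | v ∉ A} ∩ {A | Disjoint A Z} := by
        ext A
        simp [Finset.disjoint_insert_right]
      have e2 : rs μ (insert v Z) = (rs μ Z).restrict {A | v ∉ A} := by
        rw [rs, rs, hset, Measure.restrict_restrict (mst _)]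
      have e3 : ((rs μ Z).restrict {A | v ∉ A}).real Set.univ = (rs μ Z).real {A | v ∉ A} :=
        measureReal_restrict_apply_univ _
      rw [e2, e3]
      exact key
    · have hpre : (Op.arr v v' : Op V).app ⁻¹' {A | Disjoint A Z} = {A | Disjoint A Z} := by
        ext A
        simp only [Set.mem_preimage, Set.mem_ofPred_eq, Op.app]
        by_cases h1 : v ∈ A
        · simp [h1, hv, Finset.disjoint_insert_left]
        · simp [h1]
      rw [hpre, add_comm]
      refine mix _ _ (as_smul _ _ (as_map _ _ hmono (hμ _))) (as_smul _ _ (hμ Z))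
        (dm_smul _ _ _ _ (dm_map_left _ _ fun A => ?_))
      simp only [Op.app]
      split_ifs
      · exact Finset.subset_insert v' A
      · exact le_rfl

open Dfop in
/-- Thinning: delete every element of `S` independently with probability `q`. -/
theorem thin_exists (μ : Measure (Finset ℕ)) [IsFiniteMeasure μ] (hμ : DF μ) (q : ℝ)
    (hq0 : 0 ≤ q) (hq1 : q ≤ 1) (S : Finset ℕ) :
    ∃ ν : Measure (Finset ℕ), IsFiniteMeasure ν ∧ DF ν ∧
      ∀ (F : Finset ℕ → ℝ) (C : ℝ), (∀ A, |F A| ≤ C) →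
        ∫ A in {A | Disjoint A S}, F A ∂ν = ∫ A, F (A \ S) * q ^ (A ∩ S).card ∂μ := by
  induction S using Finset.induction_on with
  | empty =>
    refine ⟨μ, inferInstance, hμ, fun F C hF => ?_⟩
    have : {A : Finset ℕ | Disjoint A ∅} = Set.univ := by ext A; simp
    rw [this, Measure.restrict_univ]
    simp
  | insert i S hi ih =>
    obtain ⟨ν, hν, hDF, hint⟩ := ih
    refine ⟨ENNReal.ofReal (1 - q) • ν + ENNReal.ofReal q • ν.map (Op.del i).app, ?_,
      dfop_holds ℕ ν hDF q hq0 hq1 (Op.del i), ?_⟩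
    · have h1 : IsFiniteMeasure (ν.map (Op.del i).app) := Measure.isFiniteMeasure_map _ _
      have h2 : IsFiniteMeasure (ENNReal.ofReal (1 - q) • ν) :=
        Measure.smul_finite ν ENNReal.ofReal_ne_top
      have h3 : IsFiniteMeasure (ENNReal.ofReal q • ν.map (Op.del i).app) :=
        Measure.smul_finite _ ENNReal.ofReal_ne_top
      infer_instance
    · intro F C hF
      have h1 : IsFiniteMeasure (ν.map (Op.del i).app) := Measure.isFiniteMeasure_map _ _
      have hC : 0 ≤ C := (abs_nonneg (F ∅)).trans (hF ∅)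
      have hm : Measurable (Op.del i : Op ℕ).app := measurable_from_top
      have i1 : Integrable F ν := integrable_bdd _ _ C hF
      have i2 : Integrable F (ν.map (Op.del i).app) := integrable_bdd _ _ C hF
      rw [Measure.restrict_add, Measure.restrict_smul, Measure.restrict_smul,
        integral_add_measure (i1.restrict.smul_measure ENNReal.ofReal_ne_top)
          (i2.restrict.smul_measure ENNReal.ofReal_ne_top),
        integral_smul_measure, integral_smul_measure, ENNReal.toReal_ofReal (by linarith),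
        ENNReal.toReal_ofReal hq0]
      have e1 : ∫ A in {A | Disjoint A (insert i S)}, F A ∂(ν.map (Op.del i).app) =
          ∫ A in {A | Disjoint A S}, F (A.erase i) ∂ν := by
        rw [Measure.restrict_map hm (mst _),
          integral_map hm.aemeasurable measurable_from_top.aestronglyMeasurable]
        have : (Op.del i : Op ℕ).app ⁻¹' {A | Disjoint A (insert i S)} = {A | Disjoint A S} := by
          ext A
          simp only [Set.mem_preimage, Set.mem_ofPred_eq, Op.app, Finset.disjoint_left,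
            Finset.mem_erase, Finset.mem_insert, not_or]
          constructor
          · intro h a ha h2
            have hai : a ≠ i := fun h3 => hi (h3 ▸ h2)
            exact (h ⟨hai, ha⟩).2 h2
          · intro h a ha
            exact ⟨ha.1, h ha.2⟩
        rw [this]
        rfl
      have e2 : ∫ A in {A | Disjoint A (insert i S)}, F A ∂ν =
          ∫ A in {A | Disjoint A S}, (if i ∈ A then 0 else F A) ∂ν := by
        rw [← integral_indicator (mst _), ← integral_indicator (mst _)]
        congr 1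
        ext A
        by_cases h1 : i ∈ A
        · simp [Set.indicator, h1, Finset.disjoint_insert_right]
        · simp [Set.indicator, h1, Finset.disjoint_insert_right]
      have b1 : ∀ A : Finset ℕ, |(if i ∈ A then 0 else F A)| ≤ C := by
        intro A
        split_ifs
        · simpa using hC
        · exact hF A
      have b2 : ∀ A : Finset ℕ, |F (A.erase i)| ≤ C := fun A => hF _
      rw [e1, e2, hint _ C b1, hint (fun A => F (A.erase i)) C b2, smul_eq_mul, smul_eq_mul,
        ← integral_const_mul, ← integral_const_mul, ← integral_add]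
      · congr 1
        ext A
        have hiS : i ∈ A \ S ↔ i ∈ A := by simp [hi]
        have hins : A \ insert i S = (A \ S).erase i := by
          ext a; simp only [Finset.mem_sdiff, Finset.mem_insert, Finset.mem_erase]; tauto
        by_cases h1 : i ∈ A
        · have hc : A ∩ insert i S = insert i (A ∩ S) := by
            ext a; simp only [Finset.mem_inter, Finset.mem_insert]
            constructor
            · rintro ⟨h2, h3 | h3⟩
              · exact Or.inl h3
              · exact Or.inr ⟨h2, h3⟩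
            · rintro (h2 | h2)
              · exact ⟨h2 ▸ h1, Or.inl h2⟩
              · exact ⟨h2.1, Or.inr h2.2⟩
          have hc2 : i ∉ A ∩ S := fun h => hi (Finset.mem_inter.1 h).2
          rw [if_pos (hiS.2 h1), hc, Finset.card_insert_of_notMem hc2, hins]
          ring
        · have hc : A ∩ insert i S = A ∩ S := by
            ext a; simp only [Finset.mem_inter, Finset.mem_insert]
            constructor
            · rintro ⟨h2, h3 | h3⟩
              · exact absurd (h3 ▸ h2) h1
              · exact ⟨h2, h3⟩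
            · rintro ⟨h2, h3⟩
              exact ⟨h2, Or.inr h3⟩
          have h2 : i ∉ A \ S := fun h => h1 (hiS.1 h)
          rw [if_neg h2, hc, hins, Finset.erase_eq_of_notMem h2]
          ring
      · refine integrable_bdd _ _ (1 * (C * 1)) fun A => ?_
        rw [abs_mul, abs_mul, abs_of_nonneg (by linarith : 0 ≤ 1 - q),
          abs_of_nonneg (pow_nonneg hq0 _)]
        exact mul_le_mul (by linarith) (mul_le_mul (b1 _) (pow_le_one₀ hq0 hq1)
          (pow_nonneg hq0 _) hC) (mul_nonneg (abs_nonneg _) (pow_nonneg hq0 _)) zero_le_one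
      · refine integrable_bdd _ _ (1 * (C * 1)) fun A => ?_
        rw [abs_mul, abs_mul, abs_of_nonneg hq0, abs_of_nonneg (pow_nonneg hq0 _)]
        exact mul_le_mul hq1 (mul_le_mul (b2 _) (pow_le_one₀ hq0 hq1)
          (pow_nonneg hq0 _) hC) (mul_nonneg (abs_nonneg _) (pow_nonneg hq0 _)) zero_le_one

open Dfop in
theorem thin_holds : THIN_spec := by
  intro μ _ hμ δ hδ0 hδ1
  have hq0 : 0 ≤ 1 - δ := by linarith
  have hq1 : 1 - δ ≤ 1 := by linarith
  refine ⟨fun S T n hST hn => ?_, fun S S' hSS' => ?_⟩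
  · obtain ⟨ν, hν, hDF, hint⟩ := thin_exists μ hμ (1 - δ) hq0 hq1 S
    have hT : Monotone (fun A : Finset ℕ => if T ⊆ A then (1 : ℝ) else 0) := by
      intro A B hAB
      by_cases h1 : T ⊆ A
      · simp [h1, h1.trans hAB]
      · by_cases h2 : T ⊆ B <;> simp [h1, h2]
    have hN : Monotone (fun A : Finset ℕ => if n ∈ A then (1 : ℝ) else 0) := by
      intro A B hAB
      by_cases h1 : n ∈ A
      · simp [h1, hAB h1]
      · by_cases h2 : n ∈ B <;> simp [h1, h2]
    have hTb : ∀ A : Finset ℕ, 0 ≤ (if T ⊆ A then (1 : ℝ) else 0) ∧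
        (if T ⊆ A then (1 : ℝ) else 0) ≤ 1 := by intro A; split_ifs <;> simp
    have hNb : ∀ A : Finset ℕ, 0 ≤ (if n ∈ A then (1 : ℝ) else 0) ∧
        (if n ∈ A then (1 : ℝ) else 0) ≤ 1 := by intro A; split_ifs <;> simp
    have key := hDF S _ _ hT hN hTb hNb
    have hTS : ∀ A : Finset ℕ, T ⊆ A \ S ↔ T ⊆ A := fun A =>
      ⟨fun h => h.trans Finset.sdiff_subset, fun h a ha =>
        Finset.mem_sdiff.2 ⟨h ha, fun h2 => Finset.disjoint_left.1 hST h2 ha⟩⟩
    have hnS : ∀ A : Finset ℕ, n ∈ A \ S ↔ n ∈ A := fun A => by simp [hn]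
    rw [hint _ 1 (fun A => by split_ifs <;> simp), hint _ 1 (fun A => by split_ifs <;> simp),
      hint _ 1 (fun A => by split_ifs <;> simp)] at key
    have hmass : ν.real {A | Disjoint A S} = ∫ A, (1 - δ) ^ (A ∩ S).card ∂μ := by
      have := hint (fun _ => 1) 1 (fun A => by simp)
      simpa using this
    rw [hmass] at key
    simp only [hTS, hnS] at key
    convert key using 1
    · congr 1
      · congr 1; ext A; split_ifs <;> simp
      · congr 1; ext A; split_ifs <;> simp
    · congr 2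
      ext A
      by_cases h1 : T ⊆ A <;> by_cases h2 : n ∈ A <;> simp [h1, h2]
  · have hmono : ∀ U : Finset ℕ, Monotone (fun A : Finset ℕ => 1 - (1 - δ) ^ (A ∩ U).card) := by
      intro U A B hAB
      have : (A ∩ U).card ≤ (B ∩ U).card :=
        Finset.card_le_card (Finset.inter_subset_inter_right hAB)
      have h2 := pow_le_pow_of_le_one hq0 hq1 this
      simp only
      linarith
    have hb : ∀ (U A : Finset ℕ), 0 ≤ 1 - (1 - δ) ^ (A ∩ U).card ∧
        1 - (1 - δ) ^ (A ∩ U).card ≤ 1 := fun U A => by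
      have h1 := pow_le_one₀ (n := (A ∩ U).card) hq0 hq1
      have h2 := pow_nonneg hq0 (A ∩ U).card
      constructor <;> linarith
    have hI : ∀ U : Finset ℕ, Integrable (fun A : Finset ℕ => (1 - δ) ^ (A ∩ U).card) μ :=
      fun U => integrable_unit _ _ fun A => ⟨pow_nonneg hq0 _, pow_le_one₀ hq0 hq1⟩
    have key := hμ ∅ _ _ (hmono S) (hmono S') (hb S) (hb S')
    have huniv : {A : Finset ℕ | Disjoint A ∅} = Set.univ := by ext A; simp
    rw [huniv, Measure.restrict_univ] at key
    have hprod : ∀ A : Finset ℕ, (1 - δ) ^ (A ∩ (S ∪ S')).card =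
        (1 - δ) ^ (A ∩ S).card * (1 - δ) ^ (A ∩ S').card := by
      intro A
      rw [← pow_add, Finset.inter_union_distrib_left, Finset.card_union_of_disjoint]
      exact (hSS'.mono Finset.inter_subset_right Finset.inter_subset_right)
    have e1 : ∀ U : Finset ℕ, ∫ A, (1 - (1 - δ) ^ (A ∩ U).card) ∂μ =
        1 - ∫ A, (1 - δ) ^ (A ∩ U).card ∂μ := by
      intro U
      rw [integral_sub (integrable_const _) (hI U)]
      simp
    have e2 : ∫ A, (1 - (1 - δ) ^ (A ∩ S).card) * (1 - (1 - δ) ^ (A ∩ S').card) ∂μ =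
        1 - ∫ A, (1 - δ) ^ (A ∩ S).card ∂μ - ∫ A, (1 - δ) ^ (A ∩ S').card ∂μ +
          ∫ A, (1 - δ) ^ (A ∩ (S ∪ S')).card ∂μ := by
      have : ∀ A : Finset ℕ, (1 - (1 - δ) ^ (A ∩ S).card) * (1 - (1 - δ) ^ (A ∩ S').card) =
          (1 - (1 - δ) ^ (A ∩ S).card) - (1 - δ) ^ (A ∩ S').card +
            (1 - δ) ^ (A ∩ (S ∪ S')).card := by
        intro A; rw [hprod]; ring
      simp_rw [this]
      have h3 : Integrable (fun A : Finset ℕ => 1 - (1 - δ) ^ (A ∩ S).card) μ :=
        (integrable_const (1 : ℝ)).sub (hI S)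
      have h4 : Integrable (fun A : Finset ℕ => 1 - (1 - δ) ^ (A ∩ S).card -
          (1 - δ) ^ (A ∩ S').card) μ := h3.sub (hI S')
      rw [integral_add h4 (hI _), integral_sub h3 (hI S'),
        integral_sub (integrable_const _) (hI S)]
      simp
    rw [e1, e1, e2] at key
    have hu : μ.real Set.univ = 1 := by simp
    rw [hu, mul_one] at key
    nlinarith

end Pool.Agent.Lib.MP_c12170_pr
end

section
open MeasureTheory ProbabilityTheory Filter Topology
open scoped ENNReal NNReal

namespace Pool.Agent.Lib.MP_c12170_pr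

instance instProbP {d : ℕ} (lam : ℝ≥0) : IsProbabilityMeasure (P (d := d) lam) := by
  unfold P; infer_instance

namespace Ind

variable {d : ℕ}

theorem Fs_le (J : Set (Site d × ℤ)) : Fs J ≤ (MeasurableSpace.pi : MeasurableSpace (Om d)) := by
  refine iSup₂_le fun p _ => ?_
  rw [← measurable_iff_comap_le]
  exact measurable_pi_apply p

theorem Fs_mono {J J' : Set (Site d × ℤ)} (h : J ⊆ J') : Fs J ≤ Fs J' :=
  biSup_mono fun _ hp => h hp

theorem iIndep_coord (lam : ℝ≥0) :
    iIndep (fun p : Letter d × ℤ => MeasurableSpace.comap (fun ω : Om d => ω p) inferInstance)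
      (P lam) := by
  have := iIndepFun_infinitePi (P := fun p : Letter d × ℤ =>
    (poissonMeasure (rate lam p.1.2)).prod
      (Measure.infinitePi fun _ : ℕ => (volume : Measure unitInterval)))
    (X := fun _ x => x) (by fun_prop)
  exact this

theorem indep (lam : ℝ≥0) {J J' : Set (Site d × ℤ)} (h : Disjoint J J') :
    Indep (Fs J) (Fs J') (P lam) := by
  refine indep_iSup_of_disjoint (fun p => ?_) (iIndep_coord lam) ?_
  · rw [← measurable_iff_comap_le]
    exact measurable_pi_apply p
  · rw [Set.disjoint_left] at h ⊢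
    intro p hp hp'
    exact h hp hp'

theorem prod_formula (lam : ℝ≥0) {ι : Type} (I : Finset ι) (J : ι → Set (Site d × ℤ))
    (E : ι → Set (Om d)) (hJ : ∀ i ∈ I, ∀ j ∈ I, i ≠ j → Disjoint (J i) (J j))
    (hE : ∀ i ∈ I, MeasurableSet[Fs (J i)] (E i)) :
    (P lam).real (⋂ i ∈ I, E i) = ∏ i ∈ I, (P lam).real (E i) := by
  classical
  induction I using Finset.induction_on with
  | empty => simp
  | insert a I ha ih =>
    have ih' := ih (fun i hi j hj => hJ i (Finset.mem_insert_of_mem hi) j
      (Finset.mem_insert_of_mem hj)) (fun i hi => hE i (Finset.mem_insert_of_mem hi))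
    have hset : (⋂ i ∈ insert a I, E i) = E a ∩ ⋂ i ∈ I, E i := by simp
    rw [hset, Finset.prod_insert ha, ← ih']
    have hdisj : Disjoint (J a) (⋃ i ∈ I, J i) := by
      rw [Set.disjoint_iUnion₂_right]
      intro i hi
      exact hJ a (Finset.mem_insert_self _ _) i (Finset.mem_insert_of_mem hi)
        (fun h => ha (h ▸ hi))
    have hm : MeasurableSet[Fs (⋃ i ∈ I, J i)] (⋂ i ∈ I, E i) := by
      refine @Finset.measurableSet_biInter _ _ (Fs (⋃ i ∈ I, J i)) _ I fun i hi => ?_
      exact Fs_mono (Set.subset_biUnion_of_mem (u := J) hi) _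
        (hE i (Finset.mem_insert_of_mem hi))
    have := (Indep_iff _ _ _).1 (indep lam hdisj) _ _ (hE a (Finset.mem_insert_self _ _)) hm
    rw [Measure.real, this, ENNReal.toReal_mul]
    rfl

/-- Independence of two events, in the form used most often. -/
theorem inter (lam : ℝ≥0) {J J' : Set (Site d × ℤ)} (h : Disjoint J J') {E E' : Set (Om d)}
    (hE : MeasurableSet[Fs J] E) (hE' : MeasurableSet[Fs J'] E') :
    (P lam).real (E ∩ E') = (P lam).real E * (P lam).real E' := by
  have := (Indep_iff _ _ _).1 (indep lam h) _ _ hE hE'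
  rw [Measure.real, this, ENNReal.toReal_mul]
  rfl

end Ind

theorem ind_holds : IND_spec :=
  ⟨fun _ lam => instProbP lam, fun _ J => Ind.Fs_le J, fun _ _ _ h => Ind.Fs_mono h,
    fun _ lam _ _ h => Ind.indep lam h,
    fun _ lam _ I J E hJ hE => Ind.prod_formula lam I J E hJ hE⟩

end Pool.Agent.Lib.MP_c12170_pr
end

section
open MeasureTheory ProbabilityTheory Filter Topology
open scoped ENNReal NNReal

namespace Pool.Agent.Lib.MP_c12170_pr

namespace Word

variable {d : ℕ}

theorem mem_marks {Λ : Finset (Site d)} {k : ℤ} {ω : Om d} {m : Σ _ : Letter d, ℕ} :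
    m ∈ marks Λ k ω ↔ m.1.1 ∈ Λ ∧ m.2 < (ω (m.1, k)).1 := by
  simp [marks]

theorem marks_filter {Λ Λ' : Finset (Site d)} (h : Λ ⊆ Λ') (k : ℤ) (ω : Om d) :
    marks Λ k ω = (marks Λ' k ω).filter (fun m => m.1.1 ∈ Λ) := by
  ext m
  simp only [Finset.mem_filter, mem_marks]
  constructor
  · rintro ⟨h1, h2⟩
    exact ⟨⟨h h1, h2⟩, h1⟩
  · rintro ⟨⟨_, h2⟩, h1⟩
    exact ⟨h1, h2⟩

theorem sort_filter {α : Type*} (s : Finset α) (p : α → Prop) [DecidablePred p]
    (r : α → α → Prop) [DecidableRel r] [IsTrans α r] [Std.Antisymm r] [Std.Total r] :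
    (s.filter p).sort r = (s.sort r).filter p := by
  have h1 : ((s.filter p).sort r).Perm ((s.sort r).filter p) := by
    rw [← Multiset.coe_eq_coe, Finset.sort_eq, ← Multiset.filter_coe, Finset.sort_eq]
    rfl
  exact h1.eq_of_pairwise (le := r) (fun a b _ _ h h' => antisymm h h')
    (Finset.pairwise_sort _ _) ((Finset.pairwise_sort s r).filter _)

theorem word_filter {Λ Λ' : Finset (Site d)} (h : Λ ⊆ Λ') (k : ℤ) (ω : Om d) :
    word Λ k ω = (word Λ' k ω).filter (fun l => l.1 ∈ Λ) := by
  unfold word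
  rw [marks_filter h, sort_filter, List.filter_map]
  rfl

theorem word_mem {Λ : Finset (Site d)} {k : ℤ} {ω : Om d} {l : Letter d}
    (h : l ∈ word Λ k ω) : l.1 ∈ Λ := by
  simp only [word, List.mem_map, Finset.mem_sort, mem_marks] at h
  obtain ⟨m, hm, rfl⟩ := h
  exact hm.1

theorem coord_meas {J : Set (Site d × ℤ)} {l : Letter d} {k : ℤ} (h : (l.1, k) ∈ J) :
    Measurable[Fs J] (fun ω : Om d => ω (l, k)) := by
  rw [measurable_iff_comap_le]
  exact le_iSup₂_of_le (l, k) h le_rfl

theorem keyLE_iff {k : ℤ} {ω : Om d} {m m' : Σ _ : Letter d, ℕ} :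
    keyLE k ω m m' ↔ (ω (m.1, k)).2 m.2 < (ω (m'.1, k)).2 m'.2 ∨
      ((ω (m.1, k)).2 m.2 = (ω (m'.1, k)).2 m'.2 ∧ Encodable.encode m ≤ Encodable.encode m') := by
  unfold keyLE key
  rw [Prod.Lex.toLex_le_toLex]

theorem keyLE_meas {J : Set (Site d × ℤ)} {k : ℤ} {m m' : Σ _ : Letter d, ℕ}
    (h : (m.1.1, k) ∈ J) (h' : (m'.1.1, k) ∈ J) :
    MeasurableSet[Fs J] {ω : Om d | keyLE k ω m m'} := by
  let _ := Fs J
  have h1 : Measurable (fun ω : Om d => (ω (m.1, k)).2 m.2) :=
    (measurable_pi_apply m.2).comp (measurable_snd.comp (coord_meas h))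
  have h2 : Measurable (fun ω : Om d => (ω (m'.1, k)).2 m'.2) :=
    (measurable_pi_apply m'.2).comp (measurable_snd.comp (coord_meas h'))
  simp only [keyLE_iff]
  exact (measurableSet_lt h1 h2).union ((measurableSet_eq_fun h1 h2).inter
    (MeasurableSet.const (Encodable.encode m ≤ Encodable.encode m')))

theorem word_meas (Λ : Finset (Site d)) (k : ℤ) :
    Measurable[Fs {p : Site d × ℤ | p.1 ∈ Λ ∧ p.2 = k}] (word Λ k) := by
  let mm := Fs {p : Site d × ℤ | p.1 ∈ Λ ∧ p.2 = k}
  have key : Measurable (fun ω : Om d => (marks Λ k ω).sort (keyLE k ω)) := by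
    refine measurable_to_countable' fun L => ?_
    have hset : (fun ω : Om d => (marks Λ k ω).sort (keyLE k ω)) ⁻¹' {L} =
        {ω | marks Λ k ω = L.toFinset ∧ L.Nodup ∧ L.Pairwise (keyLE k ω)} := by
      ext ω
      simp only [Set.mem_preimage, Set.mem_singleton_iff, Set.mem_ofPred_eq]
      constructor
      · rintro rfl
        exact ⟨by simp, by simp, by simp⟩
      · rintro ⟨h1, h2, h3⟩
        refine List.Perm.eq_of_pairwise (le := keyLE k ω) (fun a b _ _ h h' => antisymm h h')
          (Finset.pairwise_sort _ _) h3 ?_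
        rw [← Multiset.coe_eq_coe, Finset.sort_eq, h1, List.toFinset_val, h2.dedup]
    rw [hset]
    by_cases hL : ∀ m ∈ L, m.1.1 ∈ Λ
    · have e : {ω : Om d | marks Λ k ω = L.toFinset ∧ L.Nodup ∧ L.Pairwise (keyLE k ω)} =
          {ω | marks Λ k ω = L.toFinset} ∩ ({_ω | L.Nodup} ∩ {ω | L.Pairwise (keyLE k ω)}) := rfl
      rw [e]
      refine MeasurableSet.inter ?_ (MeasurableSet.inter (MeasurableSet.const _) ?_)
      · have : {ω : Om d | marks Λ k ω = L.toFinset} =
            ⋂ l ∈ (Λ ×ˢ (Finset.univ : Finset (Option (Dir d)))), {ω | ∀ j, j < (ω (l, k)).1 ↔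
              (⟨l, j⟩ : Σ _ : Letter d, ℕ) ∈ L} := by
          ext ω
          simp only [Set.mem_ofPred_eq, Set.mem_iInter, Finset.mem_product, Finset.mem_univ,
            and_true]
          constructor
          · intro h l hl j
            rw [← List.mem_toFinset, ← h, mem_marks]
            simp [hl]
          · intro h
            ext m
            rw [mem_marks, List.mem_toFinset]
            constructor
            · rintro ⟨h1, h2⟩
              exact (h m.1 h1 m.2).1 h2
            · intro hm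
              exact ⟨hL m hm, (h m.1 (hL m hm) m.2).2 hm⟩
        rw [this]
        refine Finset.measurableSet_biInter _ fun l hl => ?_
        have hl' : l.1 ∈ Λ := by simpa using hl
        have : Measurable (fun ω : Om d => (ω (l, k)).1) :=
          measurable_fst.comp (coord_meas (show (l.1, k) ∈ _ from ⟨hl', rfl⟩))
        exact this (t := {n | ∀ j, j < n ↔ (⟨l, j⟩ : Σ _ : Letter d, ℕ) ∈ L}) trivial
      · have : {ω : Om d | L.Pairwise (keyLE k ω)} =
            ⋂ (i : Fin L.length) (j : Fin L.length) (_ : i < j),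
              {ω | keyLE k ω (L.get i) (L.get j)} := by
          ext ω
          simp only [Set.mem_ofPred_eq, Set.mem_iInter, List.pairwise_iff_get]
        rw [this]
        refine MeasurableSet.iInter fun i => MeasurableSet.iInter fun j =>
          MeasurableSet.iInter fun _ => keyLE_meas ⟨hL _ (L.get_mem i), rfl⟩
            ⟨hL _ (L.get_mem j), rfl⟩
    · have : {ω : Om d | marks Λ k ω = L.toFinset ∧ L.Nodup ∧ L.Pairwise (keyLE k ω)} = ∅ := by
        ext ω
        simp only [Set.mem_ofPred_eq, Set.mem_empty_iff_false, iff_false]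
        rintro ⟨h1, _⟩
        apply hL
        intro m hm
        rw [← List.mem_toFinset, ← h1, mem_marks] at hm
        exact hm.1
      rw [this]
      exact MeasurableSet.empty
  exact (measurable_from_top (f := fun L : List (Σ _ : Letter d, ℕ) => L.map Sigma.fst)).comp key

end Word

theorem word_holds : WORD_spec :=
  ⟨fun _ _ _ k ω h => Word.word_filter h k ω, fun _ _ _ _ _ h => Word.word_mem h,
    fun _ Λ k => Word.word_meas Λ k⟩

end Pool.Agent.Lib.MP_c12170_pr
end

section
/-!
# MP_c12170_pr, module WLAW (helper42): the law of a word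
-/
open MeasureTheory ProbabilityTheory Filter Topology
open scoped ENNReal NNReal

namespace Pool.Agent.Lib.MP_c12170_pr

namespace Wlaw

/-- the uniform law on `[0,1]^N` -/
noncomputable abbrev vN (N : ℕ) : Measure (Fin N → unitInterval) :=
  Measure.pi fun _ : Fin N => (volume : Measure unitInterval)

lemma diag_null {N : ℕ} {i j : Fin N} (hij : i ≠ j) : vN N {u | u i = u j} = 0 := by
  obtain ⟨n, rfl⟩ : ∃ n, N = n + 1 := ⟨N - 1, by have := i.2; omega⟩
  obtain ⟨j', rfl⟩ := Fin.exists_succAbove_eq hij.symm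
  have hmp := measurePreserving_piFinSuccAbove (fun _ : Fin (n + 1) =>
    (volume : Measure unitInterval)) i
  have hset : {u : Fin (n + 1) → unitInterval | u i = u (i.succAbove j')} =
      (MeasurableEquiv.piFinSuccAbove (fun _ => unitInterval) i) ⁻¹' {p | p.1 = p.2 j'} := by
    ext u
    simp [MeasurableEquiv.piFinSuccAbove, Fin.insertNthEquiv, Fin.removeNth]
  have hms : MeasurableSet {p : unitInterval × (Fin n → unitInterval) | p.1 = p.2 j'} :=
    measurableSet_eq_fun measurable_fst ((measurable_pi_apply j').comp measurable_snd)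
  rw [hset, hmp.measure_preimage hms.nullMeasurableSet, Measure.prod_apply_symm hms]
  have h0 : ∀ y : Fin n → unitInterval, (volume : Measure unitInterval)
      ((fun x => (x, y)) ⁻¹' {p : unitInterval × (Fin n → unitInterval) | p.1 = p.2 j'}) = 0 := by
    intro y
    have : ((fun x => (x, y)) ⁻¹' {p : unitInterval × (Fin n → unitInterval) | p.1 = p.2 j'}) =
        {y j'} := by
      ext x
      simp
    rw [this]
    exact measure_singleton _
  simp_rw [h0]
  simp

lemma noninj_null (N : ℕ) : vN N {u | ¬ Function.Injective u} = 0 := by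
  have : {u : Fin N → unitInterval | ¬ Function.Injective u} ⊆
      ⋃ i : Fin N, ⋃ j : Fin N, ⋃ _ : i ≠ j, {u | u i = u j} := by
    intro u hu
    simp only [Set.mem_ofPred_eq, Function.Injective, not_forall] at hu
    obtain ⟨i, j, h1, h2⟩ := hu
    simp only [Set.mem_iUnion]
    exact ⟨i, j, h2, h1⟩
  refine measure_mono_null this ?_
  rw [measure_iUnion_null_iff]
  intro i
  rw [measure_iUnion_null_iff]
  intro j
  rw [measure_iUnion_null_iff]
  intro hij
  exact diag_null hij

lemma meas_strict {N : ℕ} (τ : Equiv.Perm (Fin N)) :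
    MeasurableSet {u : Fin N → unitInterval | StrictMono (u ∘ τ)} := by
  have : {u : Fin N → unitInterval | StrictMono (u ∘ τ)} =
      ⋂ i : Fin N, ⋂ j : Fin N, ⋂ _ : i < j, {u | u (τ i) < u (τ j)} := by
    ext u
    simp only [Set.mem_ofPred_eq, StrictMono, Function.comp_apply, Set.mem_iInter]
  rw [this]
  exact MeasurableSet.iInter fun i => MeasurableSet.iInter fun j => MeasurableSet.iInter fun _ =>
    measurableSet_lt (measurable_pi_apply _) (measurable_pi_apply _)

lemma strict_eq {N : ℕ} (τ : Equiv.Perm (Fin N)) :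
    vN N {u | StrictMono (u ∘ τ)} = vN N {u | StrictMono u} := by
  have hmp := measurePreserving_piCongrLeft (α := fun _ : Fin N => unitInterval)
    (fun _ => (volume : Measure unitInterval)) τ.symm
  have h1 := hmp.measure_preimage (meas_strict (1 : Equiv.Perm (Fin N))).nullMeasurableSet
  rw [show {u : Fin N → unitInterval | StrictMono (u ∘ (1 : Equiv.Perm (Fin N)))} =
    {u | StrictMono u} from rfl] at h1
  rw [← h1]
  congr 1
  ext u
  simp only [Set.mem_ofPred_eq, Set.mem_preimage]
  have : (MeasurableEquiv.piCongrLeft (fun _ : Fin N => unitInterval) τ.symm) u = u ∘ τ := by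
    ext i
    have h2 := MeasurableEquiv.piCongrLeft_apply_apply (β := fun _ : Fin N => unitInterval)
      (τ.symm) u (τ i)
    rw [Equiv.symm_apply_apply] at h2
    rw [h2]
    rfl
  rw [this]

lemma exists_sort {N : ℕ} (u : Fin N → unitInterval) (hu : Function.Injective u) :
    ∃ τ : Equiv.Perm (Fin N), StrictMono (u ∘ τ) :=
  ⟨Tuple.sort u, (Tuple.monotone_sort u).strictMono_of_injective (hu.comp (Equiv.injective _))⟩

lemma sort_unique {N : ℕ} (u : Fin N → unitInterval) {τ τ' : Equiv.Perm (Fin N)}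
    (h : StrictMono (u ∘ τ)) (h' : StrictMono (u ∘ τ')) : τ = τ' := by
  have hr : Set.range (u ∘ τ) = Set.range (u ∘ τ') := by
    rw [Set.range_comp, Set.range_comp, τ.surjective.range_eq, τ'.surjective.range_eq]
  have he := StrictMono.range_inj h h' |>.mp hr
  have hinj : Function.Injective u := by
    have := h.injective
    intro a b hab
    have h2 : (u ∘ τ) (τ.symm a) = (u ∘ τ) (τ.symm b) := by simpa using hab
    simpa using this h2
  ext i
  have := congrFun he i
  simp only [Function.comp_apply] at this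
  exact congrArg _ (hinj this)

lemma vol_strict (N : ℕ) : (N.factorial : ℝ≥0∞) * vN N {u | StrictMono u} = 1 := by
  have h1 : vN N (⋃ τ : Equiv.Perm (Fin N), {u | StrictMono (u ∘ τ)}) = 1 := by
    have h2 : vN N (⋃ τ : Equiv.Perm (Fin N), {u | StrictMono (u ∘ τ)})ᶜ = 0 := by
      refine measure_mono_null ?_ (noninj_null N)
      intro u hu hinj
      apply hu
      obtain ⟨τ, hτ⟩ := exists_sort u hinj
      exact Set.mem_iUnion.mpr ⟨τ, hτ⟩
    rw [prob_compl_eq_zero_iff (MeasurableSet.iUnion fun τ => meas_strict τ)] at h2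
    exact h2
  rw [measure_iUnion ?_ (fun τ => meas_strict τ)] at h1
  · rw [tsum_fintype] at h1
    simp_rw [strict_eq] at h1
    rw [Finset.sum_const, Finset.card_univ, Fintype.card_perm, Fintype.card_fin, nsmul_eq_mul]
      at h1
    exact h1
  · intro τ τ' hne
    rw [Function.onFun, Set.disjoint_left]
    intro u hu hu'
    exact hne (sort_unique u hu hu')

section comb

attribute [-instance] instBEqProd

variable {d : ℕ}

/-- the letters with source in `Λ` -/
def FL (Λ : Finset (Site d)) : Finset (Letter d) := Λ ×ˢ (Finset.univ : Finset (Option (Dir d)))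

lemma mem_FL {Λ : Finset (Site d)} {l : Letter d} : l ∈ FL Λ ↔ l.1 ∈ Λ := by
  simp [FL]

/-- the marks of a word -/
def MW (Λ : Finset (Site d)) (w : List (Letter d)) : Finset (Σ _ : Letter d, ℕ) :=
  (FL Λ).sigma fun l => Finset.range (w.count l)

/-- the standard enumeration of the marks of a word -/
def e0 (w : List (Letter d)) (i : Fin w.length) : Σ _ : Letter d, ℕ :=
  ⟨w.get i, (w.take i).count (w.get i)⟩

lemma count_take_lt (w : List (Letter d)) (i : Fin w.length) (n : ℕ) (hn : (i : ℕ) < n) :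
    (w.take i).count (w.get i) < (w.take n).count (w.get i) := by
  have h1 : (w.take (i + 1)).count (w.get i) = (w.take i).count (w.get i) + 1 := by
    rw [List.take_succ_eq_append_getElem i.2, List.count_append]
    simp
  have h2 : (w.take (i + 1)).count (w.get i) ≤ (w.take n).count (w.get i) := by
    refine List.Sublist.count_le _ ?_
    exact List.take_sublist_take_left (by omega)
  omega

lemma e0_mem {Λ : Finset (Site d)} {w : List (Letter d)} (hw : ∀ l ∈ w, l.1 ∈ Λ)
    (i : Fin w.length) : e0 w i ∈ MW Λ w := by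
  rw [MW, Finset.mem_sigma]
  refine ⟨mem_FL.mpr (hw _ (List.get_mem w i)), ?_⟩
  rw [Finset.mem_range]
  have := count_take_lt w i w.length i.2
  rwa [List.take_length] at this

lemma e0_inj (w : List (Letter d)) : Function.Injective (e0 w) := by
  have key : ∀ i j : Fin w.length, i < j → e0 w i ≠ e0 w j := by
    intro i j hij h
    have h1 : w.get i = w.get j := congrArg Sigma.fst h
    have h2 : (w.take i).count (w.get i) = (w.take j).count (w.get j) := by
      have := congrArg (fun m : Σ _ : Letter d, ℕ => m.2) h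
      exact this
    have h3 := count_take_lt w i j hij
    rw [h2, ← h1] at h3
    exact lt_irrefl _ h3
  intro i j h
  rcases lt_trichotomy i j with h' | h' | h'
  · exact absurd h (key i j h')
  · exact h'
  · exact absurd h.symm (key j i h')

lemma card_MW {Λ : Finset (Site d)} {w : List (Letter d)} (hw : ∀ l ∈ w, l.1 ∈ Λ) :
    (MW Λ w).card = w.length := by
  rw [MW, Finset.card_sigma]
  simp only [Finset.card_range]
  have := Multiset.sum_count_eq_card (s := FL Λ) (m := (w : Multiset (Letter d)))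
    (fun l hl => mem_FL.mpr (hw l (by simpa using hl)))
  simpa using this

lemma image_e0 {Λ : Finset (Site d)} {w : List (Letter d)} (hw : ∀ l ∈ w, l.1 ∈ Λ) :
    (Finset.univ : Finset (Fin w.length)).image (e0 w) = MW Λ w := by
  refine Finset.eq_of_subset_of_card_le ?_ ?_
  · intro m hm
    rw [Finset.mem_image] at hm
    obtain ⟨i, -, rfl⟩ := hm
    exact e0_mem hw i
  · rw [card_MW hw, Finset.card_image_of_injective _ (e0_inj w), Finset.card_univ,
      Fintype.card_fin]

/-- the positions of the marks -/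
def UU (k : ℤ) (w : List (Letter d)) (ω : Om d) (i : Fin w.length) : unitInterval :=
  (ω ((e0 w i).1, k)).2 (e0 w i).2

/-- the event that the numbers of marks are those of the word -/
def EN (Λ : Finset (Site d)) (k : ℤ) (w : List (Letter d)) : Set (Om d) :=
  {ω | ∀ l ∈ FL Λ, (ω (l, k)).1 = w.count l}

lemma marks_eq {Λ : Finset (Site d)} {k : ℤ} {w : List (Letter d)} {ω : Om d}
    (h : ω ∈ EN Λ k w) : marks Λ k ω = MW Λ w := by
  ext m
  rw [Word.mem_marks, MW, Finset.mem_sigma, mem_FL, Finset.mem_range]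
  constructor
  · rintro ⟨h1, h2⟩
    rw [h m.1 (mem_FL.mpr h1)] at h2
    exact ⟨h1, h2⟩
  · rintro ⟨h1, h2⟩
    rw [h m.1 (mem_FL.mpr h1)]
    exact ⟨h1, h2⟩

lemma word_of_strict {Λ : Finset (Site d)} {k : ℤ} {w : List (Letter d)}
    (hw : ∀ l ∈ w, l.1 ∈ Λ) {ω : Om d} (h : ω ∈ EN Λ k w) (τ : Equiv.Perm (Fin w.length))
    (hτ : StrictMono (UU k w ω ∘ τ)) : word Λ k ω = List.ofFn (w.get ∘ τ) := by
  have hsort : (marks Λ k ω).sort (keyLE k ω) = List.ofFn (fun i => e0 w (τ i)) := by
    refine List.Perm.eq_of_pairwise (le := keyLE k ω) (fun a b _ _ h h' => antisymm h h')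
      (Finset.pairwise_sort _ _) ?_ ?_
    · rw [List.pairwise_ofFn]
      intro i j hij
      rw [Word.keyLE_iff]
      left
      exact hτ hij
    · rw [← Multiset.coe_eq_coe, Finset.sort_eq, marks_eq h]
      have hnd : (List.ofFn (fun i => e0 w (τ i))).Nodup := by
        rw [List.nodup_ofFn]
        exact (e0_inj w).comp τ.injective
      rw [← (Multiset.coe_nodup.mpr hnd).dedup, ← Multiset.toFinset_val]
      congr 1
      rw [← image_e0 hw]
      ext m
      simp only [Finset.mem_image, Finset.mem_univ, true_and, Multiset.mem_toFinset, Multiset.mem_coe,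
        List.mem_ofFn]
      constructor
      · rintro ⟨i, rfl⟩
        exact ⟨τ.symm i, by simp⟩
      · rintro ⟨i, rfl⟩
        exact ⟨τ i, rfl⟩
  unfold word
  rw [hsort, List.map_ofFn]
  rfl

lemma EN_of_word {Λ : Finset (Site d)} {k : ℤ} {w : List (Letter d)} {ω : Om d}
    (h : word Λ k ω = w) : ω ∈ EN Λ k w := by
  intro l hl
  have h1 : w.count l = ((marks Λ k ω).filter (fun m => m.1 = l)).card := by
    rw [← h]
    unfold word
    rw [List.count, List.countP_map, List.countP_eq_length_filter]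
    have h2 : ((marks Λ k ω).filter (fun m => m.1 = l)).card =
        (((marks Λ k ω).filter (fun m => m.1 = l)).sort (keyLE k ω)).length := by
      rw [Finset.length_sort]
    rw [h2, Word.sort_filter]
    congr 1
  have h3 : (marks Λ k ω).filter (fun m => m.1 = l) =
      (Finset.range (ω (l, k)).1).image (fun j => (⟨l, j⟩ : Σ _ : Letter d, ℕ)) := by
    ext m
    rw [Finset.mem_filter, Word.mem_marks, Finset.mem_image]
    constructor
    · rintro ⟨⟨-, h4⟩, rfl⟩
      exact ⟨m.2, Finset.mem_range.mpr h4, rfl⟩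
    · rintro ⟨j, hj, rfl⟩
      exact ⟨⟨mem_FL.mp hl, Finset.mem_range.mp hj⟩, rfl⟩
  have hinj : Function.Injective (fun j => (⟨l, j⟩ : Σ _ : Letter d, ℕ)) := by
    intro a b hab
    simpa using hab
  rw [h1, h3, Finset.card_image_of_injective _ hinj, Finset.card_range]

/-! ### the law of the positions given the numbers -/

open Classical in
/-- the constraint at the mark `m` -/
def s' (w : List (Letter d)) (s : Fin w.length → Set unitInterval) (m : Σ _ : Letter d, ℕ) :
    Set unitInterval := ⋂ i : Fin w.length, ⋂ _ : e0 w i = m, s i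

lemma s'_e0 (w : List (Letter d)) (s : Fin w.length → Set unitInterval) (i : Fin w.length) :
    s' w s (e0 w i) = s i := by
  unfold s'
  ext x
  simp only [Set.mem_iInter]
  constructor
  · intro h
    exact h i rfl
  · intro h j hj
    rw [e0_inj w hj]
    exact h

lemma s'_meas (w : List (Letter d)) (s : Fin w.length → Set unitInterval)
    (hs : ∀ i, MeasurableSet (s i)) (m : Σ _ : Letter d, ℕ) : MeasurableSet (s' w s m) :=
  MeasurableSet.iInter fun i => MeasurableSet.iInter fun _ => hs i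

/-- the law of the coordinate with letter `l` -/
noncomputable abbrev mu1 (lam : ℝ≥0) (l : Letter d) : Measure (ℕ × (ℕ → unitInterval)) :=
  (poissonMeasure (rate lam l.2)).prod
    (Measure.infinitePi fun _ : ℕ => (volume : Measure unitInterval))

/-- the constraint at the coordinate `l` -/
def TT (w : List (Letter d)) (s : Fin w.length → Set unitInterval) (l : Letter d) :
    Set (ℕ × (ℕ → unitInterval)) :=
  {w.count l} ×ˢ Set.pi (Finset.range (w.count l) : Set ℕ) (fun j => s' w s ⟨l, j⟩)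

lemma TT_meas (w : List (Letter d)) (s : Fin w.length → Set unitInterval)
    (hs : ∀ i, MeasurableSet (s i)) (l : Letter d) : MeasurableSet (TT w s l) :=
  (measurableSet_singleton _).prod (MeasurableSet.pi (Set.to_countable _) fun _ _ =>
    s'_meas w s hs _)

lemma mu1_TT (lam : ℝ≥0) (w : List (Letter d)) (s : Fin w.length → Set unitInterval)
    (hs : ∀ i, MeasurableSet (s i)) (l : Letter d) :
    mu1 lam l (TT w s l) = poissonMeasure (rate lam l.2) {w.count l} *
      ∏ j ∈ Finset.range (w.count l), (volume : Measure unitInterval) (s' w s ⟨l, j⟩) := by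
  unfold TT mu1
  have h := Measure.infinitePi_pi (μ := fun _ : ℕ => (volume : Measure unitInterval))
    (s := Finset.range (w.count l)) (t := fun j => s' w s ⟨l, j⟩) (fun _ _ => s'_meas w s hs _)
  rw [Measure.prod_prod, h]

lemma event_eq {Λ : Finset (Site d)} {k : ℤ} {w : List (Letter d)} (hw : ∀ l ∈ w, l.1 ∈ Λ)
    (s : Fin w.length → Set unitInterval) :
    EN Λ k w ∩ {ω | UU k w ω ∈ Set.univ.pi s} =
      Set.pi (((FL Λ).image fun l => (l, k) : Finset (Letter d × ℤ)) : Set (Letter d × ℤ))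
        (fun p => TT w s p.1) := by
  ext ω
  simp only [Set.mem_inter_iff, Set.mem_ofPred_eq, Set.mem_pi, Finset.mem_coe, Finset.mem_image,
    TT, Set.mem_prod, Set.mem_singleton_iff, Finset.mem_range, Set.mem_univ, true_imp_iff]
  constructor
  · rintro ⟨h1, h2⟩ p ⟨l, hl, rfl⟩
    refine ⟨h1 l hl, fun j hj => ?_⟩
    have hm : (⟨l, j⟩ : Σ _ : Letter d, ℕ) ∈ MW Λ w := by
      rw [MW, Finset.mem_sigma]
      exact ⟨hl, Finset.mem_range.mpr hj⟩
    rw [← image_e0 hw, Finset.mem_image] at hm
    obtain ⟨i, -, hi⟩ := hm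
    have h3 := h2 i
    unfold UU at h3
    rw [← hi, s'_e0]
    rw [hi] at h3
    exact h3
  · intro h
    refine ⟨fun l hl => (h (l, k) ⟨l, hl, rfl⟩).1, fun i => ?_⟩
    have h4 := e0_mem hw i
    rw [MW, Finset.mem_sigma] at h4
    have h5 := (h ((e0 w i).1, k) ⟨(e0 w i).1, h4.1, rfl⟩).2 (e0 w i).2
      (Finset.mem_range.mp h4.2)
    have h6 : (⟨(e0 w i).1, (e0 w i).2⟩ : Σ _ : Letter d, ℕ) = e0 w i := rfl
    rw [h6, s'_e0] at h5
    exact h5

lemma measure_event {lam : ℝ≥0} {Λ : Finset (Site d)} {k : ℤ} {w : List (Letter d)}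
    (hw : ∀ l ∈ w, l.1 ∈ Λ) (s : Fin w.length → Set unitInterval)
    (hs : ∀ i, MeasurableSet (s i)) :
    P lam (EN Λ k w ∩ {ω | UU k w ω ∈ Set.univ.pi s}) =
      (∏ l ∈ FL Λ, poissonMeasure (rate lam l.2) {w.count l}) *
        ∏ i, (volume : Measure unitInterval) (s i) := by
  rw [event_eq hw]
  unfold P
  have h := Measure.infinitePi_pi (μ := fun p : Letter d × ℤ =>
    (poissonMeasure (rate lam p.1.2)).prod
      (Measure.infinitePi fun _ : ℕ => (volume : Measure unitInterval)))
    (s := (FL Λ).image fun l => (l, k)) (t := fun p => TT w s p.1)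
    (fun p _ => TT_meas w s hs p.1)
  rw [h]
  rw [Finset.prod_image (by
    intro a _ b _ hab
    exact congrArg Prod.fst hab)]
  have h1 : ∀ l ∈ FL Λ, ((poissonMeasure (rate lam ((l, k) : Letter d × ℤ).1.2)).prod
      (Measure.infinitePi fun _ : ℕ => (volume : Measure unitInterval))) (TT w s (l, k).1) =
      poissonMeasure (rate lam l.2) {w.count l} *
      ∏ j ∈ Finset.range (w.count l), (volume : Measure unitInterval) (s' w s ⟨l, j⟩) :=
    fun l _ => mu1_TT lam w s hs l
  rw [Finset.prod_congr rfl h1, Finset.prod_mul_distrib]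
  congr 1
  have h2 := Finset.prod_sigma (FL Λ) (fun l => Finset.range (w.count l))
    (fun m : Σ _ : Letter d, ℕ => (volume : Measure unitInterval) (s' w s m))
  rw [← h2]
  change ∏ m ∈ MW Λ w, _ = _
  rw [← image_e0 hw, Finset.prod_image (fun a _ b _ hab => e0_inj w hab)]
  exact Finset.prod_congr rfl fun i _ => by rw [s'_e0]

lemma UU_meas (k : ℤ) (w : List (Letter d)) : Measurable (UU (d := d) k w) := by
  refine measurable_pi_iff.mpr fun i => ?_
  exact (measurable_pi_apply _).comp (measurable_snd.comp (measurable_pi_apply _))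

lemma EN_meas (Λ : Finset (Site d)) (k : ℤ) (w : List (Letter d)) : MeasurableSet (EN Λ k w) := by
  have : EN Λ k w = ⋂ l ∈ FL Λ, {ω : Om d | (ω (l, k)).1 = w.count l} := by
    ext ω
    simp [EN]
  rw [this]
  refine Finset.measurableSet_biInter _ fun l _ => ?_
  exact (measurable_fst.comp (measurable_pi_apply (l, k))) (t := {w.count l})
    (measurableSet_singleton _)

lemma map_eq {lam : ℝ≥0} {Λ : Finset (Site d)} {k : ℤ} {w : List (Letter d)}
    (hw : ∀ l ∈ w, l.1 ∈ Λ) :
    ((P lam).restrict (EN Λ k w)).map (UU k w) =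
      (∏ l ∈ FL Λ, poissonMeasure (rate lam l.2) {w.count l}) • vN w.length := by
  set c := ∏ l ∈ FL Λ, poissonMeasure (rate lam l.2) {w.count l} with hc
  have hrect : ∀ s : Fin w.length → Set unitInterval, (∀ i, MeasurableSet (s i)) →
      ((P lam).restrict (EN Λ k w)).map (UU k w) (Set.univ.pi s) =
        c * ∏ i, (volume : Measure unitInterval) (s i) := by
    intro s hs
    rw [Measure.map_apply (UU_meas k w) (MeasurableSet.univ_pi hs),
      Measure.restrict_apply ((UU_meas k w) (MeasurableSet.univ_pi hs)), Set.inter_comm]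
    exact measure_event hw s hs
  have hctop : c ≠ ∞ := by
    rw [hc]
    exact (ENNReal.prod_lt_top fun l _ => measure_lt_top _ _).ne
  by_cases hc0 : c = 0
  · rw [hc0, zero_smul, ← Measure.measure_univ_eq_zero]
    have := hrect (fun _ => Set.univ) (fun _ => MeasurableSet.univ)
    rw [Set.pi_univ, hc0, zero_mul] at this
    exact this
  · have h1 : vN w.length = c⁻¹ • ((P lam).restrict (EN Λ k w)).map (UU k w) := by
      refine Measure.pi_eq fun s hs => ?_
      rw [Measure.smul_apply, hrect s hs, smul_eq_mul, ← mul_assoc, ENNReal.inv_mul_cancel hc0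
        hctop, one_mul]
    rw [h1, smul_smul, ENNReal.mul_inv_cancel hc0 hctop, one_smul]

lemma card_fiber {Λ : Finset (Site d)} {w : List (Letter d)} (hw : ∀ l ∈ w, l.1 ∈ Λ)
    {l : Letter d} (hl : l ∈ FL Λ) :
    Fintype.card {a : Fin w.length // w.get a = l} = w.count l := by
  rw [Fintype.card_subtype]
  have h1 : ((Finset.univ.filter fun a : Fin w.length => w.get a = l).image (e0 w)) =
      (MW Λ w).filter (fun m => m.1 = l) := by
    rw [← image_e0 hw]
    ext m
    simp only [Finset.mem_image, Finset.mem_filter, Finset.mem_univ, true_and]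
    constructor
    · rintro ⟨i, hi, rfl⟩
      exact ⟨⟨i, rfl⟩, hi⟩
    · rintro ⟨⟨i, rfl⟩, hi⟩
      exact ⟨i, hi, rfl⟩
  rw [← Finset.card_image_of_injective _ (e0_inj w), h1]
  have h2 : (MW Λ w).filter (fun m => m.1 = l) =
      (Finset.range (w.count l)).image (fun j => (⟨l, j⟩ : Σ _ : Letter d, ℕ)) := by
    ext m
    rw [Finset.mem_filter, MW, Finset.mem_sigma, Finset.mem_image]
    constructor
    · rintro ⟨⟨-, h4⟩, rfl⟩
      exact ⟨m.2, h4, rfl⟩
    · rintro ⟨j, hj, rfl⟩
      exact ⟨⟨hl, hj⟩, rfl⟩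
  have hinj : Function.Injective (fun j => (⟨l, j⟩ : Σ _ : Letter d, ℕ)) := by
    intro a b hab
    simpa using hab
  rw [h2, Finset.card_image_of_injective _ hinj, Finset.card_range]

lemma card_stab {Λ : Finset (Site d)} {w : List (Letter d)} (hw : ∀ l ∈ w, l.1 ∈ Λ) :
    (Finset.univ.filter fun τ : Equiv.Perm (Fin w.length) => w.get ∘ τ = w.get).card =
      ∏ l ∈ FL Λ, (w.count l).factorial := by
  have h := DomMulAct.stabilizer_card' (f := w.get)
  rw [Fintype.card_subtype] at h
  rw [h]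
  have hsub : Finset.univ.image w.get ⊆ FL Λ := by
    intro l hl
    rw [Finset.mem_image] at hl
    obtain ⟨i, -, rfl⟩ := hl
    exact mem_FL.mpr (hw _ (List.get_mem w i))
  rw [← Finset.prod_subset hsub (f := fun l => (w.count l).factorial)]
  · exact Finset.prod_congr rfl fun l hl => by rw [card_fiber hw (hsub hl)]
  · intro l hl hni
    have h3 := card_fiber hw hl
    have h4 : Fintype.card {a : Fin w.length // w.get a = l} = 0 := by
      rw [Fintype.card_eq_zero_iff]
      refine ⟨fun a => hni ?_⟩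
      rw [Finset.mem_image]
      exact ⟨a.1, Finset.mem_univ _, a.2⟩
    rw [← h3, h4]
    rfl

lemma sum_rates (lam : ℝ≥0) (Λ : Finset (Site d)) :
    ∑ l ∈ FL Λ, (rate lam l.2 : ℝ) = (Λ.card : ℝ) * (1 + 2 * ((d : ℝ) + 1) * lam) := by
  rw [FL, Finset.sum_product]
  simp only [Fintype.sum_option, rate]
  rw [Finset.sum_const, Finset.sum_const, nsmul_eq_mul, nsmul_eq_mul, Finset.card_univ]
  congr 1
  rw [Fintype.card_prod, Fintype.card_fin, Fintype.card_bool]
  push_cast
  ring

end comb

end Wlaw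

open Wlaw in
attribute [-instance] instBEqProd in
theorem wlaw_holds : WLAW_spec := by
  intro d lam Λ k w hw
  classical
  set c := ∏ l ∈ FL Λ, poissonMeasure (rate lam l.2) {w.count l} with hc
  set S := Finset.univ.filter fun τ : Equiv.Perm (Fin w.length) => w.get ∘ τ = w.get with hS
  set W : Set (Fin w.length → unitInterval) := ⋃ τ ∈ S, {u | StrictMono (u ∘ τ)} with hW
  have hWm : MeasurableSet W := Finset.measurableSet_biUnion _ fun τ _ => meas_strict τ
  have hle : P lam {ω : Om d | word Λ k ω = w} = P lam (EN Λ k w ∩ UU k w ⁻¹' W) := by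
    apply le_antisymm
    · have hsub : {ω : Om d | word Λ k ω = w} ⊆ (EN Λ k w ∩ UU k w ⁻¹' W) ∪
          (UU k w ⁻¹' {u | ¬ Function.Injective u} ∩ EN Λ k w) := by
        intro ω hω
        have h1 := EN_of_word hω
        by_cases hinj : Function.Injective (UU k w ω)
        · left
          refine ⟨h1, ?_⟩
          obtain ⟨τ, hτ⟩ := exists_sort _ hinj
          have h2 := word_of_strict hw h1 τ hτ
          have hω' : word Λ k ω = w := hω
          rw [hω'] at h2
          have h3 : w.get ∘ τ = w.get := by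
            have h4 : List.ofFn w.get = List.ofFn (w.get ∘ τ) := by
              rw [← h2, List.ofFn_get]
            exact (List.ofFn_injective h4).symm
          simp only [hW, Set.mem_preimage, Set.mem_iUnion]
          exact ⟨τ, by simp [hS, h3], hτ⟩
        · right
          exact ⟨hinj, h1⟩
      refine (measure_mono hsub).trans ((measure_union_le _ _).trans ?_)
      have h0 : P lam (UU k w ⁻¹' {u | ¬ Function.Injective u} ∩ EN Λ k w) = 0 := by
        rw [← nonpos_iff_eq_zero]
        calc P lam (UU k w ⁻¹' {u | ¬ Function.Injective u} ∩ EN Λ k w)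
            = ((P lam).restrict (EN Λ k w)) (UU k w ⁻¹' {u | ¬ Function.Injective u}) :=
              (Measure.restrict_apply' (EN_meas Λ k w)).symm
          _ ≤ ((P lam).restrict (EN Λ k w)).map (UU k w) {u | ¬ Function.Injective u} :=
              Measure.le_map_apply (UU_meas k w).aemeasurable _
          _ = 0 := by
              rw [map_eq hw, Measure.smul_apply, noninj_null, smul_zero]
      rw [h0, add_zero]
    · refine measure_mono ?_
      rintro ω ⟨h1, h2⟩
      simp only [hW, Set.mem_preimage, Set.mem_iUnion] at h2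
      obtain ⟨τ, hτS, hτ⟩ := h2
      have h3 := word_of_strict hw h1 τ hτ
      have h4 : w.get ∘ τ = w.get := by
        rw [hS, Finset.mem_filter] at hτS
        exact hτS.2
      rw [h4, List.ofFn_get] at h3
      exact h3
  have hmeas : P lam (EN Λ k w ∩ UU k w ⁻¹' W) = c * vN w.length W := by
    have h1 : P lam (EN Λ k w ∩ UU k w ⁻¹' W) =
        ((P lam).restrict (EN Λ k w)).map (UU k w) W := by
      rw [Measure.map_apply (UU_meas k w) hWm, Measure.restrict_apply' (EN_meas Λ k w),
        Set.inter_comm]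
    rw [h1, map_eq hw, Measure.smul_apply, smul_eq_mul]
  have hvW : vN w.length W = S.card * vN w.length {u | StrictMono u} := by
    rw [hW, measure_biUnion_finset ?_ fun τ _ => meas_strict τ]
    · simp_rw [strict_eq]
      rw [Finset.sum_const, nsmul_eq_mul]
    · intro τ _ τ' _ hne
      rw [Function.onFun, Set.disjoint_left]
      intro u hu hu'
      exact hne (sort_unique u hu hu')
  have hvs : (vN w.length {u | StrictMono u}).toReal = 1 / (w.length.factorial : ℝ) := by
    have h1 := congrArg ENNReal.toReal (vol_strict w.length)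
    rw [ENNReal.toReal_mul, ENNReal.toReal_natCast, ENNReal.toReal_one] at h1
    have h2 : (w.length.factorial : ℝ) ≠ 0 := by positivity
    field_simp
    linarith
  have hcr : c.toReal = ∏ l ∈ FL Λ, (Real.exp (-(rate lam l.2 : ℝ)) *
      (rate lam l.2 : ℝ) ^ (w.count l) / ((w.count l).factorial : ℝ)) := by
    rw [hc, ENNReal.toReal_prod]
    refine Finset.prod_congr rfl fun l _ => ?_
    exact poissonMeasure_real_singleton (rate lam l.2) (w.count l)
  rw [Measure.real, hle, hmeas, hvW, ENNReal.toReal_mul, ENNReal.toReal_mul, hvs, hcr,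
    ENNReal.toReal_natCast, hS, card_stab hw]
  rw [Finset.prod_div_distrib, Finset.prod_mul_distrib, ← Real.exp_sum, Finset.sum_neg_distrib,
    sum_rates]
  have hprod : ∏ l ∈ FL Λ, (rate lam l.2 : ℝ) ^ (w.count l) =
      (w.map fun l => (rate lam l.2 : ℝ)).prod := by
    rw [Finset.prod_list_map_count]
    symm
    refine Finset.prod_subset ?_ ?_
    · intro l hl
      exact mem_FL.mpr (hw l (List.mem_toFinset.mp hl))
    · intro l _ hl
      rw [List.mem_toFinset] at hl
      rw [List.count_eq_zero.mpr hl, pow_zero]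
  rw [hprod]
  have hf : ((∏ l ∈ FL Λ, (w.count l).factorial : ℕ) : ℝ) ≠ 0 := by
    push_cast
    exact Finset.prod_ne_zero_iff.mpr fun l _ => by positivity
  push_cast at hf ⊢
  field_simp

end Pool.Agent.Lib.MP_c12170_pr
end

section
open MeasureTheory ProbabilityTheory Filter Topology
open scoped ENNReal NNReal

namespace Pool.Agent.Lib.MP_c12170_pr

namespace Run

variable {d : ℕ}

theorem mem_upd {A : Finset (Site d)} {l : Letter d} {x : Site d} :
    x ∈ upd A l ↔ (l.2 = none ∧ x ∈ A ∧ x ≠ l.1) ∨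
      (∃ a, l.2 = some a ∧ (x ∈ A ∨ (l.1 ∈ A ∧ x = l.1 + dir a))) := by
  obtain ⟨y, o⟩ := l
  cases o with
  | none => simp [upd, Finset.mem_erase, and_comm]
  | some a =>
    by_cases h : y ∈ A
    · simp only [upd, h, ↓reduceIte, Finset.mem_insert, reduceCtorEq, false_and, Option.some.injEq,
        true_and, exists_eq_left', false_or]
      tauto
    · simp [upd, h]

theorem upd_mono {A B : Finset (Site d)} (h : A ⊆ B) (l : Letter d) : upd A l ⊆ upd B l := by
  intro x hx
  rw [mem_upd] at hx ⊢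
  rcases hx with ⟨h1, h2, h3⟩ | ⟨a, h1, h2 | ⟨h2, h3⟩⟩
  · exact Or.inl ⟨h1, h h2, h3⟩
  · exact Or.inr ⟨a, h1, Or.inl (h h2)⟩
  · exact Or.inr ⟨a, h1, Or.inr ⟨h h2, h3⟩⟩

theorem upd_union (A B : Finset (Site d)) (l : Letter d) : upd (A ∪ B) l = upd A l ∪ upd B l := by
  ext x
  simp only [mem_upd, Finset.mem_union]
  constructor
  · rintro (⟨h1, h2 | h2, h3⟩ | ⟨a, h1, (h2 | h2) | ⟨h2 | h2, h3⟩⟩)
    · exact Or.inl (Or.inl ⟨h1, h2, h3⟩)
    · exact Or.inr (Or.inl ⟨h1, h2, h3⟩)
    · exact Or.inl (Or.inr ⟨a, h1, Or.inl h2⟩)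
    · exact Or.inr (Or.inr ⟨a, h1, Or.inl h2⟩)
    · exact Or.inl (Or.inr ⟨a, h1, Or.inr ⟨h2, h3⟩⟩)
    · exact Or.inr (Or.inr ⟨a, h1, Or.inr ⟨h2, h3⟩⟩)
  · rintro ((⟨h1, h2, h3⟩ | ⟨a, h1, h2 | ⟨h2, h3⟩⟩) | (⟨h1, h2, h3⟩ | ⟨a, h1, h2 | ⟨h2, h3⟩⟩))
    · exact Or.inl ⟨h1, Or.inl h2, h3⟩
    · exact Or.inr ⟨a, h1, Or.inl (Or.inl h2)⟩
    · exact Or.inr ⟨a, h1, Or.inr ⟨Or.inl h2, h3⟩⟩
    · exact Or.inl ⟨h1, Or.inr h2, h3⟩
    · exact Or.inr ⟨a, h1, Or.inl (Or.inr h2)⟩
    · exact Or.inr ⟨a, h1, Or.inr ⟨Or.inr h2, h3⟩⟩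

theorem fold_mono {A B : Finset (Site d)} (h : A ⊆ B) (w : List (Letter d)) :
    fold A w ⊆ fold B w := by
  induction w generalizing A B with
  | nil => exact h
  | cons l w ih => exact ih (upd_mono h l)

theorem fold_union (A B : Finset (Site d)) (w : List (Letter d)) :
    fold (A ∪ B) w = fold A w ∪ fold B w := by
  induction w generalizing A B with
  | nil => rfl
  | cons l w ih =>
    change fold (upd (A ∪ B) l) w = fold (upd A l) w ∪ fold (upd B l) w
    rw [upd_union, ih]

/-- Letters with source outside `Λ` do not hurt the part of the state in `Λ`. -/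
theorem fold_filter {Λ : Finset (Site d)} (w : List (Letter d)) {A B : Finset (Site d)}
    (h : ∀ x ∈ A, x ∈ Λ → x ∈ B) :
    ∀ x ∈ fold A (w.filter (fun l => l.1 ∈ Λ)), x ∈ Λ → x ∈ fold B w := by
  induction w generalizing A B with
  | nil => exact h
  | cons l w ih =>
    by_cases hl : l.1 ∈ Λ
    · rw [List.filter_cons_of_pos (by simpa using hl)]
      refine ih (A := upd A l) (B := upd B l) fun x hx hxΛ => ?_
      rw [mem_upd] at hx ⊢
      rcases hx with ⟨h1, h2, h3⟩ | ⟨a, h1, h2 | ⟨h2, h3⟩⟩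
      · exact Or.inl ⟨h1, h x h2 hxΛ, h3⟩
      · exact Or.inr ⟨a, h1, Or.inl (h x h2 hxΛ)⟩
      · exact Or.inr ⟨a, h1, Or.inr ⟨h _ h2 hl, h3⟩⟩
    · rw [List.filter_cons_of_neg (by simpa using hl)]
      refine ih (A := A) (B := upd B l) fun x hx hxΛ => ?_
      rw [mem_upd]
      rcases ho : l.2 with _ | a
      · refine Or.inl ⟨rfl, h x hx hxΛ, ?_⟩
        rintro rfl
        exact hl hxΛ
      · exact Or.inr ⟨a, rfl, Or.inl (h x hx hxΛ)⟩

theorem strip_inter {Λ Λ' : Finset (Site d)} (hΛ : Λ ⊆ Λ') (k : ℤ) (ω : Om d)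
    {A B : Finset (Site d)} (h : ∀ x ∈ A, x ∈ Λ → x ∈ B) :
    ∀ x ∈ strip Λ k ω A, x ∈ Λ → x ∈ strip Λ' k ω B := by
  unfold strip
  rw [Word.word_filter hΛ]
  exact fold_filter _ h

theorem run_sub (Λ : Finset (Site d)) (s : ℤ) (m : ℕ) (ω : Om d) (A : Finset (Site d)) :
    run Λ s m ω A ⊆ Λ := by
  cases m with
  | zero => exact Finset.inter_subset_right
  | succ m => exact Finset.inter_subset_right

theorem run_mono {Λ Λ' : Finset (Site d)} (hΛ : Λ ⊆ Λ') (s : ℤ) (m : ℕ) (ω : Om d)
    {A A' : Finset (Site d)} (hA : A ⊆ A') : run Λ s m ω A ⊆ run Λ' s m ω A' := by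
  induction m with
  | zero => exact Finset.inter_subset_inter hA hΛ
  | succ m ih =>
    intro x hx
    simp only [run, Finset.mem_inter] at hx ⊢
    exact ⟨strip_inter hΛ _ ω (fun y hy _ => ih hy) x hx.1 hx.2, hΛ hx.2⟩

theorem run_add (Λ : Finset (Site d)) (s : ℤ) (m m' : ℕ) (ω : Om d) (A : Finset (Site d)) :
    run Λ s (m + m') ω A = run Λ (s + m) m' ω (run Λ s m ω A) := by
  induction m' with
  | zero =>
    simp only [Nat.add_zero, run]
    exact (Finset.inter_eq_left.2 (run_sub _ _ _ _ _)).symm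
  | succ m' ih =>
    rw [← Nat.add_assoc]
    simp only [run]
    rw [ih]
    push_cast
    rw [add_assoc]

theorem run_union (Λ : Finset (Site d)) (s : ℤ) (m : ℕ) (ω : Om d) (A B : Finset (Site d)) :
    run Λ s m ω (A ∪ B) = run Λ s m ω A ∪ run Λ s m ω B := by
  induction m with
  | zero => exact Finset.union_inter_distrib_right _ _ _
  | succ m ih =>
    simp only [run]
    rw [ih, strip, fold_union, Finset.union_inter_distrib_right]
    rfl

theorem strip_meas {J : Set (Site d × ℤ)} {Λ : Finset (Site d)} {k : ℤ}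
    (hJ : ∀ x ∈ Λ, (x, k) ∈ J) {X : Om d → Finset (Site d)} (hX : Measurable[Fs J] X) :
    Measurable[Fs J] (fun ω => strip Λ k ω (X ω)) := by
  have hw : Measurable[Fs J] (word (d := d) Λ k) := by
    refine Measurable.mono (Word.word_meas Λ k) (Ind.Fs_mono ?_) le_rfl
    rintro ⟨x, k'⟩ ⟨h1, h2⟩
    simp only at h1 h2
    subst h2
    exact hJ x h1
  have hp : Measurable[Fs J] (fun ω : Om d => (X ω, word Λ k ω)) :=
    Measurable.prodMk (m := Fs J) hX hw
  have hf : Measurable (fun p : Finset (Site d) × List (Letter d) => fold p.1 p.2) :=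
    Measurable.of_discrete
  exact hf.comp hp

theorem run_meas (Λ : Finset (Site d)) (s : ℤ) (m : ℕ) (A : Finset (Site d)) :
    Measurable[Fs {p : Site d × ℤ | p.1 ∈ Λ ∧ s ≤ p.2 ∧ p.2 < s + m}]
      (fun ω : Om d => run Λ s m ω A) := by
  induction m with
  | zero => exact measurable_const
  | succ m ih =>
    have h1 : Measurable[Fs {p : Site d × ℤ | p.1 ∈ Λ ∧ s ≤ p.2 ∧ p.2 < s + (m + 1 : ℕ)}]
        (fun ω : Om d => run Λ s m ω A) := by
      refine Measurable.mono ih (Ind.Fs_mono ?_) le_rfl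
      rintro p ⟨h1, h2, h3⟩
      exact ⟨h1, h2, by push_cast; omega⟩
    have h2 := strip_meas (Λ := Λ) (k := s + m) (X := fun ω => run Λ s m ω A) (fun x hx =>
      (⟨hx, by simp, by push_cast; omega⟩ :
        (x, s + (m : ℤ)) ∈ {p : Site d × ℤ | p.1 ∈ Λ ∧ s ≤ p.2 ∧ p.2 < s + (m + 1 : ℕ)})) h1
    exact (measurable_from_top (f := fun B : Finset (Site d) => B ∩ Λ)).comp h2

theorem strip_run_meas (Λ : Finset (Site d)) (s : ℤ) (m : ℕ) (A : Finset (Site d)) :
    Measurable[Fs {p : Site d × ℤ | p.1 ∈ Λ ∧ s ≤ p.2 ∧ p.2 < s + m + 1}]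
      (fun ω : Om d => strip Λ (s + m) ω (run Λ s m ω A)) := by
  have h1 : Measurable[Fs {p : Site d × ℤ | p.1 ∈ Λ ∧ s ≤ p.2 ∧ p.2 < s + m + 1}]
      (fun ω : Om d => run Λ s m ω A) := by
    refine Measurable.mono (run_meas Λ s m A) (Ind.Fs_mono ?_) le_rfl
    rintro p ⟨h1, h2, h3⟩
    exact ⟨h1, h2, by omega⟩
  exact strip_meas (Λ := Λ) (k := s + m) (X := fun ω => run Λ s m ω A) (fun x hx =>
      (⟨hx, by simp, by simp⟩ :
        (x, s + (m : ℤ)) ∈ {p : Site d × ℤ | p.1 ∈ Λ ∧ s ≤ p.2 ∧ p.2 < s + m + 1})) h1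

theorem exits_meas (Λ : Finset (Site d)) (s : ℤ) (k : ℕ) (A : Finset (Site d)) :
    Measurable[Fs {p : Site d × ℤ | p.1 ∈ Λ ∧ s ≤ p.2 ∧ p.2 < s + k + 1}]
      (fun ω : Om d => exits Λ s k ω A) :=
  (measurable_from_top (f := fun B : Finset (Site d) => B \ Λ)).comp (strip_run_meas Λ s k A)

theorem trace_succ (Λ : Finset (Site d)) (s : ℤ) (m : ℕ) (ω : Om d) (A : Finset (Site d)) :
    trace Λ s (m + 1) ω A = trace Λ s m ω A ++ [strip Λ (s + m) ω (run Λ s m ω A)] := by
  simp [trace, List.range_succ]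

theorem trace_meas (Λ : Finset (Site d)) (s : ℤ) (m : ℕ) (A : Finset (Site d)) :
    Measurable[Fs {p : Site d × ℤ | p.1 ∈ Λ ∧ s ≤ p.2 ∧ p.2 < s + m}]
      (fun ω : Om d => trace Λ s m ω A) := by
  induction m with
  | zero => simp only [trace, List.range_zero, List.map_nil]; exact measurable_const
  | succ m ih =>
    simp only [trace_succ]
    have h1 : Measurable[Fs {p : Site d × ℤ | p.1 ∈ Λ ∧ s ≤ p.2 ∧ p.2 < s + (m + 1 : ℕ)}]
        (fun ω : Om d => trace Λ s m ω A) := by
      refine Measurable.mono ih (Ind.Fs_mono ?_) le_rfl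
      rintro p ⟨h1, h2, h3⟩
      exact ⟨h1, h2, by push_cast; omega⟩
    have h2 : Measurable[Fs {p : Site d × ℤ | p.1 ∈ Λ ∧ s ≤ p.2 ∧ p.2 < s + (m + 1 : ℕ)}]
        (fun ω : Om d => strip Λ (s + m) ω (run Λ s m ω A)) := by
      refine Measurable.mono (strip_run_meas Λ s m A) (Ind.Fs_mono ?_) le_rfl
      rintro p ⟨h1, h2, h3⟩
      exact ⟨h1, h2, by push_cast; omega⟩
    have hp := Measurable.prodMk
      (m := Fs {p : Site d × ℤ | p.1 ∈ Λ ∧ s ≤ p.2 ∧ p.2 < s + (m + 1 : ℕ)}) h1 h2
    have hf : Measurable (fun p : List (Finset (Site d)) × Finset (Site d) => p.1 ++ [p.2]) :=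
      Measurable.of_discrete
    exact hf.comp hp

end Run

theorem run_holds : RUN_spec :=
  ⟨fun _ _ _ s m ω _ _ h h' => Run.run_mono h s m ω h',
    fun _ Λ s m m' ω A => Run.run_add Λ s m m' ω A,
    fun _ Λ s m ω A B => Run.run_union Λ s m ω A B,
    fun _ Λ s m ω A => Run.run_sub Λ s m ω A,
    fun _ Λ s m A => Run.run_meas Λ s m A,
    fun _ Λ s m A => Run.trace_meas Λ s m A,
    fun _ Λ s k A => Run.exits_meas Λ s k A⟩

end Pool.Agent.Lib.MP_c12170_pr
end

section
/-!
# The law of the words of consecutive strips (helper file)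

* `Words.words Λ s m ω`: the list of the words of the strips `s, …, s + m - 1`;
* `Words.goW Λ A ws = (final state, trace)` as a function of a list of words, and
  `Words.goW_words : goW Λ A (words Λ s m ω) = (run Λ s m ω A, trace Λ s m ω A)`;
* `Words.law : P(words = ws) = ∏ wl` with the explicit weights `wl` of WLAW.
-/
open MeasureTheory ProbabilityTheory Filter Topology
open scoped ENNReal NNReal

namespace Pool.Agent.Lib.MP_c12170_pr

namespace Words

variable {d : ℕ}

/-- The words of the strips `s, …, s + m - 1`. -/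
noncomputable def words (Λ : Finset (Site d)) (s : ℤ) (m : ℕ) (ω : Om d) :
    List (List (Letter d)) :=
  (List.range m).map fun j : ℕ => word Λ (s + j) ω

theorem words_zero (Λ : Finset (Site d)) (s : ℤ) (ω : Om d) : words Λ s 0 ω = [] := rfl

theorem words_succ (Λ : Finset (Site d)) (s : ℤ) (m : ℕ) (ω : Om d) :
    words Λ s (m + 1) ω = words Λ s m ω ++ [word Λ (s + m) ω] := by
  simp [words, List.range_succ]

theorem words_length (Λ : Finset (Site d)) (s : ℤ) (m : ℕ) (ω : Om d) :
    (words Λ s m ω).length = m := by simp [words]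

/-- One step of the evolution (state, trace). -/
def stepW (Λ : Finset (Site d)) (p : Finset (Site d) × List (Finset (Site d)))
    (w : List (Letter d)) : Finset (Site d) × List (Finset (Site d)) :=
  (fold p.1 w ∩ Λ, p.2 ++ [fold p.1 w])

/-- (final state, trace) as a function of the list of words. -/
def goW (Λ A : Finset (Site d)) (ws : List (List (Letter d))) :
    Finset (Site d) × List (Finset (Site d)) :=
  ws.foldl (stepW Λ) (A ∩ Λ, [])

theorem goW_append (Λ A : Finset (Site d)) (ws : List (List (Letter d))) (w : List (Letter d)) :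
    goW Λ A (ws ++ [w]) = stepW Λ (goW Λ A ws) w := by
  simp [goW]

theorem goW_words (Λ : Finset (Site d)) (s : ℤ) (m : ℕ) (ω : Om d) (A : Finset (Site d)) :
    goW Λ A (words Λ s m ω) = (run Λ s m ω A, trace Λ s m ω A) := by
  induction m with
  | zero => rfl
  | succ m ih =>
    rw [words_succ, goW_append, ih, Run.trace_succ]
    rfl

theorem words_meas (Λ : Finset (Site d)) (s : ℤ) (m : ℕ) :
    Measurable[Fs {p : Site d × ℤ | p.1 ∈ Λ ∧ s ≤ p.2 ∧ p.2 < s + m}] (words Λ s m) := by
  induction m with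
  | zero =>
    change Measurable[Fs _] (fun _ => ([] : List (List (Letter d))))
    exact measurable_const
  | succ m ih =>
    have h1 : Measurable[Fs {p : Site d × ℤ | p.1 ∈ Λ ∧ s ≤ p.2 ∧ p.2 < s + (m + 1 : ℕ)}]
        (words Λ s m) := by
      refine Measurable.mono ih (Ind.Fs_mono ?_) le_rfl
      rintro p ⟨h1, h2, h3⟩
      exact ⟨h1, h2, by push_cast; omega⟩
    have h2 : Measurable[Fs {p : Site d × ℤ | p.1 ∈ Λ ∧ s ≤ p.2 ∧ p.2 < s + (m + 1 : ℕ)}]
        (word Λ (s + m)) := by
      refine Measurable.mono (Word.word_meas Λ (s + m)) (Ind.Fs_mono ?_) le_rfl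
      rintro p ⟨h1, h2⟩
      exact ⟨h1, by omega, by push_cast; omega⟩
    have hp := Measurable.prodMk
      (m := Fs {p : Site d × ℤ | p.1 ∈ Λ ∧ s ≤ p.2 ∧ p.2 < s + (m + 1 : ℕ)}) h1 h2
    have hf : Measurable (fun p : List (List (Letter d)) × List (Letter d) => p.1 ++ [p.2]) :=
      Measurable.of_discrete
    have h3 := hf.comp hp
    have h4 : words Λ s (m + 1) = (fun p : List (List (Letter d)) × List (Letter d) =>
        p.1 ++ [p.2]) ∘ (fun ω : Om d => (words Λ s m ω, word Λ (s + m) ω)) := by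
      funext ω
      exact words_succ Λ s m ω
    rw [h4]
    exact h3

open Classical in
/-- The weight of a word. -/
noncomputable def wl (lam : ℝ≥0) (Λ : Finset (Site d)) (w : List (Letter d)) : ℝ :=
  if ∀ l ∈ w, l.1 ∈ Λ then
    Real.exp (-((Λ.card : ℝ) * (1 + 2 * ((d : ℝ) + 1) * lam))) *
        (w.map fun l => (rate lam l.2 : ℝ)).prod / (w.length.factorial : ℝ)
  else 0

theorem wl_nonneg (lam : ℝ≥0) (Λ : Finset (Site d)) (w : List (Letter d)) : 0 ≤ wl lam Λ w := by
  unfold wl
  split_ifs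
  · have : 0 ≤ (w.map fun l => (rate lam l.2 : ℝ)).prod :=
      List.prod_nonneg (by
        intro a ha
        rw [List.mem_map] at ha
        obtain ⟨l, _, rfl⟩ := ha
        exact (rate lam l.2).coe_nonneg)
    positivity
  · exact le_rfl

theorem word_law (hW : WLAW_spec) (lam : ℝ≥0) (Λ : Finset (Site d)) (k : ℤ)
    (w : List (Letter d)) : (P lam).real {ω : Om d | word Λ k ω = w} = wl lam Λ w := by
  unfold wl
  split_ifs with h
  · exact hW d lam Λ k w h
  · have : {ω : Om d | word Λ k ω = w} = ∅ := by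
      ext ω
      simp only [Set.mem_ofPred_eq, Set.mem_empty_iff_false, iff_false]
      rintro rfl
      exact h fun l hl => Word.word_mem hl
    rw [this]; simp

/-- The law of the list of words. -/
theorem law (hW : WLAW_spec) (lam : ℝ≥0) (Λ : Finset (Site d)) (s : ℤ) (m : ℕ)
    (ws : List (List (Letter d))) :
    (P lam).real {ω : Om d | words Λ s m ω = ws} =
      if ws.length = m then (ws.map (wl lam Λ)).prod else 0 := by
  induction m generalizing ws with
  | zero =>
    by_cases h : ws = []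
    · subst h; simp [words_zero]
    · have h' : ¬ (([] : List (List (Letter d))) = ws) := fun h' => h h'.symm
      simp [words_zero, h, h', List.length_eq_zero_iff]
  | succ m ih =>
    rcases List.eq_nil_or_concat ws with rfl | ⟨ws, w, rfl⟩
    · have : {ω : Om d | words Λ s (m + 1) ω = []} = ∅ := by
        ext ω; simp [words_succ]
      rw [this]; simp
    · have hset : {ω : Om d | words Λ s (m + 1) ω = ws ++ [w]} =
          {ω | words Λ s m ω = ws} ∩ {ω | word Λ (s + m) ω = w} := by
        ext ω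
        simp only [Set.mem_ofPred_eq, words_succ, Set.mem_inter_iff]
        constructor
        · intro h
          have := List.append_inj' h rfl
          exact ⟨this.1, by simpa using this.2⟩
        · rintro ⟨h1, h2⟩
          rw [h1, h2]
      have hdisj : Disjoint {p : Site d × ℤ | p.1 ∈ Λ ∧ s ≤ p.2 ∧ p.2 < s + m}
          {p : Site d × ℤ | p.1 ∈ Λ ∧ p.2 = s + m} := by
        rw [Set.disjoint_left]
        rintro p ⟨_, _, h3⟩ ⟨_, h4⟩
        omega
      have hin := Ind.inter lam hdisj (E := {ω | words Λ s m ω = ws})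
        (E' := {ω | word Λ (s + m) ω = w}) (words_meas Λ s m (t := {ws}) trivial)
        (Word.word_meas Λ (s + m) (t := {w}) trivial)
      rw [List.concat_eq_append, hset, hin, ih, word_law hW]
      by_cases h : ws.length = m
      · simp [h]
      · simp [h]

theorem words_meas' (Λ : Finset (Site d)) (s : ℤ) (m : ℕ) : Measurable (words Λ s m) :=
  Measurable.mono (words_meas Λ s m) (Ind.Fs_le _) le_rfl

theorem word_meas' (Λ : Finset (Site d)) (k : ℤ) : Measurable (word Λ k) :=
  Measurable.mono (Word.word_meas Λ k) (Ind.Fs_le _) le_rfl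

/-- Two laws of lists of words agree after a weight preserving relabelling. -/
theorem law_congr (hW : WLAW_spec) (lam : ℝ≥0) (Λ Λ' : Finset (Site d)) (s s' : ℤ) (m : ℕ)
    (Φ : List (List (Letter d)) ≃ List (List (Letter d)))
    (hlen : ∀ ws, (Φ ws).length = ws.length)
    (hΦ : ∀ ws, ((Φ ws).map (wl lam Λ)).prod = (ws.map (wl lam Λ')).prod)
    (Q : List (List (Letter d)) → Prop) :
    (P lam).real {ω : Om d | Q (words Λ s m ω)} =
      (P lam).real {ω : Om d | Q (Φ (words Λ' s' m ω))} := by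
  have hm1 : Measurable (words (d := d) Λ s m) := words_meas' Λ s m
  have hm2 : Measurable (fun ω : Om d => Φ (words Λ' s' m ω)) :=
    (measurable_from_top (f := fun L => Φ L)).comp (words_meas' Λ' s' m)
  have hmu : (P lam).map (words (d := d) Λ s m) =
      (P lam).map (fun ω : Om d => Φ (words Λ' s' m ω)) := by
    refine Measure.ext_of_singleton fun ws => ?_
    rw [Measure.map_apply hm1 (measurableSet_singleton _),
      Measure.map_apply hm2 (measurableSet_singleton _)]
    have h1 := law hW lam Λ s m ws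
    have h2 := law hW lam Λ' s' m (Φ.symm ws)
    have h3 := hΦ (Φ.symm ws)
    have h4 := hlen (Φ.symm ws)
    rw [Equiv.apply_symm_apply] at h3 h4
    rw [← h4, ← h3, ← h1] at h2
    have e1 : (words (d := d) Λ s m) ⁻¹' {ws} = {ω : Om d | words Λ s m ω = ws} := rfl
    have e2 : (fun ω : Om d => Φ (words Λ' s' m ω)) ⁻¹' {ws} =
        {ω : Om d | words Λ' s' m ω = Φ.symm ws} := by
      ext ω
      simp [Equiv.eq_symm_apply]
    rw [e1, e2]
    exact ((measureReal_eq_measureReal_iff (by finiteness) (by finiteness)).1 h2).symm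
  have e1 : {ω : Om d | Q (words Λ s m ω)} = (words Λ s m) ⁻¹' {L | Q L} := rfl
  have e2 : {ω : Om d | Q (Φ (words Λ' s' m ω))} =
      (fun ω : Om d => Φ (words Λ' s' m ω)) ⁻¹' {L | Q L} := rfl
  rw [e1, e2, ← map_measureReal_apply hm1 trivial, ← map_measureReal_apply hm2 trivial, hmu]

end Words

end Pool.Agent.Lib.MP_c12170_pr
end

section
/-!
# DFW: a strip preserves dFKG

The law of the word is a Poissonized product law, so the law of the state after a strip is
`exp (∑ r_l (U_l - 1))` applied to the initial law; this is the limit of products of Bernoulli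
letter steps, which preserve `DF` (DFOP), and `DF` is closed under limits.
-/
open MeasureTheory ProbabilityTheory Filter Topology
open scoped ENNReal NNReal

namespace Pool.Agent.Lib.MP_c12170_pr
namespace Dfw

section banach

variable {𝔸 : Type*} [NormedRing 𝔸] [NormedAlgebra ℝ 𝔸] [CompleteSpace 𝔸] [NormOneClass 𝔸]

lemma pow_sub_pow_le (x y : 𝔸) (M : ℝ) (hM : 1 ≤ M) (hx : ‖x‖ ≤ M) (hy : ‖y‖ ≤ M) (n : ℕ) :
    ‖x ^ n - y ^ n‖ ≤ n * M ^ n * ‖x - y‖ := by
  have hM0 : 0 ≤ M := by linarith
  induction n with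
  | zero => simp
  | succ n ih =>
    have e : x ^ (n + 1) - y ^ (n + 1) = x ^ n * (x - y) + (x ^ n - y ^ n) * y := by
      rw [pow_succ, pow_succ]; noncomm_ring
    have h1 : ‖x ^ n * (x - y)‖ ≤ M ^ n * ‖x - y‖ := by
      refine (norm_mul_le _ _).trans ?_
      gcongr
      exact (norm_pow_le x n).trans (by gcongr)
    have h2 : ‖(x ^ n - y ^ n) * y‖ ≤ (n * M ^ n * ‖x - y‖) * M :=
      (norm_mul_le _ _).trans (mul_le_mul ih hy (norm_nonneg _) (by positivity))
    have h3 : M ^ n ≤ M ^ (n + 1) := pow_le_pow_right₀ hM (Nat.le_succ n)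
    rw [e]
    calc ‖x ^ n * (x - y) + (x ^ n - y ^ n) * y‖ ≤ M ^ n * ‖x - y‖ + (n * M ^ n * ‖x - y‖) * M :=
          (norm_add_le _ _).trans (add_le_add h1 h2)
      _ ≤ M ^ (n + 1) * ‖x - y‖ + (n * M ^ n * ‖x - y‖) * M := by gcongr
      _ = ((n + 1 : ℕ) : ℝ) * M ^ (n + 1) * ‖x - y‖ := by push_cast; ring

/-- If `x 0 = 1` and `x` has derivative `a` at `0`, then `x (1 / N) ^ N → exp a`. -/
lemma tendsto_pow_exp (x : ℝ → 𝔸) (a : 𝔸) (h0 : x 0 = 1) (hx : HasDerivAt x a 0) :
    Tendsto (fun N : ℕ => x (1 / (N : ℝ)) ^ N) atTop (𝓝 (NormedSpace.exp a)) := by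
  set y : ℝ → 𝔸 := fun t => NormedSpace.exp (t • a) with hy
  have hyd : HasDerivAt y a 0 := by
    have := hasDerivAt_exp_smul_const (𝕂 := ℝ) a (0 : ℝ)
    simpa using this
  have hy0 : y 0 = 1 := by simp [hy]
  have hN : Tendsto (fun N : ℕ => 1 / (N : ℝ)) atTop (𝓝 0) := tendsto_one_div_atTop_nhds_zero_nat
  -- norm bounds
  have bound : ∀ z : ℝ → 𝔸, z 0 = 1 → HasDerivAt z a 0 →
      ∀ᶠ N : ℕ in atTop, ‖z (1 / (N : ℝ))‖ ≤ Real.exp ((‖a‖ + 1) / N) := by
    intro z hz0 hz
    have h1 := hz.isLittleO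
    have h2 : ∀ᶠ t in 𝓝 (0 : ℝ), ‖z t - z 0 - (t - 0) • a‖ ≤ 1 * ‖t - 0‖ :=
      (h1.def one_pos)
    filter_upwards [hN.eventually h2, eventually_gt_atTop 0] with N hN1 hN2
    have hNpos : (0 : ℝ) < N := by exact_mod_cast hN2
    rw [hz0, sub_zero] at hN1
    have e1 : z (1 / (N : ℝ)) = (z (1 / (N : ℝ)) - 1 - (1 / (N : ℝ)) • a) + 1 +
        (1 / (N : ℝ)) • a := by abel
    have h3 : ‖z (1 / (N : ℝ))‖ ≤ 1 / (N : ℝ) + 1 + (1 / (N : ℝ)) * ‖a‖ := by
      rw [e1]
      refine (norm_add_le _ _).trans (add_le_add ((norm_add_le _ _).trans (add_le_add ?_ ?_)) ?_)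
      · refine hN1.trans ?_
        rw [one_mul, Real.norm_of_nonneg (by positivity)]
      · simp
      · rw [norm_smul, Real.norm_of_nonneg (by positivity)]
    refine h3.trans ?_
    have := Real.add_one_le_exp ((‖a‖ + 1) / N)
    refine le_trans (le_of_eq ?_) this
    field_simp
    ring
  have hD : Tendsto (fun N : ℕ => (N : ℝ) * ‖x (1 / (N : ℝ)) - y (1 / (N : ℝ))‖) atTop (𝓝 0) := by
    have h1 : HasDerivAt (fun t => x t - y t) (a - a) 0 := hx.sub hyd
    rw [sub_self] at h1
    have h2 := h1.isLittleO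
    simp only [h0, hy0, sub_self, sub_zero, smul_zero] at h2
    rw [Metric.tendsto_nhds]
    intro ε hε
    have h3 := h2.def (half_pos hε)
    filter_upwards [hN.eventually h3, eventually_gt_atTop 0] with N hN1 hN2
    have hNpos : (0 : ℝ) < N := by exact_mod_cast hN2
    rw [Real.dist_eq, sub_zero, abs_of_nonneg (by positivity)]
    rw [Real.norm_of_nonneg (by positivity : (0 : ℝ) ≤ 1 / N)] at hN1
    calc (N : ℝ) * ‖x (1 / (N : ℝ)) - y (1 / (N : ℝ))‖ ≤ N * (ε / 2 * (1 / N)) := by gcongr
      _ = ε / 2 := by field_simp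
      _ < ε := half_lt_self hε
  have hyN : ∀ᶠ N : ℕ in atTop, y (1 / (N : ℝ)) ^ N = NormedSpace.exp a := by
    filter_upwards [eventually_gt_atTop 0] with N hN2
    have hNpos : (N : ℝ) ≠ 0 := by exact_mod_cast hN2.ne'
    let _ : NormedAlgebra ℚ 𝔸 := NormedAlgebra.restrictScalars ℚ ℝ 𝔸
    have h1 := NormedSpace.exp_nsmul (𝔸 := 𝔸) N ((1 / (N : ℝ)) • a)
    rw [hy]
    simp only
    rw [← h1]
    congr 1
    rw [← Nat.cast_smul_eq_nsmul ℝ, smul_smul, mul_one_div_cancel hNpos, one_smul]
  have hmain : Tendsto (fun N : ℕ => x (1 / (N : ℝ)) ^ N - y (1 / (N : ℝ)) ^ N) atTop (𝓝 0) := by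
    rw [tendsto_zero_iff_norm_tendsto_zero]
    have hz : Tendsto (fun N : ℕ => Real.exp (‖a‖ + 1) *
        ((N : ℝ) * ‖x (1 / (N : ℝ)) - y (1 / (N : ℝ))‖)) atTop (𝓝 0) := by
      have := hD.const_mul (Real.exp (‖a‖ + 1))
      simpa using this
    refine squeeze_zero' (Eventually.of_forall fun _ => norm_nonneg _) ?_ hz
    filter_upwards [bound x h0 hx, bound y hy0 hyd, eventually_gt_atTop 0] with N h1 h2 hN2
    have hNpos : (0 : ℝ) < N := by exact_mod_cast hN2
    have hM : 1 ≤ Real.exp ((‖a‖ + 1) / N) := Real.one_le_exp (by positivity)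
    refine (pow_sub_pow_le _ _ _ hM h1 h2 N).trans (le_of_eq ?_)
    rw [← Real.exp_nat_mul, mul_div_cancel₀ _ hNpos.ne']
    ring
  have := hmain.add_const (NormedSpace.exp a)
  rw [zero_add] at this
  refine this.congr' ?_
  filter_upwards [hyN] with N hN3
  rw [hN3]; abel

/-- ordered products -/
lemma hasDerivAt_prod {ι : Type*} (L : List ι) (b : ι → 𝔸) :
    HasDerivAt (fun t : ℝ => (L.map fun i => 1 + t • b i).prod) (L.map b).sum 0 := by
  induction L with
  | nil => simpa using hasDerivAt_const (0 : ℝ) (1 : 𝔸)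
  | cons i L ih =>
    have h1 : HasDerivAt (fun t : ℝ => 1 + t • b i) (b i) 0 := by
      have := ((hasDerivAt_id (0 : ℝ)).smul_const (b i)).const_add 1
      simpa using this
    have h2 := h1.mul ih
    simp only [List.map_cons, List.prod_cons, List.sum_cons]
    refine h2.congr_deriv ?_
    simp

/-- the exponential -/
noncomputable def expA (a : 𝔸) : 𝔸 := NormedSpace.exp a

lemma main_banach {ι : Type*} (L : List ι) (b : ι → 𝔸) :
    Tendsto (fun N : ℕ => ‖((L.map fun i => 1 + (1 / (N : ℝ)) • b i).prod) ^ N -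
      expA (L.map b).sum‖) atTop (𝓝 0) := by
  have h0 : (L.map fun i => 1 + (0 : ℝ) • b i).prod = 1 := by
    induction L with
    | nil => simp
    | cons i L ih => rw [List.map_cons, List.prod_cons, ih]; simp
  exact tendsto_iff_norm_sub_tendsto_zero.mp (tendsto_pow_exp _ _ h0 (hasDerivAt_prod L b))

lemma hasSum_expA (x : 𝔸) (F : 𝔸 →ₗ[ℝ] ℝ) (C : ℝ) (h : ∀ y, ‖F y‖ ≤ C * ‖y‖) :
    HasSum (fun n : ℕ => ((n.factorial : ℝ)⁻¹) * F (x ^ n)) (F (expA x)) := by
  have h3 := (NormedSpace.exp_series_hasSum_exp' (𝕂 := ℝ) x).mapL (F.mkContinuous C h)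
  have e : (fun n : ℕ => ((n.factorial : ℝ)⁻¹) * F (x ^ n)) =
      fun n : ℕ => (F.mkContinuous C h) (((n.factorial : ℝ)⁻¹) • x ^ n) := by
    funext n
    rw [LinearMap.mkContinuous_apply, map_smul, smul_eq_mul]
  rw [e]
  exact h3

lemma expA_sub (G : 𝔸) (R : ℝ) : expA (G - R • 1) = Real.exp (-R) • expA G := by
  let _ : NormedAlgebra ℚ 𝔸 := NormedAlgebra.restrictScalars ℚ ℝ 𝔸
  have h1 : G - R • (1 : 𝔸) = algebraMap ℝ 𝔸 (-R) + G := by
    rw [Algebra.algebraMap_eq_smul_one, neg_smul]; abel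
  unfold expA
  rw [h1, NormedSpace.exp_add_of_commute (Algebra.commute_algebraMap_left _ _),
    ← NormedSpace.algebraMap_exp_comm, ← Real.exp_eq_exp_ℝ, Algebra.algebraMap_eq_smul_one,
    smul_mul_assoc, one_mul]

lemma main_banach2 {ι : Type*} (L : List ι) (r : ι → ℝ) (u : ι → 𝔸) :
    Tendsto (fun N : ℕ => ‖((L.map fun i => 1 + (r i / (N : ℝ)) • (u i - 1)).prod) ^ N -
      Real.exp (-(L.map r).sum) • expA (L.map fun i => r i • u i).sum‖) atTop (𝓝 0) := by
  have h := main_banach L (fun i => r i • (u i - 1))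
  have e1 : ∀ N : ℕ, (L.map fun i => 1 + (1 / (N : ℝ)) • (r i • (u i - 1))) =
      L.map fun i => 1 + (r i / (N : ℝ)) • (u i - 1) := by
    intro N
    refine List.map_congr_left fun i _ => ?_
    rw [smul_smul]
    congr 2
    ring
  have e2 : (L.map fun i => r i • (u i - 1)).sum =
      (L.map fun i => r i • u i).sum - (L.map r).sum • (1 : 𝔸) := by
    induction L with
    | nil => simp
    | cons i L ih =>
      simp only [List.map_cons, List.sum_cons]
      rw [ih (main_banach _ _) (fun N => by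
        refine List.map_congr_left fun i _ => ?_
        rw [smul_smul]
        congr 2
        ring), smul_sub, add_smul]
      abel
  rw [e2, expA_sub] at h
  simp only [e1] at h
  exact h

end banach


section op

variable {V : Type}

local instance instTopFinset : TopologicalSpace (Finset V) := ⊥
local instance instDiscFinset : DiscreteTopology (Finset V) := ⟨rfl⟩

/-- bounded functions on the finite subsets -/
abbrev BF (V : Type) : Type := BoundedContinuousFunction (Finset V) ℝ

instance instNontrBF : Nontrivial (BF V) :=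
  ⟨0, BoundedContinuousFunction.const _ 1, fun h => by
    have := congrArg (fun f : BF V => f ∅) h
    simp at this⟩

/-- composition operator -/
noncomputable def U (φ : Finset V → Finset V) : BF V →L[ℝ] BF V :=
  LinearMap.mkContinuous
    { toFun := fun f => f.compContinuous ⟨φ, continuous_of_discreteTopology⟩
      map_add' := fun f g => by ext A; rfl
      map_smul' := fun c f => by ext A; rfl } 1 (fun f => by
        rw [one_mul]
        refine (BoundedContinuousFunction.norm_le (norm_nonneg _)).mpr fun A => ?_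
        exact f.norm_coe_le_norm _)

lemma U_apply (φ : Finset V → Finset V) (f : BF V) (A : Finset V) : U φ f A = f (φ A) := rfl

lemma bf_int (μ : Measure (Finset V)) [IsFiniteMeasure μ] (f : BF V) :
    Integrable (fun A => f A) μ :=
  Dfop.integrable_bdd μ _ ‖f‖ fun A => f.norm_coe_le_norm A

lemma int_U (μ : Measure (Finset V)) (φ : Finset V → Finset V) (f : BF V) :
    ∫ A, U φ f A ∂μ = ∫ A, f A ∂(μ.map φ) := by
  rw [integral_map (measurable_from_top).aemeasurable measurable_from_top.aestronglyMeasurable]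
  rfl

lemma int_bern (μ : Measure (Finset V)) [IsFiniteMeasure μ] (φ : Finset V → Finset V) (q : ℝ)
    (hq0 : 0 ≤ q) (hq1 : q ≤ 1) (f : BF V) :
    ∫ A, (1 + q • (U φ - 1) : BF V →L[ℝ] BF V) f A ∂μ =
      ∫ A, f A ∂(ENNReal.ofReal (1 - q) • μ + ENNReal.ofReal q • μ.map φ) := by
  rw [integral_add_measure ((bf_int μ f).smul_measure ENNReal.ofReal_ne_top)
    ((bf_int _ f).smul_measure ENNReal.ofReal_ne_top),
    integral_smul_measure, integral_smul_measure, ← int_U,
    ENNReal.toReal_ofReal (by linarith), ENNReal.toReal_ofReal hq0, ← integral_smul,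
    ← integral_smul]
  have h1 : Integrable (fun A => (1 - q) • f A) μ := (bf_int μ f).smul (1 - q)
  have h2 : Integrable (fun A => q • U φ f A) μ := (bf_int μ (U φ f)).smul q
  rw [← integral_add h1 h2]
  refine integral_congr_ae (Eventually.of_forall fun A => ?_)
  simp only [ContinuousLinearMap.add_apply, ContinuousLinearMap.one_apply,
    ContinuousLinearMap.smul_apply, ContinuousLinearMap.sub_apply,
    BoundedContinuousFunction.coe_add, BoundedContinuousFunction.coe_smul,
    BoundedContinuousFunction.coe_sub, Pi.add_apply, Pi.sub_apply, smul_eq_mul]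
  ring

variable [DecidableEq V]

lemma step_exists {ι : Type} (φ : ι → Op V) (q : ι → ℝ) (L : List ι)
    (hq : ∀ i ∈ L, 0 ≤ q i ∧ q i ≤ 1) :
    ∀ (μ : Measure (Finset V)) [IsFiniteMeasure μ], DF μ →
      ∃ ν : Measure (Finset V), IsFiniteMeasure ν ∧ DF ν ∧
        ∀ f : BF V, ∫ A, (L.map fun i =>
          (1 + q i • (U (φ i).app - 1) : BF V →L[ℝ] BF V)).prod f A ∂μ = ∫ A, f A ∂ν := by
  induction L with
  | nil =>
    intro μ hμ hdf
    exact ⟨μ, hμ, hdf, fun f => by simp⟩
  | cons i L ih =>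
    intro μ hμ hdf
    have hi := hq i (by simp)
    have h1 := dfop_holds V μ hdf (q i) hi.1 hi.2 (φ i)
    have hfin : IsFiniteMeasure (ENNReal.ofReal (1 - q i) • μ +
        ENNReal.ofReal (q i) • μ.map (φ i).app) := by
      have : IsFiniteMeasure (ENNReal.ofReal (1 - q i) • μ) :=
        Measure.smul_finite μ ENNReal.ofReal_ne_top
      have : IsFiniteMeasure (ENNReal.ofReal (q i) • μ.map (φ i).app) :=
        Measure.smul_finite _ ENNReal.ofReal_ne_top
      infer_instance
    obtain ⟨ν, hν, hνdf, hν2⟩ := ih (fun j hj => hq j (by simp [hj])) _ h1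
    refine ⟨ν, hν, hνdf, fun f => ?_⟩
    rw [← hν2, ← int_bern μ (φ i).app (q i) hi.1 hi.2]
    rfl

lemma pow_exists (X : BF V →L[ℝ] BF V)
    (h : ∀ (μ : Measure (Finset V)) [IsFiniteMeasure μ], DF μ →
      ∃ ν : Measure (Finset V), IsFiniteMeasure ν ∧ DF ν ∧
        ∀ f : BF V, ∫ A, X f A ∂μ = ∫ A, f A ∂ν) (N : ℕ) :
    ∀ (μ : Measure (Finset V)) [IsFiniteMeasure μ], DF μ →
      ∃ ν : Measure (Finset V), IsFiniteMeasure ν ∧ DF ν ∧
        ∀ f : BF V, ∫ A, (X ^ N) f A ∂μ = ∫ A, f A ∂ν := by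
  induction N with
  | zero => intro μ hμ hdf; exact ⟨μ, hμ, hdf, fun f => by simp⟩
  | succ N ih =>
    intro μ hμ hdf
    obtain ⟨ν, hν, hνdf, hν2⟩ := h μ hdf
    obtain ⟨ν', hν', hνdf', hν2'⟩ := ih ν hνdf
    refine ⟨ν', hν', hνdf', fun f => ?_⟩
    rw [← hν2', ← hν2, pow_succ']
    rfl

lemma int_tendsto (μ : Measure (Finset V)) [IsFiniteMeasure μ] (T : ℕ → BF V →L[ℝ] BF V)
    (S : BF V →L[ℝ] BF V) (h : Tendsto (fun n => ‖T n - S‖) atTop (𝓝 0)) (f : BF V) :
    Tendsto (fun n => ∫ A, T n f A ∂μ) atTop (𝓝 (∫ A, S f A ∂μ)) := by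
  rw [tendsto_iff_norm_sub_tendsto_zero]
  have h0 : Tendsto (fun n => ‖T n - S‖ * (‖f‖ * μ.real Set.univ)) atTop (𝓝 0) := by
    have := h.mul_const (‖f‖ * μ.real Set.univ)
    simpa using this
  refine squeeze_zero (fun _ => norm_nonneg _) (fun n => ?_) h0
  rw [← integral_sub (bf_int μ _) (bf_int μ _)]
  have h1 : ∀ A, ‖T n f A - S f A‖ ≤ ‖T n - S‖ * ‖f‖ := fun A => by
    have h2 : T n f A - S f A = ((T n - S) f) A := rfl
    rw [h2]
    exact ((T n - S) f).norm_coe_le_norm A |>.trans ((T n - S).le_opNorm f)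
  refine (norm_integral_le_of_norm_le_const (Eventually.of_forall h1)).trans (le_of_eq ?_)
  ring

/-- DF is closed under limits. -/
lemma df_limit (μ : Measure (Finset V)) [IsFiniteMeasure μ] (T : ℕ → BF V →L[ℝ] BF V)
    (S : BF V →L[ℝ] BF V) (h : Tendsto (fun n => ‖T n - S‖) atTop (𝓝 0))
    (hT : ∀ᶠ n in atTop, ∃ ν : Measure (Finset V), IsFiniteMeasure ν ∧ DF ν ∧
      ∀ f : BF V, ∫ A, T n f A ∂μ = ∫ A, f A ∂ν)
    (ν : Measure (Finset V)) [IsFiniteMeasure ν] (hν : ∀ f : BF V, ∫ A, S f A ∂μ = ∫ A, f A ∂ν) :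
    DF ν := by
  intro Z f g hf hg hf1 hg1
  set D : Set (Finset V) := {A | Disjoint A Z} with hD
  have hDm : MeasurableSet D := trivial
  have bd : ∀ u : Finset V → ℝ, (∀ A, 0 ≤ u A ∧ u A ≤ 1) → ∀ A, ‖D.indicator u A‖ ≤ 1 := by
    intro u hu A
    by_cases hA : A ∈ D
    · rw [Set.indicator_of_mem hA, Real.norm_of_nonneg (hu A).1]; exact (hu A).2
    · rw [Set.indicator_of_notMem hA]; simp
  let E : (u : Finset V → ℝ) → (∀ A, 0 ≤ u A ∧ u A ≤ 1) → BF V := fun u hu =>
    BoundedContinuousFunction.ofNormedAddCommGroupDiscrete (D.indicator u) 1 (bd u hu)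
  have hE : ∀ (m : Measure (Finset V)) (u : Finset V → ℝ) (hu : ∀ A, 0 ≤ u A ∧ u A ≤ 1),
      ∫ A in D, u A ∂m = ∫ A, E u hu A ∂m := by
    intro m u hu
    rw [← integral_indicator hDm]
    rfl
  have hfg : ∀ A, 0 ≤ f A * g A ∧ f A * g A ≤ 1 := fun A =>
    ⟨mul_nonneg (hf1 A).1 (hg1 A).1, mul_le_one₀ (hf1 A).2 (hg1 A).1 (hg1 A).2⟩
  have h1 : ∀ A : Finset V, (0 : ℝ) ≤ (fun _ => (1 : ℝ)) A ∧ (fun _ => (1 : ℝ)) A ≤ 1 :=
    fun A => ⟨zero_le_one, le_rfl⟩
  have hr : ∀ (m : Measure (Finset V)) [IsFiniteMeasure m],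
      m.real D = ∫ A, E (fun _ => 1) h1 A ∂m := by
    intro m _
    rw [← hE m _ h1, setIntegral_const]
    simp
  rw [hr ν, hE ν f hf1, hE ν g hg1, hE ν (fun A => f A * g A) hfg, ← hν, ← hν, ← hν, ← hν]
  refine le_of_tendsto_of_tendsto
    ((int_tendsto μ T S h _).mul (int_tendsto μ T S h _))
    ((int_tendsto μ T S h _).mul (int_tendsto μ T S h _)) ?_
  filter_upwards [hT] with n hn
  obtain ⟨ν', hν', hdf, hν2⟩ := hn
  rw [hν2, hν2, hν2, hν2, ← hE ν' f hf1, ← hE ν' g hg1, ← hE ν' _ hfg, ← hr ν']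
  exact hdf Z f g hf hg hf1 hg1

section wm

variable {d : ℕ}

/-- the Poissonized measures on words -/
noncomputable def Wm (lam : ℝ≥0) (Λ : Finset (Site d)) : ℕ → Measure (List (Letter d))
  | 0 => Measure.dirac []
  | n + 1 => ∑ l ∈ Wlaw.FL Λ,
      ((rate lam l.2 : ℝ≥0) : ℝ≥0∞) • (Wm lam Λ n).map (fun w => l :: w)

instance (lam : ℝ≥0) (Λ : Finset (Site d)) (n : ℕ) : IsFiniteMeasure (Wm lam Λ n) := by
  induction n with
  | zero => exact inferInstanceAs (IsFiniteMeasure (Measure.dirac _))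
  | succ n ih =>
    constructor
    rw [Wm, Measure.finsetSum_apply]
    refine ENNReal.sum_lt_top.mpr fun l _ => ?_
    rw [Measure.smul_apply, smul_eq_mul]
    exact ENNReal.mul_lt_top ENNReal.coe_lt_top (measure_lt_top _ _)

lemma Wm_sing (lam : ℝ≥0) (Λ : Finset (Site d)) (n : ℕ) (w : List (Letter d)) :
    Wm lam Λ n {w} = if w.length = n then (if ∀ l ∈ w, l.1 ∈ Λ then
      (w.map fun l => ((rate lam l.2 : ℝ≥0) : ℝ≥0∞)).prod else 0) else 0 := by
  classical
  induction n generalizing w with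
  | zero =>
    rw [Wm, Measure.dirac_apply' _ (measurableSet_singleton _)]
    cases w with
    | nil => simp
    | cons a w => simp
  | succ n ih =>
    rw [Wm, Measure.finsetSum_apply]
    have h1 : ∀ l : Letter d, ((Wm lam Λ n).map (fun w => l :: w)) {w} =
        Wm lam Λ n ((fun w => l :: w) ⁻¹' {w}) := fun l =>
      Measure.map_apply measurable_from_top (measurableSet_singleton _)
    simp only [Measure.smul_apply, h1, smul_eq_mul]
    cases w with
    | nil =>
      have h2 : ∀ l : Letter d, (fun w : List (Letter d) => l :: w) ⁻¹' {[]} = ∅ := by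
        intro l; ext w; simp
      simp [h2]
    | cons a w =>
      have h2 : ∀ l : Letter d, (fun w' : List (Letter d) => l :: w') ⁻¹' {a :: w} =
          if l = a then {w} else ∅ := by
        intro l; ext w'
        by_cases h : l = a
        · simp [h]
        · simp [h]
      have h3 : ∀ l ∈ Wlaw.FL Λ, ((rate lam l.2 : ℝ≥0) : ℝ≥0∞) *
          Wm lam Λ n ((fun w' : List (Letter d) => l :: w') ⁻¹' {a :: w}) =
          if l = a then ((rate lam a.2 : ℝ≥0) : ℝ≥0∞) * Wm lam Λ n {w} else 0 := by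
        intro l _
        rw [h2]
        by_cases h : l = a
        · simp [h]
        · simp [h]
      rw [Finset.sum_congr rfl h3, Finset.sum_ite_eq', ih]
      by_cases ha : a.1 ∈ Λ
      · rw [if_pos (Wlaw.mem_FL.mpr ha)]
        by_cases hl : w.length = n
        · by_cases hw : ∀ l ∈ w, l.1 ∈ Λ
          · rw [if_pos hl, if_pos hw, if_pos (by simp [hl]), if_pos (by
              intro l hl'
              rcases List.mem_cons.mp hl' with h | h
              · rw [h]; exact ha
              · exact hw l h)]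
            simp
          · rw [if_pos hl, if_neg hw, if_pos (by simp [hl]), if_neg (fun h => hw fun l hl' =>
              h l (List.mem_cons_of_mem _ hl'))]
            simp
        · rw [if_neg hl, if_neg (by simpa using hl)]
          simp
      · rw [if_neg (fun h => ha (Wlaw.mem_FL.mp h))]
        by_cases hl : w.length = n
        · rw [if_pos (by simp [hl]), if_neg (fun h => ha (h a (by simp)))]
        · rw [if_neg (by simpa using hl)]

/-- the constant of the law of the word -/
noncomputable def cw (lam : ℝ≥0) (Λ : Finset (Site d)) (n : ℕ) : ℝ :=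
  Real.exp (-((Λ.card : ℝ) * (1 + 2 * ((d : ℝ) + 1) * lam))) / (n.factorial : ℝ)

lemma cw_nonneg (lam : ℝ≥0) (Λ : Finset (Site d)) (n : ℕ) : 0 ≤ cw lam Λ n := by
  unfold cw; positivity

lemma prod_coe (lam : ℝ≥0) (w : List (Letter d)) :
    (w.map fun l => ((rate lam l.2 : ℝ≥0) : ℝ≥0∞)).prod =
      ENNReal.ofReal ((w.map fun l => (rate lam l.2 : ℝ)).prod) := by
  induction w with
  | nil => simp
  | cons a w ih =>
    rw [List.map_cons, List.prod_cons, ih, List.map_cons, List.prod_cons,
      ENNReal.ofReal_mul (NNReal.coe_nonneg _), ENNReal.ofReal_coe_nnreal]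

lemma word_measurable (Λ : Finset (Site d)) (k : ℤ) : Measurable (word Λ k) :=
  (Word.word_meas Λ k).mono (Ind.Fs_le _) le_rfl

lemma law_eq (lam : ℝ≥0) (Λ : Finset (Site d)) (k : ℤ) :
    (P lam).map (word Λ k) =
      Measure.sum fun n => ENNReal.ofReal (cw lam Λ n) • Wm lam Λ n := by
  refine Measure.ext_of_singleton fun w => ?_
  rw [Measure.map_apply (word_measurable Λ k) (measurableSet_singleton _),
    Measure.sum_apply _ (measurableSet_singleton _)]
  have h1 : P lam (word Λ k ⁻¹' {w}) = ENNReal.ofReal (Words.wl lam Λ w) := by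
    rw [← Words.word_law wlaw_holds lam Λ k w, ofReal_measureReal]
    rfl
  rw [h1, tsum_eq_single w.length]
  · rw [Measure.smul_apply, Wm_sing, if_pos rfl, smul_eq_mul]
    unfold Words.wl cw
    split_ifs with h
    · rw [prod_coe, ← ENNReal.ofReal_mul (by positivity)]
      congr 1
      ring
    · simp
  · intro n hn
    rw [Measure.smul_apply, Wm_sing, if_neg (Ne.symm hn), smul_zero]

variable {V : Type}

/-- the generator -/
noncomputable def Gn [DecidableEq V] (lam : ℝ≥0) (Λ : Finset (Site d)) (opm : Letter d → Op V) :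
    BF V →L[ℝ] BF V :=
  ∑ l ∈ Wlaw.FL Λ, (rate lam l.2 : ℝ) • U (opm l).app

lemma Gn_apply [DecidableEq V] (lam : ℝ≥0) (Λ : Finset (Site d)) (opm : Letter d → Op V)
    (f : BF V) (A : Finset V) :
    Gn lam Λ opm f A = ∑ l ∈ Wlaw.FL Λ, (rate lam l.2 : ℝ) * f ((opm l).app A) := by
  unfold Gn
  rw [ContinuousLinearMap.sum_apply, BoundedContinuousFunction.coe_sum, Finset.sum_apply]
  rfl

lemma Wm_int [DecidableEq V] (lam : ℝ≥0) (Λ : Finset (Site d)) (opm : Letter d → Op V)
    (f : BF V) (n : ℕ) : ∀ A : Finset V,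
    ∫ w, f (w.foldl (fun X l => (opm l).app X) A) ∂(Wm lam Λ n) =
      ((Gn lam Λ opm) ^ n) f A := by
  induction n with
  | zero =>
    intro A
    rw [Wm, integral_dirac]
    rfl
  | succ n ih =>
    intro A
    have hint : ∀ (B : Finset V) (μ : Measure (List (Letter d))) [IsFiniteMeasure μ],
        Integrable (fun w : List (Letter d) => f (w.foldl (fun X l => (opm l).app X) B)) μ := by
      intro B μ _
      exact Integrable.of_bound (measurable_from_top.aestronglyMeasurable) ‖f‖
        (Eventually.of_forall fun w => f.norm_coe_le_norm _)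
    rw [Wm, integral_finsetSum_measure]
    · rw [pow_succ']
      change _ = Gn lam Λ opm ((Gn lam Λ opm ^ n) f) A
      rw [Gn_apply]
      refine Finset.sum_congr rfl fun l _ => ?_
      rw [integral_smul_measure, integral_map measurable_from_top.aemeasurable
        measurable_from_top.aestronglyMeasurable]
      simp only [List.foldl_cons]
      rw [ih]
      simp
    · intro l _
      exact (hint A _).smul_measure ENNReal.coe_ne_top

lemma int_word [DecidableEq V] (lam : ℝ≥0) (Λ : Finset (Site d)) (k : ℤ)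
    (opm : Letter d → Op V) (f : BF V) (A : Finset V) :
    ∫ ω, f ((word Λ k ω).foldl (fun X l => (opm l).app X) A) ∂(P lam) =
      Real.exp (-((Λ.card : ℝ) * (1 + 2 * ((d : ℝ) + 1) * lam))) *
        (expA (Gn lam Λ opm)) f A := by
  have h1 : ∫ ω, f ((word Λ k ω).foldl (fun X l => (opm l).app X) A) ∂(P lam) =
      ∫ w, f (w.foldl (fun X l => (opm l).app X) A) ∂((P lam).map (word Λ k)) := by
    rw [integral_map (word_measurable Λ k).aemeasurable measurable_from_top.aestronglyMeasurable]
  have hint : Integrable (fun w : List (Letter d) => f (w.foldl (fun X l => (opm l).app X) A))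
      ((P lam).map (word Λ k)) :=
    Integrable.of_bound (measurable_from_top.aestronglyMeasurable) ‖f‖
      (Eventually.of_forall fun w => f.norm_coe_le_norm _)
  rw [h1]
  rw [law_eq] at hint ⊢
  have h2 := hasSum_integral_measure hint
  have h3 := hasSum_expA (Gn lam Λ opm)
    { toFun := fun T : BF V →L[ℝ] BF V => T f A
      map_add' := fun S T => rfl
      map_smul' := fun c T => rfl } ‖f‖ (fun T => by
        rw [mul_comm]
        exact ((T f).norm_coe_le_norm A).trans (T.le_opNorm f))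
  have h4 := h3.mul_left (Real.exp (-((Λ.card : ℝ) * (1 + 2 * ((d : ℝ) + 1) * lam))))
  refine h2.unique ?_
  have e : (fun n : ℕ => ∫ w, f (w.foldl (fun X l => (opm l).app X) A)
      ∂(ENNReal.ofReal (cw lam Λ n) • Wm lam Λ n)) = fun n : ℕ =>
      Real.exp (-((Λ.card : ℝ) * (1 + 2 * ((d : ℝ) + 1) * lam))) *
        (((n.factorial : ℝ)⁻¹) * (Gn lam Λ opm ^ n) f A) := by
    funext n
    rw [integral_smul_measure, Wm_int, ENNReal.toReal_ofReal (cw_nonneg _ _ _), smul_eq_mul, cw]
    ring
  rw [e]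
  exact h4

end wm

end op

end Dfw

open Dfw in
theorem dfw_holds : DFW_spec := by
  intro V _ _ d lam Λ k opm μ _ hμ
  let _ : TopologicalSpace (Finset V) := ⊥
  have _ : DiscreteTopology (Finset V) := ⟨rfl⟩
  set F : Finset V × Om d → Finset V := fun p =>
    (word Λ k p.2).foldl (fun X l => (opm l).app X) p.1 with hF
  have hFm : Measurable F := by
    have h1 : Measurable (fun p : Finset V × Om d => (p.1, word Λ k p.2)) :=
      measurable_fst.prodMk ((word_measurable Λ k).comp measurable_snd)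
    have h2 : Measurable (fun p : Finset V × List (Letter d) =>
        p.2.foldl (fun X l => (opm l).app X) p.1) := Measurable.of_discrete
    exact h2.comp h1
  set L := (Wlaw.FL Λ).toList with hL
  set R : ℝ := (Λ.card : ℝ) * (1 + 2 * ((d : ℝ) + 1) * lam) with hR
  have hsum : (L.map fun l => (rate lam l.2 : ℝ)).sum = R := by
    rw [hL, Finset.sum_map_toList, hR, ← Wlaw.sum_rates]
  have hsumG : (L.map fun l => (rate lam l.2 : ℝ) • (U (opm l).app : BF V →L[ℝ] BF V)).sum =
      Gn lam Λ opm := by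
    rw [hL, Finset.sum_map_toList, Gn]
  have hlim := main_banach2 L (fun l => (rate lam l.2 : ℝ))
    (fun l => (U (opm l).app : BF V →L[ℝ] BF V))
  rw [hsum, hsumG] at hlim
  refine df_limit μ _ _ hlim ?_ (((μ.prod (P lam)).map F)) ?_
  · obtain ⟨N0, hN0⟩ := exists_nat_ge (1 + (lam : ℝ))
    filter_upwards [eventually_ge_atTop N0, eventually_gt_atTop 0] with N hN hN1
    have hNpos : (0 : ℝ) < N := by exact_mod_cast hN1
    have hNN : 1 + (lam : ℝ) ≤ N := hN0.trans (by exact_mod_cast hN)
    refine pow_exists _ (step_exists opm (fun l => (rate lam l.2 : ℝ) / N) L ?_) N μ hμ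
    intro l _
    refine ⟨by positivity, ?_⟩
    rw [div_le_one hNpos]
    refine le_trans ?_ hNN
    have hlam : (0 : ℝ) ≤ lam := lam.coe_nonneg
    cases h : l.2 with
    | none => simp [rate]
    | some a => simp [rate]
  · intro f
    rw [integral_map hFm.aemeasurable measurable_from_top.aestronglyMeasurable]
    have hint : Integrable (fun p => f (F p)) (μ.prod (P lam)) :=
      Integrable.of_bound ((measurable_from_top.comp hFm).aestronglyMeasurable) ‖f‖
        (Eventually.of_forall fun w => f.norm_coe_le_norm _)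
    rw [integral_prod _ hint]
    refine integral_congr_ae (Eventually.of_forall fun A => ?_)
    simp only [hF]
    rw [int_word]
    rfl

end Pool.Agent.Lib.MP_c12170_pr
end

section
/-!
# ASSOC: the top state and the exits are jointly dFKG
-/
open MeasureTheory ProbabilityTheory Filter Topology
open scoped ENNReal NNReal

namespace Pool.Agent.Lib.MP_c12170_pr

namespace Assoc

variable {d : ℕ}

lemma df_dirac {V : Type} [DecidableEq V] (A0 : Finset V) : DF (Measure.dirac A0) := by
  classical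
  intro Z f g hf hg hf1 hg1
  set D : Set (Finset V) := {A | Disjoint A Z} with hD
  have hr : (Measure.dirac A0).real D = if A0 ∈ D then 1 else 0 := by
    rw [Measure.real, Measure.dirac_apply]
    by_cases h : A0 ∈ D
    · simp [h]
    · simp [h]
  rw [setIntegral_dirac, setIntegral_dirac, setIntegral_dirac, hr]
  by_cases h : A0 ∈ D
  · simp [h]
  · simp [h]

lemma df_const {V : Type} [DecidableEq V] {Ω : Type} [MeasurableSpace Ω] (μ : Measure Ω)
    [IsProbabilityMeasure μ] (A0 : Finset V) : DF (μ.map fun _ => A0) := by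
  rw [Measure.map_const, measure_univ, one_smul]
  exact df_dirac A0

/-- One strip after an independent past. -/
lemma df_step {V : Type} [DecidableEq V] [Countable V] (lam : ℝ≥0) (Λ : Finset (Site d)) (k : ℤ)
    (opm : Letter d → Op V) (X : Om d → Finset V) {J : Set (Site d × ℤ)}
    (hX : Measurable[Fs J] X) (hJ : ∀ p ∈ J, p.2 ≠ k) (hdf : DF ((P lam).map X)) :
    DF ((P lam).map fun ω => (word Λ k ω).foldl (fun Y l => (opm l).app Y) (X ω)) := by
  have hXm : Measurable X := hX.mono (Ind.Fs_le _) le_rfl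
  have hdisj : Disjoint J {p : Site d × ℤ | p.1 ∈ Λ ∧ p.2 = k} := by
    rw [Set.disjoint_left]
    rintro p hp ⟨_, hp2⟩
    exact hJ p hp hp2
  have hind : IndepFun X (word Λ k) (P lam) :=
    (IndepFun_iff_Indep _ _ _).2 (indep_of_indep_of_le_right
      (indep_of_indep_of_le_left (Ind.indep lam hdisj) hX.comap_le)
      (Word.word_meas Λ k).comap_le)
  have hwm := Dfw.word_measurable (d := d) Λ k
  have hmp := hind.map_prod_eq_prod_map_map hXm.aemeasurable hwm.aemeasurable
  have hF : Measurable (fun p : Finset V × List (Letter d) =>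
      p.2.foldl (fun Y l => (opm l).app Y) p.1) := Measurable.of_discrete
  have e1 : (P lam).map (fun ω => (word Λ k ω).foldl (fun Y l => (opm l).app Y) (X ω)) =
      ((P lam).map fun ω => (X ω, word Λ k ω)).map (fun p : Finset V × List (Letter d) =>
        p.2.foldl (fun Y l => (opm l).app Y) p.1) := by
    rw [Measure.map_map hF (hXm.prodMk hwm)]
    rfl
  have e2 : ((P lam).map X).prod ((P lam).map (word Λ k)) =
      (((P lam).map X).prod (P lam)).map (Prod.map id (word Λ k)) := by
    rw [← Measure.map_prod_map _ _ measurable_id hwm, Measure.map_id]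
  have : IsFiniteMeasure ((P lam).map X) := by
    have := Measure.isProbabilityMeasure_map (μ := P lam) hXm.aemeasurable
    infer_instance
  have h := dfw_holds V d lam Λ k opm ((P lam).map X) hdf
  rw [e1, hmp, e2, Measure.map_map hF (measurable_id.prodMap hwm)]
  exact h

lemma step_meas {V : Type} [DecidableEq V] [Countable V] (Λ : Finset (Site d)) (k : ℤ)
    (opm : Letter d → Op V) (X : Om d → Finset V) {J J' : Set (Site d × ℤ)}
    (hX : Measurable[Fs J] X) (hJ : J ⊆ J') (hk : ∀ p : Site d × ℤ, p.2 = k → p ∈ J') :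
    Measurable[Fs J'] fun ω => (word Λ k ω).foldl (fun Y l => (opm l).app Y) (X ω) := by
  have h1 : Measurable[Fs J'] X := hX.mono (Ind.Fs_mono hJ) le_rfl
  have h2 : Measurable[Fs J'] (word Λ k) := (Word.word_meas Λ k).mono (Ind.Fs_mono (by
    rintro p ⟨_, hp⟩
    exact hk p hp)) le_rfl
  have hF : Measurable (fun p : Finset V × List (Letter d) =>
      p.2.foldl (fun Y l => (opm l).app Y) p.1) := Measurable.of_discrete
  exact hF.comp (Measurable.prodMk (m := Fs J') h1 h2)

section enc

open Classical in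
/-- The code of a state `B` (inside and outside `Λ`) with the record `E`. -/
noncomputable def enc (Λ : Finset (Site d)) (T : ℕ) (B : Finset (Site d))
    (E : Finset (Site d ⊕ Site d × ℕ)) : Finset (Site d ⊕ Site d × ℕ) :=
  ((B ∩ Λ).image Sum.inl ∪ (B \ Λ).image fun x => Sum.inr (x, T)) ∪ E

open Classical in
/-- The operations. -/
noncomputable def opT (Λ : Finset (Site d)) (T : ℕ) (l : Letter d) : Op (Site d ⊕ Site d × ℕ) :=
  match l.2 with
  | none => .del (Sum.inl l.1)
  | some a => if l.1 + dir a ∈ Λ then .arr (Sum.inl l.1) (Sum.inl (l.1 + dir a))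
      else .arr (Sum.inl l.1) (Sum.inr (l.1 + dir a, T))

lemma enc_step (Λ : Finset (Site d)) (T : ℕ) (B : Finset (Site d))
    (E : Finset (Site d ⊕ Site d × ℕ)) (hE : ∀ x, Sum.inl x ∉ E) (l : Letter d)
    (hl : l.1 ∈ Λ) : (opT Λ T l).app (enc Λ T B E) = enc Λ T (upd B l) E := by
  classical
  obtain ⟨x, o⟩ := l
  simp only at hl
  have hmem : Sum.inl x ∈ enc Λ T B E ↔ x ∈ B := by
    simp [enc, hE, hl]
  cases o with
  | none =>
    ext v
    simp only [opT, Op.app, upd, enc, Finset.mem_erase, Finset.mem_union, Finset.mem_image,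
      Finset.mem_inter, Finset.mem_sdiff]
    constructor
    · rintro ⟨h1, (⟨y, ⟨h2, h3⟩, rfl⟩ | ⟨y, ⟨h2, h3⟩, rfl⟩) | h2⟩
      · exact Or.inl (Or.inl ⟨y, ⟨⟨fun h => h1 (by rw [h]), h2⟩, h3⟩, rfl⟩)
      · exact Or.inl (Or.inr ⟨y, ⟨⟨fun h => h3 (h ▸ hl), h2⟩, h3⟩, rfl⟩)
      · exact Or.inr h2
    · rintro ((⟨y, ⟨⟨h0, h2⟩, h3⟩, rfl⟩ | ⟨y, ⟨⟨h0, h2⟩, h3⟩, rfl⟩) | h2)
      · exact ⟨fun h => h0 (Sum.inl.inj h), Or.inl (Or.inl ⟨y, ⟨h2, h3⟩, rfl⟩)⟩
      · exact ⟨by simp, Or.inl (Or.inr ⟨y, ⟨h2, h3⟩, rfl⟩)⟩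
      · exact ⟨fun h => hE x (h ▸ h2), Or.inr h2⟩
  | some a =>
    by_cases hx : x ∈ B
    · have hupd : upd B (x, some a) = insert (x + dir a) B := by simp [upd, hx]
      by_cases hy : x + dir a ∈ Λ
      · have hop : opT Λ T (x, some a) = .arr (Sum.inl x) (Sum.inl (x + dir a)) := by
          simp [opT, hy]
        rw [hop, hupd, Op.app, if_pos (hmem.mpr hx)]
        ext v
        simp only [enc, Finset.mem_insert, Finset.mem_union, Finset.mem_image,
          Finset.mem_inter, Finset.mem_sdiff]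
        constructor
        · rintro (rfl | (⟨y, ⟨h2, h3⟩, rfl⟩ | ⟨y, ⟨h2, h3⟩, rfl⟩) | h2)
          · exact Or.inl (Or.inl ⟨_, ⟨Or.inl rfl, hy⟩, rfl⟩)
          · exact Or.inl (Or.inl ⟨_, ⟨Or.inr h2, h3⟩, rfl⟩)
          · exact Or.inl (Or.inr ⟨_, ⟨Or.inr h2, h3⟩, rfl⟩)
          · exact Or.inr h2
        · rintro ((⟨y, ⟨rfl | h2, h3⟩, rfl⟩ | ⟨y, ⟨rfl | h2, h3⟩, rfl⟩) | h2)
          · exact Or.inl rfl
          · exact Or.inr (Or.inl (Or.inl ⟨_, ⟨h2, h3⟩, rfl⟩))
          · exact absurd hy h3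
          · exact Or.inr (Or.inl (Or.inr ⟨_, ⟨h2, h3⟩, rfl⟩))
          · exact Or.inr (Or.inr h2)
      · have hop : opT Λ T (x, some a) = .arr (Sum.inl x) (Sum.inr (x + dir a, T)) := by
          simp [opT, hy]
        rw [hop, hupd, Op.app, if_pos (hmem.mpr hx)]
        ext v
        simp only [enc, Finset.mem_insert, Finset.mem_union, Finset.mem_image,
          Finset.mem_inter, Finset.mem_sdiff]
        constructor
        · rintro (rfl | (⟨y, ⟨h2, h3⟩, rfl⟩ | ⟨y, ⟨h2, h3⟩, rfl⟩) | h2)
          · exact Or.inl (Or.inr ⟨_, ⟨Or.inl rfl, hy⟩, rfl⟩)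
          · exact Or.inl (Or.inl ⟨_, ⟨Or.inr h2, h3⟩, rfl⟩)
          · exact Or.inl (Or.inr ⟨_, ⟨Or.inr h2, h3⟩, rfl⟩)
          · exact Or.inr h2
        · rintro ((⟨y, ⟨rfl | h2, h3⟩, rfl⟩ | ⟨y, ⟨rfl | h2, h3⟩, rfl⟩) | h2)
          · exact absurd h3 hy
          · exact Or.inr (Or.inl (Or.inl ⟨_, ⟨h2, h3⟩, rfl⟩))
          · exact Or.inl rfl
          · exact Or.inr (Or.inl (Or.inr ⟨_, ⟨h2, h3⟩, rfl⟩))
          · exact Or.inr (Or.inr h2)
    · have hupd : upd B (x, some a) = B := by simp [upd, hx]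
      rw [hupd]
      by_cases hy : x + dir a ∈ Λ
      · have hop : opT Λ T (x, some a) = .arr (Sum.inl x) (Sum.inl (x + dir a)) := by
          simp [opT, hy]
        rw [hop, Op.app, if_neg (fun h => hx (hmem.mp h))]
      · have hop : opT Λ T (x, some a) = .arr (Sum.inl x) (Sum.inr (x + dir a, T)) := by
          simp [opT, hy]
        rw [hop, Op.app, if_neg (fun h => hx (hmem.mp h))]

lemma enc_fold (Λ : Finset (Site d)) (T : ℕ) (E : Finset (Site d ⊕ Site d × ℕ))
    (hE : ∀ x, Sum.inl x ∉ E) (w : List (Letter d)) (hw : ∀ l ∈ w, l.1 ∈ Λ) :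
    ∀ B : Finset (Site d), w.foldl (fun Y l => (opT Λ T l).app Y) (enc Λ T B E) =
      enc Λ T (fold B w) E := by
  induction w with
  | nil => intro B; rfl
  | cons l w ih =>
    intro B
    rw [List.foldl_cons, enc_step Λ T B E hE l (hw l (by simp)),
      ih (fun l' hl' => hw l' (by simp [hl']))]
    rfl

open Classical in
/-- The code of the top state and the exits. -/
noncomputable def St (Λ A : Finset (Site d)) (T : ℕ) (ω : Om d) : Finset (Site d ⊕ Site d × ℕ) :=
  (run Λ 0 T ω A).image Sum.inl ∪ (Finset.range T).biUnion fun k =>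
    (exits Λ 0 k ω A).image fun x => Sum.inr (x, k)

lemma St_succ (Λ A : Finset (Site d)) (T : ℕ) (ω : Om d) :
    St Λ A (T + 1) ω =
      (word Λ (0 + T) ω).foldl (fun Y l => (opT Λ T l).app Y) (St Λ A T ω) := by
  classical
  set E : Finset (Site d ⊕ Site d × ℕ) := (Finset.range T).biUnion fun k =>
    (exits Λ 0 k ω A).image fun x => Sum.inr (x, k) with hEdef
  have hE : ∀ x, Sum.inl x ∉ E := by
    intro x hx
    rw [hEdef, Finset.mem_biUnion] at hx
    obtain ⟨k, _, hx⟩ := hx
    rw [Finset.mem_image] at hx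
    obtain ⟨y, _, hy⟩ := hx
    exact absurd hy (by simp)
  have h1 : St Λ A T ω = enc Λ T (run Λ 0 T ω A) E := by
    have h2 : run Λ 0 T ω A ∩ Λ = run Λ 0 T ω A :=
      Finset.inter_eq_left.2 (Run.run_sub _ _ _ _ _)
    have h3 : run Λ 0 T ω A \ Λ = ∅ := Finset.sdiff_eq_empty_iff_subset.2 (Run.run_sub _ _ _ _ _)
    rw [enc, h2, h3, Finset.image_empty, Finset.union_empty]
    rfl
  rw [h1, enc_fold Λ T E hE _ (fun l hl => Word.word_mem hl)]
  unfold St enc
  rw [Finset.range_add_one, Finset.biUnion_insert, ← hEdef, ← Finset.union_assoc]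
  rfl

lemma St_meas (Λ A : Finset (Site d)) (T : ℕ) :
    Measurable[Fs {p : Site d × ℤ | p.2 < T}] (St Λ A T) := by
  induction T with
  | zero =>
    have : St Λ A 0 = fun _ : Om d => St Λ A 0 (fun _ => (0, fun _ => 0)) := by
      funext ω
      simp [St, run]
    rw [this]
    exact measurable_const
  | succ T ih =>
    have h := step_meas Λ (0 + T) (opT Λ T) (St Λ A T) ih
      (J' := {p : Site d × ℤ | p.2 < ((T + 1 : ℕ) : ℤ)})
      (fun p (hp : p.2 < (T : ℤ)) => by
        show p.2 < ((T + 1 : ℕ) : ℤ)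
        push_cast
        omega) (fun p hp => by
        show p.2 < ((T + 1 : ℕ) : ℤ)
        rw [hp]
        push_cast
        omega)
    have e : St Λ A (T + 1) = fun ω : Om d =>
        (word Λ (0 + T) ω).foldl (fun Y l => (opT Λ T l).app Y) (St Λ A T ω) :=
      funext fun ω => St_succ Λ A T ω
    rw [e]
    exact h

theorem df_St (lam : ℝ≥0) (Λ A : Finset (Site d)) (T : ℕ) : DF ((P lam).map (St Λ A T)) := by
  induction T with
  | zero =>
    have : St Λ A 0 = fun _ : Om d => St Λ A 0 (fun _ => (0, fun _ => 0)) := by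
      funext ω
      simp [St, run]
    rw [this]
    exact df_const _ _
  | succ T ih =>
    have e : St Λ A (T + 1) = fun ω : Om d =>
        (word Λ (0 + T) ω).foldl (fun Y l => (opT Λ T l).app Y) (St Λ A T ω) :=
      funext fun ω => St_succ Λ A T ω
    rw [e]
    refine df_step lam Λ (0 + T) (opT Λ T) (St Λ A T) (St_meas Λ A T) ?_ ih
    intro p hp
    have : p.2 < (T : ℤ) := hp
    omega

end enc

end Assoc

theorem assoc_holds : ASSOC_spec := by
  intro d lam Λ A T
  have h := Assoc.df_St lam Λ A T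
  convert h
  unfold Assoc.St
  congr!

end Pool.Agent.Lib.MP_c12170_pr
end

section
/-!
# Consequences of SYM for `run` (helper file)
-/
open MeasureTheory ProbabilityTheory Filter Topology
open scoped ENNReal NNReal

namespace Pool.Agent.Lib.MP_c12170_pr

namespace SymRun

variable {d : ℕ}

/-- The final state as a function of the trace. -/
def runT (Λ A : Finset (Site d)) (L : List (Finset (Site d))) : Finset (Site d) :=
  L.getLast?.getD A ∩ Λ

theorem run_eq (Λ : Finset (Site d)) (s : ℤ) (m : ℕ) (ω : Om d) (A : Finset (Site d)) :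
    run Λ s m ω A = runT Λ A (trace Λ s m ω A) := by
  cases m with
  | zero => simp [run, runT, trace]
  | succ m =>
    rw [Run.trace_succ]
    simp [run, runT]

theorem trace_get (Λ : Finset (Site d)) (s : ℤ) (m : ℕ) (ω : Om d) (A : Finset (Site d)) (k : ℕ)
    (hk : k < m) : (trace Λ s m ω A)[k]?.getD ∅ = strip Λ (s + k) ω (run Λ s k ω A) := by
  simp [trace, List.getElem?_map, List.getElem?_range hk]

/-- The exits as a function of the trace. -/
theorem exits_eq (Λ : Finset (Site d)) (s : ℤ) (m : ℕ) (ω : Om d) (A : Finset (Site d)) (k : ℕ)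
    (hk : k < m) : exits Λ s k ω A = (trace Λ s m ω A)[k]?.getD ∅ \ Λ := by
  rw [trace_get Λ s m ω A k hk, exits]

theorem im_inter (π : Aut d) (A B : Finset (Site d)) : π.im (A ∩ B) = π.im A ∩ π.im B :=
  Finset.map_inter _ _

theorem sym_run (hS : SYM_spec) (lam : ℝ≥0) (π : Aut d) (Λ : Finset (Site d)) (s s' : ℤ) (m : ℕ)
    (A : Finset (Site d)) (Q : Finset (Site d) → Prop) :
    (P lam).real {ω : Om d | Q (run (π.im Λ) s m ω (π.im A))} =
      (P lam).real {ω : Om d | Q (π.im (run Λ s' m ω A))} := by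
  have h := hS d lam π Λ s s' m A (fun L => Q (runT (π.im Λ) (π.im A) L))
  have e2 : ∀ ω : Om d, runT (π.im Λ) (π.im A) ((trace Λ s' m ω A).map π.im) =
      π.im (run Λ s' m ω A) := by
    intro ω
    rw [run_eq, runT, runT, im_inter]
    cases hL : (trace Λ s' m ω A).getLast? with
    | none =>
      rw [List.getLast?_eq_none_iff] at hL
      rw [hL]; simp
    | some B =>
      rw [List.getLast?_map, hL]; simp
  simp only [e2] at h
  simp only [run_eq (π.im Λ)]
  exact h

theorem mem_tr_im {y x : Site d} {A : Finset (Site d)} : x ∈ (Aut.tr y).im A ↔ x - y ∈ A := by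
  simp only [Aut.im, Aut.tr, Finset.mem_map_equiv, Equiv.addRight_symm, Equiv.coe_addRight,
    sub_eq_add_neg]

theorem tr_zero_im (A : Finset (Site d)) : (Aut.tr (0 : Site d)).im A = A := by
  ext x
  rw [mem_tr_im, sub_zero]

theorem tr_neg_im (y : Site d) (A : Finset (Site d)) :
    (Aut.tr (-y)).im ((Aut.tr y).im A) = A := by
  ext x
  rw [mem_tr_im, mem_tr_im]
  simp

theorem tr_im_neg (y : Site d) (A : Finset (Site d)) :
    (Aut.tr y).im ((Aut.tr (-y)).im A) = A := by
  ext x
  rw [mem_tr_im, mem_tr_im]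
  simp

theorem im_nonempty (π : Aut d) (A : Finset (Site d)) : (π.im A).Nonempty ↔ A.Nonempty := by
  simp [Aut.im]

theorem im_bx (y z : Site d) (n : ℕ) : (Aut.tr y).im (bx z n) = bx (z + y) n := by
  ext x
  rw [mem_tr_im]
  simp only [bx, Finset.mem_Icc, Pi.le_def, Pi.add_apply, Pi.sub_apply]
  refine and_congr (forall_congr' fun j => ?_) (forall_congr' fun j => ?_) <;> constructor <;>
    intro h <;> omega

/-- Time shift for `run`. -/
theorem shift_run (hS : SYM_spec) (lam : ℝ≥0) (Λ : Finset (Site d)) (s s' : ℤ) (m : ℕ)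
    (A : Finset (Site d)) (Q : Finset (Site d) → Prop) :
    (P lam).real {ω : Om d | Q (run Λ s m ω A)} =
      (P lam).real {ω : Om d | Q (run Λ s' m ω A)} := by
  have := sym_run hS lam (Aut.tr 0) Λ s s' m A Q
  simpa only [tr_zero_im] using this

end SymRun

end Pool.Agent.Lib.MP_c12170_pr
end

section
open MeasureTheory ProbabilityTheory Filter Topology
open scoped ENNReal NNReal

namespace Pool.Agent.Lib.MP_c12170_pr

namespace Sv

variable {d : ℕ}

theorem run_empty (Λ : Finset (Site d)) (s : ℤ) (m : ℕ) (ω : Om d) : run Λ s m ω ∅ = ∅ := by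
  have hf : ∀ w : List (Letter d), fold (∅ : Finset (Site d)) w = ∅ := by
    intro w
    induction w with
    | nil => rfl
    | cons l w ih =>
      change fold (upd ∅ l) w = ∅
      have : upd (∅ : Finset (Site d)) l = ∅ := by
        ext x
        rw [Run.mem_upd]
        simp
      rw [this, ih]
  induction m with
  | zero => simp [run]
  | succ m ih => simp [run, ih, strip, hf]

theorem run_nonempty_of_le {Λ : Finset (Site d)} {s : ℤ} {m m' : ℕ} (h : m ≤ m') {ω : Om d}
    {A : Finset (Site d)} (hn : (run Λ s m' ω A).Nonempty) : (run Λ s m ω A).Nonempty := by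
  obtain ⟨k, rfl⟩ := Nat.exists_eq_add_of_le h
  by_contra hne
  rw [Finset.not_nonempty_iff_eq_empty] at hne
  rw [Run.run_add, hne, run_empty] at hn
  exact Finset.not_nonempty_empty hn

theorem alive_of_le {s : ℤ} {m m' : ℕ} (h : m ≤ m') {ω : Om d} {A : Finset (Site d)}
    (ha : alive s m' ω A) : alive s m ω A :=
  let ⟨Λ, hΛ⟩ := ha
  ⟨Λ, run_nonempty_of_le h hΛ⟩

theorem run_nonempty_meas (Λ : Finset (Site d)) (s : ℤ) (m : ℕ) (A : Finset (Site d)) :
    MeasurableSet[Fs {p : Site d × ℤ | p.1 ∈ Λ ∧ s ≤ p.2 ∧ p.2 < s + m}]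
      {ω : Om d | (run Λ s m ω A).Nonempty} :=
  Run.run_meas Λ s m A (t := {B | B.Nonempty}) trivial

/-- `alive` only depends on the strips in question. -/
theorem alive_meas_Fs (s : ℤ) (m : ℕ) (A : Finset (Site d)) :
    MeasurableSet[Fs {p : Site d × ℤ | s ≤ p.2 ∧ p.2 < s + m}] {ω : Om d | alive s m ω A} := by
  have : {ω : Om d | alive s m ω A} =
      ⋃ Λ : Finset (Site d), {ω : Om d | (run Λ s m ω A).Nonempty} := by
    ext ω; simp [alive]
  rw [this]
  refine MeasurableSet.iUnion fun Λ => ?_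
  have hsub : {p : Site d × ℤ | p.1 ∈ Λ ∧ s ≤ p.2 ∧ p.2 < s + m} ⊆
      {p : Site d × ℤ | s ≤ p.2 ∧ p.2 < s + m} := fun p hp => ⟨hp.2.1, hp.2.2⟩
  exact Ind.Fs_mono hsub _ (run_nonempty_meas Λ s m A)

theorem alive_meas (s : ℤ) (m : ℕ) (A : Finset (Site d)) :
    MeasurableSet {ω : Om d | alive s m ω A} :=
  Ind.Fs_le _ _ (alive_meas_Fs s m A)

theorem bx_mono (z : Site d) : Monotone (bx z) := by
  intro n n' h x hx
  simp only [bx, Finset.mem_Icc, Pi.le_def] at hx ⊢
  have : (n : ℤ) ≤ n' := by exact_mod_cast h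
  exact ⟨fun j => by have := hx.1 j; omega, fun j => by have := hx.2 j; omega⟩

theorem exists_bx (A : Finset (Site d)) : ∃ n, A ⊆ bx 0 n := by
  induction A using Finset.induction_on with
  | empty => exact ⟨0, by simp⟩
  | insert a A _ ih =>
    obtain ⟨n, hn⟩ := ih
    obtain ⟨n', hn'⟩ : ∃ n', a ∈ bx 0 n' := by
      refine ⟨∑ j, (a j).natAbs, ?_⟩
      simp only [bx, Finset.mem_Icc, Pi.le_def, Pi.zero_apply, zero_sub, zero_add]
      have h : ∀ j, ((a j).natAbs : ℤ) ≤ ((∑ j, (a j).natAbs : ℕ) : ℤ) := by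
        intro j
        exact_mod_cast Finset.single_le_sum (f := fun j => (a j).natAbs)
          (fun _ _ => Nat.zero_le _) (Finset.mem_univ j)
      refine ⟨fun j => ?_, fun j => ?_⟩ <;> have := h j <;> omega
    refine ⟨max n n', ?_⟩
    rw [Finset.insert_subset_iff]
    exact ⟨bx_mono 0 (le_max_right _ _) hn', hn.trans (bx_mono 0 (le_max_left _ _))⟩

theorem alive_iff_box (s : ℤ) (m : ℕ) (ω : Om d) (A : Finset (Site d)) :
    alive s m ω A ↔ ∃ L : ℕ, (run (bx 0 L) s m ω A).Nonempty := by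
  constructor
  · rintro ⟨Λ, hΛ⟩
    obtain ⟨L, hL⟩ := exists_bx Λ
    exact ⟨L, hΛ.mono (Run.run_mono hL s m ω (Finset.Subset.refl A))⟩
  · rintro ⟨L, hL⟩
    exact ⟨_, hL⟩

theorem tendsto_alive (lam : ℝ≥0) (s : ℤ) (m : ℕ) (A : Finset (Site d)) :
    Tendsto (fun L : ℕ => (P lam).real {ω : Om d | (run (bx 0 L) s m ω A).Nonempty}) atTop
      (𝓝 ((P lam).real {ω : Om d | alive s m ω A})) := by
  have hmono : Monotone (fun L : ℕ => {ω : Om d | (run (bx 0 L) s m ω A).Nonempty}) := by
    intro L L' h ω hω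
    exact Finset.Nonempty.mono (Run.run_mono (bx_mono 0 h) s m ω (Finset.Subset.refl A)) hω
  have h := tendsto_measure_iUnion_atTop (μ := P lam) hmono
  have e : (⋃ L : ℕ, {ω : Om d | (run (bx 0 L) s m ω A).Nonempty}) =
      {ω : Om d | alive s m ω A} := by
    ext ω; simp [alive_iff_box]
  rw [e] at h
  exact (ENNReal.tendsto_toReal (measure_ne_top _ _)).comp h

theorem alive_shift (hS : SYM_spec) (lam : ℝ≥0) (s s' : ℤ) (m : ℕ) (A : Finset (Site d)) :
    (P lam).real {ω : Om d | alive s m ω A} = (P lam).real {ω : Om d | alive s' m ω A} := by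
  have h1 := tendsto_alive lam s m A
  have h2 := tendsto_alive lam s' m A
  have h3 : (fun L : ℕ => (P lam).real {ω : Om d | (run (bx 0 L) s m ω A).Nonempty}) =
      fun L : ℕ => (P lam).real {ω : Om d | (run (bx 0 L) s' m ω A).Nonempty} := by
    funext L
    exact SymRun.shift_run hS lam (bx 0 L) s s' m A (fun B => B.Nonempty)
  rw [h3] at h1
  exact tendsto_nhds_unique h1 h2

theorem run_le_sv (lam : ℝ≥0) (Λ : Finset (Site d)) (m : ℕ) (A : Finset (Site d)) :
    (P lam).real {ω : Om d | (run Λ 0 m ω A).Nonempty} ≤ sv lam A m :=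
  measureReal_mono (fun _ hω => ⟨Λ, hω⟩)

theorem sv_tr_le (hS : SYM_spec) (lam : ℝ≥0) (m : ℕ) (A : Finset (Site d)) (y : Site d) :
    sv lam A m ≤ sv lam ((Aut.tr y).im A) m := by
  refine le_of_tendsto (tendsto_alive lam 0 m A) (Eventually.of_forall fun L => ?_)
  have h := SymRun.sym_run hS lam (Aut.tr y) (bx 0 L) 0 0 m A (fun B => B.Nonempty)
  simp only [SymRun.im_nonempty] at h
  rw [← h]
  exact run_le_sv lam _ m _

theorem sv_tr (hS : SYM_spec) (lam : ℝ≥0) (m : ℕ) (A : Finset (Site d)) (y : Site d) :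
    sv lam ((Aut.tr y).im A) m = sv lam A m := by
  refine le_antisymm ?_ (sv_tr_le hS lam m A y)
  have := sv_tr_le hS lam m ((Aut.tr y).im A) (-y)
  rwa [SymRun.tr_neg_im] at this

theorem sv_anti (lam : ℝ≥0) (A : Finset (Site d)) : Antitone (fun m => sv lam A m) :=
  fun _ _ h => measureReal_mono (fun _ hω => alive_of_le h hω)

theorem sv_nonneg (lam : ℝ≥0) (A : Finset (Site d)) (m : ℕ) : 0 ≤ sv lam A m :=
  measureReal_nonneg

theorem sv_le_one (lam : ℝ≥0) (A : Finset (Site d)) (m : ℕ) : sv lam A m ≤ 1 :=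
  measureReal_le_one

theorem sv_mono (lam : ℝ≥0) {A A' : Finset (Site d)} (m : ℕ) (h : A ⊆ A') :
    sv lam A m ≤ sv lam A' m :=
  measureReal_mono (fun ω ⟨Λ, hΛ⟩ =>
    ⟨Λ, hΛ.mono (Run.run_mono (Finset.Subset.refl Λ) 0 m ω h)⟩)

theorem sv_bdd (lam : ℝ≥0) (A : Finset (Site d)) : BddBelow (Set.range fun m => sv lam A m) :=
  ⟨0, by rintro _ ⟨m, rfl⟩; exact sv_nonneg lam A m⟩

theorem sv_tendsto (lam : ℝ≥0) (A : Finset (Site d)) :
    Tendsto (fun m => sv lam A m) atTop (𝓝 (1 - hv lam A)) := by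
  have := tendsto_atTop_ciInf (sv_anti lam A) (sv_bdd lam A)
  simpa [hv] using this

theorem hv_eq (lam : ℝ≥0) (A : Finset (Site d)) :
    hv lam A = (P lam).real {ω : Om d | ∃ m, ¬ alive 0 m ω A} := by
  have hanti : Antitone (fun m : ℕ => {ω : Om d | alive 0 m ω A}) :=
    fun _ _ h _ hω => alive_of_le h hω
  have h := tendsto_measure_iInter_atTop (μ := P lam)
    (fun m => (alive_meas 0 m A).nullMeasurableSet) hanti ⟨0, measure_ne_top _ _⟩
  have h' := (ENNReal.tendsto_toReal (measure_ne_top _ _)).comp h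
  have h2 := tendsto_nhds_unique h' (sv_tendsto lam A)
  have e : {ω : Om d | ∃ m, ¬ alive 0 m ω A} = (⋂ m : ℕ, {ω : Om d | alive 0 m ω A})ᶜ := by
    ext ω; simp
  rw [e, measureReal_compl (MeasurableSet.iInter fun m => alive_meas 0 m A)]
  have h3 : (P lam).real (⋂ m : ℕ, {ω : Om d | alive 0 m ω A}) = 1 - hv lam A := h2
  rw [h3]
  simp

theorem hv_le_one (lam : ℝ≥0) (A : Finset (Site d)) : hv lam A ≤ 1 := by
  rw [hv_eq]; exact measureReal_le_one

theorem hv_nonneg (lam : ℝ≥0) (A : Finset (Site d)) : 0 ≤ hv lam A := by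
  rw [hv_eq]; exact measureReal_nonneg

theorem hv_anti (lam : ℝ≥0) {A A' : Finset (Site d)} (h : A ⊆ A') : hv lam A' ≤ hv lam A := by
  have h1 := sv_tendsto lam A
  have h2 := sv_tendsto lam A'
  have := le_of_tendsto_of_tendsto' h1 h2 (fun m => sv_mono lam m h)
  linarith

theorem one_sub_hv_le (lam : ℝ≥0) (A : Finset (Site d)) (m : ℕ) : 1 - hv lam A ≤ sv lam A m :=
  (sv_anti lam A).le_of_tendsto (sv_tendsto lam A) m

theorem hv_tr (hS : SYM_spec) (lam : ℝ≥0) (A : Finset (Site d)) (y : Site d) :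
    hv lam ((Aut.tr y).im A) = hv lam A := by
  simp only [hv, sv_tr hS]

end Sv

theorem sv_holds (hS : SYM_spec) : SV_spec :=
  ⟨fun _ lam A m => ⟨Sv.sv_nonneg lam A m, Sv.sv_le_one lam A m⟩,
    fun _ lam A _ _ h => Sv.sv_anti lam A h,
    fun _ lam _ _ m h => Sv.sv_mono lam m h,
    fun _ lam A m y => Sv.sv_tr hS lam m A y,
    fun _ lam A s m => Sv.alive_shift hS lam s 0 m A,
    fun _ lam A s m => by
      have h := Sv.tendsto_alive lam s m A
      rwa [Sv.alive_shift hS lam s 0 m A] at h,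
    fun _ lam A => Sv.sv_tendsto lam A,
    fun _ lam A => Sv.hv_eq lam A,
    fun _ _ _ _ _ _ h ha => Sv.alive_of_le h ha⟩

end Pool.Agent.Lib.MP_c12170_pr
end

section
open MeasureTheory ProbabilityTheory Filter Topology
open scoped ENNReal NNReal

namespace Pool.Agent.Lib.MP_c12170_pr

namespace Trials

variable {d : ℕ}

open Classical in
/-- Greedy choice of pairwise disjoint sets. -/
theorem greedy {ι : Type} {V : Type} (J : ι → Set V) (K : ℕ) (hK : 1 ≤ K) (r : ℕ) (S : Finset ι)
    (h : ∀ i ∈ S, (S.filter fun j => ¬ Disjoint (J i) (J j)).card ≤ K) (hr : K * r ≤ S.card) :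
    ∃ R ⊆ S, R.card = r ∧ ∀ i ∈ R, ∀ j ∈ R, i ≠ j → Disjoint (J i) (J j) := by
  induction r generalizing S with
  | zero => exact ⟨∅, Finset.empty_subset _, rfl, by simp⟩
  | succ r ih =>
    have hne : S.Nonempty := by
      rw [← Finset.card_pos]
      nlinarith
    obtain ⟨i, hi⟩ := hne
    set S1 := S.filter fun j => j ≠ i ∧ Disjoint (J i) (J j) with hS1
    have hc : (S.filter fun j => ¬ (j ≠ i ∧ Disjoint (J i) (J j))).card ≤ K := by
      by_cases hJ : J i = ∅
      · refine le_trans (Finset.card_le_card (t := {i}) ?_) (by simpa using hK)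
        intro j hj
        simp only [Finset.mem_filter, hJ, Set.empty_disjoint, and_true, not_not] at hj
        simp [hj.2]
      · refine le_trans (Finset.card_le_card ?_) (h i hi)
        intro j hj
        simp only [Finset.mem_filter] at hj ⊢
        refine ⟨hj.1, fun hd => hj.2 ⟨?_, hd⟩⟩
        rintro rfl
        exact hJ (disjoint_self.1 hd)
    have hcard := Finset.card_filter_add_card_filter_not (s := S)
      (fun j => j ≠ i ∧ Disjoint (J i) (J j))
    have hS1c : K * r ≤ S1.card := by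
      rw [Nat.mul_succ] at hr
      have e1 : S1.card = (S.filter fun j => j ≠ i ∧ Disjoint (J i) (J j)).card := rfl
      omega
    obtain ⟨R, hR1, hR2, hR3⟩ := ih S1 (fun j hj => by
      refine le_trans (Finset.card_le_card ?_) (h j (Finset.mem_of_mem_filter j hj))
      exact Finset.filter_subset_filter _ (Finset.filter_subset _ _)) hS1c
    have hiR : i ∉ R := fun hi' => by
      have := hR1 hi'
      simp [hS1] at this
    refine ⟨insert i R, ?_, ?_, ?_⟩
    · refine Finset.insert_subset hi (hR1.trans (Finset.filter_subset _ _))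
    · rw [Finset.card_insert_of_notMem hiR, hR2]
    · intro j hj k hk hjk
      rw [Finset.mem_insert] at hj hk
      rcases hj with rfl | hj <;> rcases hk with rfl | hk
      · exact absurd rfl hjk
      · exact (Finset.mem_filter.1 (hR1 hk)).2.2
      · exact (Finset.mem_filter.1 (hR1 hj)).2.2.symm
      · exact hR3 j hj k hk hjk

open Classical in
/-- One value of the random set. -/
theorem one (lam : ℝ≥0) {ι : Type} (J0 : Set (Site d × ℤ)) (F : Set (Om d))
    (hF : MeasurableSet[Fs J0] F) (J : ι → Set (Site d × ℤ)) (Tr : ι → Set (Om d)) (f : ℝ)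
    (K r : ℕ) (hf1 : f ≤ 1) (hK : 1 ≤ K) (S : Finset ι)
    (h : ∀ i ∈ S, Disjoint (J i) J0 ∧ MeasurableSet[Fs (J i)] (Tr i) ∧
      f ≤ (P lam).real (Tr i) ∧ (S.filter fun j => ¬ Disjoint (J i) (J j)).card ≤ K) :
    (P lam).real {ω | ω ∈ F ∧ K * r ≤ S.card ∧ ∀ i ∈ S, ω ∉ Tr i} ≤
      (1 - f) ^ r * (P lam).real F := by
  by_cases hr : K * r ≤ S.card
  · obtain ⟨R, hR1, hR2, hR3⟩ := greedy J K hK r S (fun i hi => (h i hi).2.2.2) hr
    have hm : ∀ i ∈ R, MeasurableSet[Fs (J i)] (Tr i)ᶜ := fun i hi => (h i (hR1 hi)).2.1.compl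
    have hR : MeasurableSet[Fs (⋃ i ∈ R, J i)] (⋂ i ∈ R, (Tr i)ᶜ) := by
      refine @Finset.measurableSet_biInter _ _ (Fs (⋃ i ∈ R, J i)) _ R fun i hi => ?_
      exact Ind.Fs_mono (Set.subset_biUnion_of_mem (u := J) hi) _ (hm i hi)
    have hdisj : Disjoint J0 (⋃ i ∈ R, J i) := by
      rw [Set.disjoint_iUnion₂_right]
      exact fun i hi => (h i (hR1 hi)).1.symm
    have hsub : {ω | ω ∈ F ∧ K * r ≤ S.card ∧ ∀ i ∈ S, ω ∉ Tr i} ⊆ F ∩ ⋂ i ∈ R, (Tr i)ᶜ := by
      rintro ω ⟨h1, _, h2⟩
      exact ⟨h1, Set.mem_iInter₂.2 fun i hi => h2 i (hR1 hi)⟩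
    refine (measureReal_mono hsub).trans ?_
    rw [Ind.inter lam hdisj hF hR, Ind.prod_formula lam R J (fun i => (Tr i)ᶜ) hR3 hm, mul_comm]
    refine mul_le_mul_of_nonneg_right ?_ measureReal_nonneg
    rw [← hR2]
    refine (Finset.prod_le_prod (fun _ _ => measureReal_nonneg) (g := fun _ => 1 - f)
      fun i hi => ?_).trans (by rw [Finset.prod_const])
    rw [probReal_compl_eq_one_sub (Ind.Fs_le _ _ (h i (hR1 hi)).2.1)]
    have := (h i (hR1 hi)).2.2.1
    linarith
  · have : {ω | ω ∈ F ∧ K * r ≤ S.card ∧ ∀ i ∈ S, ω ∉ Tr i} = ∅ := by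
      ext ω
      simp [hr]
    rw [this, measureReal_empty]
    exact mul_nonneg (pow_nonneg (by linarith) _) measureReal_nonneg

end Trials

open Classical in
theorem trials_holds : TRIALS_spec := by
  intro d lam ι _ J0 S J Tr f K r hf0 hf1 hK hS h
  set q : ℝ := (1 - f) ^ r with hq
  have hq0 : 0 ≤ q := pow_nonneg (by linarith) _
  have hmS : ∀ S0, MeasurableSet {ω | S ω = S0} := fun S0 => Ind.Fs_le _ _ (hS S0)
  have hsub : {ω | K * r ≤ (S ω).card ∧ ∀ i ∈ S ω, ω ∉ Tr i} ⊆
      ⋃ S0 : Finset ι, {ω | ω ∈ {ω | S ω = S0} ∧ K * r ≤ S0.card ∧ ∀ i ∈ S0, ω ∉ Tr i} := by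
    rintro ω ⟨h1, h2⟩
    exact Set.mem_iUnion.2 ⟨S ω, rfl, h1, h2⟩
  have hone : ∀ S0 : Finset ι,
      P lam {ω | ω ∈ {ω | S ω = S0} ∧ K * r ≤ S0.card ∧ ∀ i ∈ S0, ω ∉ Tr i} ≤
        ENNReal.ofReal q * P lam {ω | S ω = S0} := by
    intro S0
    by_cases hne : ∃ ω, S ω = S0
    · obtain ⟨ω0, rfl⟩ := hne
      have := Trials.one lam J0 {ω | S ω = S ω0} (hS _) J Tr f K r hf1 hK (S ω0) (h ω0)
      rw [← ENNReal.ofReal_toReal (measure_ne_top (P lam)
        {ω | ω ∈ {ω | S ω = S ω0} ∧ K * r ≤ (S ω0).card ∧ ∀ i ∈ S ω0, ω ∉ Tr i}),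
        ← ENNReal.ofReal_toReal (measure_ne_top (P lam) {ω | S ω = S ω0}),
        ← ENNReal.ofReal_mul hq0]
      exact ENNReal.ofReal_le_ofReal this
    · have : {ω | ω ∈ {ω | S ω = S0} ∧ K * r ≤ S0.card ∧ ∀ i ∈ S0, ω ∉ Tr i} = ∅ := by
        ext ω
        simp only [Set.mem_ofPred_eq, Set.mem_empty_iff_false, iff_false]
        rintro ⟨h1, _⟩
        exact hne ⟨ω, h1⟩
      rw [this, measure_empty]
      exact zero_le
  have htot : P lam {ω | K * r ≤ (S ω).card ∧ ∀ i ∈ S ω, ω ∉ Tr i} ≤ ENNReal.ofReal q := by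
    calc P lam {ω | K * r ≤ (S ω).card ∧ ∀ i ∈ S ω, ω ∉ Tr i}
        ≤ P lam (⋃ S0 : Finset ι,
          {ω | ω ∈ {ω | S ω = S0} ∧ K * r ≤ S0.card ∧ ∀ i ∈ S0, ω ∉ Tr i}) := measure_mono hsub
      _ ≤ ∑' S0 : Finset ι,
          P lam {ω | ω ∈ {ω | S ω = S0} ∧ K * r ≤ S0.card ∧ ∀ i ∈ S0, ω ∉ Tr i} :=
        measure_iUnion_le _
      _ ≤ ∑' S0 : Finset ι, ENNReal.ofReal q * P lam {ω | S ω = S0} :=
        ENNReal.tsum_le_tsum hone
      _ = ENNReal.ofReal q * P lam (⋃ S0 : Finset ι, {ω | S ω = S0}) := by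
        rw [ENNReal.tsum_mul_left, measure_iUnion _ hmS]
        intro S1 S2 h12
        rw [Function.onFun, Set.disjoint_left]
        intro ω h1 h2
        exact h12 (h1.symm.trans h2)
      _ ≤ ENNReal.ofReal q * 1 := by gcongr; exact prob_le_one
      _ = ENNReal.ofReal q := mul_one _
  rw [Measure.real]
  exact ENNReal.toReal_le_of_le_ofReal hq0 htot

end Pool.Agent.Lib.MP_c12170_pr
end

section
open MeasureTheory ProbabilityTheory Filter Topology
open scoped ENNReal NNReal

namespace Pool.Agent.Lib.MP_c12170_pr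

namespace TopMove

variable {d : ℕ}

theorem mem_bx {z x : Site d} {n : ℕ} : x ∈ bx z n ↔ ∀ j, |x j - z j| ≤ n := by
  simp only [bx, Finset.mem_Icc, Pi.le_def, abs_le]
  constructor
  · rintro ⟨h1, h2⟩ j
    exact ⟨by have := h1 j; linarith, by have := h2 j; linarith⟩
  · intro h
    exact ⟨fun j => by have := (h j).1; linarith, fun j => by have := (h j).2; linarith⟩

theorem self_mem (z : Site d) (n : ℕ) : z ∈ bx z n := by
  rw [mem_bx]; intro j; simp

theorem card_bx (z : Site d) (n : ℕ) : (bx z n).card = (bx (0 : Site d) n).card := by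
  have := SymRun.im_bx z (0 : Site d) n
  rw [zero_add] at this
  rw [← this, Aut.im, Finset.card_map]

theorem bx_sub {z : Site d} {n m : ℕ} (h : z ∈ bx (0 : Site d) m) : bx z n ⊆ bx 0 (m + n) := by
  intro x hx
  rw [mem_bx] at hx h ⊢
  intro j
  have h1 := hx j
  have h2 := h j
  simp only [Pi.zero_apply, sub_zero] at h2 ⊢
  have h3 := abs_add_le (x j - z j) (z j)
  rw [sub_add_cancel] at h3
  push_cast
  linarith

theorem bx_mono (z : Site d) {n m : ℕ} (h : n ≤ m) : bx z n ⊆ bx z m := by
  intro x hx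
  rw [mem_bx] at hx ⊢
  intro j
  exact (hx j).trans (by exact_mod_cast h)

/-- Two boxes which meet. -/
theorem meet {x y : Site d} {n : ℕ} {w : Site d} (h1 : w ∈ bx x n) (h2 : w ∈ bx y n) :
    y ∈ bx x (2 * n) := by
  rw [mem_bx] at h1 h2 ⊢
  intro j
  have e1 := h1 j
  have e2 := h2 j
  rw [abs_le] at e1 e2 ⊢
  push_cast
  constructor <;> linarith

/-- `f ≤ 1`. -/
theorem fill_le_one {lam : ℝ≥0} {n : ℕ} {f : ℝ} (hf : ∀ (y x : Site d) (k : ℤ),
    x ∈ bx y n → f ≤ (P lam).real {ω : Om d | bx y n ⊆ run (bx y n) k 1 ω {x}}) : f ≤ 1 :=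
  (hf 0 0 0 (self_mem _ _)).trans measureReal_le_one

theorem exists_r {f ε : ℝ} (hf : 0 < f) (hf1 : f ≤ 1) (hε : 0 < ε) : ∃ r : ℕ, (1 - f) ^ r ≤ ε := by
  obtain ⟨r, hr⟩ := exists_pow_lt_of_lt_one hε (show 1 - f < 1 by linarith)
  exact ⟨r, hr.le⟩

/-- Measurability of the event that a box is filled. -/
theorem fill_meas (Λ A B : Finset (Site d)) (s : ℤ) (m : ℕ) :
    MeasurableSet[Fs {p : Site d × ℤ | p.1 ∈ Λ ∧ s ≤ p.2 ∧ p.2 < s + m}]
      {ω : Om d | B ⊆ run Λ s m ω A} :=
  Run.run_meas Λ s m A (t := {X | B ⊆ X}) trivial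

theorem union_bound {μ : Measure (Om d)} [IsProbabilityMeasure μ] {A B H : Set (Om d)} {ε : ℝ}
    (hA : μ.real A ≤ ε) (hB : μ.real B ≤ ε) (h : ∀ ω, ω ∉ A → ω ∉ B → ω ∈ H) :
    1 - 2 * ε ≤ μ.real H := by
  have h1 : (Set.univ : Set (Om d)) ⊆ A ∪ B ∪ H := by
    intro ω _
    by_cases h1 : ω ∈ A
    · exact Or.inl (Or.inl h1)
    · by_cases h2 : ω ∈ B
      · exact Or.inl (Or.inr h2)
      · exact Or.inr (h ω h1 h2)
  have h2 := measureReal_mono (μ := μ) h1
  have h3 := measureReal_union_le (μ := μ) (A ∪ B) H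
  have h4 := measureReal_union_le (μ := μ) A B
  rw [probReal_univ] at h2
  linarith

end TopMove

open Classical in
theorem topmove_holds (hF : FILL_spec) : TOPMOVE_spec := by
  intro d lam hlam n ε hε
  obtain ⟨f, hf0, hf⟩ := hF d lam hlam n
  have hf1 := TopMove.fill_le_one hf
  obtain ⟨r, hr⟩ := TopMove.exists_r hf0 hf1 hε
  set K : ℕ := (bx (0 : Site d) (2 * n)).card with hK
  have hK1 : 1 ≤ K := Finset.card_pos.2 ⟨0, TopMove.self_mem _ _⟩
  refine ⟨K * r, fun L u σ hyp => ?_⟩
  have htr := trials_holds d lam (Site d) {p : Site d × ℤ | p.1 ∈ bx (0 : Site d) L ∧ 0 ≤ p.2 ∧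
      p.2 < 0 + u} (fun ω => (run (bx 0 L) 0 u ω (bx 0 n)).filter (InOrth σ))
    (fun x => {p : Site d × ℤ | p.1 ∈ bx x n ∧ (u : ℤ) ≤ p.2 ∧ p.2 < (u : ℤ) + (1 : ℕ)})
    (fun x => {ω : Om d | bx x n ⊆ run (bx x n) u 1 ω {x}}) f K r hf0.le hf1 hK1
    (fun S0 => Run.run_meas (bx (0 : Site d) L) 0 u (bx 0 n)
      (t := {X | X.filter (InOrth σ) = S0}) trivial) (fun ω x hx => ⟨?_, ?_, ?_, ?_⟩)
  · refine TopMove.union_bound hyp (htr.trans hr) fun ω h1 h2 => ?_
    simp only [Set.mem_ofPred_eq, not_le, not_and, not_forall, not_not] at h1 h2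
    obtain ⟨x, hx, hfill⟩ := h2 h1.le
    rw [Finset.mem_filter] at hx
    have hxL : x ∈ bx (0 : Site d) L := Run.run_sub _ _ _ _ _ hx.1
    refine ⟨(x, u + 1), ⟨hxL, hx.2, rfl⟩, Nat.zero_le _, ?_⟩
    have e : run (bx (0 : Site d) (L + n)) (((0 : ℕ) : ℤ)) (u + 1 - 0) ω (bx 0 n) =
        run (bx (0 : Site d) (L + n)) (0 + u) 1 ω (run (bx (0 : Site d) (L + n)) 0 u ω (bx 0 n)) := by
      rw [Nat.sub_zero, Nat.cast_zero, Run.run_add]
    show bx x n ⊆ _
    rw [e, zero_add]
    refine hfill.trans (Run.run_mono (TopMove.bx_sub hxL) _ _ _ ?_)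
    rw [Finset.singleton_subset_iff]
    exact Run.run_mono (TopMove.bx_mono 0 (Nat.le_add_right L n)) _ _ _ (Finset.Subset.refl _) hx.1
  · rw [Set.disjoint_left]
    rintro p ⟨_, h1, _⟩ ⟨_, _, h2⟩
    omega
  · exact TopMove.fill_meas _ _ _ _ _
  · exact hf x x u (TopMove.self_mem _ _)
  · rw [hK, ← TopMove.card_bx x (2 * n)]
    refine Finset.card_le_card fun y hy => ?_
    rw [Finset.mem_filter, Set.not_disjoint_iff] at hy
    obtain ⟨_, p, hp1, hp2⟩ := hy
    exact TopMove.meet hp1.1 hp2.1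

end Pool.Agent.Lib.MP_c12170_pr
end

section
/-!
# MP_c12170_pr: DIEBOX (helper10)
-/
open MeasureTheory ProbabilityTheory Filter Topology
open scoped ENNReal NNReal

namespace Pool.Agent.Lib.MP_c12170_pr

namespace DieBox

variable {d : ℕ}

/-- recoveries of all points of a list -/
def recs (L : List (Site d)) : List (Letter d) := L.map fun x => (x, none)

theorem fold_rec (L : List (Site d)) : ∀ X : Finset (Site d),
    fold X (recs L) ⊆ X \ L.toFinset := by
  induction L with
  | nil => intro X; simp [recs, fold]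
  | cons x L ih =>
    intro X
    have h : fold X (recs (x :: L)) = fold (X.erase x) (recs L) := rfl
    rw [h]
    refine (ih _).trans ?_
    intro y hy
    rw [Finset.mem_sdiff, Finset.mem_erase] at hy
    rw [Finset.mem_sdiff, List.toFinset_cons, Finset.mem_insert, not_or]
    exact ⟨hy.1.2, hy.1.1, hy.2⟩

end DieBox

open DieBox in
theorem diebox_holds (hW : WLAW_spec) : DIEBOX_spec := by
  intro d lam Λ A
  set w0 : List (Letter d) := recs Λ.toList with hw0
  set q : ℝ := Real.exp (-((Λ.card : ℝ) * (1 + 2 * ((d : ℝ) + 1) * lam))) *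
        (w0.map fun l => (rate lam l.2 : ℝ)).prod / (w0.length.factorial : ℝ) with hq
  have hlaw : ∀ k : ℤ, (P lam).real {ω : Om d | word Λ k ω = w0} = q := by
    intro k
    apply hW
    intro l hl
    rw [hw0, recs, List.mem_map] at hl
    obtain ⟨x, hx, rfl⟩ := hl
    exact Finset.mem_toList.1 hx
  have hprod : (w0.map fun l => (rate lam l.2 : ℝ)).prod = 1 := by
    rw [hw0, recs, List.map_map]
    apply List.prod_eq_one
    intro x hx
    rw [List.mem_map] at hx
    obtain ⟨y, -, rfl⟩ := hx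
    simp [rate]
  have hq0 : 0 < q := by
    rw [hq, hprod]
    positivity
  have hq1 : q ≤ 1 := by
    rw [← hlaw 0]
    exact measureReal_le_one
  have hstep : ∀ u : ℕ, (P lam).real {ω : Om d | (run Λ 0 (u + 1) ω A).Nonempty} ≤
      (P lam).real {ω : Om d | (run Λ 0 u ω A).Nonempty} * (1 - q) := by
    intro u
    have hsub : {ω : Om d | (run Λ 0 (u + 1) ω A).Nonempty} ⊆
        {ω | (run Λ 0 u ω A).Nonempty} ∩ {ω | word Λ (0 + (u : ℤ)) ω = w0}ᶜ := by
      intro ω hω
      have hω' : (strip Λ (0 + (u : ℤ)) ω (run Λ 0 u ω A) ∩ Λ).Nonempty := hω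
      constructor
      · by_contra hne
        rw [Set.mem_ofPred_eq, Finset.not_nonempty_iff_eq_empty] at hne
        have hempty : ∀ w : List (Letter d), fold ∅ w = ∅ := by
          intro w
          induction w with
          | nil => rfl
          | cons l w ih =>
            have : upd (∅ : Finset (Site d)) l = ∅ := by
              unfold upd
              split <;> simp
            change fold (upd ∅ l) w = ∅
            rw [this, ih]
        rw [hne, strip, hempty] at hω'
        simp at hω'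
      · intro hw
        have hw' : word Λ (0 + (u : ℤ)) ω = w0 := hw
        obtain ⟨x, hx⟩ := hω'
        rw [strip, hw', Finset.mem_inter] at hx
        have h1 := fold_rec Λ.toList _ hx.1
        rw [Finset.mem_sdiff, List.mem_toFinset, Finset.mem_toList] at h1
        exact h1.2 hx.2
    refine (measureReal_mono hsub).trans ?_
    have hdisj : Disjoint {p : Site d × ℤ | p.1 ∈ Λ ∧ (0 : ℤ) ≤ p.2 ∧ p.2 < 0 + u}
        {p : Site d × ℤ | p.1 ∈ Λ ∧ p.2 = 0 + (u : ℤ)} := by
      rw [Set.disjoint_left]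
      rintro p ⟨-, -, h3⟩ ⟨-, h4⟩
      omega
    have hm1 : MeasurableSet[Fs {p : Site d × ℤ | p.1 ∈ Λ ∧ (0 : ℤ) ≤ p.2 ∧ p.2 < 0 + u}]
        {ω : Om d | (run Λ 0 u ω A).Nonempty} :=
      Run.run_meas Λ 0 u A (t := {B | B.Nonempty}) trivial
    have hm2 : MeasurableSet[Fs {p : Site d × ℤ | p.1 ∈ Λ ∧ p.2 = 0 + (u : ℤ)}]
        {ω : Om d | word Λ (0 + (u : ℤ)) ω = w0} :=
      Word.word_meas Λ (0 + (u : ℤ)) (t := {w0}) trivial
    rw [Ind.inter lam hdisj hm1 hm2.compl]
    have h3 : (P lam).real {ω : Om d | word Λ (0 + (u : ℤ)) ω = w0}ᶜ = 1 - q := by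
      rw [probReal_compl_eq_one_sub (Ind.Fs_le _ _ hm2), hlaw]
    rw [h3]
  have hbound : ∀ u : ℕ, (P lam).real {ω : Om d | (run Λ 0 u ω A).Nonempty} ≤ (1 - q) ^ u := by
    intro u
    induction u with
    | zero => rw [pow_zero]; exact measureReal_le_one
    | succ u ih =>
      refine (hstep u).trans ?_
      rw [pow_succ]
      exact mul_le_mul_of_nonneg_right ih (by linarith)
  exact squeeze_zero (fun _ => measureReal_nonneg) hbound
    (tendsto_pow_atTop_nhds_zero_of_lt_one (by linarith) (by linarith))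

end Pool.Agent.Lib.MP_c12170_pr
end

section
open MeasureTheory ProbabilityTheory Filter Topology
open scoped ENNReal NNReal

namespace Pool.Agent.Lib.MP_c12170_pr

/-- Extinction probabilities of large boxes are small. -/
theorem infh_holds (hM : MARKOV_spec) : INFH_spec := by
  intro d lam hθ ε hε
  by_contra hcon
  push Not at hcon
  -- every finite set has extinction probability at least `ε`
  have hall : ∀ B : Finset (Site d), ε ≤ hv lam B := by
    intro B
    obtain ⟨n, hn⟩ := Sv.exists_bx B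
    exact (hcon n).le.trans (Sv.hv_anti lam hn)
  set s : ℝ := 1 - hv lam ({0} : Finset (Site d)) with hs
  have hspos : 0 < s := by rw [hs]; linarith
  -- the Markov property at time `t`
  have key : ∀ t : ℕ, ε * s ≤
      (P lam).real ({ω : Om d | alive 0 t ω {0}} ∩ {ω | ∃ m, ¬ alive 0 m ω {0}}) := by
    intro t
    have hm : MeasurableSet[Fs {p : Site d × ℤ | 0 ≤ p.2 ∧ p.2 < t}]
        {ω : Om d | alive 0 t ω {0}} := by
      have hsub : {p : Site d × ℤ | (0 : ℤ) ≤ p.2 ∧ p.2 < 0 + t} ⊆
          {p : Site d × ℤ | 0 ≤ p.2 ∧ p.2 < t} := fun p hp => ⟨hp.1, by have := hp.2; omega⟩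
      exact Ind.Fs_mono hsub _ (Sv.alive_meas_Fs 0 t {0})
    have h1 := hM.2 d lam t {0} {ω : Om d | alive 0 t ω {0}} ε hε.le hm
      (fun ω _ B _ => hall B)
    refine le_trans ?_ h1
    gcongr
    exact Sv.one_sub_hv_le lam {0} t
  -- but the right-hand side tends to zero
  have hlim : Tendsto (fun t : ℕ =>
      (P lam).real ({ω : Om d | alive 0 t ω {0}} ∩ {ω | ∃ m, ¬ alive 0 m ω {0}})) atTop
      (𝓝 0) := by
    have hanti : Antitone (fun t : ℕ =>
        ({ω : Om d | alive 0 t ω {0}} ∩ {ω | ∃ m, ¬ alive 0 m ω {0}})) :=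
      fun _ _ h _ hω => ⟨Sv.alive_of_le h hω.1, hω.2⟩
    have hGm : MeasurableSet {ω : Om d | ∃ m, ¬ alive 0 m ω {0}} := by
      have e : {ω : Om d | ∃ m, ¬ alive 0 m ω {0}} =
          ⋃ m : ℕ, {ω : Om d | alive 0 m ω {0}}ᶜ := by
        ext ω; simp
      rw [e]
      exact MeasurableSet.iUnion fun m => (Sv.alive_meas 0 m {0}).compl
    have h := tendsto_measure_iInter_atTop (μ := P lam)
      (fun t : ℕ => ((Sv.alive_meas 0 t {0}).inter hGm).nullMeasurableSet) hanti
      ⟨0, measure_ne_top _ _⟩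
    have e : (⋂ t : ℕ, ({ω : Om d | alive 0 t ω {0}} ∩ {ω | ∃ m, ¬ alive 0 m ω {0}})) = ∅ := by
      ext ω
      simp only [Set.mem_iInter, Set.mem_inter_iff, Set.mem_ofPred_eq, Set.mem_empty_iff_false,
        iff_false]
      intro h
      obtain ⟨m, hm⟩ := (h 0).2
      exact hm (h m).1
    rw [e, measure_empty] at h
    have h' := (ENNReal.tendsto_toReal ENNReal.zero_ne_top).comp h
    rw [ENNReal.toReal_zero] at h'
    exact h'
  have := ge_of_tendsto' hlim key
  have : 0 < ε * s := mul_pos hε hspos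
  linarith

end Pool.Agent.Lib.MP_c12170_pr
end
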