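import Pool.Agent.Lib.MP_c12170_pr.Infh

section
open MeasureTheory ProbabilityTheory Filter Topology
open scoped ENNReal NNReal

namespace Pool.Agent.Lib.MP_c12170_pr

namespace Bridge

variable {d : ℕ}

/-! ### The almost sure event -/

/-- No label is `0` or `1`. -/
def G1 (ω : Om d) : Prop :=
  ∀ (l : Letter d) (k : ℤ) (j : ℕ), (ω (l, k)).2 j ≠ 0 ∧ (ω (l, k)).2 j ≠ 1

/-- Different marks of one strip have different labels. -/
def G2 (ω : Om d) : Prop :=
  ∀ (k : ℤ) (m m' : Σ _ : Letter d, ℕ), m ≠ m' → (ω (m.1, k)).2 m.2 ≠ (ω (m'.1, k)).2 m'.2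

theorem label_null (lam : ℝ≥0) (p : Letter d × ℤ) (j : ℕ) (c : unitInterval) :
    ((poissonMeasure (rate lam p.1.2)).prod
      (Measure.infinitePi fun _ : ℕ => (volume : Measure unitInterval)))
      {a : ℕ × (ℕ → unitInterval) | a.2 j = c} = 0 := by
  have h1 : (Measure.infinitePi fun _ : ℕ => (volume : Measure unitInterval))
      {u : ℕ → unitInterval | u j = c} = 0 := by
    have hmp := measurePreserving_eval_infinitePi
      (fun _ : ℕ => (volume : Measure unitInterval)) j
    have := hmp.measure_preimage (measurableSet_singleton c).nullMeasurableSet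
    rw [measure_singleton] at this
    exact this
  have h2 : {a : ℕ × (ℕ → unitInterval) | a.2 j = c} =
      Set.univ ×ˢ {u : ℕ → unitInterval | u j = c} := by
    ext a; simp
  rw [h2, Measure.prod_prod, h1, mul_zero]

theorem g1_ae (lam : ℝ≥0) : ∀ᵐ ω ∂(P (d := d) lam), G1 ω := by
  unfold G1
  rw [ae_all_iff]; intro l
  rw [ae_all_iff]; intro k
  rw [ae_all_iff]; intro j
  have key : ∀ c : unitInterval, ∀ᵐ ω ∂(P (d := d) lam), (ω (l, k)).2 j ≠ c := by
    intro c
    rw [ae_iff]
    simp only [not_not]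
    have hmp := measurePreserving_eval_infinitePi
      (fun p : Letter d × ℤ => (poissonMeasure (rate lam p.1.2)).prod
        (Measure.infinitePi fun _ : ℕ => (volume : Measure unitInterval))) (l, k)
    have hms : MeasurableSet {a : ℕ × (ℕ → unitInterval) | a.2 j = c} :=
      measurableSet_eq_fun ((measurable_pi_apply j).comp measurable_snd) measurable_const
    have := hmp.measure_preimage hms.nullMeasurableSet
    rw [label_null lam (l, k) j c] at this
    exact this
  filter_upwards [key 0, key 1] with ω h0 h1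
  exact ⟨h0, h1⟩

theorem pair_null {ι : Type*} {X : Type*} [MeasurableSpace X] (μ : ι → Measure X)
    [∀ i, IsProbabilityMeasure (μ i)] {i j : ι} (hij : i ≠ j) (f g : X → unitInterval)
    (hf : Measurable f) (hg : Measurable g) (h0 : ∀ c, μ i {x | f x = c} = 0) :
    (Measure.infinitePi μ) {ω | f (ω i) = g (ω j)} = 0 := by
  have hmap := Measure.infinitePi_map_eval_prod (P := μ) hij
  have hms : MeasurableSet {p : X × X | f p.1 = g p.2} :=
    measurableSet_eq_fun (hf.comp measurable_fst) (hg.comp measurable_snd)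
  have h1 : (Measure.infinitePi μ) {ω | f (ω i) = g (ω j)} =
      ((Measure.infinitePi μ).map (fun ω ↦ (ω i, ω j))) {p : X × X | f p.1 = g p.2} := by
    rw [Measure.map_apply ((measurable_pi_apply i).prodMk (measurable_pi_apply j)) hms]
    rfl
  rw [h1, hmap, Measure.prod_apply_symm hms]
  have h2 : ∀ y : X, μ i ((fun x => (x, y)) ⁻¹' {p : X × X | f p.1 = g p.2}) = 0 := by
    intro y
    exact h0 (g y)
  simp only [h2, lintegral_zero]

theorem g2_ae (lam : ℝ≥0) : ∀ᵐ ω ∂(P (d := d) lam), G2 ω := by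
  unfold G2
  rw [ae_all_iff]; intro k
  rw [ae_all_iff]; intro m
  rw [ae_all_iff]; intro m'
  by_cases hmm : m = m'
  · exact Eventually.of_forall fun ω h => absurd hmm h
  obtain ⟨l, j⟩ := m
  obtain ⟨l', j'⟩ := m'
  have hfm : ∀ j : ℕ, Measurable (fun a : ℕ × (ℕ → unitInterval) => a.2 j) := fun j =>
    (measurable_pi_apply j).comp measurable_snd
  by_cases hl : l = l'
  · subst hl
    have hj : j ≠ j' := fun h => hmm (by rw [h])
    have h1 : (Measure.infinitePi fun _ : ℕ => (volume : Measure unitInterval))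
        {u : ℕ → unitInterval | u j = u j'} = 0 :=
      pair_null (fun _ : ℕ => (volume : Measure unitInterval)) hj (fun x => x) (fun x => x)
        measurable_id measurable_id (fun c => measure_singleton c)
    have h2 : ((poissonMeasure (rate lam l.2)).prod
        (Measure.infinitePi fun _ : ℕ => (volume : Measure unitInterval)))
        {a : ℕ × (ℕ → unitInterval) | a.2 j = a.2 j'} = 0 := by
      have h3 : {a : ℕ × (ℕ → unitInterval) | a.2 j = a.2 j'} =
          Set.univ ×ˢ {u : ℕ → unitInterval | u j = u j'} := by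
        ext a; simp
      rw [h3, Measure.prod_prod, h1, mul_zero]
    have hmp := measurePreserving_eval_infinitePi
      (fun p : Letter d × ℤ => (poissonMeasure (rate lam p.1.2)).prod
        (Measure.infinitePi fun _ : ℕ => (volume : Measure unitInterval))) (l, k)
    have hms : MeasurableSet {a : ℕ × (ℕ → unitInterval) | a.2 j = a.2 j'} :=
      measurableSet_eq_fun (hfm j) (hfm j')
    have h4 := hmp.measure_preimage hms.nullMeasurableSet
    rw [h2] at h4
    have h5 : ∀ᵐ ω ∂(P (d := d) lam), (ω (l, k)).2 j ≠ (ω (l, k)).2 j' := by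
      rw [ae_iff]
      simp only [not_not]
      exact h4
    filter_upwards [h5] with ω hω _
    exact hω
  · have hne : ((l, k) : Letter d × ℤ) ≠ (l', k) := fun h => hl (congrArg Prod.fst h)
    have h5 : ∀ᵐ ω ∂(P (d := d) lam), (ω (l, k)).2 j ≠ (ω (l', k)).2 j' := by
      rw [ae_iff]
      simp only [not_not]
      exact pair_null (fun p : Letter d × ℤ => (poissonMeasure (rate lam p.1.2)).prod
        (Measure.infinitePi fun _ : ℕ => (volume : Measure unitInterval))) hne
        (fun a => a.2 j) (fun a => a.2 j') (hfm j) (hfm j')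
        (fun c => label_null lam (l, k) j c)
    filter_upwards [h5] with ω hω _
    exact hω

/-! ### Active paths -/

theorem active_le {ω : Om d} {x y : Site d} {s t : ℝ} (h : Active ω x s y t) : s ≤ t := by
  induction h with
  | refl => exact le_rfl
  | stay _ ht _ ih => exact ih.trans ht
  | arrow _ _ ih => exact ih

theorem active_trans {ω : Om d} {x y z : Site d} {s t u : ℝ} (h : Active ω x s y t)
    (h' : Active ω y t z u) : Active ω x s z u := by
  induction h' with
  | refl => exact h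
  | stay _ ht hr ih => exact Active.stay ih ht hr
  | arrow _ ha ih => exact Active.arrow ih ha

theorem active_split {ω : Om d} {x y : Site d} {s t : ℝ} (h : Active ω x s y t) {r : ℝ}
    (h1 : s ≤ r) (h2 : r ≤ t) : ∃ z, Active ω x s z r ∧ Active ω z r y t := by
  induction h with
  | refl =>
    obtain rfl : s = r := le_antisymm h1 h2
    exact ⟨x, Active.refl, Active.refl⟩
  | @stay y t t' h ht hr ih =>
    by_cases hrt : r ≤ t
    · obtain ⟨z, hz1, hz2⟩ := ih hrt
      exact ⟨z, hz1, Active.stay hz2 ht hr⟩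
    · push Not at hrt
      exact ⟨y, Active.stay h hrt.le fun u hu1 hu2 => hr u hu1 (hu2.trans h2),
        Active.stay Active.refl h2 fun u hu1 hu2 => hr u (hrt.trans hu1) hu2⟩
  | arrow h ha ih =>
    obtain ⟨z, hz1, hz2⟩ := ih h2
    exact ⟨z, hz1, Active.arrow hz2 ha⟩

/-- The real time of a mark. -/
noncomputable def tm (k : ℤ) (ω : Om d) (m : Σ _ : Letter d, ℕ) : ℝ :=
  k + ((ω (m.1, k)).2 m.2 : ℝ)

theorem tm_bounds {ω : Om d} (h : G1 ω) (k : ℤ) (m : Σ _ : Letter d, ℕ) :
    (k : ℝ) < tm k ω m ∧ tm k ω m < k + 1 := by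
  obtain ⟨h0, h1⟩ := h m.1 k m.2
  have h2 := (ω (m.1, k)).2 m.2 |>.2
  have h3 : ((ω (m.1, k)).2 m.2 : ℝ) ≠ 0 := fun h => h0 (Subtype.ext h)
  have h4 : ((ω (m.1, k)).2 m.2 : ℝ) ≠ 1 := fun h => h1 (Subtype.ext h)
  have h5 : 0 < ((ω (m.1, k)).2 m.2 : ℝ) := lt_of_le_of_ne h2.1 h3.symm
  have h6 : ((ω (m.1, k)).2 m.2 : ℝ) < 1 := lt_of_le_of_ne h2.2 h4
  unfold tm
  constructor <;> linarith

theorem isMark_strip {ω : Om d} (h : G1 ω) {k : ℤ} {l : Letter d} {t : ℝ} (hm : IsMark ω l t)
    (h1 : (k : ℝ) ≤ t) (h2 : t ≤ k + 1) :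
    ∃ j, j < (ω (l, k)).1 ∧ t = tm k ω ⟨l, j⟩ := by
  obtain ⟨k', j, hj, ht⟩ := hm
  have h3 := tm_bounds h k' ⟨l, j⟩
  have h4 : t = tm k' ω ⟨l, j⟩ := ht
  have h5 : k' = k := by
    have e1 : (k' : ℝ) < k + 1 := by linarith [h3.1]
    have e2 : (k : ℝ) < k' + 1 := by linarith [h3.2]
    have e3 : k' < k + 1 := by exact_mod_cast e1
    have e4 : k < k' + 1 := by exact_mod_cast e2
    omega
  subst h5
  exact ⟨j, hj, h4⟩

theorem isMark_of_mem {ω : Om d} {Λ : Finset (Site d)} {k : ℤ} {m : Σ _ : Letter d, ℕ}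
    (hm : m ∈ marks Λ k ω) : IsMark ω m.1 (tm k ω m) :=
  ⟨k, m.2, (Word.mem_marks.1 hm).2, rfl⟩

/-- The sorted list of marks. -/
noncomputable def ML (Λ : Finset (Site d)) (k : ℤ) (ω : Om d) : List (Σ _ : Letter d, ℕ) :=
  (marks Λ k ω).sort (keyLE k ω)

theorem word_eq (Λ : Finset (Site d)) (k : ℤ) (ω : Om d) :
    word Λ k ω = (ML Λ k ω).map Sigma.fst := rfl

theorem mem_ML {Λ : Finset (Site d)} {k : ℤ} {ω : Om d} {m : Σ _ : Letter d, ℕ} :
    m ∈ ML Λ k ω ↔ m ∈ marks Λ k ω := by
  simp [ML]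

theorem ML_sorted {ω : Om d} (h : G2 ω) (Λ : Finset (Site d)) (k : ℤ) :
    (ML Λ k ω).Pairwise (fun m m' => tm k ω m < tm k ω m') := by
  have h1 : (ML Λ k ω).Pairwise (keyLE k ω) := Finset.pairwise_sort _ _
  have h2 : (ML Λ k ω).Nodup := Finset.sort_nodup _ _
  refine (h1.and h2).imp ?_
  rintro m m' ⟨h3, h4⟩
  have h5 := h k m m' h4
  rw [Word.keyLE_iff] at h3
  rcases h3 with h3 | h3
  · unfold tm
    have : ((ω (m.1, k)).2 m.2 : ℝ) < ((ω (m'.1, k)).2 m'.2 : ℝ) := h3
    linarith
  · exact absurd h3.1 h5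

/-- Backward direction in one strip: the state after a prefix of the marks is reached by active
paths, up to the time of the last mark. -/
theorem prefix_active {ω : Om d} (hg1 : G1 ω) (hg2 : G2 ω) {Λ A : Finset (Site d)}
    (k : ℤ) (L1 L2 : List (Σ _ : Letter d, ℕ)) (hL : ML Λ k ω = L1 ++ L2) :
    ∀ x ∈ fold A (L1.map Sigma.fst), x ∈ Λ →
      ∃ y ∈ A, ∃ t : ℝ, Active ω y k x t ∧ t ≤ k + 1 ∧
        (∀ m ∈ L1, tm k ω m ≤ t) ∧ (∀ m ∈ L2, t < tm k ω m) ∧ t < k + 1 := by
  induction L1 using List.reverseRecOn generalizing L2 with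
  | nil =>
    intro x hx _
    refine ⟨x, hx, k, Active.refl, by linarith, by simp, fun m _ => (tm_bounds hg1 k m).1,
      by linarith⟩
  | append_singleton L1 m ih =>
    intro x hx hxΛ
    have hL' : ML Λ k ω = L1 ++ (m :: L2) := by rw [hL]; simp
    have hsort := ML_sorted hg2 Λ k
    rw [hL'] at hsort
    have hmem : m ∈ marks Λ k ω := by rw [← mem_ML, hL']; simp
    -- no other mark between
    have hstay : ∀ z ∈ Λ, (m.1 ≠ (z, none)) → z ∈ fold A (L1.map Sigma.fst) →
        ∃ y ∈ A, Active ω y k z (tm k ω m) := by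
      intro z hzΛ hmz hz
      obtain ⟨y, hy, t, hact, ht1, htL1, htL2, _⟩ := ih (m :: L2) hL' z hz hzΛ
      have htm : t < tm k ω m := htL2 m (by simp)
      refine ⟨y, hy, Active.stay hact htm.le fun r hr1 hr2 hmark => ?_⟩
      have hk1 : (k : ℝ) ≤ t := active_le hact
      have hb := tm_bounds hg1 k m
      obtain ⟨j, hj, hrj⟩ := isMark_strip hg1 hmark (by linarith : (k : ℝ) ≤ r)
        (by linarith : r ≤ k + 1)
      have hmem' : (⟨(z, none), j⟩ : Σ _ : Letter d, ℕ) ∈ ML Λ k ω := by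
        rw [mem_ML, Word.mem_marks]
        exact ⟨hzΛ, hj⟩
      rw [hL', List.mem_append, List.mem_cons] at hmem'
      rcases hmem' with h | h | h
      · have := htL1 _ h
        rw [← hrj] at this
        linarith
      · exact hmz (by rw [← h])
      · have h3 := (List.pairwise_append.1 hsort).2.1
        rw [List.pairwise_cons] at h3
        have := h3.1 _ h
        rw [← hrj] at this
        linarith
    have hlast1 : ∀ m' ∈ L1 ++ [m], tm k ω m' ≤ tm k ω m := by
      intro m' hm'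
      rcases List.mem_append.1 hm' with h | h
      · have h3 := (List.pairwise_append.1 hsort).2.2
        exact (h3 m' h m (by simp)).le
      · rw [List.mem_singleton] at h
        rw [h]
    have hlast2 : ∀ m' ∈ L2, tm k ω m < tm k ω m' := by
      intro m' hm'
      have h3 := (List.pairwise_append.1 hsort).2.1
      rw [List.pairwise_cons] at h3
      exact h3.1 _ hm'
    have hb := tm_bounds hg1 k m
    have hfold : fold A ((L1 ++ [m]).map Sigma.fst) = upd (fold A (L1.map Sigma.fst)) m.1 := by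
      simp [fold]
    rw [hfold, Run.mem_upd] at hx
    rcases hx with ⟨h1, h2, h3⟩ | ⟨a, h1, h2 | ⟨h2, h3⟩⟩
    · obtain ⟨y, hy, hact⟩ := hstay x hxΛ (fun h => h3 (by rw [h])) h2
      exact ⟨y, hy, _, hact, hb.2.le, hlast1, hlast2, hb.2⟩
    · obtain ⟨y, hy, hact⟩ := hstay x hxΛ (fun h => by rw [h] at h1; simp at h1) h2
      exact ⟨y, hy, _, hact, hb.2.le, hlast1, hlast2, hb.2⟩
    · have hsrc : m.1.1 ∈ Λ := (Word.mem_marks.1 hmem).1
      obtain ⟨y, hy, hact⟩ := hstay m.1.1 hsrc (fun h => by rw [h] at h1; simp at h1) h2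
      have hm1 : m.1 = (m.1.1, some a) := by rw [← h1]
      have hmk : IsMark ω (m.1.1, some a) (tm k ω m) := hm1 ▸ isMark_of_mem hmem
      refine ⟨y, hy, _, ?_, hb.2.le, hlast1, hlast2, hb.2⟩
      rw [h3]
      exact Active.arrow hact hmk

theorem strip_active {ω : Om d} (hg1 : G1 ω) (hg2 : G2 ω) {Λ A : Finset (Site d)}
    (k : ℤ) {x : Site d} (hx : x ∈ strip Λ k ω A) (hxΛ : x ∈ Λ) :
    ∃ y ∈ A, Active ω y k x (k + 1) := by
  obtain ⟨y, hy, t, hact, ht1, htL, _, _⟩ := prefix_active hg1 hg2 k (ML Λ k ω) []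
    (by simp) x hx hxΛ
  refine ⟨y, hy, Active.stay hact ht1 fun r hr1 hr2 hmark => ?_⟩
  have hk1 : (k : ℝ) ≤ t := active_le hact
  obtain ⟨j, hj, hrj⟩ := isMark_strip hg1 hmark (by linarith : (k : ℝ) ≤ r) hr2
  have hmem' : (⟨(x, none), j⟩ : Σ _ : Letter d, ℕ) ∈ ML Λ k ω := by
    rw [mem_ML, Word.mem_marks]
    exact ⟨hxΛ, hj⟩
  have := htL _ hmem'
  rw [← hrj] at this
  linarith

theorem run_active {ω : Om d} (hg1 : G1 ω) (hg2 : G2 ω) {Λ A : Finset (Site d)} (s : ℤ) (m : ℕ)
    {x : Site d} (hx : x ∈ run Λ s m ω A) :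
    ∃ y ∈ A, Active ω y s x (s + m) := by
  induction m generalizing x with
  | zero =>
    simp only [run, Finset.mem_inter] at hx
    refine ⟨x, hx.1, ?_⟩
    simpa using Active.refl (ω := ω) (x := x) (s := (s : ℝ))
  | succ m ih =>
    simp only [run, Finset.mem_inter] at hx
    obtain ⟨z, hz, hact⟩ := strip_active hg1 hg2 (s + m) hx.1 hx.2
    obtain ⟨y, hy, hact'⟩ := ih hz
    refine ⟨y, hy, ?_⟩
    have h1 : (((s + m : ℤ)) : ℝ) = (s : ℝ) + m := by push_cast; ring
    rw [h1] at hact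
    have := active_trans hact' hact
    have h2 : (s : ℝ) + m + 1 = s + (m + 1 : ℕ) := by push_cast; ring
    rw [h2] at this
    exact this

/-- State after the marks up to time `t`. -/
noncomputable def st (Λ : Finset (Site d)) (k : ℤ) (ω : Om d) (A : Finset (Site d)) (t : ℝ) :
    Finset (Site d) := by
  classical
  exact fold A (((ML Λ k ω).filter (fun m => tm k ω m ≤ t)).map Sigma.fst)

theorem filter_split {α : Type*} (f : α → ℝ) (L : List α)
    (hL : L.Pairwise (fun a b => f a < f b)) (p q : α → Prop) [DecidablePred p] [DecidablePred q]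
    (h1 : ∀ a, p a → q a)
    (h2 : ∀ a b, f a < f b → p b → p a) :
    L.filter q = L.filter p ++ L.filter (fun a => q a ∧ ¬ p a) := by
  induction L with
  | nil => rfl
  | cons a L ih =>
    rw [List.pairwise_cons] at hL
    by_cases hp : p a
    · simp only [List.filter_cons, hp, h1 a hp, decide_true, ↓reduceIte, not_true_eq_false,
        and_false, decide_false, Bool.false_eq_true, List.cons_append]
      rw [ih hL.2]
    · have hnone : L.filter p = [] := by
        rw [List.filter_eq_nil_iff]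
        intro b hb
        simp only [decide_eq_true_eq]
        exact fun hpb => hp (h2 a b (hL.1 b hb) hpb)
      have ih' := ih hL.2
      rw [hnone, List.nil_append] at ih'
      simp only [List.filter_cons, hp, decide_false, Bool.false_eq_true, ↓reduceIte, hnone,
        List.nil_append, not_false_eq_true, and_true]
      rw [ih']

theorem fold_stay {x : Site d} {w : List (Letter d)} (hw : ∀ l ∈ w, l ≠ (x, none))
    {A : Finset (Site d)} (hx : x ∈ A) : x ∈ fold A w := by
  induction w generalizing A with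
  | nil => exact hx
  | cons l w ih =>
    refine ih (fun l' hl' => hw l' (by simp [hl'])) (A := upd A l) ?_
    rw [Run.mem_upd]
    have hl := hw l (by simp)
    rcases ho : l.2 with _ | a
    · refine Or.inl ⟨rfl, hx, fun h => hl ?_⟩
      rw [h, ← ho]
    · exact Or.inr ⟨a, rfl, Or.inl hx⟩

theorem st_zero {ω : Om d} (hg1 : G1 ω) (Λ : Finset (Site d)) (k : ℤ) (A : Finset (Site d)) :
    st Λ k ω A k = A := by
  classical
  have : (ML Λ k ω).filter (fun m => tm k ω m ≤ k) = [] := by
    rw [List.filter_eq_nil_iff]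
    intro m _
    simp only [decide_eq_true_eq, not_le]
    exact (tm_bounds hg1 k m).1
  simp [st, this, fold]

theorem st_one {ω : Om d} (hg1 : G1 ω) (Λ : Finset (Site d)) (k : ℤ) (A : Finset (Site d)) :
    st Λ k ω A (k + 1) = strip Λ k ω A := by
  classical
  have : (ML Λ k ω).filter (fun m => tm k ω m ≤ k + 1) = ML Λ k ω := by
    rw [List.filter_eq_self]
    intro m _
    simp only [decide_eq_true_eq]
    exact (tm_bounds hg1 k m).2.le
  simp only [st, this, strip, word_eq]

theorem st_stay {ω : Om d} (hg2 : G2 ω) {Λ : Finset (Site d)} {k : ℤ} {A : Finset (Site d)}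
    {x : Site d} {t t' : ℝ} (ht : t ≤ t')
    (hr : ∀ r, t < r → r ≤ t' → ¬ IsMark ω (x, none) r)
    (hx : x ∈ st Λ k ω A t) : x ∈ st Λ k ω A t' := by
  classical
  have hs := filter_split (tm k ω) (ML Λ k ω) (ML_sorted hg2 Λ k)
    (fun m => tm k ω m ≤ t) (fun m => tm k ω m ≤ t')
    (fun m hm => hm.trans ht) (fun m m' hmm hm' => hmm.le.trans hm')
  unfold st at hx ⊢
  rw [hs, List.map_append]
  unfold fold at hx ⊢
  rw [List.foldl_append]
  refine fold_stay ?_ hx
  intro l hl hlx
  rw [List.mem_map] at hl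
  obtain ⟨m, hm, rfl⟩ := hl
  rw [List.mem_filter] at hm
  simp only [not_le, Bool.decide_and, Bool.and_eq_true, decide_eq_true_eq] at hm
  have hmk := isMark_of_mem (mem_ML.1 hm.1)
  rw [hlx] at hmk
  exact hr _ hm.2.2 hm.2.1 hmk

theorem st_arrow {ω : Om d} (hg2 : G2 ω) {Λ : Finset (Site d)} {k : ℤ} {A : Finset (Site d)}
    {y : Site d} {a : Dir d} {m : Σ _ : Letter d, ℕ} (hm : m ∈ marks Λ k ω)
    (hma : m.1 = (y, some a)) (hy : y ∈ st Λ k ω A (tm k ω m)) :
    y + dir a ∈ st Λ k ω A (tm k ω m) := by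
  classical
  have hs := filter_split (tm k ω) (ML Λ k ω) (ML_sorted hg2 Λ k)
    (fun m' => tm k ω m' < tm k ω m) (fun m' => tm k ω m' ≤ tm k ω m)
    (fun m' hm' => hm'.le) (fun m' m'' hmm hm' => hmm.trans hm')
  set M := (ML Λ k ω).filter (fun m' => tm k ω m' ≤ tm k ω m ∧ ¬ tm k ω m' < tm k ω m) with hM
  have hMall : ∀ m' ∈ M, tm k ω m' = tm k ω m := by
    intro m' hm'
    rw [hM, List.mem_filter] at hm'
    simp only [not_lt, Bool.decide_and, Bool.and_eq_true, decide_eq_true_eq] at hm'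
    exact le_antisymm hm'.2.1 hm'.2.2
  have hMm : m ∈ M := by
    rw [hM, List.mem_filter]
    exact ⟨mem_ML.2 hm, by simp⟩
  have hMsort : M.Pairwise (fun m m' => tm k ω m < tm k ω m') :=
    (ML_sorted hg2 Λ k).filter _
  have hMeq : M = [m] := by
    cases hMc : M with
    | nil => rw [hMc] at hMm; simp at hMm
    | cons m1 M' =>
      cases M' with
      | nil =>
        rw [hMc, List.mem_singleton] at hMm
        rw [hMm]
      | cons m2 M'' =>
        exfalso
        rw [hMc, List.pairwise_cons] at hMsort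
        have h1 := hMsort.1 m2 (by simp)
        have h2 := hMall m1 (by rw [hMc]; simp)
        have h3 := hMall m2 (by rw [hMc]; simp)
        linarith
  have hst : st Λ k ω A (tm k ω m) = upd (fold A (((ML Λ k ω).filter
      (fun m' => tm k ω m' < tm k ω m)).map Sigma.fst)) (y, some a) := by
    unfold st
    rw [hs, hMeq, List.map_append, List.map_singleton, hma]
    unfold fold
    rw [List.foldl_append]
    rfl
  rw [hst, Run.mem_upd] at hy ⊢
  refine Or.inr ⟨a, rfl, Or.inr ⟨?_, rfl⟩⟩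
  rcases hy with ⟨h1, _⟩ | ⟨a', _, h2 | ⟨h2, _⟩⟩
  · simp at h1
  · exact h2
  · exact h2

/-- Forward direction in one strip. -/
theorem active_st {ω : Om d} (hg1 : G1 ω) (hg2 : G2 ω) {k : ℤ} {y x : Site d} {t : ℝ}
    (h : Active ω y k x t) (ht : t ≤ k + 1) :
    ∃ Λ0 : Finset (Site d), ∀ Λ, Λ0 ⊆ Λ → x ∈ st Λ k ω {y} t := by
  induction h with
  | refl => exact ⟨∅, fun Λ _ => by rw [st_zero hg1]; simp⟩
  | @stay x t t' h htt hr ih =>
    obtain ⟨Λ0, hΛ0⟩ := ih (htt.trans ht)
    exact ⟨Λ0, fun Λ hΛ => st_stay hg2 htt hr (hΛ0 Λ hΛ)⟩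
  | @arrow x t a h ha ih =>
    obtain ⟨Λ0, hΛ0⟩ := ih ht
    refine ⟨insert x Λ0, fun Λ hΛ => ?_⟩
    obtain ⟨j, hj, htj⟩ := isMark_strip hg1 ha (active_le h) ht
    have h1 := hΛ0 Λ ((Finset.subset_insert _ _).trans hΛ)
    have hxΛ : x ∈ Λ := hΛ (Finset.mem_insert_self _ _)
    rw [htj] at h1 ⊢
    exact st_arrow hg2 (Word.mem_marks.2 ⟨hxΛ, hj⟩) rfl h1

theorem active_run {ω : Om d} (hg1 : G1 ω) (hg2 : G2 ω) (s : ℤ) (m : ℕ) {y x : Site d}
    (h : Active ω y s x (s + m)) :
    ∃ Λ0 : Finset (Site d), ∀ Λ, Λ0 ⊆ Λ → x ∈ run Λ s m ω {y} := by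
  induction m generalizing x with
  | zero =>
    obtain ⟨Λ0, hΛ0⟩ := active_st hg1 hg2 (k := s) (t := (s : ℝ)) (by simpa using h)
      (by linarith)
    refine ⟨insert y Λ0, fun Λ hΛ => ?_⟩
    have h1 := hΛ0 Λ ((Finset.subset_insert _ _).trans hΛ)
    rw [st_zero hg1, Finset.mem_singleton] at h1
    rw [h1]
    simp only [run, Finset.mem_inter, Finset.mem_singleton, true_and]
    exact hΛ (Finset.mem_insert_self _ _)
  | succ m ih =>
    obtain ⟨z, hz1, hz2⟩ := active_split h (r := (s : ℝ) + m)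
      (by have : (0 : ℝ) ≤ m := Nat.cast_nonneg m
          linarith) (by push_cast; linarith)
    obtain ⟨Λ0, hΛ0⟩ := ih hz1
    have e1 : (s : ℝ) + m = ((s + m : ℤ) : ℝ) := by push_cast; ring
    have e2 : (s : ℝ) + ((m + 1 : ℕ) : ℝ) = ((s + m : ℤ) : ℝ) + 1 := by push_cast; ring
    rw [e1, e2] at hz2
    obtain ⟨Λ1, hΛ1⟩ := active_st hg1 hg2 hz2 le_rfl
    refine ⟨insert x (Λ0 ∪ Λ1), fun Λ hΛ => ?_⟩
    have hsub := (Finset.subset_insert x (Λ0 ∪ Λ1)).trans hΛ
    have hzrun := hΛ0 Λ (Finset.subset_union_left.trans hsub)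
    have hx1 := hΛ1 Λ (Finset.subset_union_right.trans hsub)
    rw [st_one hg1] at hx1
    simp only [run, Finset.mem_inter]
    refine ⟨?_, hΛ (Finset.mem_insert_self _ _)⟩
    exact Run.fold_mono (Finset.singleton_subset_iff.2 hzrun) _ hx1

theorem eta_iff {ω : Om d} (hg1 : G1 ω) (hg2 : G2 ω) (i : ℤ) (x : Site d) :
    Eta ω (i : ℝ) x ↔ EtaS ω i x := by
  constructor
  · intro h m
    obtain ⟨y, hy⟩ := h ((i : ℝ) - m) (by
      have : (0 : ℝ) ≤ m := Nat.cast_nonneg m
      linarith)
    have e1 : (i : ℝ) - m = ((i - m : ℤ) : ℝ) := by push_cast; ring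
    have e2 : (i : ℝ) = ((i - m : ℤ) : ℝ) + m := by push_cast; ring
    rw [e1] at hy
    rw [e2] at hy
    obtain ⟨Λ0, hΛ0⟩ := active_run hg1 hg2 (i - m) m hy
    refine ⟨insert y Λ0, ?_⟩
    exact Run.run_mono (Finset.Subset.refl _) _ _ _
      (Finset.singleton_subset_iff.2 (Finset.mem_insert_self _ _))
      (hΛ0 (insert y Λ0) (Finset.subset_insert _ _))
  · intro h s hs
    obtain ⟨m, hm⟩ := exists_nat_ge ((i : ℝ) - s)
    obtain ⟨Λ, hΛ⟩ := h m
    obtain ⟨y, _, hy⟩ := run_active hg1 hg2 (i - m) m hΛ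
    have e2 : ((i - m : ℤ) : ℝ) + m = (i : ℝ) := by push_cast; ring
    rw [e2] at hy
    obtain ⟨z, _, hz⟩ := active_split hy (r := s) (by push_cast; linarith) hs
    exact ⟨z, hz⟩

end Bridge

theorem bridge_holds : BRIDGE_spec := by
  intro d lam
  filter_upwards [Bridge.g1_ae lam, Bridge.g2_ae lam] with ω h1 h2
  exact fun i x => Bridge.eta_iff h1 h2 i x

end Pool.Agent.Lib.MP_c12170_pr
end

section
open MeasureTheory ProbabilityTheory Filter Topology
open scoped ENNReal NNReal

namespace Pool.Agent.Lib.MP_c12170_pr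

namespace Dual

variable {d : ℕ}

/-- The opposite direction. -/
def opp (a : Dir d) : Dir d := (a.1, !a.2)

theorem dir_opp (a : Dir d) : dir (opp a) = - dir a := by
  obtain ⟨i, b⟩ := a
  cases b
  · simp [dir, opp, ← Pi.single_neg]
  · simp [dir, opp, Pi.single_neg]

theorem opp_opp (a : Dir d) : opp (opp a) = a := by simp [opp]

/-- The reversal of a letter. -/
def revl (Λ : Finset (Site d)) (l : Letter d) : Letter d :=
  match l.2 with
  | none => l
  | some a => if l.1 ∈ Λ ∧ l.1 + dir a ∈ Λ then (l.1 + dir a, some (opp a)) else l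

theorem revl_invol (Λ : Finset (Site d)) (l : Letter d) : revl Λ (revl Λ l) = l := by
  obtain ⟨x, o⟩ := l
  cases o with
  | none => rfl
  | some a =>
    by_cases h : x ∈ Λ ∧ x + dir a ∈ Λ
    · have h1 : revl Λ (x, some a) = (x + dir a, some (opp a)) := by simp [revl, h]
      rw [h1]
      simp [revl, dir_opp, opp_opp, h]
    · have h1 : revl Λ (x, some a) = (x, some a) := by simp only [revl, if_neg h]
      rw [h1, h1]

theorem revl_mem (Λ : Finset (Site d)) (l : Letter d) : (revl Λ l).1 ∈ Λ ↔ l.1 ∈ Λ := by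
  obtain ⟨x, o⟩ := l
  cases o with
  | none => rfl
  | some a =>
    by_cases h : x ∈ Λ ∧ x + dir a ∈ Λ
    · simp [revl, h]
    · simp only [revl, if_neg h]

theorem rate_revl (lam : ℝ≥0) (Λ : Finset (Site d)) (l : Letter d) :
    rate lam (revl Λ l).2 = rate lam l.2 := by
  obtain ⟨x, o⟩ := l
  cases o with
  | none => rfl
  | some a =>
    by_cases h : x ∈ Λ ∧ x + dir a ∈ Λ
    · simp only [revl, if_pos h]; rfl
    · simp only [revl, if_neg h]

/-- `upd` inside `Λ`. -/
def uL (Λ A : Finset (Site d)) (l : Letter d) : Finset (Site d) := upd A l ∩ Λ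

/-- `fold` inside `Λ`. -/
def fL (Λ A : Finset (Site d)) (w : List (Letter d)) : Finset (Site d) := w.foldl (uL Λ) A

theorem upd_inter {Λ A : Finset (Site d)} {l : Letter d} (hl : l.1 ∈ Λ) :
    upd (A ∩ Λ) l ∩ Λ = upd A l ∩ Λ := by
  ext x
  simp only [Finset.mem_inter, Run.mem_upd]
  constructor
  · rintro ⟨⟨h1, ⟨h2, _⟩, h3⟩ | ⟨a, h1, ⟨h2, _⟩ | ⟨⟨h2, _⟩, h3⟩⟩, h4⟩
    · exact ⟨Or.inl ⟨h1, h2, h3⟩, h4⟩
    · exact ⟨Or.inr ⟨a, h1, Or.inl h2⟩, h4⟩
    · exact ⟨Or.inr ⟨a, h1, Or.inr ⟨h2, h3⟩⟩, h4⟩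
  · rintro ⟨⟨h1, h2, h3⟩ | ⟨a, h1, h2 | ⟨h2, h3⟩⟩, h4⟩
    · exact ⟨Or.inl ⟨h1, ⟨h2, h4⟩, h3⟩, h4⟩
    · exact ⟨Or.inr ⟨a, h1, Or.inl ⟨h2, h4⟩⟩, h4⟩
    · exact ⟨Or.inr ⟨a, h1, Or.inr ⟨⟨h2, hl⟩, h3⟩⟩, h4⟩

theorem fold_inter {Λ : Finset (Site d)} {w : List (Letter d)} (hw : ∀ l ∈ w, l.1 ∈ Λ)
    (A : Finset (Site d)) : fold A w ∩ Λ = fL Λ (A ∩ Λ) w := by
  induction w generalizing A with
  | nil => rfl
  | cons l w ih =>
    have hl : l.1 ∈ Λ := hw l (by simp)
    change fold (upd A l) w ∩ Λ = fL Λ (uL Λ (A ∩ Λ) l) w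
    rw [ih (fun l' hl' => hw l' (by simp [hl'])), uL, upd_inter hl]

theorem fL_sub {Λ A : Finset (Site d)} (hA : A ⊆ Λ) (w : List (Letter d)) : fL Λ A w ⊆ Λ := by
  induction w generalizing A with
  | nil => exact hA
  | cons l w ih => exact ih Finset.inter_subset_right

theorem dual_letter {Λ A B : Finset (Site d)} (hA : A ⊆ Λ) (hB : B ⊆ Λ) {l : Letter d}
    (hl : l.1 ∈ Λ) : (uL Λ A l ∩ B).Nonempty ↔ (uL Λ B (revl Λ l) ∩ A).Nonempty := by
  obtain ⟨x, o⟩ := l
  cases o with
  | none =>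
    have h1 : revl Λ (x, none) = (x, none) := rfl
    rw [h1]
    constructor
    · rintro ⟨y, hy⟩
      simp only [uL, upd, Finset.mem_inter, Finset.mem_erase] at hy
      exact ⟨y, by simp only [uL, upd, Finset.mem_inter, Finset.mem_erase]; tauto⟩
    · rintro ⟨y, hy⟩
      simp only [uL, upd, Finset.mem_inter, Finset.mem_erase] at hy
      exact ⟨y, by simp only [uL, upd, Finset.mem_inter, Finset.mem_erase]; tauto⟩
  | some a =>
    by_cases h : x ∈ Λ ∧ x + dir a ∈ Λ
    · have h1 : revl Λ (x, some a) = (x + dir a, some (opp a)) := by simp [revl, h]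
      rw [h1]
      have key : ∀ (A B : Finset (Site d)) (x : Site d) (a : Dir d), A ⊆ Λ → B ⊆ Λ → x ∈ Λ →
          x + dir a ∈ Λ → (uL Λ A (x, some a) ∩ B).Nonempty →
          (uL Λ B (x + dir a, some (opp a)) ∩ A).Nonempty := by
        rintro A B x a hA hB hx hxa ⟨y, hy⟩
        simp only [uL, Finset.mem_inter, Run.mem_upd] at hy
        obtain ⟨⟨hy | ⟨a', ha', hy | ⟨hy, hyx⟩⟩, hyΛ⟩, hyB⟩ := hy
        · simp at hy
        · refine ⟨y, ?_⟩
          simp only [uL, Finset.mem_inter, Run.mem_upd]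
          exact ⟨⟨Or.inr ⟨_, rfl, Or.inl hyB⟩, hyΛ⟩, hy⟩
        · refine ⟨x, ?_⟩
          simp only [Option.some.injEq] at ha'
          subst ha'
          simp only [uL, Finset.mem_inter, Run.mem_upd]
          refine ⟨⟨Or.inr ⟨_, rfl, Or.inr ⟨by rw [← hyx]; exact hyB, ?_⟩⟩, hx⟩, hy⟩
          rw [dir_opp]; simp
      constructor
      · exact key A B x a hA hB h.1 h.2
      · intro h2
        have := key B A (x + dir a) (opp a) hB hA h.2 (by rw [dir_opp]; simpa using h.1) h2
        rwa [dir_opp, opp_opp, add_neg_cancel_right] at this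
    · have h1 : revl Λ (x, some a) = (x, some a) := by simp only [revl, if_neg h]
      rw [h1]
      have h2 : ∀ C : Finset (Site d), C ⊆ Λ → uL Λ C (x, some a) = C := by
        intro C hC
        have h3 : x + dir a ∉ Λ := fun h' => h ⟨hl, h'⟩
        ext y
        simp only [uL, upd, Finset.mem_inter]
        split_ifs with hx
        · simp only [Finset.mem_insert]
          constructor
          · rintro ⟨rfl | h4, h5⟩
            · exact absurd h5 h3
            · exact h4
          · intro h4; exact ⟨Or.inr h4, hC h4⟩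
        · exact ⟨fun h => h.1, fun h => ⟨h, hC h⟩⟩
      rw [h2 A hA, h2 B hB, Finset.inter_comm]

theorem dual_word {Λ : Finset (Site d)} {w : List (Letter d)} (hw : ∀ l ∈ w, l.1 ∈ Λ)
    {A B : Finset (Site d)} (hA : A ⊆ Λ) (hB : B ⊆ Λ) :
    (fL Λ A w ∩ B).Nonempty ↔ (fL Λ B (w.map (revl Λ)).reverse ∩ A).Nonempty := by
  induction w generalizing A with
  | nil => rw [Finset.inter_comm]; rfl
  | cons l w ih =>
    have hl : l.1 ∈ Λ := hw l (by simp)
    have h1 := ih (fun l' hl' => hw l' (by simp [hl'])) (A := uL Λ A l) Finset.inter_subset_right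
    change (fL Λ (uL Λ A l) w ∩ B).Nonempty ↔ _
    rw [h1, Finset.inter_comm, dual_letter hA (fL_sub hB _) hl]
    simp [fL]

theorem goW_cons (Λ A : Finset (Site d)) (w : List (Letter d)) (ws : List (List (Letter d))) :
    (Words.goW Λ A (w :: ws)).1 = (Words.goW Λ (fold (A ∩ Λ) w) ws).1 := by
  induction ws using List.reverseRecOn with
  | nil => simp [Words.goW, Words.stepW]
  | append_singleton ws w' ih =>
    rw [← List.cons_append, Words.goW_append, Words.goW_append]
    simp only [Words.stepW, ih]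

theorem goW_sub (Λ A : Finset (Site d)) (ws : List (List (Letter d))) :
    (Words.goW Λ A ws).1 ⊆ Λ := by
  induction ws using List.reverseRecOn with
  | nil => exact Finset.inter_subset_right
  | append_singleton ws w ih =>
    rw [Words.goW_append]; exact Finset.inter_subset_right

theorem dual_words {Λ : Finset (Site d)} {ws : List (List (Letter d))}
    (hw : ∀ w ∈ ws, ∀ l ∈ w, l.1 ∈ Λ) (A B : Finset (Site d)) :
    ((Words.goW Λ A ws).1 ∩ (B ∩ Λ)).Nonempty ↔
      ((Words.goW Λ B (ws.map (fun w => (w.map (revl Λ)).reverse)).reverse).1 ∩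
        (A ∩ Λ)).Nonempty := by
  induction ws using List.reverseRecOn generalizing B with
  | nil =>
    simp only [Words.goW, List.foldl_nil, List.map_nil, List.reverse_nil]
    rw [Finset.inter_comm]
  | append_singleton ws w ih =>
    have hws : ∀ w ∈ ws, ∀ l ∈ w, l.1 ∈ Λ := fun w' hw' => hw w' (by simp [hw'])
    have hw0 : ∀ l ∈ w, l.1 ∈ Λ := hw w (by simp)
    rw [Words.goW_append, List.map_append, List.map_singleton, List.reverse_append,
      List.reverse_singleton, List.singleton_append, goW_cons]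
    have hw0' : ∀ l ∈ (w.map (revl Λ)).reverse, l.1 ∈ Λ := by
      intro l hl
      rw [List.mem_reverse, List.mem_map] at hl
      obtain ⟨l', hl', rfl⟩ := hl
      exact (revl_mem Λ l').2 (hw0 l' hl')
    have h1 : (Words.stepW Λ (Words.goW Λ A ws) w).1 = fL Λ (Words.goW Λ A ws).1 w := by
      simp only [Words.stepW]
      rw [fold_inter hw0, Finset.inter_eq_left.2 (goW_sub Λ A ws)]
    rw [h1, dual_word hw0 (goW_sub Λ A ws) Finset.inter_subset_right, Finset.inter_comm]
    have h2 : fL Λ (B ∩ Λ) (w.map (revl Λ)).reverse =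
        fold (B ∩ Λ) (w.map (revl Λ)).reverse ∩ Λ := by
      rw [fold_inter hw0', Finset.inter_assoc, Finset.inter_self]
    rw [h2, ih hws]

/-- The duality relabelling. -/
def Φ (Λ : Finset (Site d)) : List (List (Letter d)) ≃ List (List (Letter d)) where
  toFun ws := (ws.map (fun w => (w.map (revl Λ)).reverse)).reverse
  invFun ws := (ws.map (fun w => (w.map (revl Λ)).reverse)).reverse
  left_inv ws := by
    simp only [List.map_reverse, List.reverse_reverse, List.map_map]
    conv_rhs => rw [← List.map_id ws]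
    refine List.map_congr_left fun w _ => ?_
    simp only [Function.comp_apply, List.map_reverse, List.reverse_reverse, List.map_map, id]
    conv_rhs => rw [← List.map_id w]
    refine List.map_congr_left fun l _ => revl_invol Λ l
  right_inv ws := by
    simp only [List.map_reverse, List.reverse_reverse, List.map_map]
    conv_rhs => rw [← List.map_id ws]
    refine List.map_congr_left fun w _ => ?_
    simp only [Function.comp_apply, List.map_reverse, List.reverse_reverse, List.map_map, id]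
    conv_rhs => rw [← List.map_id w]
    refine List.map_congr_left fun l _ => revl_invol Λ l

theorem wl_rev (lam : ℝ≥0) (Λ : Finset (Site d)) (w : List (Letter d)) :
    Words.wl lam Λ (w.map (revl Λ)).reverse = Words.wl lam Λ w := by
  unfold Words.wl
  have h1 : (∀ l ∈ (w.map (revl Λ)).reverse, l.1 ∈ Λ) ↔ ∀ l ∈ w, l.1 ∈ Λ := by
    simp only [List.mem_reverse, List.mem_map, forall_exists_index, and_imp,
      forall_apply_eq_imp_iff₂, revl_mem]
  simp only [h1, List.map_reverse, List.prod_reverse, List.map_map, Function.comp_def, rate_revl,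
    List.length_reverse, List.length_map]

end Dual

theorem dual_holds (hW : WLAW_spec) : DUAL_spec := by
  intro d lam Λ s s' m A B
  have key := Words.law_congr hW lam Λ Λ s s' m (Dual.Φ Λ)
    (fun ws => by simp [Dual.Φ]) (fun ws => ?_)
    (fun ws => ((Words.goW Λ A ws).1 ∩ (B ∩ Λ)).Nonempty)
  · have e1 : {ω : Om d | (run Λ s m ω A ∩ B).Nonempty} =
        {ω : Om d | ((Words.goW Λ A (Words.words Λ s m ω)).1 ∩ (B ∩ Λ)).Nonempty} := by
      ext ω
      simp only [Set.mem_ofPred_eq, Words.goW_words]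
      have : run Λ s m ω A ∩ (B ∩ Λ) = run Λ s m ω A ∩ B := by
        rw [← Finset.inter_assoc, Finset.inter_right_comm,
          Finset.inter_eq_left.2 (Run.run_sub Λ s m ω A)]
      rw [this]
    have e2 : {ω : Om d | (run Λ s' m ω B ∩ A).Nonempty} =
        {ω : Om d | ((Words.goW Λ A (Dual.Φ Λ (Words.words Λ s' m ω))).1 ∩
          (B ∩ Λ)).Nonempty} := by
      ext ω
      simp only [Set.mem_ofPred_eq]
      have hw : ∀ w ∈ Words.words Λ s' m ω, ∀ l ∈ w, l.1 ∈ Λ := by
        intro w hw l hl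
        simp only [Words.words, List.mem_map] at hw
        obtain ⟨j, _, rfl⟩ := hw
        exact Word.word_mem hl
      have h1 := Dual.dual_words hw B A
      rw [Words.goW_words] at h1
      have : run Λ s' m ω B ∩ (A ∩ Λ) = run Λ s' m ω B ∩ A := by
        rw [← Finset.inter_assoc, Finset.inter_right_comm,
          Finset.inter_eq_left.2 (Run.run_sub Λ s' m ω B)]
      rw [this] at h1
      exact h1
    rw [e1, e2]
    exact key
  · change ((((ws.map (fun w => (w.map (Dual.revl Λ)).reverse)).reverse).map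
      (Words.wl lam Λ))).prod = _
    rw [List.map_reverse, List.prod_reverse, List.map_map]
    congr 1
    refine List.map_congr_left fun w _ => ?_
    exact Dual.wl_rev lam Λ w

end Pool.Agent.Lib.MP_c12170_pr
end

section
/-!
# MP_c12170_pr: EXIT0 (helper10)
-/
open MeasureTheory ProbabilityTheory Filter Topology
open scoped ENNReal NNReal

namespace Pool.Agent.Lib.MP_c12170_pr

namespace Exit0

variable {d : ℕ}

/-- the sup norm -/
def nrm (x : Site d) : ℕ := Finset.univ.sup fun j => (x j).natAbs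

theorem le_nrm (x : Site d) (j : Fin (d + 1)) : (x j).natAbs ≤ nrm x :=
  Finset.le_sup (f := fun j => (x j).natAbs) (Finset.mem_univ j)

theorem nrm_add (x : Site d) (a : Dir d) : nrm (x + dir a) ≤ nrm x + 1 := by
  refine Finset.sup_le fun j _ => ?_
  have h1 := le_nrm x j
  have h2 : ((dir a : Site d) j).natAbs ≤ 1 := by
    unfold dir
    by_cases h : j = a.1
    · subst h
      rw [Pi.single_eq_same]
      split_ifs <;> simp
    · rw [Pi.single_eq_of_ne h]
      simp
  have h3 := Int.natAbs_add_le (x j) ((dir a : Site d) j)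
  simp only [Pi.add_apply]
  omega

theorem lt_nrm {x : Site d} {L : ℕ} (h : x ∉ bx (0 : Site d) L) : L + 1 ≤ nrm x := by
  by_contra hc
  apply h
  unfold bx
  rw [Finset.mem_Icc]
  constructor
  · intro j
    have := le_nrm x j
    simp only [Pi.zero_apply]
    omega
  · intro j
    have := le_nrm x j
    simp only [Pi.zero_apply]
    omega

theorem mem_exits {Λ : Finset (Site d)} {s : ℤ} {k : ℕ} {ω : Om d} {A : Finset (Site d)}
    {x : Site d} (h : x ∈ exits Λ s k ω A) : x ∉ Λ := (Finset.mem_sdiff.1 h).2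

theorem exits_meas' (Λ : Finset (Site d)) (s : ℤ) (k : ℕ) (A : Finset (Site d)) :
    Measurable (fun ω : Om d => exits Λ s k ω A) :=
  Measurable.mono (Run.exits_meas Λ s k A) (Ind.Fs_le _) le_rfl

end Exit0

open Exit0 in
theorem exit0_holds (hG : GROW_spec) : EXIT0_spec := by
  intro d lam A t ε hε
  set g : Site d → ℝ≥0∞ := fun x => 2 ^ nrm x with hgdef
  have hg : ∀ x a, g (x + dir a) ≤ ((2 : ℝ≥0) : ℝ≥0∞) * g x := by
    intro x a
    change (2 : ℝ≥0∞) ^ nrm (x + dir a) ≤ ((2 : ℝ≥0) : ℝ≥0∞) * 2 ^ nrm x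
    rw [show ((2 : ℝ≥0) : ℝ≥0∞) = 2 by norm_num, mul_comm, ← pow_succ]
    exact pow_le_pow_right₀ (by norm_num) (nrm_add x a)
  obtain ⟨-, -, h3⟩ := hG d lam 2 g hg
  set c : ℝ≥0∞ := ENNReal.ofReal (Real.exp (2 * ((d : ℝ) + 1) * lam * (2 : ℝ≥0))) with hc
  set S : ℝ≥0∞ := ∑ k ∈ Finset.range t, c ^ (k + 1) * ∑ x ∈ A, g x with hS
  have hStop : S ≠ ⊤ := by
    rw [hS]
    refine ENNReal.sum_ne_top.2 fun k _ => ?_
    refine ENNReal.mul_ne_top (ENNReal.pow_ne_top (by rw [hc]; exact ENNReal.ofReal_ne_top)) ?_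
    refine ENNReal.sum_ne_top.2 fun x _ => ?_
    exact ENNReal.pow_ne_top (by norm_num)
  have hk : ∀ L k : ℕ, (2 : ℝ≥0∞) ^ (L + 1) *
      P lam {ω : Om d | (exits (bx 0 L) 0 k ω A).Nonempty} ≤ c ^ (k + 1) * ∑ x ∈ A, g x := by
    intro L k
    refine le_trans ?_ (h3 (bx 0 L) 0 k A)
    have hmeas : Measurable fun ω : Om d => ∑ x ∈ exits (bx 0 L) 0 k ω A, g x :=
      (measurable_from_top (f := fun B : Finset (Site d) => ∑ x ∈ B, g x)).comp
        (exits_meas' (bx 0 L) 0 k A)
    refine le_trans ?_ (mul_meas_ge_le_lintegral hmeas ((2 : ℝ≥0∞) ^ (L + 1)))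
    gcongr
    intro hne
    obtain ⟨x, hx⟩ := hne
    calc (2 : ℝ≥0∞) ^ (L + 1) ≤ g x :=
          pow_le_pow_right₀ (by norm_num) (lt_nrm (mem_exits hx))
      _ ≤ _ := Finset.single_le_sum (f := g) (fun _ _ => zero_le) hx
  have hU : ∀ L : ℕ, (2 : ℝ≥0∞) ^ (L + 1) *
      P lam {ω : Om d | ∃ k, k < t ∧ (exits (bx 0 L) 0 k ω A).Nonempty} ≤ S := by
    intro L
    have hset : {ω : Om d | ∃ k, k < t ∧ (exits (bx 0 L) 0 k ω A).Nonempty} =
        ⋃ k ∈ Finset.range t, {ω : Om d | (exits (bx 0 L) 0 k ω A).Nonempty} := by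
      ext ω
      simp
    rw [hset]
    refine (mul_le_mul_right (measure_biUnion_finset_le _ _) _).trans ?_
    rw [Finset.mul_sum, hS]
    exact Finset.sum_le_sum fun k _ => hk L k
  obtain ⟨L0, hL0⟩ : ∃ L0 : ℕ, S.toReal / ε < (2 : ℝ) ^ L0 :=
    pow_unbounded_of_one_lt _ (by norm_num)
  refine ⟨L0, fun L hL => ?_⟩
  have h1 := hU L
  have h2 := (ENNReal.toReal_le_toReal (ENNReal.mul_ne_top (ENNReal.pow_ne_top (by norm_num))
    (measure_ne_top _ _)) hStop).2 h1
  rw [ENNReal.toReal_mul, ENNReal.toReal_pow] at h2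
  change (2 : ℝ) ^ (L + 1) * (P lam).real
    {ω : Om d | ∃ k, k < t ∧ (exits (bx 0 L) 0 k ω A).Nonempty} ≤ S.toReal at h2
  have h4 : (2 : ℝ) ^ L0 ≤ (2 : ℝ) ^ (L + 1) := pow_le_pow_right₀ (by norm_num) (by omega)
  have h5 : S.toReal < ε * 2 ^ (L + 1) := by
    rw [div_lt_iff₀ hε] at hL0
    nlinarith
  have h6 : (0 : ℝ) < 2 ^ (L + 1) := by positivity
  nlinarith

end Pool.Agent.Lib.MP_c12170_pr
end

section
/-!
# MP_c12170_pr: FILL (helper10)
-/
open MeasureTheory ProbabilityTheory Filter Topology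
open scoped ENNReal NNReal

namespace Pool.Agent.Lib.MP_c12170_pr

namespace Fill

variable {d : ℕ}

theorem card_bx (y : Site d) (n : ℕ) : (bx y n).card = (2 * n + 1) ^ (d + 1) := by
  unfold bx
  rw [Pi.card_Icc]
  have : ∀ j ∈ (Finset.univ : Finset (Fin (d + 1))),
      (Finset.Icc (y j - (n : ℤ)) (y j + (n : ℤ))).card = 2 * n + 1 := by
    intro j _
    rw [Int.card_Icc]
    omega
  rw [Finset.prod_congr rfl this]
  simp

theorem mem_bx {y x : Site d} {n : ℕ} :
    x ∈ bx y n ↔ ∀ j, y j - (n : ℤ) ≤ x j ∧ x j ≤ y j + n := by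
  unfold bx
  rw [Finset.mem_Icc]
  constructor
  · rintro ⟨h1, h2⟩ j
    exact ⟨h1 j, h2 j⟩
  · intro h
    exact ⟨fun j => (h j).1, fun j => (h j).2⟩

/-- two neighbouring points of a box, one in `A`, the other one not. -/
theorem adj {y : Site d} {n : ℕ} {A : Finset (Site d)} (hA : A ⊆ bx y n) {z : Site d}
    (hz : z ∈ bx y n) (hzA : z ∉ A) : ∀ (N : ℕ), ∀ x ∈ A, ∑ j, (x j - z j).natAbs ≤ N →
      ∃ x' ∈ A, ∃ a : Dir d, x' + dir a ∈ bx y n ∧ x' + dir a ∉ A := by
  intro N
  induction N with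
  | zero =>
    intro x hx h
    exfalso
    apply hzA
    have h0 : ∑ j, (x j - z j).natAbs = 0 := by omega
    have hxz : x = z := by
      funext j
      have := (Finset.sum_eq_zero_iff.1 h0) j (Finset.mem_univ j)
      omega
    rw [← hxz]
    exact hx
  | succ N ih =>
    intro x hx h
    have hne : x ≠ z := fun h => hzA (h ▸ hx)
    obtain ⟨j, hj⟩ := Function.ne_iff.1 hne
    set a : Dir d := (j, decide (x j < z j)) with ha
    have hdirj : (dir a : Site d) j = if x j < z j then 1 else -1 := by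
      simp [dir, ha]
    have hdiri : ∀ i, i ≠ j → (dir a : Site d) i = 0 := by
      intro i hi
      simp [dir, ha, Pi.single_eq_of_ne hi]
    have hbx : x + dir a ∈ bx y n := by
      rw [mem_bx]
      intro i
      have hx' := mem_bx.1 (hA hx) i
      have hz' := mem_bx.1 hz i
      by_cases hi : i = j
      · subst hi
        rw [Pi.add_apply, hdirj]
        split_ifs with h1
        · omega
        · have h2 : z i < x i := lt_of_le_of_ne (not_lt.1 h1) (Ne.symm hj)
          omega
      · rw [Pi.add_apply, hdiri i hi]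
        omega
    by_cases hxa : x + dir a ∈ A
    · refine ih (x + dir a) hxa ?_
      have h1 : ∑ i, (x i - z i).natAbs = (x j - z j).natAbs +
          ∑ i ∈ Finset.univ.erase j, (x i - z i).natAbs :=
        (Finset.add_sum_erase _ _ (Finset.mem_univ j)).symm
      have h2 : ∑ i, ((x + dir a) i - z i).natAbs = ((x + dir a) j - z j).natAbs +
          ∑ i ∈ Finset.univ.erase j, ((x + dir a) i - z i).natAbs :=
        (Finset.add_sum_erase _ _ (Finset.mem_univ j)).symm
      have h3 : ∑ i ∈ Finset.univ.erase j, ((x + dir a) i - z i).natAbs =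
          ∑ i ∈ Finset.univ.erase j, (x i - z i).natAbs := by
        refine Finset.sum_congr rfl fun i hi => ?_
        rw [Pi.add_apply, hdiri i (Finset.ne_of_mem_erase hi), add_zero]
      have h4 : ((x + dir a) j - z j).natAbs + 1 = (x j - z j).natAbs := by
        rw [Pi.add_apply, hdirj]
        split_ifs with h1
        · omega
        · have h2 : z j < x j := lt_of_le_of_ne (not_lt.1 h1) (Ne.symm hj)
          omega
      omega
    · exact ⟨x, hx, a, hbx, hxa⟩

theorem fold_cons (A : Finset (Site d)) (l : Letter d) (w : List (Letter d)) :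
    fold A (l :: w) = fold (upd A l) w := rfl

theorem fill_word {y : Site d} {n : ℕ} : ∀ (N : ℕ) (A : Finset (Site d)), A ⊆ bx y n →
    A.Nonempty → (bx y n \ A).card ≤ N → ∃ w : List (Letter d), w.length ≤ N ∧
      (∀ l ∈ w, l.1 ∈ bx y n ∧ l.2 ≠ none) ∧ bx y n ⊆ fold A w := by
  intro N
  induction N with
  | zero =>
    intro A hA hne hc
    refine ⟨[], le_rfl, by simp, ?_⟩
    have h0 : bx y n \ A = ∅ := Finset.card_eq_zero.1 (by omega)
    exact Finset.sdiff_eq_empty_iff_subset.1 h0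
  | succ N ih =>
    intro A hA hne hc
    by_cases hfull : bx y n ⊆ A
    · exact ⟨[], by simp, by simp, hfull⟩
    · obtain ⟨z, hz, hzA⟩ := Finset.not_subset.1 hfull
      obtain ⟨x0, hx0⟩ := hne
      obtain ⟨x, hx, a, h1, h2⟩ := adj hA hz hzA _ x0 hx0 le_rfl
      have hupd : upd A (x, some a) = insert (x + dir a) A := by
        simp [upd, hx]
      obtain ⟨w, hw1, hw2, hw3⟩ := ih (insert (x + dir a) A)
        (Finset.insert_subset h1 hA) (Finset.insert_nonempty _ _) (by
          rw [Finset.sdiff_insert, Finset.card_erase_of_mem]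
          · omega
          · exact Finset.mem_sdiff.2 ⟨h1, h2⟩)
      refine ⟨(x, some a) :: w, ?_, ?_, ?_⟩
      · simp only [List.length_cons]
        omega
      · intro l hl
        rcases List.mem_cons.1 hl with rfl | hl
        · exact ⟨hA hx, by simp⟩
        · exact hw2 l hl
      · rw [fold_cons, hupd]
        exact hw3

theorem rate_prod (lam : ℝ≥0) : ∀ (w : List (Letter d)), (∀ l ∈ w, l.2 ≠ none) →
    (w.map fun l => (rate lam l.2 : ℝ)).prod = (lam : ℝ) ^ w.length := by
  intro w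
  induction w with
  | nil => intro _; simp
  | cons l w ih =>
    intro h
    obtain ⟨x, o⟩ := l
    have h1 : o ≠ none := h (x, o) (by simp)
    obtain ⟨a, rfl⟩ := Option.ne_none_iff_exists'.1 h1
    rw [List.map_cons, List.prod_cons, ih (fun l hl => h l (List.mem_cons_of_mem _ hl)),
      List.length_cons, pow_succ, mul_comm]
    rfl

end Fill

open Fill in
theorem fill_holds (hW : WLAW_spec) : FILL_spec := by
  intro d lam hlam n
  set N : ℕ := (2 * n + 1) ^ (d + 1) with hN
  set f : ℝ := Real.exp (-((N : ℝ) * (1 + 2 * ((d : ℝ) + 1) * lam))) *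
    (min (lam : ℝ) 1) ^ N / (N.factorial : ℝ) with hf
  have hlam' : (0 : ℝ) < lam := hlam
  have hmin : 0 < min (lam : ℝ) 1 := lt_min hlam' one_pos
  refine ⟨f, by rw [hf]; positivity, fun y x k hx => ?_⟩
  obtain ⟨w, hw1, hw2, hw3⟩ := fill_word (y := y) (n := n) N {x}
    (Finset.singleton_subset_iff.2 hx) (Finset.singleton_nonempty x)
    ((Finset.card_le_card Finset.sdiff_subset).trans (by rw [card_bx]))
  have hlaw := hW d lam (bx y n) k w (fun l hl => (hw2 l hl).1)
  rw [rate_prod lam w (fun l hl => (hw2 l hl).2), card_bx, ← hN] at hlaw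
  have hle : f ≤ (P lam).real {ω : Om d | word (bx y n) k ω = w} := by
    rw [hlaw, hf]
    have h1 : (min (lam : ℝ) 1) ^ N ≤ (lam : ℝ) ^ w.length := by
      calc (min (lam : ℝ) 1) ^ N ≤ (min (lam : ℝ) 1) ^ w.length :=
            pow_le_pow_of_le_one hmin.le (min_le_right _ _) hw1
        _ ≤ (lam : ℝ) ^ w.length := pow_le_pow_left₀ hmin.le (min_le_left _ _) _
    have h2 : (w.length.factorial : ℝ) ≤ (N.factorial : ℝ) := by
      exact_mod_cast Nat.factorial_le hw1
    have h3 : (0 : ℝ) < (w.length.factorial : ℝ) := by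
      exact_mod_cast Nat.factorial_pos _
    gcongr
  refine hle.trans (measureReal_mono ?_)
  intro ω hω
  have hω' : word (bx y n) k ω = w := hω
  change bx y n ⊆ strip (bx y n) (k + ((0 : ℕ) : ℤ)) ω ({x} ∩ bx y n) ∩ bx y n
  have h0 : (k + ((0 : ℕ) : ℤ)) = k := by simp
  rw [h0, strip, hω', Finset.inter_eq_left.2 (Finset.singleton_subset_iff.2 hx)]
  exact Finset.subset_inter hw3 (Finset.Subset.refl _)

end Pool.Agent.Lib.MP_c12170_pr
end

section
open MeasureTheory ProbabilityTheory Filter Topology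
open scoped ENNReal NNReal

namespace Pool.Agent.Lib.MP_c12170_pr

namespace Grow

variable {d : ℕ}

/-- The weighted size of a finite set. -/
noncomputable def wt (g : Site d → ℝ≥0∞) (A : Finset (Site d)) : ℝ≥0∞ := ∑ x ∈ A, g x

theorem wt_upd_none (g : Site d → ℝ≥0∞) (A : Finset (Site d)) (x : Site d) :
    wt g (upd A (x, none)) ≤ wt g A :=
  Finset.sum_le_sum_of_subset (Finset.erase_subset _ _)

theorem wt_upd_some (g : Site d → ℝ≥0∞) (A : Finset (Site d)) (x : Site d) (a : Dir d) :
    wt g (upd A (x, some a)) ≤ wt g A + if x ∈ A then g (x + dir a) else 0 := by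
  classical
  by_cases h : x ∈ A
  · simp only [upd, h, ↓reduceIte]
    unfold wt
    by_cases h' : x + dir a ∈ A
    · rw [Finset.insert_eq_of_mem h']; exact le_self_add
    · rw [Finset.sum_insert h', add_comm]
  · simp [upd, h]

/-- The letters with source in `Λ`. -/
noncomputable def letters (Λ : Finset (Site d)) : Finset (Letter d) :=
  Λ ×ˢ (Finset.univ : Finset (Option (Dir d)))

/-- One letter step of the generator bound. -/
theorem gen_bound (lam K : ℝ≥0) (g : Site d → ℝ≥0∞) (hg : ∀ x a, g (x + dir a) ≤ K * g x)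
    (Λ A : Finset (Site d)) :
    ∑ l ∈ letters Λ, (rate lam l.2 : ℝ≥0∞) * wt g (upd A l) ≤
      ((Λ.card : ℝ≥0∞) * (1 + 2 * ((d : ℝ≥0∞) + 1) * lam) + 2 * ((d : ℝ≥0∞) + 1) * lam * K) *
        wt g A := by
  classical
  unfold letters
  rw [Finset.sum_product]
  have hcard : (Fintype.card (Dir d) : ℝ≥0∞) = 2 * ((d : ℝ≥0∞) + 1) := by
    simp [Dir, mul_comm]
  have h1 : ∀ x ∈ Λ, ∑ o : Option (Dir d), (rate lam o : ℝ≥0∞) * wt g (upd A (x, o)) ≤
      (1 + 2 * ((d : ℝ≥0∞) + 1) * lam) * wt g A +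
        2 * ((d : ℝ≥0∞) + 1) * lam * K * (if x ∈ A then g x else 0) := by
    intro x _
    rw [Fintype.sum_option]
    have h2 : ∀ a : Dir d, (rate lam (some a) : ℝ≥0∞) * wt g (upd A (x, some a)) ≤
        lam * wt g A + lam * (K * (if x ∈ A then g x else 0)) := by
      intro a
      rw [← mul_add]
      change (lam : ℝ≥0∞) * _ ≤ _
      gcongr
      refine (wt_upd_some g A x a).trans ?_
      gcongr
      split_ifs
      · exact hg x a
      · simp
    calc (rate lam (none : Option (Dir d)) : ℝ≥0∞) * wt g (upd A (x, none)) +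
          ∑ a : Dir d, (rate lam (some a) : ℝ≥0∞) * wt g (upd A (x, some a))
        ≤ wt g A + ∑ a : Dir d, (lam * wt g A + lam * (K * (if x ∈ A then g x else 0))) := by
          refine add_le_add ?_ (Finset.sum_le_sum fun a _ => h2 a)
          simpa [rate] using wt_upd_none g A x
      _ = (1 + 2 * ((d : ℝ≥0∞) + 1) * lam) * wt g A +
        2 * ((d : ℝ≥0∞) + 1) * lam * K * (if x ∈ A then g x else 0) := by
          rw [Finset.sum_const, Finset.card_univ, nsmul_eq_mul, hcard]
          ring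
  calc ∑ x ∈ Λ, ∑ o : Option (Dir d), (rate lam o : ℝ≥0∞) * wt g (upd A (x, o))
      ≤ ∑ x ∈ Λ, ((1 + 2 * ((d : ℝ≥0∞) + 1) * lam) * wt g A +
        2 * ((d : ℝ≥0∞) + 1) * lam * K * (if x ∈ A then g x else 0)) :=
        Finset.sum_le_sum h1
    _ = (Λ.card : ℝ≥0∞) * ((1 + 2 * ((d : ℝ≥0∞) + 1) * lam) * wt g A) +
        2 * ((d : ℝ≥0∞) + 1) * lam * K * ∑ x ∈ Λ, (if x ∈ A then g x else 0) := by
        rw [Finset.sum_add_distrib, Finset.sum_const, nsmul_eq_mul, Finset.mul_sum]
    _ ≤ (Λ.card : ℝ≥0∞) * ((1 + 2 * ((d : ℝ≥0∞) + 1) * lam) * wt g A) +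
        2 * ((d : ℝ≥0∞) + 1) * lam * K * wt g A := by
        gcongr
        rw [← Finset.sum_filter]
        exact Finset.sum_le_sum_of_subset (fun x hx => (Finset.mem_filter.1 hx).2)
    _ = _ := by ring

/-- The words of length `n` with sources in `Λ`. -/
noncomputable def W (Λ : Finset (Site d)) : ℕ → Finset (List (Letter d))
  | 0 => {[]}
  | n + 1 => (letters Λ ×ˢ W Λ n).image fun p => p.1 :: p.2

theorem mem_W {Λ : Finset (Site d)} {n : ℕ} {w : List (Letter d)} :
    w ∈ W Λ n ↔ w.length = n ∧ ∀ l ∈ w, l.1 ∈ Λ := by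
  induction n generalizing w with
  | zero =>
    simp only [W, Finset.mem_singleton, List.length_eq_zero_iff]
    constructor
    · rintro rfl; simp
    · exact fun h => h.1
  | succ n ih =>
    simp only [W, Finset.mem_image, Finset.mem_product]
    constructor
    · rintro ⟨⟨l, w⟩, ⟨hl, hw⟩, rfl⟩
      simp only at hl hw ⊢
      rw [ih] at hw
      have hl' : l.1 ∈ Λ := by simpa [letters] using hl
      refine ⟨by simp [hw.1], fun l' hl'' => ?_⟩
      rcases List.mem_cons.1 hl'' with rfl | h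
      · exact hl'
      · exact hw.2 _ h
    · rintro ⟨hlen, hw⟩
      cases w with
      | nil => simp at hlen
      | cons l w =>
        refine ⟨⟨l, w⟩, ⟨?_, ?_⟩, rfl⟩
        · simpa [letters] using hw l (by simp)
        · simp only
          rw [ih]
          exact ⟨by simpa using hlen, fun l' hl' => hw l' (by simp [hl'])⟩

theorem sum_W_succ (Λ : Finset (Site d)) (n : ℕ) (F : List (Letter d) → ℝ≥0∞) :
    ∑ w ∈ W Λ (n + 1), F w = ∑ l ∈ letters Λ, ∑ w ∈ W Λ n, F (l :: w) := by
  rw [W, Finset.sum_image, Finset.sum_product]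
  rintro ⟨l, w⟩ _ ⟨l', w'⟩ _ h
  simpa using h

/-- The product of the rates. -/
noncomputable def rp (lam : ℝ≥0) (w : List (Letter d)) : ℝ≥0∞ :=
  (w.map fun l => (rate lam l.2 : ℝ≥0∞)).prod

theorem rp_eq (lam : ℝ≥0) (w : List (Letter d)) :
    rp lam w = ENNReal.ofReal ((w.map fun l => (rate lam l.2 : ℝ)).prod) := by
  unfold rp
  induction w with
  | nil => simp
  | cons l w ih =>
    rw [List.map_cons, List.prod_cons, ih, List.map_cons, List.prod_cons,
      ENNReal.ofReal_mul (rate lam l.2).coe_nonneg, ENNReal.ofReal_coe_nnreal]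

theorem iter_bound (lam K : ℝ≥0) (g : Site d → ℝ≥0∞) (hg : ∀ x a, g (x + dir a) ≤ K * g x)
    (Λ A : Finset (Site d)) (n : ℕ) :
    ∑ w ∈ W Λ n, rp lam w * wt g (fold A w) ≤
      ((Λ.card : ℝ≥0∞) * (1 + 2 * ((d : ℝ≥0∞) + 1) * lam) + 2 * ((d : ℝ≥0∞) + 1) * lam * K) ^ n *
        wt g A := by
  induction n generalizing A with
  | zero => simp [W, rp, fold]
  | succ n ih =>
    rw [sum_W_succ]
    set M := (Λ.card : ℝ≥0∞) * (1 + 2 * ((d : ℝ≥0∞) + 1) * lam) + 2 * ((d : ℝ≥0∞) + 1) * lam * K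
      with hM
    calc ∑ l ∈ letters Λ, ∑ w ∈ W Λ n, rp lam (l :: w) * wt g (fold A (l :: w))
        = ∑ l ∈ letters Λ, (rate lam l.2 : ℝ≥0∞) *
            ∑ w ∈ W Λ n, rp lam w * wt g (fold (upd A l) w) := by
          refine Finset.sum_congr rfl fun l _ => ?_
          rw [Finset.mul_sum]
          refine Finset.sum_congr rfl fun w _ => ?_
          simp only [rp, List.map_cons, List.prod_cons, mul_assoc]
          rfl
      _ ≤ ∑ l ∈ letters Λ, (rate lam l.2 : ℝ≥0∞) * (M ^ n * wt g (upd A l)) := by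
          gcongr with l _
          exact ih (upd A l)
      _ = M ^ n * ∑ l ∈ letters Λ, (rate lam l.2 : ℝ≥0∞) * wt g (upd A l) := by
          rw [Finset.mul_sum]
          refine Finset.sum_congr rfl fun l _ => by ring
      _ ≤ M ^ n * (M * wt g A) := by
          gcongr
          exact gen_bound lam K g hg Λ A
      _ = M ^ (n + 1) * wt g A := by ring

/-- Expectation of a function of the word. -/
theorem lintegral_word (hW : WLAW_spec) (lam : ℝ≥0) (Λ : Finset (Site d)) (k : ℤ)
    (F : List (Letter d) → ℝ≥0∞) :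
    ∫⁻ ω, F (word Λ k ω) ∂(P lam) = ∑' n : ℕ, ∑ w ∈ W Λ n,
      ENNReal.ofReal (Real.exp (-((Λ.card : ℝ) * (1 + 2 * ((d : ℝ) + 1) * lam)))) *
        (rp lam w / (n.factorial : ℝ≥0∞)) * F w := by
  have h1 : ∫⁻ ω, F (word Λ k ω) ∂(P lam) = ∑' w, F w * (P lam) {ω : Om d | word Λ k ω = w} := by
    rw [← lintegral_map (f := F) (g := word Λ k) measurable_from_top (Words.word_meas' Λ k),
      lintegral_countable']
    refine tsum_congr fun w => ?_
    rw [Measure.map_apply (Words.word_meas' Λ k) (measurableSet_singleton _)]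
    rfl
  have h2 : ∀ w : List (Letter d), F w * (P lam) {ω : Om d | word Λ k ω = w} =
      ∑' n : ℕ, if w.length = n then F w * (P lam) {ω : Om d | word Λ k ω = w} else 0 := by
    intro w
    rw [tsum_eq_single w.length (fun n hn => if_neg (fun h => hn h.symm)), if_pos rfl]
  rw [h1, tsum_congr h2, ENNReal.tsum_comm]
  refine tsum_congr fun n => ?_
  rw [tsum_eq_sum (s := W Λ n)]
  · refine Finset.sum_congr rfl fun w hw => ?_
    rw [mem_W] at hw
    rw [if_pos hw.1, mul_comm]
    congr 1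
    have h3 := hW d lam Λ k w hw.2
    have h4 : (P lam) {ω : Om d | word Λ k ω = w} =
        ENNReal.ofReal ((P lam).real {ω : Om d | word Λ k ω = w}) :=
      (ofReal_measureReal (by finiteness)).symm
    rw [h4, h3, hw.1]
    rw [rp_eq, mul_div_assoc, ENNReal.ofReal_mul (Real.exp_pos _).le, ENNReal.ofReal_div_of_pos
      (by positivity)]
    simp
  · intro w hw
    rw [mem_W] at hw
    split_ifs with h
    · have : {ω : Om d | word Λ k ω = w} = ∅ := by
        ext ω
        simp only [Set.mem_ofPred_eq, Set.mem_empty_iff_false, iff_false]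
        rintro rfl
        exact hw ⟨h, fun l hl => Word.word_mem hl⟩
      rw [this]; simp
    · rfl

/-- The growth constant. -/
noncomputable def gc (d : ℕ) (lam K : ℝ≥0) : ℝ≥0∞ :=
  ENNReal.ofReal (Real.exp (2 * ((d : ℝ) + 1) * lam * K))

theorem tsum_exp (x : ℝ) (hx : 0 ≤ x) :
    ∑' n : ℕ, (ENNReal.ofReal x) ^ n / (n.factorial : ℝ≥0∞) = ENNReal.ofReal (Real.exp x) := by
  have h := NormedSpace.expSeries_div_hasSum_exp x
  rw [← Real.exp_eq_exp_ℝ] at h
  rw [← h.tsum_eq, ENNReal.ofReal_tsum_of_nonneg (fun n => by positivity) h.summable]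
  refine tsum_congr fun n => ?_
  rw [ENNReal.ofReal_div_of_pos (by positivity), ENNReal.ofReal_pow hx]
  simp

theorem fold_bound (hW : WLAW_spec) (lam K : ℝ≥0) (g : Site d → ℝ≥0∞)
    (hg : ∀ x a, g (x + dir a) ≤ K * g x) (Λ : Finset (Site d)) (k : ℤ) (A : Finset (Site d)) :
    ∫⁻ ω, wt g (fold A (word Λ k ω)) ∂(P lam) ≤ gc d lam K * wt g A := by
  rw [lintegral_word hW lam Λ k (fun w => wt g (fold A w))]
  set R : ℝ := (Λ.card : ℝ) * (1 + 2 * ((d : ℝ) + 1) * lam) with hR
  set c : ℝ := 2 * ((d : ℝ) + 1) * lam * K with hc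
  have hR0 : 0 ≤ R := by positivity
  have hc0 : 0 ≤ c := by positivity
  have hM : (Λ.card : ℝ≥0∞) * (1 + 2 * ((d : ℝ≥0∞) + 1) * lam) + 2 * ((d : ℝ≥0∞) + 1) * lam * K =
      ENNReal.ofReal (R + c) := by
    rw [ENNReal.ofReal_add hR0 hc0, hR, hc]
    have e1 : ENNReal.ofReal ((d : ℝ) + 1) = (d : ℝ≥0∞) + 1 := by
      rw [ENNReal.ofReal_add (by positivity) (by norm_num)]; simp
    have e2 : ENNReal.ofReal (2 * ((d : ℝ) + 1) * lam) = 2 * ((d : ℝ≥0∞) + 1) * lam := by
      rw [ENNReal.ofReal_mul (by positivity), ENNReal.ofReal_mul (by norm_num), e1]; simp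
    have e3 : ENNReal.ofReal ((Λ.card : ℝ) * (1 + 2 * ((d : ℝ) + 1) * lam)) =
        (Λ.card : ℝ≥0∞) * (1 + 2 * ((d : ℝ≥0∞) + 1) * lam) := by
      rw [ENNReal.ofReal_mul (by positivity), ENNReal.ofReal_add (by norm_num) (by positivity),
        e2]
      simp
    have e4 : ENNReal.ofReal (2 * ((d : ℝ) + 1) * lam * K) = 2 * ((d : ℝ≥0∞) + 1) * lam * K := by
      rw [ENNReal.ofReal_mul (by positivity), e2]
      simp
    rw [e3, e4]
  calc ∑' n : ℕ, ∑ w ∈ W Λ n, ENNReal.ofReal (Real.exp (-R)) *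
          (rp lam w / (n.factorial : ℝ≥0∞)) * wt g (fold A w)
      ≤ ∑' n : ℕ, ENNReal.ofReal (Real.exp (-R)) * wt g A *
          ((ENNReal.ofReal (R + c)) ^ n / (n.factorial : ℝ≥0∞)) := by
        refine ENNReal.tsum_le_tsum fun n => ?_
        have h1 := iter_bound lam K g hg Λ A n
        rw [hM] at h1
        calc ∑ w ∈ W Λ n, ENNReal.ofReal (Real.exp (-R)) *
              (rp lam w / (n.factorial : ℝ≥0∞)) * wt g (fold A w)
            = ENNReal.ofReal (Real.exp (-R)) * (n.factorial : ℝ≥0∞)⁻¹ *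
              ∑ w ∈ W Λ n, rp lam w * wt g (fold A w) := by
              rw [Finset.mul_sum]
              refine Finset.sum_congr rfl fun w _ => ?_
              rw [div_eq_mul_inv]; ring
          _ ≤ ENNReal.ofReal (Real.exp (-R)) * (n.factorial : ℝ≥0∞)⁻¹ *
              ((ENNReal.ofReal (R + c)) ^ n * wt g A) := by gcongr
          _ = _ := by rw [div_eq_mul_inv]; ring
    _ = ENNReal.ofReal (Real.exp (-R)) * wt g A * ENNReal.ofReal (Real.exp (R + c)) := by
        rw [ENNReal.tsum_mul_left, tsum_exp _ (by positivity)]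
    _ = gc d lam K * wt g A := by
        rw [gc, mul_right_comm, ← ENNReal.ofReal_mul (Real.exp_pos _).le, ← Real.exp_add]
        congr 3
        ring

theorem disj_strip (Λ : Finset (Site d)) (s : ℤ) (m : ℕ) :
    Disjoint {p : Site d × ℤ | p.1 ∈ Λ ∧ s ≤ p.2 ∧ p.2 < s + m}
      {p : Site d × ℤ | p.1 ∈ Λ ∧ p.2 = s + m} := by
  rw [Set.disjoint_left]
  rintro p ⟨_, _, h3⟩ ⟨_, h4⟩
  omega

/-- The Markov property in expectation form, for the strip after time `s + m`. -/
theorem lintegral_strip (lam : ℝ≥0) (Λ : Finset (Site d)) (s : ℤ) (m : ℕ)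
    (A : Finset (Site d)) (F : Finset (Site d) → ℝ≥0∞) (G : Finset (Site d) → ℝ≥0∞)
    (hFG : ∀ B, ∫⁻ ω, F (strip Λ (s + m) ω B) ∂(P lam) ≤ G B) :
    ∫⁻ ω, F (strip Λ (s + m) ω (run Λ s m ω A)) ∂(P lam) ≤
      ∫⁻ ω, G (run Λ s m ω A) ∂(P lam) := by
  classical
  have hrm := Run.run_meas Λ s m A
  have h1 : ∀ ω : Om d, F (strip Λ (s + m) ω (run Λ s m ω A)) =
      ∑' B, (if run Λ s m ω A = B then 1 else 0) * F (strip Λ (s + m) ω B) := by
    intro ω
    rw [tsum_eq_single (run Λ s m ω A)]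
    · simp
    · intro B hB
      simp [hB.symm]
  have h2 : ∀ ω : Om d, G (run Λ s m ω A) =
      ∑' B, (if run Λ s m ω A = B then 1 else 0) * G B := by
    intro ω
    rw [tsum_eq_single (run Λ s m ω A)]
    · simp
    · intro B hB
      simp [hB.symm]
  have hmi : ∀ B, Measurable[Fs {p : Site d × ℤ | p.1 ∈ Λ ∧ s ≤ p.2 ∧ p.2 < s + m}]
      (fun ω : Om d => (if run Λ s m ω A = B then (1 : ℝ≥0∞) else 0)) := fun B =>
    (measurable_from_top (f := fun C : Finset (Site d) => (if C = B then (1 : ℝ≥0∞) else 0))).comp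
      hrm
  have hms : ∀ B, Measurable[Fs {p : Site d × ℤ | p.1 ∈ Λ ∧ p.2 = s + m}]
      (fun ω : Om d => F (strip Λ (s + m) ω B)) := fun B =>
    (measurable_from_top (f := fun w : List (Letter d) => F (fold B w))).comp
      (Word.word_meas Λ (s + m))
  simp only [h1, h2]
  rw [lintegral_tsum, lintegral_tsum]
  · refine ENNReal.tsum_le_tsum fun B => ?_
    have := lintegral_mul_eq_lintegral_mul_lintegral_of_independent_measurableSpace
      (Ind.Fs_le _) (Ind.Fs_le _) (Ind.indep lam (disj_strip Λ s m)) (hmi B) (hms B)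
    rw [this, lintegral_mul_const _ ((hmi B).mono (Ind.Fs_le _) le_rfl)]
    gcongr
    exact hFG B
  · intro B
    exact (((hmi B).mono (Ind.Fs_le _) le_rfl).mul_const _).aemeasurable
  · intro B
    exact (((hmi B).mono (Ind.Fs_le _) le_rfl).mul
      ((hms B).mono (Ind.Fs_le _) le_rfl)).aemeasurable

theorem run_bound (hW : WLAW_spec) (lam K : ℝ≥0) (g : Site d → ℝ≥0∞)
    (hg : ∀ x a, g (x + dir a) ≤ K * g x) (Λ : Finset (Site d)) (s : ℤ) (m : ℕ)
    (A : Finset (Site d)) :
    ∫⁻ ω, wt g (run Λ s m ω A) ∂(P lam) ≤ gc d lam K ^ m * wt g A := by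
  induction m with
  | zero =>
    simp only [run, lintegral_const, measure_univ, mul_one, pow_zero, one_mul]
    exact Finset.sum_le_sum_of_subset Finset.inter_subset_left
  | succ m ih =>
    calc ∫⁻ ω, wt g (run Λ s (m + 1) ω A) ∂(P lam)
        ≤ ∫⁻ ω, wt g (strip Λ (s + m) ω (run Λ s m ω A)) ∂(P lam) :=
          lintegral_mono fun ω => Finset.sum_le_sum_of_subset Finset.inter_subset_left
      _ ≤ ∫⁻ ω, gc d lam K * wt g (run Λ s m ω A) ∂(P lam) :=
          lintegral_strip lam Λ s m A (wt g) (fun B => gc d lam K * wt g B)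
            (fun B => fold_bound hW lam K g hg Λ (s + m) B)
      _ = gc d lam K * ∫⁻ ω, wt g (run Λ s m ω A) ∂(P lam) := by
          refine lintegral_const_mul _ ?_
          exact (measurable_from_top (f := wt g)).comp
            ((Run.run_meas Λ s m A).mono (Ind.Fs_le _) le_rfl)
      _ ≤ gc d lam K * (gc d lam K ^ m * wt g A) := by gcongr
      _ = gc d lam K ^ (m + 1) * wt g A := by ring

theorem exits_bound (hW : WLAW_spec) (lam K : ℝ≥0) (g : Site d → ℝ≥0∞)
    (hg : ∀ x a, g (x + dir a) ≤ K * g x) (Λ : Finset (Site d)) (s : ℤ) (m : ℕ)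
    (A : Finset (Site d)) :
    ∫⁻ ω, wt g (exits Λ s m ω A) ∂(P lam) ≤ gc d lam K ^ (m + 1) * wt g A := by
  calc ∫⁻ ω, wt g (exits Λ s m ω A) ∂(P lam)
      ≤ ∫⁻ ω, wt g (strip Λ (s + m) ω (run Λ s m ω A)) ∂(P lam) :=
        lintegral_mono fun ω => Finset.sum_le_sum_of_subset Finset.sdiff_subset
    _ ≤ ∫⁻ ω, gc d lam K * wt g (run Λ s m ω A) ∂(P lam) :=
        lintegral_strip lam Λ s m A (wt g) (fun B => gc d lam K * wt g B)
          (fun B => fold_bound hW lam K g hg Λ (s + m) B)
    _ = gc d lam K * ∫⁻ ω, wt g (run Λ s m ω A) ∂(P lam) := by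
        refine lintegral_const_mul _ ?_
        exact (measurable_from_top (f := wt g)).comp
          ((Run.run_meas Λ s m A).mono (Ind.Fs_le _) le_rfl)
    _ ≤ gc d lam K * (gc d lam K ^ m * wt g A) := by
        gcongr
        exact run_bound hW lam K g hg Λ s m A
    _ = gc d lam K ^ (m + 1) * wt g A := by ring

end Grow

theorem grow_holds (hW : WLAW_spec) : GROW_spec := fun _ lam K g hg =>
  ⟨fun Λ k A => Grow.fold_bound hW lam K g hg Λ k A,
    fun Λ s m A => Grow.run_bound hW lam K g hg Λ s m A,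
    fun Λ s m A => Grow.exits_bound hW lam K g hg Λ s m A⟩

end Pool.Agent.Lib.MP_c12170_pr
end

section
open MeasureTheory ProbabilityTheory Filter Topology
open scoped ENNReal NNReal

namespace Pool.Agent.Lib.MP_c12170_pr

namespace Sym

variable {d : ℕ}

/-- Action on letters. -/
def letter (π : Aut d) : Letter d ≃ Letter d :=
  Equiv.prodCongr π.e (Equiv.optionCongr π.de)

theorem im_inter (π : Aut d) (A B : Finset (Site d)) : π.im (A ∩ B) = π.im A ∩ π.im B :=
  Finset.map_inter _ _

theorem im_sdiff (π : Aut d) (A B : Finset (Site d)) : π.im (A \ B) = π.im A \ π.im B := by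
  ext x
  simp only [Aut.im, Finset.mem_map_equiv, Finset.mem_sdiff]

theorem upd_im (π : Aut d) (A : Finset (Site d)) (l : Letter d) :
    upd (π.im A) (letter π l) = π.im (upd A l) := by
  obtain ⟨y, o⟩ := l
  cases o with
  | none =>
    ext x
    simp only [upd, letter, Equiv.prodCongr_apply, Prod.map, Equiv.optionCongr_apply,
      Option.map_none, Aut.im, Finset.mem_erase, Finset.mem_map_equiv]
    constructor
    · rintro ⟨h1, h2⟩
      exact ⟨fun h => h1 (by rw [← h, Equiv.apply_symm_apply]), h2⟩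
    · rintro ⟨h1, h2⟩
      exact ⟨fun h => h1 (by rw [h, Equiv.symm_apply_apply]), h2⟩
  | some a =>
    have hmem : (π.e y ∈ π.im A) ↔ y ∈ A := by simp [Aut.im]
    simp only [upd, letter, Equiv.prodCongr_apply, Prod.map, Equiv.optionCongr_apply,
      Option.map_some]
    by_cases h : y ∈ A
    · rw [if_pos (hmem.2 h), if_pos h, ← π.h]
      ext x
      simp only [Aut.im, Finset.mem_insert, Finset.mem_map_equiv]
      rw [Equiv.symm_apply_eq]
    · rw [if_neg (fun h' => h (hmem.1 h')), if_neg h]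

theorem fold_im (π : Aut d) (A : Finset (Site d)) (w : List (Letter d)) :
    fold (π.im A) (w.map (letter π)) = π.im (fold A w) := by
  induction w generalizing A with
  | nil => rfl
  | cons l w ih =>
    change fold (upd (π.im A) (letter π l)) (w.map (letter π)) = π.im (fold (upd A l) w)
    rw [upd_im, ih]

theorem goW_im (π : Aut d) (Λ A : Finset (Site d)) (ws : List (List (Letter d))) :
    Words.goW (π.im Λ) (π.im A) (ws.map (List.map (letter π))) =
      (π.im (Words.goW Λ A ws).1, (Words.goW Λ A ws).2.map π.im) := by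
  induction ws using List.reverseRecOn with
  | nil => simp [Words.goW, im_inter]
  | append_singleton ws w ih =>
    rw [List.map_append, List.map_singleton, Words.goW_append, Words.goW_append, ih]
    simp only [Words.stepW, fold_im, im_inter, List.map_append, List.map_singleton]

theorem wl_im (π : Aut d) (lam : ℝ≥0) (Λ : Finset (Site d)) (w : List (Letter d)) :
    Words.wl lam (π.im Λ) (w.map (letter π)) = Words.wl lam Λ w := by
  unfold Words.wl
  have h1 : (∀ l ∈ w.map (letter π), l.1 ∈ π.im Λ) ↔ ∀ l ∈ w, l.1 ∈ Λ := by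
    simp only [List.mem_map, forall_exists_index, and_imp, forall_apply_eq_imp_iff₂]
    refine forall₂_congr fun l _ => ?_
    simp [letter, Aut.im]
  have h2 : ∀ l : Letter d, rate lam (letter π l).2 = rate lam l.2 := by
    rintro ⟨x, o⟩
    cases o <;> rfl
  have h3 : (π.im Λ).card = Λ.card := Finset.card_map _
  simp only [h1, h3, List.map_map, Function.comp_def, h2, List.length_map]

end Sym

theorem sym_holds (hW : WLAW_spec) : SYM_spec := by
  intro d lam π Λ s s' m A Q
  have key := Words.law_congr hW lam (π.im Λ) Λ s s' m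
    (Equiv.listEquivOfEquiv (Equiv.listEquivOfEquiv (Sym.letter π)))
    (fun ws => by simp [Equiv.listEquivOfEquiv]) (fun ws => ?_)
    (fun ws => Q (Words.goW (π.im Λ) (π.im A) ws).2)
  · have e1 : {ω : Om d | Q (trace (π.im Λ) s m ω (π.im A))} =
        {ω : Om d | Q (Words.goW (π.im Λ) (π.im A) (Words.words (π.im Λ) s m ω)).2} := by
      simp only [Words.goW_words]
    have e2 : {ω : Om d | Q ((trace Λ s' m ω A).map π.im)} =
        {ω : Om d | Q (Words.goW (π.im Λ) (π.im A)
          ((Equiv.listEquivOfEquiv (Equiv.listEquivOfEquiv (Sym.letter π)))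
            (Words.words Λ s' m ω))).2} := by
      ext ω
      have := Sym.goW_im π Λ A (Words.words Λ s' m ω)
      have h2 : (Equiv.listEquivOfEquiv (Equiv.listEquivOfEquiv (Sym.letter π)))
          (Words.words Λ s' m ω) = (Words.words Λ s' m ω).map (List.map (Sym.letter π)) := rfl
      simp only [Set.mem_ofPred_eq, h2, this, Words.goW_words]
    rw [e1, e2]
    exact key
  · change ((ws.map (List.map (Sym.letter π))).map (Words.wl lam (π.im Λ))).prod = _
    rw [List.map_map]
    congr 1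
    refine List.map_congr_left fun w _ => ?_
    exact Sym.wl_im π lam Λ w

end Pool.Agent.Lib.MP_c12170_pr
end

section
open MeasureTheory ProbabilityTheory Filter Topology
open scoped ENNReal NNReal

namespace Pool.Agent.Lib.MP_c12170_pr

namespace Sqrt

/-! ### Products of decreasing events -/

section dec

variable {V : Type}

theorem two (μ : Measure (Finset V)) [IsProbabilityMeasure μ]
    (h : ∀ (f g : Finset V → ℝ), Monotone f → Monotone g →
      (∀ A, 0 ≤ f A ∧ f A ≤ 1) → (∀ A, 0 ≤ g A ∧ g A ≤ 1) →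
      (∫ A, f A ∂μ) * (∫ A, g A ∂μ) ≤ ∫ A, f A * g A ∂μ)
    {E F : Set (Finset V)} (hE : IsLowerSet E) (hF : IsLowerSet F) :
    μ.real E * μ.real F ≤ μ.real (E ∩ F) := by
  have hm : ∀ G : Set (Finset V), MeasurableSet G := fun G => trivial
  have mono : ∀ G : Set (Finset V), IsLowerSet G →
      Monotone (Gᶜ.indicator fun _ => (1 : ℝ)) := by
    intro G hG A B hAB
    by_cases hA : A ∈ Gᶜ
    · have hB : B ∈ Gᶜ := fun hB => hA (hG hAB hB)
      rw [Set.indicator_of_mem hA, Set.indicator_of_mem hB]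
    · rw [Set.indicator_of_notMem hA]
      exact Set.indicator_nonneg (fun _ _ => zero_le_one) _
  have bd : ∀ G : Set (Finset V), ∀ A, 0 ≤ (Gᶜ.indicator fun _ => (1 : ℝ)) A ∧
      (Gᶜ.indicator fun _ => (1 : ℝ)) A ≤ 1 := fun G A =>
    ⟨Set.indicator_nonneg (fun _ _ => zero_le_one) _,
      Set.indicator_le_self' (fun _ _ => zero_le_one) _⟩
  have h1 := h _ _ (mono E hE) (mono F hF) (bd E) (bd F)
  have i1 : ∀ G : Set (Finset V), ∫ A, (Gᶜ.indicator fun _ => (1 : ℝ)) A ∂μ = 1 - μ.real G := by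
    intro G
    rw [integral_indicator (hm _)]
    simp only [integral_const, smul_eq_mul, mul_one, measureReal_restrict_apply_univ]
    exact probReal_compl_eq_one_sub (hm G)
  have i2 : (fun A => (Eᶜ.indicator fun _ => (1 : ℝ)) A * (Fᶜ.indicator fun _ => (1 : ℝ)) A) =
      (E ∪ F)ᶜ.indicator fun _ => (1 : ℝ) := by
    funext A
    by_cases hA : A ∈ E <;> by_cases hB : A ∈ F <;> simp [Set.indicator, hA, hB]
  rw [i2, i1, i1, i1] at h1
  have h2 := measureReal_union_add_inter (μ := μ) (s := E) (hm F)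
  nlinarith

theorem many (μ : Measure (Finset V)) [IsProbabilityMeasure μ]
    (h : ∀ (f g : Finset V → ℝ), Monotone f → Monotone g →
      (∀ A, 0 ≤ f A ∧ f A ≤ 1) → (∀ A, 0 ≤ g A ∧ g A ≤ 1) →
      (∫ A, f A ∂μ) * (∫ A, g A ∂μ) ≤ ∫ A, f A * g A ∂μ)
    {ι : Type} (I : Finset ι) (E : ι → Set (Finset V)) (hE : ∀ i ∈ I, IsLowerSet (E i)) :
    ∏ i ∈ I, μ.real (E i) ≤ μ.real (⋂ i ∈ I, E i) := by
  classical
  induction I using Finset.induction_on with
  | empty => simp
  | insert a I ha ih =>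
    have ih' := ih fun i hi => hE i (Finset.mem_insert_of_mem hi)
    have hset : (⋂ i ∈ insert a I, E i) = E a ∩ ⋂ i ∈ I, E i := by simp
    rw [hset, Finset.prod_insert ha]
    refine (mul_le_mul_of_nonneg_left ih' measureReal_nonneg).trans ?_
    refine two μ h (hE a (Finset.mem_insert_self _ _)) ?_
    exact isLowerSet_iInter₂ fun i hi => hE i (Finset.mem_insert_of_mem hi)

end dec

variable {d : ℕ}

/-- The vertex set: final state and exits. -/
abbrev VV (d : ℕ) : Type := Site d ⊕ Site d × ℕ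

open Classical in
/-- The random set of ASSOC. -/
noncomputable def X (Λ A : Finset (Site d)) (T : ℕ) (ω : Om d) : Finset (VV d) :=
  ((run Λ 0 T ω A).image Sum.inl ∪ (Finset.range T).biUnion fun k =>
        (exits Λ 0 k ω A).image fun x => Sum.inr (x, k) : Finset (Site d ⊕ Site d × ℕ))

theorem inl_mem {Λ A : Finset (Site d)} {T : ℕ} {ω : Om d} {x : Site d} :
    (Sum.inl x : VV d) ∈ X Λ A T ω ↔ x ∈ run Λ 0 T ω A := by
  unfold X
  simp

theorem inr_mem {Λ A : Finset (Site d)} {T : ℕ} {ω : Om d} {p : Site d × ℕ} :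
    (Sum.inr p : VV d) ∈ X Λ A T ω ↔ p.2 < T ∧ p.1 ∈ exits Λ 0 p.2 ω A := by
  unfold X
  obtain ⟨x, k⟩ := p
  simp

theorem X_meas (Λ A : Finset (Site d)) (T : ℕ) : Measurable (X Λ A T) := by
  refine measurable_to_countable' fun S => ?_
  have e : X Λ A T ⁻¹' {S} = ⋂ v : VV d, {ω | v ∈ X Λ A T ω ↔ v ∈ S} := by
    ext ω
    simp only [Set.mem_preimage, Set.mem_singleton_iff, Set.mem_iInter, Set.mem_ofPred_eq]
    exact Finset.ext_iff
  rw [e]
  refine MeasurableSet.iInter fun v => ?_
  rcases v with x | p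
  · have h1 : Measurable (fun ω : Om d => run Λ 0 T ω A) :=
      Measurable.mono (Run.run_meas Λ 0 T A) (Ind.Fs_le _) le_rfl
    have h2 := h1 (t := {B | x ∈ B ↔ (Sum.inl x : VV d) ∈ S}) trivial
    simp only [inl_mem]
    exact h2
  · have h1 : Measurable (fun ω : Om d => exits Λ 0 p.2 ω A) :=
      Measurable.mono (Run.exits_meas Λ 0 p.2 A) (Ind.Fs_le _) le_rfl
    have h2 := h1 (t := {B | p.2 < T ∧ p.1 ∈ B ↔ (Sum.inr p : VV d) ∈ S}) trivial
    simp only [inr_mem]
    exact h2

/-- Products of decreasing events of the final state and the exits. -/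
theorem prod_le (hA : ASSOC_spec) (lam : ℝ≥0) (Λ A : Finset (Site d)) (T : ℕ) {ι : Type}
    (I : Finset ι) (E : ι → Set (Finset (VV d))) (hE : ∀ i ∈ I, IsLowerSet (E i)) :
    ∏ i ∈ I, (P lam).real {ω : Om d | X Λ A T ω ∈ E i} ≤
      (P lam).real {ω : Om d | ∀ i ∈ I, X Λ A T ω ∈ E i} := by
  have : IsProbabilityMeasure ((P lam).map (X Λ A T)) :=
    Measure.isProbabilityMeasure_map (X_meas Λ A T).aemeasurable
  have h := many ((P lam).map (X Λ A T)) (fun f g hf hg hf' hg' => ?_) I E hE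
  · have e : ∀ G : Set (Finset (VV d)), ((P lam).map (X Λ A T)).real G =
        (P lam).real {ω : Om d | X Λ A T ω ∈ G} := fun G =>
      map_measureReal_apply (X_meas Λ A T) trivial
    simp only [e] at h
    refine h.trans (le_of_eq ?_)
    congr 1
    ext ω
    simp
  · have h1 := hA d lam Λ A T ∅ f g hf hg hf' hg'
    have e : {A : Finset (VV d) | Disjoint A ∅} = Set.univ := by
      ext A
      simp
    rw [e] at h1
    simp only [setIntegral_univ] at h1
    have e2 : ((P lam).map (X Λ A T)).real Set.univ = 1 := probReal_univ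
    change (∫ B, f B ∂((P lam).map (X Λ A T))) * (∫ B, g B ∂((P lam).map (X Λ A T))) ≤
      (∫ B, f B * g B ∂((P lam).map (X Λ A T))) * ((P lam).map (X Λ A T)).real Set.univ at h1
    rwa [e2, mul_one] at h1

/-! ### Signed permutations -/

/-- The signed permutation of the coordinates. -/
def sp (q : Equiv.Perm (Fin (d + 1))) (s : Fin (d + 1) → Bool) : Aut d where
  e :=
    { toFun := fun x j => if s j then - x (q j) else x (q j)
      invFun := fun x j => if s (q.symm j) then - x (q.symm j) else x (q.symm j)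
      left_inv := by
        intro x
        funext j
        simp only [Equiv.apply_symm_apply]
        by_cases h : s (q.symm j) <;> simp [h]
      right_inv := by
        intro x
        funext j
        simp only [Equiv.symm_apply_apply]
        by_cases h : s j <;> simp [h] }
  de :=
    { toFun := fun a => (q.symm a.1, xor (s (q.symm a.1)) a.2)
      invFun := fun a => (q a.1, xor (s a.1) a.2)
      left_inv := by
        rintro ⟨i, b⟩
        simp
      right_inv := by
        rintro ⟨i, b⟩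
        simp }
  h := by
    rintro x ⟨i, b⟩
    funext j
    simp only [Equiv.coe_fn_mk, Pi.add_apply, dir]
    by_cases hj : q j = i
    · have hj' : q.symm i = j := by rw [← hj, Equiv.symm_apply_apply]
      subst hj
      simp only [Equiv.symm_apply_apply, Pi.single_eq_same]
      cases hs : s j <;> cases b <;> simp <;> ring
    · have hj' : j ≠ q.symm i := fun h => hj (by rw [h, Equiv.apply_symm_apply])
      rw [Pi.single_eq_of_ne hj, Pi.single_eq_of_ne hj']
      simp

theorem sp_symm_abs (q : Equiv.Perm (Fin (d + 1))) (s : Fin (d + 1) → Bool) (x : Site d)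
    (j : Fin (d + 1)) : |(sp q s).e.symm x j| = |x (q.symm j)| := by
  simp only [sp, Equiv.coe_fn_symm_mk]
  split_ifs
  · exact abs_neg _
  · rfl

theorem sp_bx (q : Equiv.Perm (Fin (d + 1))) (s : Fin (d + 1) → Bool) (n : ℕ) :
    (sp q s).im (bx (0 : Site d) n) = bx 0 n := by
  ext x
  rw [Aut.im, Finset.mem_map_equiv, TopMove.mem_bx, TopMove.mem_bx]
  simp only [Pi.zero_apply, sub_zero, sp_symm_abs]
  constructor
  · intro h j
    have := h (q j)
    rwa [Equiv.symm_apply_apply] at this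
  · intro h j
    exact h _

theorem card_filter_im (π : Aut d) (B : Finset (Site d)) (p p' : Site d → Prop)
    [DecidablePred p] [DecidablePred p'] (h : ∀ x, p (π.e x) ↔ p' x) :
    ((π.im B).filter p).card = (B.filter p').card := by
  rw [Aut.im, Finset.filter_map, Finset.card_map]
  congr 1
  refine Finset.filter_congr fun x _ => ?_
  exact h x

theorem orth_sp (σ σ' : Fin (d + 1) → Bool) (x : Site d) :
    InOrth σ ((sp (Equiv.refl _) fun j => xor (σ j) (σ' j)).e x) ↔ InOrth σ' x := by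
  unfold InOrth
  refine forall_congr' fun j => ?_
  simp only [sp, Equiv.coe_fn_mk, Equiv.refl_apply]
  by_cases h1 : σ j = true <;> by_cases h2 : σ' j = true <;> simp [h1, h2]

theorem side_sp (L : ℕ) (a a' : Dir d) (σ σ' : Fin (d + 1) → Bool) (x : Site d) :
    InSide L a σ ((sp (Equiv.swap a.1 a'.1) fun j => if j = a.1 then xor a.2 a'.2 else
      xor (σ j) (σ' (Equiv.swap a.1 a'.1 j))).e x) ↔ InSide L a' σ' x := by
  unfold InSide
  refine and_congr ?_ ?_
  · simp only [sp, Equiv.coe_fn_mk, if_true, Equiv.swap_apply_left]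
    cases a.2 <;> cases a'.2 <;> simp <;> omega
  · constructor
    · intro h j hj
      have hj' : Equiv.swap a.1 a'.1 j ≠ a.1 := by
        intro h'
        apply hj
        rw [Equiv.swap_apply_eq_iff] at h'
        rw [h', Equiv.swap_apply_left]
      have h1 := h _ hj'
      simp only [sp, Equiv.coe_fn_mk, if_neg hj', Equiv.swap_apply_self] at h1
      cases h2 : σ (Equiv.swap a.1 a'.1 j) <;> cases h3 : σ' j <;> simp_all
    · intro h j hj
      have hj' : Equiv.swap a.1 a'.1 j ≠ a'.1 := by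
        intro h'
        apply hj
        rw [Equiv.swap_apply_eq_iff] at h'
        rw [h', Equiv.swap_apply_right]
      have h1 := h _ hj'
      simp only [sp, Equiv.coe_fn_mk, if_neg hj]
      cases h2 : σ j <;> cases h3 : σ' (Equiv.swap a.1 a'.1 j) <;> simp [h2, h3] at h1 ⊢ <;>
        exact h1

/-! ### Covering by the classes -/

theorem fold_nbr {Λ : Finset (Site d)} (w : List (Letter d)) (hw : ∀ l ∈ w, l.1 ∈ Λ)
    (A : Finset (Site d)) : ∀ x ∈ fold A w, x ∈ A ∨ ∃ y ∈ Λ, ∃ a, x = y + dir a := by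
  induction w generalizing A with
  | nil => exact fun x hx => Or.inl hx
  | cons l w ih =>
    intro x hx
    rcases ih (fun l' hl' => hw l' (List.mem_cons_of_mem _ hl')) (upd A l) x hx with h | h
    · rw [Run.mem_upd] at h
      rcases h with ⟨_, h, _⟩ | ⟨a, _, h | ⟨_, h⟩⟩
      · exact Or.inl h
      · exact Or.inl h
      · exact Or.inr ⟨l.1, hw l List.mem_cons_self, a, h⟩
    · exact Or.inr h

theorem exit_side {L : ℕ} {A : Finset (Site d)} {k : ℕ} {ω : Om d} {x : Site d}
    (hx : x ∈ exits (bx 0 L) 0 k ω A) : ∃ (a : Dir d) (σ : Fin (d + 1) → Bool), InSide L a σ x := by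
  unfold exits strip at hx
  rw [Finset.mem_sdiff] at hx
  obtain ⟨h1, h2⟩ := hx
  rcases fold_nbr _ (fun l hl => Word.word_mem hl) _ x h1 with h | ⟨y, hy, a, rfl⟩
  · exact absurd (Run.run_sub _ _ _ _ _ h) h2
  · refine ⟨a, fun j => decide (0 ≤ (y + dir a) j), ?_, ?_⟩
    · rw [TopMove.mem_bx] at hy h2
      simp only [not_forall, not_le, Pi.zero_apply, sub_zero] at hy h2
      obtain ⟨j, hj⟩ := h2
      have hja : j = a.1 := by
        by_contra hne
        rw [Pi.add_apply, dir, Pi.single_eq_of_ne hne, add_zero] at hj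
        exact absurd (hy j) (not_le.2 hj)
      subst hja
      have h3 := hy a.1
      rw [Pi.add_apply, dir, Pi.single_eq_same] at hj ⊢
      rw [abs_le] at h3
      rw [lt_abs] at hj
      by_cases ha : a.2
      · simp only [ha, if_true] at hj ⊢
        omega
      · simp only [ha] at hj ⊢
        simp only [Bool.false_eq_true, if_false] at hj ⊢
        omega
    · intro j hj
      rw [TopMove.mem_bx] at hy
      have h3 := hy j
      simp only [Pi.zero_apply, sub_zero] at h3
      have e : (y + dir a) j = y j := by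
        rw [Pi.add_apply, dir, Pi.single_eq_of_ne hj, add_zero]
      refine ⟨by rw [e]; exact h3, ?_⟩
      rw [e]
      by_cases h : 0 ≤ y j
      · rw [if_pos (by simp only [e]; simpa using h)]
        exact h
      · rw [if_neg (by simp only [e]; simpa using h)]
        omega

open Classical in
theorem sym_top (hS : SYM_spec) (lam : ℝ≥0) (L n u C : ℕ) (σ σ' : Fin (d + 1) → Bool) :
    (P lam).real {ω : Om d | ((run (bx 0 L) 0 u ω (bx 0 n)).filter (InOrth σ)).card ≤ C} =
      (P lam).real {ω : Om d | ((run (bx 0 L) 0 u ω (bx 0 n)).filter (InOrth σ')).card ≤ C} := by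
  have h := SymRun.sym_run hS lam (sp (Equiv.refl _) fun j => xor (σ j) (σ' j))
    (bx (0 : Site d) L) 0 0 u (bx 0 n) (fun B => (B.filter (InOrth σ)).card ≤ C)
  rw [sp_bx, sp_bx] at h
  rw [h]
  congr 1
  ext ω
  simp only [Set.mem_ofPred_eq]
  rw [card_filter_im _ _ (InOrth σ) (InOrth σ') (orth_sp σ σ')]

open Classical in
theorem sym_side (hS : SYM_spec) (lam : ℝ≥0) (L n T C : ℕ) (a a' : Dir d)
    (σ σ' : Fin (d + 1) → Bool) :
    (P lam).real {ω : Om d | ∑ k ∈ Finset.range T,
        ((exits (bx 0 L) 0 k ω (bx 0 n)).filter (InSide L a σ)).card ≤ C} =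
      (P lam).real {ω : Om d | ∑ k ∈ Finset.range T,
        ((exits (bx 0 L) 0 k ω (bx 0 n)).filter (InSide L a' σ')).card ≤ C} := by
  set π := sp (Equiv.swap a.1 a'.1) fun j => if j = a.1 then xor a.2 a'.2 else
      xor (σ j) (σ' (Equiv.swap a.1 a'.1 j)) with hπ
  have hb : ∀ m : ℕ, π.im (bx (0 : Site d) m) = bx 0 m := fun m => sp_bx _ _ m
  have h := hS d lam π (bx (0 : Site d) L) 0 0 T (bx 0 n) (fun tr => ∑ k ∈ Finset.range T,
    (((tr[k]?.getD ∅) \ bx 0 L).filter (InSide L a σ)).card ≤ C)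
  rw [hb, hb] at h
  have e1 : {ω : Om d | ∑ k ∈ Finset.range T,
        ((exits (bx 0 L) 0 k ω (bx 0 n)).filter (InSide L a σ)).card ≤ C} =
      {ω : Om d | ∑ k ∈ Finset.range T, ((((trace (bx 0 L) 0 T ω (bx 0 n))[k]?.getD ∅) \
        bx 0 L).filter (InSide L a σ)).card ≤ C} := by
    ext ω
    simp only [Set.mem_ofPred_eq]
    rw [Finset.sum_congr rfl fun k hk => ?_]
    rw [SymRun.exits_eq _ _ T _ _ _ (Finset.mem_range.1 hk)]
  have e2 : {ω : Om d | ∑ k ∈ Finset.range T,
        ((exits (bx 0 L) 0 k ω (bx 0 n)).filter (InSide L a' σ')).card ≤ C} =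
      {ω : Om d | ∑ k ∈ Finset.range T, (((((trace (bx 0 L) 0 T ω (bx 0 n)).map π.im)[k]?.getD ∅) \
        bx 0 L).filter (InSide L a σ)).card ≤ C} := by
    ext ω
    simp only [Set.mem_ofPred_eq]
    rw [Finset.sum_congr rfl fun k hk => ?_]
    rw [SymRun.exits_eq _ _ T _ _ _ (Finset.mem_range.1 hk)]
    have e3 : ((trace (bx 0 L) 0 T ω (bx 0 n)).map π.im)[k]?.getD ∅ =
        π.im ((trace (bx 0 L) 0 T ω (bx 0 n))[k]?.getD ∅) := by
      rw [List.getElem?_map]
      cases (trace (bx (0 : Site d) L) 0 T ω (bx 0 n))[k]? <;> simp [Aut.im]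
    rw [e3]
    have e4 : π.im ((trace (bx (0 : Site d) L) 0 T ω (bx 0 n))[k]?.getD ∅) \ bx 0 L =
        π.im ((trace (bx (0 : Site d) L) 0 T ω (bx 0 n))[k]?.getD ∅ \ bx 0 L) := by
      rw [Sym.im_sdiff, hb]
    rw [e4, card_filter_im π _ (InSide L a σ) (InSide L a' σ') (side_sp L a a' σ σ')]
  rw [e1, e2]
  exact h

open Classical in
theorem card_exits (Λ A : Finset (Site d)) (T : ℕ) (ω : Om d) (p : Site d → Prop) :
    ∑ k ∈ Finset.range T, ((exits Λ 0 k ω A).filter p).card =
      ((X Λ A T ω).toRight.filter fun q => p q.1).card := by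
  have e : ((X Λ A T ω).toRight.filter fun q => p q.1) =
      (Finset.range T).biUnion fun k => ((exits Λ 0 k ω A).filter p).image fun x => (x, k) := by
    ext ⟨x, k⟩
    simp only [Finset.mem_filter, Finset.mem_toRight, inr_mem, Finset.mem_biUnion,
      Finset.mem_range, Finset.mem_image, Prod.mk.injEq]
    constructor
    · rintro ⟨⟨h1, h2⟩, h3⟩
      exact ⟨k, h1, x, ⟨h2, h3⟩, rfl, rfl⟩
    · rintro ⟨k', h1, x', ⟨h2, h3⟩, rfl, rfl⟩
      exact ⟨⟨h1, h2⟩, h3⟩
  rw [e, Finset.card_biUnion]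
  · refine Finset.sum_congr rfl fun k _ => ?_
    rw [Finset.card_image_of_injective]
    intro x y h
    exact (Prod.mk.inj h).1
  · intro k _ k' _ hkk
    rw [Function.onFun, Finset.disjoint_left]
    intro q h1 h2
    rw [Finset.mem_image] at h1 h2
    obtain ⟨x, _, rfl⟩ := h1
    obtain ⟨y, _, h⟩ := h2
    exact hkk (Prod.mk.inj h).2.symm

end Sqrt

open Classical in
theorem sqrt_holds (hA : ASSOC_spec) (hS : SYM_spec) : SQRT_spec := by
  constructor
  · intro d lam L n u C σ
    have h := Sqrt.prod_le hA lam (bx (0 : Site d) L) (bx 0 n) u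
      (Finset.univ : Finset (Fin (d + 1) → Bool))
      (fun σ' => {B | (B.toLeft.filter (InOrth σ')).card ≤ C}) (fun σ' _ B B' hB' hB => by
        refine le_trans (Finset.card_le_card (Finset.filter_subset_filter _ ?_)) hB
        exact Finset.toLeft_monotone hB')
    have e : ∀ ω : Om d, (Sqrt.X (bx 0 L) (bx 0 n) u ω).toLeft = run (bx 0 L) 0 u ω (bx 0 n) := by
      intro ω
      ext x
      rw [Finset.mem_toLeft, Sqrt.inl_mem]
    simp only [Set.mem_ofPred_eq, e, Finset.mem_univ, forall_true_left] at h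
    rw [Finset.prod_congr rfl (fun σ' _ => Sqrt.sym_top hS lam L n u C σ' σ), Finset.prod_const,
      Finset.card_univ] at h
    refine h.trans (measureReal_mono fun ω hω => ?_)
    simp only [Set.mem_ofPred_eq] at hω ⊢
    have hcov : run (bx 0 L) 0 u ω (bx 0 n) ⊆ (Finset.univ : Finset (Fin (d + 1) → Bool)).biUnion
        fun σ' => (run (bx 0 L) 0 u ω (bx 0 n)).filter (InOrth σ') := by
      intro x hx
      rw [Finset.mem_biUnion]
      refine ⟨fun j => decide (0 ≤ x j), Finset.mem_univ _, Finset.mem_filter.2 ⟨hx, fun j => ?_⟩⟩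
      by_cases h : 0 ≤ x j
      · simp [h]
      · simp [h]; omega
    refine (Finset.card_le_card hcov).trans (Finset.card_biUnion_le.trans ?_)
    refine (Finset.sum_le_sum fun σ' _ => hω σ').trans ?_
    rw [Finset.sum_const, Finset.card_univ, smul_eq_mul]
  · intro d lam L n T C a σ
    have h := Sqrt.prod_le hA lam (bx (0 : Site d) L) (bx 0 n) T
      (Finset.univ : Finset (Dir d × (Fin (d + 1) → Bool)))
      (fun c => {B | (B.toRight.filter fun q => InSide L c.1 c.2 q.1).card ≤ C})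
      (fun c _ B B' hB' hB => by
        refine le_trans (Finset.card_le_card (Finset.filter_subset_filter _ ?_)) hB
        exact Finset.toRight_monotone hB')
    simp only [Set.mem_ofPred_eq, ← Sqrt.card_exits, Finset.mem_univ, forall_true_left] at h
    rw [Finset.prod_congr rfl (fun c _ => Sqrt.sym_side hS lam L n T C c.1 a c.2 σ),
      Finset.prod_const, Finset.card_univ] at h
    refine h.trans (measureReal_mono fun ω hω => ?_)
    simp only [Set.mem_ofPred_eq] at hω ⊢
    have hcov : ∀ k, (exits (bx 0 L) 0 k ω (bx 0 n)).card ≤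
        ∑ c : Dir d × (Fin (d + 1) → Bool),
          ((exits (bx 0 L) 0 k ω (bx 0 n)).filter (InSide L c.1 c.2)).card := by
      intro k
      have : exits (bx 0 L) 0 k ω (bx 0 n) ⊆
          (Finset.univ : Finset (Dir d × (Fin (d + 1) → Bool))).biUnion
            fun c => (exits (bx 0 L) 0 k ω (bx 0 n)).filter (InSide L c.1 c.2) := by
        intro x hx
        obtain ⟨a', σ', h'⟩ := Sqrt.exit_side hx
        rw [Finset.mem_biUnion]
        exact ⟨(a', σ'), Finset.mem_univ _, Finset.mem_filter.2 ⟨hx, h'⟩⟩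
      exact (Finset.card_le_card this).trans Finset.card_biUnion_le
    refine (Finset.sum_le_sum fun k _ => hcov k).trans ?_
    rw [Finset.sum_comm]
    refine (Finset.sum_le_sum fun c _ => hω c).trans ?_
    rw [Finset.sum_const, Finset.card_univ, smul_eq_mul]

end Pool.Agent.Lib.MP_c12170_pr
end
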