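import Pool.Agent.Lib.MP_c12170_pr.Infh
import Pool.Agent.Lib.MP_c12170_pr.Sqrt

section
open MeasureTheory ProbabilityTheory Filter Topology
open scoped ENNReal NNReal

namespace Pool.Agent.Lib.MP_c12170_pr

namespace Compose

variable {d : ℕ}

open SymRun

theorem runT_map (π : Aut d) (Λ A : Finset (Site d)) (L : List (Finset (Site d))) :
    runT (π.im Λ) (π.im A) (L.map π.im) = π.im (runT Λ A L) := by
  rw [runT, runT, im_inter]
  cases hL : L.getLast? with
  | none =>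
    rw [List.getLast?_eq_none_iff] at hL
    rw [hL]; simp
  | some B =>
    rw [List.getLast?_map, hL]; simp

theorem trace_take (Λ : Finset (Site d)) (s : ℤ) (m k : ℕ) (hk : k ≤ m) (ω : Om d)
    (A : Finset (Site d)) : (trace Λ s m ω A).take k = trace Λ s k ω A := by
  unfold trace
  rw [← List.map_take, List.take_range, min_eq_left hk]

theorem run_take (Λ : Finset (Site d)) (s : ℤ) (m k : ℕ) (hk : k ≤ m) (ω : Om d)
    (A : Finset (Site d)) : run Λ s k ω A = runT Λ A ((trace Λ s m ω A).take k) := by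
  rw [trace_take Λ s m k hk ω A, ← run_eq]

theorem hit_mono {Λ Λ' : Finset (Site d)} {n : ℕ} {z : Site d} {s : ℕ} {S S' : Set (Site d × ℕ)}
    {ω : Om d} (hΛ : Λ ⊆ Λ') (hS : S ⊆ S') (h : Hit Λ n z s S ω) : Hit Λ' n z s S' ω := by
  obtain ⟨p, hp, hs, hb⟩ := h
  exact ⟨p, hS hp, hs, hb.trans (Run.run_mono hΛ _ _ _ (Finset.Subset.refl _))⟩

theorem hit_bdd (Λ : Finset (Site d)) (n : ℕ) (z : Site d) (s : ℕ) (S : Set (Site d × ℕ)) :
    {ω : Om d | Hit Λ n z s S ω} = ⋃ m : ℕ, {ω | Hit Λ n z s {p ∈ S | p.2 ≤ s + m} ω} := by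
  ext ω
  simp only [Set.mem_ofPred_eq, Set.mem_iUnion]
  constructor
  · rintro ⟨p, hp, hs, hb⟩
    exact ⟨p.2, p, ⟨hp, by omega⟩, hs, hb⟩
  · rintro ⟨m, p, hp, hs, hb⟩
    exact ⟨p, hp.1, hs, hb⟩

theorem hit_bdd_mono (Λ : Finset (Site d)) (n : ℕ) (z : Site d) (s : ℕ) (S : Set (Site d × ℕ)) :
    Monotone fun m : ℕ => {ω : Om d | Hit Λ n z s {p ∈ S | p.2 ≤ s + m} ω} := by
  intro m m' h ω hω
  exact hit_mono (Finset.Subset.refl _) (fun p hp => ⟨hp.1, by have := hp.2; omega⟩) hω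

/-- Invariance for bounded times. -/
theorem inv_bdd (hS : SYM_spec) (lam : ℝ≥0) (Λ : Finset (Site d)) (n : ℕ) (z y : Site d)
    (s t m : ℕ) (S : Set (Site d × ℕ)) (hb : ∀ p ∈ S, p.2 ≤ s + m) :
    (P lam).real {ω : Om d | Hit ((Aut.tr y).im Λ) n (z + y) (s + t)
      ((fun p => (p.1 + y, p.2 + t)) '' S) ω} = (P lam).real {ω : Om d | Hit Λ n z s S ω} := by
  have h := hS d lam (Aut.tr y) Λ ((s : ℤ) + t) s m (bx z n) (fun L => ∃ p ∈ S, s ≤ p.2 ∧
    bx (p.1 + y) n ⊆ runT ((Aut.tr y).im Λ) ((Aut.tr y).im (bx z n)) (L.take (p.2 - s)))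
  have e1 : {ω : Om d | Hit ((Aut.tr y).im Λ) n (z + y) (s + t)
      ((fun p => (p.1 + y, p.2 + t)) '' S) ω} = {ω : Om d | ∃ p ∈ S, s ≤ p.2 ∧
    bx (p.1 + y) n ⊆ runT ((Aut.tr y).im Λ) ((Aut.tr y).im (bx z n))
      ((trace ((Aut.tr y).im Λ) ((s : ℤ) + t) m ω ((Aut.tr y).im (bx z n))).take (p.2 - s))} := by
    ext ω
    simp only [Set.mem_ofPred_eq]
    constructor
    · rintro ⟨_, ⟨p, hp, rfl⟩, h1, h2⟩
      have h1' : s ≤ p.2 := by simpa using h1
      refine ⟨p, hp, h1', ?_⟩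
      have := hb p hp
      rw [← run_take _ _ m _ (by omega), im_bx]
      have e : p.2 + t - (s + t) = p.2 - s := by omega
      simp only [e] at h2
      push_cast at h2
      exact h2
    · rintro ⟨p, hp, h1, h2⟩
      refine ⟨_, ⟨p, hp, rfl⟩, by simpa using h1, ?_⟩
      have := hb p hp
      rw [← run_take _ _ m _ (by omega), im_bx] at h2
      have e : p.2 + t - (s + t) = p.2 - s := by omega
      simp only [e]
      push_cast
      exact h2
  have e2 : {ω : Om d | Hit Λ n z s S ω} = {ω : Om d | ∃ p ∈ S, s ≤ p.2 ∧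
    bx (p.1 + y) n ⊆ runT ((Aut.tr y).im Λ) ((Aut.tr y).im (bx z n))
      (((trace Λ s m ω (bx z n)).map (Aut.tr y).im).take (p.2 - s))} := by
    ext ω
    simp only [Set.mem_ofPred_eq, Hit]
    refine exists_congr fun p => and_congr_right fun hp => and_congr_right fun h1 => ?_
    have := hb p hp
    rw [← List.map_take, runT_map, ← run_take _ _ m _ (by omega), ← im_bx]
    exact (Finset.map_subset_map (f := (Aut.tr y).e.toEmbedding)).symm
  rw [e1, e2]
  exact h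

theorem inv (hS : SYM_spec) (lam : ℝ≥0) (Λ : Finset (Site d)) (n : ℕ) (z y : Site d)
    (s t : ℕ) (S : Set (Site d × ℕ)) :
    (P lam).real {ω : Om d | Hit ((Aut.tr y).im Λ) n (z + y) (s + t)
      ((fun p => (p.1 + y, p.2 + t)) '' S) ω} = (P lam).real {ω : Om d | Hit Λ n z s S ω} := by
  have key : P lam {ω : Om d | Hit ((Aut.tr y).im Λ) n (z + y) (s + t)
      ((fun p => (p.1 + y, p.2 + t)) '' S) ω} = P lam {ω : Om d | Hit Λ n z s S ω} := by
    rw [hit_bdd, hit_bdd Λ n z s S, (hit_bdd_mono _ _ _ _ _).measure_iUnion,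
      (hit_bdd_mono _ _ _ _ _).measure_iUnion]
    congr 1
    funext m
    have h := inv_bdd hS lam Λ n z y s t m {p ∈ S | p.2 ≤ s + m} (fun p hp => hp.2)
    have e : {p ∈ (fun p : Site d × ℕ => (p.1 + y, p.2 + t)) '' S | p.2 ≤ s + t + m} =
        (fun p : Site d × ℕ => (p.1 + y, p.2 + t)) '' {p ∈ S | p.2 ≤ s + m} := by
      ext p
      simp only [Set.mem_ofPred_eq, Set.mem_image]
      constructor
      · rintro ⟨⟨q, hq, rfl⟩, h1⟩
        exact ⟨q, ⟨hq, by simp only at h1; omega⟩, rfl⟩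
      · rintro ⟨q, ⟨hq, h1⟩, rfl⟩
        exact ⟨⟨q, hq, rfl⟩, by simp only; omega⟩
    rw [e]
    unfold Measure.real at h
    rwa [ENNReal.toReal_eq_toReal_iff' (measure_ne_top _ _) (measure_ne_top _ _)] at h
  unfold Measure.real
  rw [key]

/-- The order key. -/
def kk (p : Site d × ℕ) : ℕ ×ₗ ℕ := toLex (p.2, Encodable.encode p.1)

theorem kk_inj : Function.Injective (kk (d := d)) := by
  intro p q h
  have h2 : ((p.2, Encodable.encode p.1) : ℕ × ℕ) = (q.2, Encodable.encode q.1) :=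
    toLex.injective h
  rw [Prod.mk.injEq] at h2
  exact Prod.ext (Encodable.encode_injective h2.2) h2.1

/-- One possible hit. -/
def AA (Λ : Finset (Site d)) (n : ℕ) (z : Site d) (s : ℕ) (S : Set (Site d × ℕ))
    (p : Site d × ℕ) : Set (Om d) :=
  {ω | p ∈ S ∧ s ≤ p.2 ∧ bx p.1 n ⊆ run Λ (s : ℤ) (p.2 - s) ω (bx z n)}

/-- The first hit. -/
def EE (Λ : Finset (Site d)) (n : ℕ) (z : Site d) (s : ℕ) (S : Set (Site d × ℕ))
    (p : Site d × ℕ) : Set (Om d) :=
  AA Λ n z s S p ∩ ⋂ q : Site d × ℕ, {ω | kk q < kk p → ω ∉ AA Λ n z s S q}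

theorem hit_eq (Λ : Finset (Site d)) (n : ℕ) (z : Site d) (s : ℕ) (S : Set (Site d × ℕ)) :
    {ω : Om d | Hit Λ n z s S ω} = ⋃ p : Site d × ℕ, AA Λ n z s S p := by
  ext ω
  simp only [Set.mem_ofPred_eq, Set.mem_iUnion, AA, Hit]

theorem hit_eq' (Λ : Finset (Site d)) (n : ℕ) (z : Site d) (s : ℕ) (S : Set (Site d × ℕ)) :
    {ω : Om d | Hit Λ n z s S ω} = ⋃ p : Site d × ℕ, EE Λ n z s S p := by
  rw [hit_eq]
  ext ω
  simp only [Set.mem_iUnion]
  constructor
  · rintro ⟨p, hp⟩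
    obtain ⟨m, ⟨q, hq, rfl⟩, hm⟩ := WellFounded.has_min
      (wellFounded_lt : WellFounded ((· < ·) : ℕ ×ₗ ℕ → ℕ ×ₗ ℕ → Prop))
      (kk '' {q : Site d × ℕ | ω ∈ AA Λ n z s S q}) ⟨_, p, hp, rfl⟩
    exact ⟨q, hq, Set.mem_iInter.2 fun q' hlt hq' => hm _ ⟨q', hq', rfl⟩ hlt⟩
  · rintro ⟨p, hp⟩
    exact ⟨p, hp.1⟩

theorem AA_meas (Λ : Finset (Site d)) (n : ℕ) (z : Site d) (s : ℕ) (S : Set (Site d × ℕ))
    (p : Site d × ℕ) :
    MeasurableSet[Fs {q : Site d × ℤ | (s : ℤ) ≤ q.2 ∧ q.2 < (p.2 : ℤ)}] (AA Λ n z s S p) := by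
  by_cases h : p ∈ S ∧ s ≤ p.2
  · have e : AA Λ n z s S p = {ω | bx p.1 n ⊆ run Λ (s : ℤ) (p.2 - s) ω (bx z n)} := by
      ext ω
      simp only [AA, Set.mem_ofPred_eq]
      tauto
    rw [e]
    refine Ind.Fs_mono ?_ _ (TopMove.fill_meas Λ (bx z n) (bx p.1 n) s (p.2 - s))
    rintro q ⟨_, h1, h2⟩
    have := h.2
    push_cast [this] at h2
    exact ⟨h1, by omega⟩
  · have e : AA Λ n z s S p = ∅ := by
      ext ω
      simp only [AA, Set.mem_ofPred_eq, Set.mem_empty_iff_false, iff_false]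
      tauto
    rw [e]
    exact @MeasurableSet.empty _ (Fs _)

theorem EE_meas (Λ : Finset (Site d)) (n : ℕ) (z : Site d) (s : ℕ) (S : Set (Site d × ℕ))
    (p : Site d × ℕ) :
    MeasurableSet[Fs {q : Site d × ℤ | q.2 < (p.2 : ℤ)}] (EE Λ n z s S p) := by
  refine MeasurableSet.inter ?_ (MeasurableSet.iInter fun q => ?_)
  · exact Ind.Fs_mono (fun q hq => hq.2) _ (AA_meas Λ n z s S p)
  · by_cases h : kk q < kk p
    · have e : {ω | kk q < kk p → ω ∉ AA Λ n z s S q} = (AA Λ n z s S q)ᶜ := by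
        ext ω
        simp [h]
      rw [e]
      refine MeasurableSet.compl (Ind.Fs_mono ?_ _ (AA_meas Λ n z s S q))
      rintro r ⟨_, hr⟩
      have h2 : q.2 ≤ p.2 := by
        unfold kk at h
        rw [Prod.Lex.toLex_lt_toLex] at h
        rcases h with h | h
        · exact h.le
        · exact h.1.le
      show r.2 < (p.2 : ℤ)
      omega
    · have e : {ω | kk q < kk p → ω ∉ AA Λ n z s S q} = Set.univ := by
        ext ω
        simp [h]
      rw [e]
      exact MeasurableSet.univ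

theorem EE_disj (Λ : Finset (Site d)) (n : ℕ) (z : Site d) (s : ℕ) (S : Set (Site d × ℕ)) :
    Pairwise (Function.onFun Disjoint (EE Λ n z s S)) := by
  intro p q hpq
  rw [Function.onFun, Set.disjoint_left]
  rintro ω ⟨h1, h1'⟩ ⟨h2, h2'⟩
  rw [Set.mem_iInter] at h1' h2'
  rcases lt_trichotomy (kk p) (kk q) with h | h | h
  · exact h2' p h h1
  · exact hpq (kk_inj h)
  · exact h1' q h h2

theorem hit_meas (Λ : Finset (Site d)) (n : ℕ) (z : Site d) (s : ℕ) (S : Set (Site d × ℕ)) :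
    MeasurableSet[Fs {q : Site d × ℤ | (s : ℤ) ≤ q.2}] {ω : Om d | Hit Λ n z s S ω} := by
  rw [hit_eq]
  exact MeasurableSet.iUnion fun p => Ind.Fs_mono (fun q hq => hq.1) _ (AA_meas Λ n z s S p)

theorem hit_trans {Λ : Finset (Site d)} {n : ℕ} {z : Site d} {s : ℕ} {S S' : Set (Site d × ℕ)}
    {p : Site d × ℕ} {ω : Om d} (h1 : ω ∈ AA Λ n z s S p) (h2 : Hit Λ n p.1 p.2 S' ω) :
    Hit Λ n z s S' ω := by
  obtain ⟨_, hs, hb⟩ := h1
  obtain ⟨q, hq, hs', hb'⟩ := h2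
  refine ⟨q, hq, hs.trans hs', hb'.trans ?_⟩
  have e : q.2 - s = (p.2 - s) + (q.2 - p.2) := by omega
  have e2 : (s : ℤ) + ((p.2 - s : ℕ) : ℤ) = (p.2 : ℤ) := by omega
  rw [e, Run.run_add, e2]
  exact Run.run_mono (Finset.Subset.refl _) _ _ _ hb

theorem comp (lam : ℝ≥0) (Λ : Finset (Site d)) (n : ℕ) (z : Site d) (s : ℕ)
    (S S' : Set (Site d × ℕ)) (c : ℝ) (hc : 0 ≤ c)
    (h : ∀ p ∈ S, s ≤ p.2 → c ≤ (P lam).real {ω : Om d | Hit Λ n p.1 p.2 S' ω}) :
    c * (P lam).real {ω : Om d | Hit Λ n z s S ω} ≤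
      (P lam).real {ω : Om d | Hit Λ n z s S' ω} := by
  have hE : ∀ p, MeasurableSet (EE Λ n z s S p) := fun p => Ind.Fs_le _ _ (EE_meas Λ n z s S p)
  have hH : ∀ p : Site d × ℕ, MeasurableSet {ω : Om d | Hit Λ n p.1 p.2 S' ω} := fun p =>
    Ind.Fs_le _ _ (hit_meas Λ n p.1 p.2 S')
  have hone : ∀ p : Site d × ℕ, ENNReal.ofReal c * P lam (EE Λ n z s S p) ≤
      P lam (EE Λ n z s S p ∩ {ω : Om d | Hit Λ n p.1 p.2 S' ω}) := by
    intro p
    by_cases hne : (EE Λ n z s S p).Nonempty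
    · obtain ⟨ω, hω⟩ := hne
      have h1 := h p hω.1.1 hω.1.2.1
      have hd : Disjoint {q : Site d × ℤ | q.2 < (p.2 : ℤ)} {q : Site d × ℤ | (p.2 : ℤ) ≤ q.2} := by
        rw [Set.disjoint_left]
        intro q h1 h2
        simp only [Set.mem_ofPred_eq] at h1 h2
        omega
      have h2 := Ind.inter lam hd (EE_meas Λ n z s S p) (hit_meas Λ n p.1 p.2 S')
      have h3 : c * (P lam).real (EE Λ n z s S p) ≤
          (P lam).real (EE Λ n z s S p ∩ {ω : Om d | Hit Λ n p.1 p.2 S' ω}) := by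
        rw [h2, mul_comm]
        exact mul_le_mul_of_nonneg_left h1 measureReal_nonneg
      rw [← ENNReal.ofReal_toReal (measure_ne_top (P lam) (EE Λ n z s S p)),
        ← ENNReal.ofReal_toReal (measure_ne_top (P lam)
          (EE Λ n z s S p ∩ {ω : Om d | Hit Λ n p.1 p.2 S' ω})), ← ENNReal.ofReal_mul hc]
      exact ENNReal.ofReal_le_ofReal h3
    · rw [Set.not_nonempty_iff_eq_empty] at hne
      rw [hne, measure_empty, mul_zero]
      exact zero_le
  have htot : ENNReal.ofReal c * P lam {ω : Om d | Hit Λ n z s S ω} ≤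
      P lam {ω : Om d | Hit Λ n z s S' ω} := by
    rw [hit_eq' Λ n z s S, measure_iUnion (EE_disj Λ n z s S) hE, ← ENNReal.tsum_mul_left]
    refine (ENNReal.tsum_le_tsum hone).trans ?_
    rw [← measure_iUnion (fun p q hpq => ((EE_disj Λ n z s S) hpq).mono Set.inter_subset_left
      Set.inter_subset_left) (fun p => (hE p).inter (hH p))]
    refine measure_mono (Set.iUnion_subset fun p => ?_)
    rintro ω ⟨h1, h2⟩
    exact hit_trans h1.1 h2
  have h2 := ENNReal.toReal_mono (measure_ne_top _ _) htot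
  rw [ENNReal.toReal_mul, ENNReal.toReal_ofReal hc] at h2
  exact h2

end Compose

theorem compose_holds (hS : SYM_spec) : COMPOSE_spec :=
  ⟨fun _ lam Λ n z y s t S => Compose.inv hS lam Λ n z y s t S,
    fun _ _ _ _ _ _ _ _ _ h h' hh => Compose.hit_mono h h' hh,
    fun _ lam Λ n z s S S' c hc h => Compose.comp lam Λ n z s S S' c hc h⟩

end Pool.Agent.Lib.MP_c12170_pr
end

section
open MeasureTheory ProbabilityTheory Filter Topology
open scoped ENNReal NNReal

namespace Pool.Agent.Lib.MP_c12170_pr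

namespace SideMove

variable {d : ℕ}

/-- A point which is hit outside `Λ` in a strip without marks at this point stays. -/
theorem stays {Λ Λ' : Finset (Site d)} (hΛ : Λ ⊆ Λ') {k : ℤ} {ω : Om d} {A A' : Finset (Site d)}
    (hA : A ⊆ A') {x : Site d} (hx : x ∈ strip Λ k ω A) (hx' : x ∈ Λ')
    (hw : word {x} k ω = []) : x ∈ strip Λ' k ω A' := by
  have h1 : Λ ⊆ insert x Λ := Finset.subset_insert _ _
  have h2 : insert x Λ ⊆ Λ' := Finset.insert_subset hx' hΛ
  have h3 : word Λ k ω = word (insert x Λ) k ω := by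
    rw [Word.word_filter h1, List.filter_eq_self]
    intro l hl
    have hl1 := Word.word_mem hl
    rw [Finset.mem_insert] at hl1
    rcases hl1 with hl1 | hl1
    · exfalso
      have h4 : ({x} : Finset (Site d)) ⊆ insert x Λ := by simp
      have h5 := Word.word_filter h4 k ω
      rw [hw] at h5
      have h6 : l ∈ (word (insert x Λ) k ω).filter (fun l => l.1 ∈ ({x} : Finset (Site d))) := by
        rw [List.mem_filter]
        exact ⟨hl, by simpa using hl1⟩
      rw [← h5] at h6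
      simp at h6
    · simpa using hl1
  have h4 : x ∈ strip (insert x Λ) k ω A := by
    unfold strip at hx ⊢
    rwa [← h3]
  exact Run.strip_inter h2 k ω (fun y hy _ => hA hy) x h4 (Finset.mem_insert_self _ _)

/-- The centre of the seed behind the exit `x`. -/
def ctr (n : ℕ) (a : Dir d) (x : Site d) : Site d :=
  fun j => if j = a.1 then x j + (if a.2 then 1 else -1) * n else x j

theorem mem_ctr (n : ℕ) (a : Dir d) (x : Site d) : x ∈ bx (ctr n a x) n := by
  rw [TopMove.mem_bx]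
  intro j
  unfold ctr
  by_cases h : j = a.1
  · rw [if_pos h]
    by_cases h2 : a.2
    · simp [h2]
    · simp [h2]
  · rw [if_neg h]; simp

theorem ctr_sub (n : ℕ) (a : Dir d) (x y : Site d) (j : Fin (d + 1)) :
    ctr n a y j - ctr n a x j = y j - x j := by
  unfold ctr
  by_cases h : j = a.1
  · rw [if_pos h, if_pos h]; ring
  · rw [if_neg h, if_neg h]

theorem ctr_out {L n : ℕ} {a : Dir d} {x y : Site d}
    (hx : x a.1 = (if a.2 then 1 else -1) * ((L : ℤ) + 1)) (hy : y ∈ bx (ctr n a x) n) :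
    y ∉ bx (0 : Site d) L := by
  intro h
  rw [TopMove.mem_bx] at hy h
  have h1 := hy a.1
  have h2 := h a.1
  unfold ctr at h1
  rw [if_pos rfl, hx] at h1
  simp only [Pi.zero_apply, sub_zero] at h2
  by_cases h3 : a.2
  · simp only [h3, if_true, abs_le] at h1 h2; omega
  · simp only [h3, abs_le] at h1 h2
    simp at h1
    omega

theorem ctr_in {L n : ℕ} {a : Dir d} {x : Site d}
    (hx : x a.1 = (if a.2 then 1 else -1) * ((L : ℤ) + 1))
    (hx2 : ∀ j, j ≠ a.1 → |x j| ≤ L) : bx (ctr n a x) n ⊆ bx (0 : Site d) (L + 2 * n + 1) := by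
  intro y hy
  rw [TopMove.mem_bx] at hy ⊢
  intro j
  have h1 := hy j
  unfold ctr at h1
  simp only [Pi.zero_apply, sub_zero]
  by_cases h : j = a.1
  · subst h
    rw [if_pos rfl, hx] at h1
    by_cases h3 : a.2
    · simp only [h3, if_true, abs_le] at h1 ⊢; push_cast; omega
    · simp only [h3, abs_le] at h1 ⊢
      simp at h1
      push_cast
      omega
  · rw [if_neg h] at h1
    have h2 := hx2 j h
    rw [abs_le] at h1 h2 ⊢
    push_cast
    omega

/-- The set of strips used by the trial behind the exit `x` in strip `k`. -/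
def J (n : ℕ) (a : Dir d) (i : Σ _ : ℕ, Site d) : Set (Site d × ℤ) :=
  {p | p.1 ∈ ({i.2} : Finset (Site d)) ∧ p.2 = (i.1 : ℤ)} ∪
    {p | p.1 ∈ bx (ctr n a i.2) n ∧ (i.1 : ℤ) + 1 ≤ p.2 ∧ p.2 < (i.1 : ℤ) + 1 + (1 : ℕ)}

/-- The trial. -/
def Tr (n : ℕ) (a : Dir d) (i : Σ _ : ℕ, Site d) : Set (Om d) :=
  {ω | word {i.2} i.1 ω = []} ∩
    {ω | bx (ctr n a i.2) n ⊆ run (bx (ctr n a i.2) n) ((i.1 : ℤ) + 1) 1 ω {i.2}}

theorem Tr_meas (n : ℕ) (a : Dir d) (i : Σ _ : ℕ, Site d) :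
    MeasurableSet[Fs (J n a i)] (Tr n a i) := by
  refine MeasurableSet.inter ?_ ?_
  · exact Ind.Fs_mono Set.subset_union_left _
      (Word.word_meas {i.2} (i.1 : ℤ) (t := {w | w = []}) trivial)
  · exact Ind.Fs_mono Set.subset_union_right _ (TopMove.fill_meas _ _ _ _ _)

theorem Tr_prob (hW : WLAW_spec) (lam : ℝ≥0) (n : ℕ) (a : Dir d) {f : ℝ}
    (hf : ∀ (y x : Site d) (k : ℤ),
      x ∈ bx y n → f ≤ (P lam).real {ω : Om d | bx y n ⊆ run (bx y n) k 1 ω {x}})
    (i : Σ _ : ℕ, Site d) :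
    Real.exp (-(1 + 2 * ((d : ℝ) + 1) * lam)) * f ≤ (P lam).real (Tr n a i) := by
  have hdisj : Disjoint {p : Site d × ℤ | p.1 ∈ ({i.2} : Finset (Site d)) ∧ p.2 = (i.1 : ℤ)}
      {p : Site d × ℤ | p.1 ∈ bx (ctr n a i.2) n ∧ (i.1 : ℤ) + 1 ≤ p.2 ∧
        p.2 < (i.1 : ℤ) + 1 + (1 : ℕ)} := by
    rw [Set.disjoint_left]
    rintro p ⟨_, h1⟩ ⟨_, h2, _⟩
    omega
  have h0 : (P lam).real (Tr n a i) = (P lam).real {ω : Om d | word {i.2} i.1 ω = []} *
      (P lam).real {ω : Om d | bx (ctr n a i.2) n ⊆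
        run (bx (ctr n a i.2) n) ((i.1 : ℤ) + 1) 1 ω {i.2}} :=
    Ind.inter lam hdisj (Word.word_meas {i.2} (i.1 : ℤ) (t := {w | w = []}) trivial)
      (TopMove.fill_meas _ _ _ _ _)
  rw [h0]
  have h1 := hW d lam {i.2} (i.1 : ℤ) [] (by simp)
  simp only [Finset.card_singleton, Nat.cast_one, one_mul, List.map_nil, List.prod_nil, mul_one,
    List.length_nil, Nat.factorial_zero, div_one] at h1
  rw [h1]
  exact mul_le_mul_of_nonneg_left (hf _ _ _ (mem_ctr n a i.2)) (Real.exp_pos _).le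

theorem close {x y c : Site d} {n : ℕ} (h1 : x ∈ bx c n) (h2 : y ∈ bx c n) :
    y ∈ bx x (2 * n) := by
  rw [TopMove.mem_bx] at h1 h2 ⊢
  intro j
  have e1 := h1 j
  have e2 := h2 j
  rw [abs_le] at e1 e2 ⊢
  push_cast
  constructor <;> linarith

theorem J_meet {n : ℕ} {a : Dir d} {i j : Σ _ : ℕ, Site d} (h : ¬ Disjoint (J n a i) (J n a j)) :
    j ∈ (Finset.Icc (i.1 - 1) (i.1 + 1)).sigma fun _ => bx i.2 (2 * n) := by
  rw [Set.not_disjoint_iff] at h
  obtain ⟨p, h1, h2⟩ := h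
  rw [Finset.mem_sigma, Finset.mem_Icc]
  rcases h1 with ⟨h1, h1'⟩ | ⟨h1, h1', h1''⟩ <;> rcases h2 with ⟨h2, h2'⟩ | ⟨h2, h2', h2''⟩
  · rw [Finset.mem_singleton] at h1 h2
    refine ⟨by omega, ?_⟩
    rw [← h1, h2]
    exact TopMove.self_mem _ _
  · rw [Finset.mem_singleton] at h1
    refine ⟨by push_cast at *; omega, ?_⟩
    rw [h1] at h2
    exact close h2 (mem_ctr n a j.2)
  · rw [Finset.mem_singleton] at h2
    refine ⟨by push_cast at *; omega, ?_⟩
    rw [h2] at h1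
    exact close (mem_ctr n a i.2) h1
  · refine ⟨by push_cast at *; omega, ?_⟩
    have h3 := TopMove.meet h1 h2
    rw [TopMove.mem_bx] at h3 ⊢
    intro l
    have h4 := h3 l
    rwa [ctr_sub] at h4

theorem card_J (n : ℕ) (i : Σ _ : ℕ, Site d) :
    ((Finset.Icc (i.1 - 1) (i.1 + 1)).sigma fun _ => bx i.2 (2 * n)).card ≤
      3 * (bx (0 : Site d) (2 * n)).card := by
  rw [Finset.card_sigma, Finset.sum_const, smul_eq_mul, Nat.card_Icc, TopMove.card_bx]
  exact Nat.mul_le_mul_right _ (by omega)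

open Classical in
/-- The random set of the exits of a side class. -/
noncomputable def SS (L n T : ℕ) (a : Dir d) (σ : Fin (d + 1) → Bool) (ω : Om d) :
    Finset (Σ _ : ℕ, Site d) :=
  (Finset.range (T + 1)).sigma fun k => (exits (bx 0 L) 0 k ω (bx 0 n)).filter (InSide L a σ)

open Classical in
theorem mem_SS {L n T : ℕ} {a : Dir d} {σ : Fin (d + 1) → Bool} {ω : Om d}
    {i : Σ _ : ℕ, Site d} : i ∈ SS L n T a σ ω ↔
      i.1 < T + 1 ∧ i.2 ∈ exits (bx 0 L) 0 i.1 ω (bx 0 n) ∧ InSide L a σ i.2 := by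
  unfold SS
  rw [Finset.mem_sigma, Finset.mem_range, Finset.mem_filter]

theorem SS_meas (L n T : ℕ) (a : Dir d) (σ : Fin (d + 1) → Bool) (S0 : Finset (Σ _ : ℕ, Site d)) :
    MeasurableSet[Fs {p : Site d × ℤ | p.1 ∈ bx (0 : Site d) L ∧ 0 ≤ p.2 ∧ p.2 < (T : ℤ) + 1}]
      {ω : Om d | SS L n T a σ ω = S0} := by
  let mm := Fs {p : Site d × ℤ | p.1 ∈ bx (0 : Site d) L ∧ 0 ≤ p.2 ∧ p.2 < (T : ℤ) + 1}
  have e : {ω : Om d | SS L n T a σ ω = S0} = ⋂ i : (Σ _ : ℕ, Site d),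
      {ω | i ∈ SS L n T a σ ω ↔ i ∈ S0} := by
    ext ω
    simp only [Set.mem_ofPred_eq, Set.mem_iInter]
    exact Finset.ext_iff
  rw [e]
  refine MeasurableSet.iInter fun i => ?_
  by_cases hi : i.1 < T + 1
  · have h1 : Measurable (fun ω : Om d => exits (bx (0 : Site d) L) 0 i.1 ω (bx 0 n)) := by
      refine Measurable.mono (Run.exits_meas (bx (0 : Site d) L) 0 i.1 (bx 0 n))
        (Ind.Fs_mono ?_) le_rfl
      rintro p ⟨h1, h2, h3⟩
      exact ⟨h1, h2, by omega⟩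
    have h2 := h1 (t := {X | (i.2 ∈ X ∧ InSide L a σ i.2) ↔ i ∈ S0}) trivial
    have e2 : {ω : Om d | i ∈ SS L n T a σ ω ↔ i ∈ S0} =
        (fun ω : Om d => exits (bx (0 : Site d) L) 0 i.1 ω (bx 0 n)) ⁻¹'
          {X | (i.2 ∈ X ∧ InSide L a σ i.2) ↔ i ∈ S0} := by
      ext ω
      simp only [Set.mem_ofPred_eq, Set.mem_preimage, mem_SS, hi, true_and]
    rw [e2]
    exact h2
  · have e2 : {ω : Om d | i ∈ SS L n T a σ ω ↔ i ∈ S0} = {_ω | False ↔ i ∈ S0} := by
      ext ω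
      simp only [Set.mem_ofPred_eq, mem_SS, hi, false_and]
    rw [e2]
    exact MeasurableSet.const _

end SideMove

open Classical in
theorem sidemove_holds (hW : WLAW_spec) (hF : FILL_spec) : SIDEMOVE_spec := by
  intro d lam hlam n ε hε
  obtain ⟨f, hf0, hf⟩ := hF d lam hlam n
  have hf1 := TopMove.fill_le_one hf
  set g : ℝ := Real.exp (-(1 + 2 * ((d : ℝ) + 1) * lam)) * f with hg
  have hg0 : 0 < g := mul_pos (Real.exp_pos _) hf0
  have hg1 : g ≤ 1 := by
    have h1 : Real.exp (-(1 + 2 * ((d : ℝ) + 1) * lam)) ≤ 1 := by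
      rw [Real.exp_le_one_iff]
      have : (0 : ℝ) ≤ 2 * ((d : ℝ) + 1) * lam := by positivity
      linarith
    exact mul_le_one₀ h1 hf0.le hf1
  obtain ⟨r, hr⟩ := TopMove.exists_r hg0 hg1 hε
  set K : ℕ := 3 * (bx (0 : Site d) (2 * n)).card with hK
  have hK1 : 1 ≤ K := by
    have : 0 < (bx (0 : Site d) (2 * n)).card := Finset.card_pos.2 ⟨0, TopMove.self_mem _ _⟩
    omega
  refine ⟨K * r, fun L T a σ hyp => ?_⟩
  have htr := trials_holds d lam (Σ _ : ℕ, Site d) {p : Site d × ℤ | p.1 ∈ bx (0 : Site d) L ∧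
      0 ≤ p.2 ∧ p.2 < (T : ℤ) + 1} (SideMove.SS L n T a σ)
    (SideMove.J n a) (SideMove.Tr n a) g K r hg0.le hg1 hK1
    (fun S0 => SideMove.SS_meas L n T a σ S0) (fun ω i hi => ⟨?_, ?_, ?_, ?_⟩)
  · refine TopMove.union_bound hyp (htr.trans hr) fun ω h1 h2 => ?_
    have hcard : (SideMove.SS L n T a σ ω).card = ∑ k ∈ Finset.range (T + 1),
        ((exits (bx 0 L) 0 k ω (bx 0 n)).filter (InSide L a σ)).card := Finset.card_sigma _ _
    simp only [Set.mem_ofPred_eq, not_le, not_and, not_forall, not_not] at h1 h2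
    rw [← hcard] at h1
    obtain ⟨i, hi, hw, hfill⟩ := h2 h1.le
    rw [SideMove.mem_SS] at hi
    obtain ⟨hiT, hix, hside⟩ := hi
    have hx1 := hside.1
    have hx2 := fun j hj => (hside.2 j hj).1
    have hin := SideMove.ctr_in (n := n) hx1 hx2
    have hxin : i.2 ∈ bx (0 : Site d) (L + 2 * n + 1) := hin (SideMove.mem_ctr n a i.2)
    refine ⟨(SideMove.ctr n a i.2, i.1 + 2), ⟨?_, ?_, by simp, by simp; omega⟩,
      Nat.zero_le _, ?_⟩
    · show SideMove.ctr n a i.2 a.1 = _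
      unfold SideMove.ctr
      rw [if_pos rfl, hx1]
      ring
    · intro j hj
      show |SideMove.ctr n a i.2 j| ≤ L ∧ if σ j then 0 ≤ SideMove.ctr n a i.2 j else
        SideMove.ctr n a i.2 j ≤ 0
      have e : SideMove.ctr n a i.2 j = i.2 j := by
        unfold SideMove.ctr
        rw [if_neg hj]
      rw [e]
      exact hside.2 j hj
    · have e : run (bx (0 : Site d) (L + 2 * n + 1)) (((0 : ℕ) : ℤ)) (i.1 + 2 - 0) ω (bx 0 n) =
          run (bx (0 : Site d) (L + 2 * n + 1)) ((i.1 : ℤ) + 1) 1 ω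
            (run (bx (0 : Site d) (L + 2 * n + 1)) 0 (i.1 + 1) ω (bx 0 n)) := by
        rw [Nat.sub_zero, Nat.cast_zero, show i.1 + 2 = (i.1 + 1) + 1 from rfl, Run.run_add]
        congr 1
        push_cast
        ring
      show bx (SideMove.ctr n a i.2) n ⊆ _
      rw [e]
      refine Finset.Subset.trans hfill (Run.run_mono hin _ _ _ ?_)
      rw [Finset.singleton_subset_iff]
      unfold exits at hix
      rw [Finset.mem_sdiff] at hix
      show i.2 ∈ strip _ _ _ _ ∩ _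
      rw [Finset.mem_inter]
      have hsub : bx (0 : Site d) L ⊆ bx (0 : Site d) (L + 2 * n + 1) :=
        TopMove.bx_mono 0 (by omega)
      refine ⟨SideMove.stays hsub (Run.run_mono hsub _ _ _ (Finset.Subset.refl _)) hix.1 hxin ?_,
        hxin⟩
      rw [zero_add]
      exact hw
  · rw [SideMove.mem_SS] at hi
    rw [Set.disjoint_left]
    rintro p (⟨h1, h1'⟩ | ⟨h1, h1'⟩) ⟨h2, _, h2'⟩
    · rw [Finset.mem_singleton] at h1
      have h3 := hi.2.1
      unfold exits at h3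
      rw [Finset.mem_sdiff] at h3
      rw [h1] at h2
      exact h3.2 h2
    · exact SideMove.ctr_out hi.2.2.1 h1 h2
  · exact SideMove.Tr_meas n a i
  · exact SideMove.Tr_prob hW lam n a hf i
  · refine le_trans (Finset.card_le_card fun j hj => ?_) (SideMove.card_J n i)
    rw [Finset.mem_filter] at hj
    exact SideMove.J_meet hj.2

end Pool.Agent.Lib.MP_c12170_pr
end

section
open MeasureTheory ProbabilityTheory Filter Topology
open scoped ENNReal NNReal

namespace Pool.Agent.Lib.MP_c12170_pr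

/-- MOVES from the specs of the inputs. -/
theorem moves_holds (hI : INFH_spec) (hT : TL_spec) (hQ : SQRT_spec) (hTM : TOPMOVE_spec)
    (hSM : SIDEMOVE_spec) : MOVES_spec := by
  classical
  intro d lam hlam hh ε hε
  set N1 : ℕ := Fintype.card (Fin (d + 1) → Bool) with hN1
  set N2 : ℕ := Fintype.card (Dir d × (Fin (d + 1) → Bool)) with hN2
  set e1 : ℝ := (ε / 2) ^ N1 with he1
  set e2 : ℝ := (ε / 2) ^ N2 with he2
  have he1p : 0 < e1 := pow_pos (by linarith) _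
  have he2p : 0 < e2 := pow_pos (by linarith) _
  set δ : ℝ := min (1 / 4) (min e1 (e2 / 2)) with hδ
  have hδ0 : 0 < δ := by
    rw [hδ, lt_min_iff, lt_min_iff]
    exact ⟨by norm_num, he1p, by linarith⟩
  have hδ1 : δ ≤ 1 / 4 := min_le_left _ _
  have hδ2 : δ ≤ e1 := (min_le_right _ _).trans (min_le_left _ _)
  have hδ3 : 2 * δ ≤ e2 := by
    have : δ ≤ e2 / 2 := (min_le_right _ _).trans (min_le_right _ _)
    linarith
  obtain ⟨n, hn⟩ := hI d lam hh (δ ^ 2) (pow_pos hδ0 2)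
  obtain ⟨C1, hC1⟩ := hTM d lam hlam n (ε / 2) (by linarith)
  obtain ⟨C2, hC2⟩ := hSM d lam hlam n (ε / 2) (by linarith)
  obtain ⟨u0, L, T, hnL, huT, h1, h2⟩ := hT d lam n δ hδ0 hδ1 hn (N1 * C1) (N2 * C2)
  refine ⟨n, L, u0, T, hnL, huT, fun u hu hu' σ => ?_, fun a σ => ?_⟩
  · have h3 := (hQ.1 d lam L n u C1 σ).trans ((h1 u hu hu').trans hδ2)
    have h4 : (P lam).real {ω : Om d |
        ((run (bx 0 L) 0 u ω (bx 0 n)).filter (InOrth σ)).card ≤ C1} ≤ ε / 2 := by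
      refine le_of_pow_le_pow_left₀ (n := N1) ?_ (by linarith) h3
      exact Fintype.card_ne_zero
    have h5 := hC1 L u σ h4
    linarith
  · have h3 := (hQ.2 d lam L n (T + 1) C2 a σ).trans (h2.trans hδ3)
    have h4 : (P lam).real {ω : Om d | ∑ k ∈ Finset.range (T + 1),
        ((exits (bx 0 L) 0 k ω (bx 0 n)).filter (InSide L a σ)).card ≤ C2} ≤ ε / 2 := by
      refine le_of_pow_le_pow_left₀ (n := N2) ?_ (by linarith) h3
      exact Fintype.card_ne_zero
    have h5 := hC2 L T a σ h4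
    linarith

end Pool.Agent.Lib.MP_c12170_pr
end
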