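import Pool.Agent.Lib.MP_c12170_pr.Spec

section
/-! MP_c12170_pr, module DOM (helper90): conditional lower bounds give a coupling. -/
set_option autoImplicit false

open MeasureTheory ProbabilityTheory Filter Topology
open scoped ENNReal NNReal

namespace Pool.Agent.Lib.MP_c12170_pr
namespace Dom

variable {Ω : Type} [MeasurableSpace Ω] (μ : Measure Ω) (W : ℕ → Ω → Bool) (ρ : unitInterval)

/-- prefixes -/
def X (n : ℕ) (ω : Ω) : Fin n → Bool := fun i => W i ω

/-- atoms -/
def C (n : ℕ) (v : Fin n → Bool) : Set Ω := {ω | X W n ω = v}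

/-- thresholds -/
noncomputable def thr (n : ℕ) (v : Fin n → Bool) : ℝ :=
  ρ * μ.real (C W n v) / μ.real (C W n v ∩ {ω | W n ω = true})

/-- the Bernoulli sequence -/
noncomputable def Y (p : Ω × (ℕ → unitInterval)) (n : ℕ) : Bool :=
  W n p.1 && decide ((p.2 n : ℝ) ≤ thr μ W ρ n (X W n p.1))

/-- sets of thresholds -/
def cut (t : Set Bool) (b : Bool) (θ : ℝ) : Set unitInterval :=
  {x | (b && decide ((x : ℝ) ≤ θ)) ∈ t}

lemma meas_dec {α : Type*} [MeasurableSpace α] (f g : α → ℝ) (hf : Measurable f)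
    (hg : Measurable g) (b : α → Bool) (hb : Measurable b) :
    Measurable fun x => (b x && decide (f x ≤ g x)) := by
  refine measurable_to_bool ?_
  have : (fun x => (b x && decide (f x ≤ g x))) ⁻¹' {true} =
      (b ⁻¹' {true}) ∩ {x | f x ≤ g x} := by
    ext x
    simp
  rw [this]
  exact (hb (measurableSet_singleton _)).inter (measurableSet_le hf hg)

lemma measurableSet_cut (t : Set Bool) (b : Bool) (θ : ℝ) : MeasurableSet (cut t b θ) := by
  have h := meas_dec (α := unitInterval) (fun x => (x : ℝ)) (fun _ => θ) measurable_subtype_coe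
    measurable_const (fun _ => b) measurable_const
  exact h (MeasurableSet.of_discrete (s := t))

lemma measurable_X (hW : ∀ i, Measurable (W i)) (n : ℕ) : Measurable (X W n) :=
  measurable_pi_iff.2 fun i => hW i

lemma measurableSet_C (hW : ∀ i, Measurable (W i)) (n : ℕ) (v : Fin n → Bool) :
    MeasurableSet (C W n v) := measurable_X W hW n (measurableSet_singleton v)

lemma measurable_Y (hW : ∀ i, Measurable (W i)) (n : ℕ) :
    Measurable fun p : Ω × (ℕ → unitInterval) => Y μ W ρ p n := by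
  unfold Y
  refine meas_dec (fun p : Ω × (ℕ → unitInterval) => (p.2 n : ℝ))
    (fun p => thr μ W ρ n (X W n p.1)) ?_ ?_ (fun p => W n p.1) ((hW n).comp measurable_fst)
  · exact measurable_subtype_coe.comp ((measurable_pi_apply n).comp measurable_snd)
  · exact (Measurable.of_discrete (f := thr μ W ρ n)).comp
      ((measurable_X W hW n).comp measurable_fst)

lemma atom [IsProbabilityMeasure μ] (hW : ∀ i, Measurable (W i)) (n : ℕ) (v : Fin n → Bool)
    (h : (ρ : ℝ) * μ.real (C W n v) ≤ μ.real (C W n v ∩ {ω | W n ω = true})) (t : Set Bool) :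
    μ (C W n v ∩ {ω | W n ω = true}) * volume (cut t true (thr μ W ρ n v)) +
      μ (C W n v \ {ω | W n ω = true}) * volume (cut t false (thr μ W ρ n v)) =
    bernoulliMeasure true false ρ t * μ (C W n v) := by
  classical
  have hWn : MeasurableSet {ω | W n ω = true} := hW n (measurableSet_singleton true)
  have hadd : μ (C W n v ∩ {ω | W n ω = true}) + μ (C W n v \ {ω | W n ω = true}) =
      μ (C W n v) := measure_inter_add_sdiff _ hWn
  have haddr := congrArg ENNReal.toReal hadd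
  rw [ENNReal.toReal_add (measure_ne_top _ _) (measure_ne_top _ _)] at haddr
  set a := μ.real (C W n v) with ha
  set b := μ.real (C W n v ∩ {ω | W n ω = true}) with hb
  set c := μ.real (C W n v \ {ω | W n ω = true}) with hc
  have haddr' : b + c = a := haddr
  have ha' : μ (C W n v) = ENNReal.ofReal a := (ofReal_measureReal).symm
  have hb' : μ (C W n v ∩ {ω | W n ω = true}) = ENNReal.ofReal b := (ofReal_measureReal).symm
  have hc' : μ (C W n v \ {ω | W n ω = true}) = ENNReal.ofReal c := (ofReal_measureReal).symm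
  have ha0 : 0 ≤ a := measureReal_nonneg
  have hb0 : 0 ≤ b := measureReal_nonneg
  have hc0 : 0 ≤ c := measureReal_nonneg
  have hρ0 : 0 ≤ (ρ : ℝ) := ρ.2.1
  have hρ1 : (ρ : ℝ) ≤ 1 := ρ.2.2
  set θ := thr μ W ρ n v with hθ
  have hθe : θ = ρ * a / b := rfl
  have hθ0 : 0 ≤ θ := by rw [hθe]; positivity
  have hθ1 : θ ≤ 1 := by rw [hθe]; exact div_le_one_of_le₀ h hb0
  have hbθ : b * θ = ρ * a := by
    rw [hθe]
    rcases hb0.eq_or_lt with h0 | h0
    · rw [← h0] at h ⊢
      have : (ρ : ℝ) * a = 0 := le_antisymm h (by positivity)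
      rw [this]
      simp
    · field_simp
  have e1 : ∀ x : unitInterval, ((unitInterval.toNNReal x : ℝ≥0) : ℝ≥0∞) = ENNReal.ofReal x := by
    intro x
    rw [ENNReal.ofReal, ENNReal.coe_inj]
    ext
    rw [Real.coe_toNNReal _ x.2.1]
    rfl
  by_cases hT : true ∈ t <;> by_cases hF : false ∈ t
  · have hu : ∀ b', cut t b' θ = Set.univ := by
      intro b'
      ext x
      simp only [cut, Set.mem_ofPred_eq, Set.mem_univ, iff_true]
      cases (b' && decide ((x : ℝ) ≤ θ)) <;> assumption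
    rw [hu, hu, measure_univ, mul_one, mul_one, hadd,
      bernoulliMeasure_apply_of_mem_of_mem ρ (MeasurableSet.of_discrete) hT hF, one_mul]
  · have h1 : cut t true θ = Set.Iic (⟨θ, hθ0, hθ1⟩ : unitInterval) := by
      ext x
      simp only [cut, Bool.true_and, Set.mem_ofPred_eq, Set.mem_Iic]
      by_cases hx : (x : ℝ) ≤ θ
      · simp only [hx, decide_true, hT, true_iff]
        exact hx
      · simp only [hx, decide_false, hF, false_iff]
        exact hx
    have h2 : cut t false θ = ∅ := by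
      ext x
      simp [cut, hF]
    rw [h1, h2, measure_empty, mul_zero, add_zero, unitInterval.volume_Iic,
      bernoulliMeasure_apply ρ (MeasurableSet.of_discrete)]
    simp only [hT, hF, if_true, if_false]
    rw [e1, ha', hb', ← ENNReal.ofReal_mul hb0, ← ENNReal.ofReal_mul hρ0]
    exact congrArg ENNReal.ofReal hbθ
  · have h1 : cut t true θ = Set.Ioi (⟨θ, hθ0, hθ1⟩ : unitInterval) := by
      ext x
      simp only [cut, Bool.true_and, Set.mem_ofPred_eq, Set.mem_Ioi]
      by_cases hx : (x : ℝ) ≤ θ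
      · simp only [hx, decide_true, hT, false_iff]
        exact not_lt.2 hx
      · simp only [hx, decide_false, hF, true_iff]
        exact not_le.1 hx
    have h2 : cut t false θ = Set.univ := by
      ext x
      simp [cut, hF]
    rw [h1, h2, measure_univ, mul_one, unitInterval.volume_Ioi,
      bernoulliMeasure_apply ρ (MeasurableSet.of_discrete)]
    simp only [hT, hF, if_true, if_false]
    rw [e1, ha', hb', hc', ← ENNReal.ofReal_mul hb0, ← ENNReal.ofReal_add
      (mul_nonneg hb0 (by show (0:ℝ) ≤ 1 - θ; linarith)) hc0,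
      ← ENNReal.ofReal_mul (unitInterval.symm ρ).2.1]
    refine congrArg ENNReal.ofReal ?_
    show b * (1 - θ) + c = (1 - ρ) * a
    nlinarith
  · have h1 : ∀ b', cut t b' θ = ∅ := by
      intro b'
      ext x
      simp only [cut, Set.mem_ofPred_eq, Set.mem_empty_iff_false, iff_false]
      cases (b' && decide ((x : ℝ) ≤ θ)) <;> assumption
    rw [h1, h1, bernoulliMeasure_apply ρ (MeasurableSet.of_discrete)]
    simp [hT, hF]

/-- the product measure -/
noncomputable abbrev U : Measure (ℕ → unitInterval) :=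
  Measure.infinitePi fun _ : ℕ => (volume : Measure unitInterval)

lemma boxeq (n : ℕ) (t : ℕ → Set Bool) (ω₀ : Ω) :
    {p : Ω × (ℕ → unitInterval) | X W n p.1 = X W n ω₀} ∩ {p | ∀ i < n, Y μ W ρ p i ∈ t i} =
      (C W n (X W n ω₀)) ×ˢ (Set.pi (Finset.range n)
        fun i => cut (t i) (W i ω₀) (thr μ W ρ i (X W i ω₀))) := by
  ext ⟨ω, u⟩
  simp only [Set.mem_inter_iff, Set.mem_ofPred_eq, Set.mem_prod, C, Set.mem_pi,
    Finset.coe_range, Set.mem_Iio, cut]
  refine and_congr_right fun h => ?_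
  refine forall_congr' fun i => forall_congr' fun hi => ?_
  have h1 : W i ω = W i ω₀ := congrFun h ⟨i, hi⟩
  have h2 : X W i ω = X W i ω₀ := funext fun j => congrFun h ⟨j, j.2.trans hi⟩
  unfold Y
  rw [h1, h2]

lemma step [IsProbabilityMeasure μ] (hW : ∀ i, Measurable (W i)) (n : ℕ) (t : ℕ → Set Bool)
    (ω₀ : Ω) (h : (ρ : ℝ) * μ.real (C W n (X W n ω₀)) ≤
      μ.real (C W n (X W n ω₀) ∩ {ω | W n ω = true})) :
    (μ.prod U) (({p : Ω × (ℕ → unitInterval) | X W n p.1 = X W n ω₀} ∩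
      {p | ∀ i < n, Y μ W ρ p i ∈ t i}) ∩ {p | Y μ W ρ p n ∈ t n}) =
    bernoulliMeasure true false ρ (t n) *
      (μ.prod U) ({p : Ω × (ℕ → unitInterval) | X W n p.1 = X W n ω₀} ∩
        {p | ∀ i < n, Y μ W ρ p i ∈ t i}) := by
  classical
  rw [boxeq]
  set S : ℕ → Set unitInterval := fun i => cut (t i) (W i ω₀) (thr μ W ρ i (X W i ω₀)) with hS
  set θ := thr μ W ρ n (X W n ω₀) with hθ
  have hSm : ∀ i, MeasurableSet (S i) := fun i => measurableSet_cut _ _ _
  have hWn : MeasurableSet {ω | W n ω = true} := hW n (measurableSet_singleton true)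
  have hCm := measurableSet_C W hW n (X W n ω₀)
  have split : (C W n (X W n ω₀)) ×ˢ (Set.pi (Finset.range n) S) ∩ {p | Y μ W ρ p n ∈ t n} =
      (C W n (X W n ω₀) ∩ {ω | W n ω = true}) ×ˢ
        (Set.pi (Finset.range (n + 1)) (Function.update S n (cut (t n) true θ))) ∪
      (C W n (X W n ω₀) \ {ω | W n ω = true}) ×ˢ
        (Set.pi (Finset.range (n + 1)) (Function.update S n (cut (t n) false θ))) := by
    ext ⟨ω, u⟩
    have hpi : ∀ c : Set unitInterval, u ∈ Set.pi (Finset.range (n + 1)) (Function.update S n c) ↔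
        u ∈ Set.pi (Finset.range n) S ∧ u n ∈ c := by
      intro c
      simp only [Set.mem_pi, Finset.coe_range, Set.mem_Iio]
      constructor
      · intro h
        refine ⟨fun i hi => ?_, ?_⟩
        · have := h i (Nat.lt_succ_of_lt hi)
          rwa [Function.update_of_ne (Nat.ne_of_lt hi)] at this
        · have := h n (Nat.lt_succ_self n)
          rwa [Function.update_self] at this
      · rintro ⟨h1, h2⟩ i hi
        rcases Nat.lt_succ_iff_lt_or_eq.1 hi with h3 | h3
        · rw [Function.update_of_ne (Nat.ne_of_lt h3)]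
          exact h1 i h3
        · subst h3
          rw [Function.update_self]
          exact h2
    simp only [Set.mem_inter_iff, Set.mem_prod, Set.mem_union, Set.mem_sdiff, hpi,
      Set.mem_ofPred_eq]
    by_cases hC : ω ∈ C W n (X W n ω₀)
    · have hX : X W n ω = X W n ω₀ := hC
      by_cases hw : W n ω = true
      · simp only [hC, hw, true_and, not_true_eq_false, false_and, or_false]
        unfold Y cut
        rw [hX, hw]
        rfl
      · rw [Bool.not_eq_true] at hw
        simp only [hC, hw, true_and, Bool.false_eq_true, false_and, false_or,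
          not_false_eq_true]
        unfold Y cut
        rw [hX, hw]
        rfl
    · simp only [hC, false_and, or_self]
  rw [split, measure_union]
  · simp only [Measure.prod_prod]
    have hp : ∀ c : Set unitInterval, MeasurableSet c →
        U (Set.pi (Finset.range (n + 1)) (Function.update S n c)) =
          (∏ i ∈ Finset.range n, volume (S i)) * volume c := by
      intro c hc
      rw [Measure.infinitePi_pi, Finset.prod_range_succ, Function.update_self]
      · congr 1
        refine Finset.prod_congr rfl fun i hi => ?_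
        rw [Function.update_of_ne (Nat.ne_of_lt (Finset.mem_range.1 hi))]
      · intro i hi
        by_cases h : i = n
        · subst h
          rw [Function.update_self]
          exact hc
        · rw [Function.update_of_ne h]
          exact hSm i
    rw [hp _ (measurableSet_cut _ _ _), hp _ (measurableSet_cut _ _ _),
      Measure.infinitePi_pi _ (fun i _ => hSm i)]
    have hat := atom μ W ρ hW n (X W n ω₀) h (t n)
    rw [← hθ] at hat
    calc _ = (∏ i ∈ Finset.range n, volume (S i)) *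
          (μ (C W n (X W n ω₀) ∩ {ω | W n ω = true}) * volume (cut (t n) true θ) +
          μ (C W n (X W n ω₀) \ {ω | W n ω = true}) * volume (cut (t n) false θ)) := by ring
      _ = _ := by rw [hat]; ring
  · rw [Set.disjoint_left]
    rintro ⟨ω, u⟩ h1 h2
    exact h2.1.2 h1.1.2
  · refine (hCm.diff hWn).prod (MeasurableSet.pi (Finset.countable_toSet _) fun i _ => ?_)
    by_cases h : i = n
    · subst h
      rw [Function.update_self]
      exact measurableSet_cut _ _ _
    · rw [Function.update_of_ne h]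
      exact hSm i

lemma law [IsProbabilityMeasure μ] (hW : ∀ i, Measurable (W i))
    (h : ∀ (n : ℕ) (v : Fin n → Bool), (ρ : ℝ) * μ.real (C W n v) ≤
      μ.real (C W n v ∩ {ω | W n ω = true})) (t : ℕ → Set Bool) (n : ℕ) :
    (μ.prod U) {p : Ω × (ℕ → unitInterval) | ∀ i < n, Y μ W ρ p i ∈ t i} =
      ∏ i ∈ Finset.range n, bernoulliMeasure true false ρ (t i) := by
  classical
  induction n with
  | zero => simp
  | succ n ih =>
    rw [Finset.prod_range_succ, ← ih]
    set E := {p : Ω × (ℕ → unitInterval) | ∀ i < n, Y μ W ρ p i ∈ t i} with hE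
    set F := {p : Ω × (ℕ → unitInterval) | Y μ W ρ p n ∈ t n} with hF
    have e1 : {p : Ω × (ℕ → unitInterval) | ∀ i < n + 1, Y μ W ρ p i ∈ t i} = E ∩ F := by
      ext p
      simp only [hE, hF, Set.mem_inter_iff, Set.mem_ofPred_eq]
      constructor
      · intro h1
        exact ⟨fun i hi => h1 i (Nat.lt_succ_of_lt hi), h1 n (Nat.lt_succ_self n)⟩
      · rintro ⟨h1, h2⟩ i hi
        rcases Nat.lt_succ_iff_lt_or_eq.1 hi with h3 | h3
        · exact h1 i h3
        · subst h3
          exact h2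
    have hmE : MeasurableSet E := by
      have : E = ⋂ i, ⋂ (_ : i < n), (fun p => Y μ W ρ p i) ⁻¹' (t i) := by
        ext p
        simp [hE]
      rw [this]
      exact MeasurableSet.iInter fun i => MeasurableSet.iInter fun _ =>
        measurable_Y μ W ρ hW i MeasurableSet.of_discrete
    have hmF : MeasurableSet F := measurable_Y μ W ρ hW n MeasurableSet.of_discrete
    have hmX : ∀ v : Fin n → Bool,
        MeasurableSet ((fun p : Ω × (ℕ → unitInterval) => X W n p.1) ⁻¹' {v}) := fun v =>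
      ((measurable_X W hW n).comp measurable_fst) (measurableSet_singleton v)
    have key : ∀ A : Set (Ω × (ℕ → unitInterval)), MeasurableSet A → (μ.prod U) A =
        ∑ v : Fin n → Bool, (μ.prod U)
          ((fun p : Ω × (ℕ → unitInterval) => X W n p.1) ⁻¹' {v} ∩ A) := by
      intro A hA
      have := sum_measure_preimage_singleton (μ := (μ.prod U).restrict A)
        (Finset.univ : Finset (Fin n → Bool)) (f := fun p => X W n p.1) (fun v _ => hmX v)
      simp only [Finset.coe_univ, Set.preimage_univ, Measure.restrict_apply MeasurableSet.univ,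
        Set.univ_inter] at this
      rw [← this]
      exact Finset.sum_congr rfl fun v _ => Measure.restrict_apply (hmX v)
    rw [e1, key (E ∩ F) (hmE.inter hmF), key E hmE, Finset.sum_mul]
    refine Finset.sum_congr rfl fun v _ => ?_
    by_cases hv : ∃ ω₀, X W n ω₀ = v
    · obtain ⟨ω₀, rfl⟩ := hv
      have h3 := step μ W ρ hW n t ω₀ (h n _)
      rw [← Set.inter_assoc, mul_comm]
      exact h3
    · have h4 : (fun p : Ω × (ℕ → unitInterval) => X W n p.1) ⁻¹' {v} = ∅ := by
        ext p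
        simp only [Set.mem_preimage, Set.mem_singleton_iff, Set.mem_empty_iff_false, iff_false]
        exact fun h5 => hv ⟨p.1, h5⟩
      rw [h4]
      simp

lemma map_Y [IsProbabilityMeasure μ] (hW : ∀ i, Measurable (W i))
    (h : ∀ (n : ℕ) (v : Fin n → Bool), (ρ : ℝ) * μ.real (C W n v) ≤
      μ.real (C W n v ∩ {ω | W n ω = true})) :
    (μ.prod U).map (Y μ W ρ) = bern ρ := by
  classical
  have hm : Measurable (Y μ W ρ) := measurable_pi_iff.2 fun i => measurable_Y μ W ρ hW i
  refine Measure.eq_infinitePi _ fun s t ht => ?_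
  set n := s.sup id + 1 with hn
  have hs : s ⊆ Finset.range n := fun i hi => Finset.mem_range.2
    (Nat.lt_succ_of_le (Finset.le_sup (f := id) hi))
  have e := law μ W ρ hW h (fun i => if i ∈ s then t i else Set.univ) n
  rw [Measure.map_apply hm (MeasurableSet.pi (Finset.countable_toSet _) fun i _ => ht i)]
  have e2 : (Y μ W ρ) ⁻¹' (Set.pi s t) =
      {p | ∀ i < n, Y μ W ρ p i ∈ (if i ∈ s then t i else Set.univ)} := by
    ext p
    simp only [Set.mem_preimage, Set.mem_pi, Finset.mem_coe, Set.mem_ofPred_eq]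
    constructor
    · intro h1 i _
      split_ifs with h2
      · exact h1 i h2
      · trivial
    · intro h1 i hi
      have := h1 i (Finset.mem_range.1 (hs hi))
      rwa [if_pos hi] at this
  rw [e2, e, ← Finset.prod_subset hs]
  · exact Finset.prod_congr rfl fun i hi => by rw [if_pos hi]
  · intro i _ hi
    rw [if_neg hi, measure_univ]

end Dom

theorem dom_holds : DOM_spec := by
  classical
  intro Ω _ μ _ W hW ρ hyp Z hZ hWZ
  have h : ∀ (n : ℕ) (v : Fin n → Bool), (ρ : ℝ) * μ.real (Dom.C W n v) ≤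
      μ.real (Dom.C W n v ∩ {ω | W n ω = true}) := by
    intro n v
    have h1 := hyp n (fun i => if hi : i < n then v ⟨i, hi⟩ else false)
    have e1 : {ω | ∀ i < n, W i ω = (fun i => if hi : i < n then v ⟨i, hi⟩ else false) i} =
        Dom.C W n v := by
      ext ω
      simp only [Dom.C, Dom.X, Set.mem_ofPred_eq]
      constructor
      · intro h2
        funext i
        have := h2 i i.2
        rwa [dif_pos i.2] at this
      · intro h2 i hi
        rw [dif_pos hi, ← h2]
        rfl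
    have e2 : {ω | (∀ i < n, W i ω = (fun i => if hi : i < n then v ⟨i, hi⟩ else false) i) ∧
        W n ω = true} = Dom.C W n v ∩ {ω | W n ω = true} := by
      rw [← e1]
      rfl
    rwa [e1, e2] at h1
  have hY : Measurable (Dom.Y μ W ρ) :=
    measurable_pi_iff.2 fun i => Dom.measurable_Y μ W ρ hW i
  have hZ1 : AEMeasurable (fun p : Ω × (ℕ → unitInterval) => Z p.1) (μ.prod Dom.U) :=
    hZ.comp_quasiMeasurePreserving Measure.quasiMeasurePreserving_fst
  have hK : AEMeasurable (fun p : Ω × (ℕ → unitInterval) => (Z p.1, Dom.Y μ W ρ p))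
      (μ.prod Dom.U) := hZ1.prodMk hY.aemeasurable
  refine ⟨(μ.prod Dom.U).map fun p => (Z p.1, Dom.Y μ W ρ p), ?_, ?_, ?_⟩
  · rw [AEMeasurable.map_map_of_aemeasurable measurable_fst.aemeasurable hK]
    have e : (Prod.fst ∘ fun p : Ω × (ℕ → unitInterval) => (Z p.1, Dom.Y μ W ρ p)) =
        Z ∘ Prod.fst := rfl
    have hf : (μ.prod Dom.U).map Prod.fst = μ := by
      rw [Measure.map_fst_prod, measure_univ, one_smul]
    rw [e, ← AEMeasurable.map_map_of_aemeasurable (by rw [hf]; exact hZ)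
      measurable_fst.aemeasurable, hf]
  · rw [AEMeasurable.map_map_of_aemeasurable measurable_snd.aemeasurable hK]
    exact Dom.map_Y μ W ρ hW h
  · have hms : MeasurableSet {p : (ℕ → Bool) × (ℕ → Bool) | ∀ i, p.2 i ≤ p.1 i} := by
      have : {p : (ℕ → Bool) × (ℕ → Bool) | ∀ i, p.2 i ≤ p.1 i} =
          ⋂ i, (fun p : (ℕ → Bool) × (ℕ → Bool) => (p.2 i, p.1 i)) ⁻¹' {q | q.1 ≤ q.2} := by
        ext p
        simp
      rw [this]
      refine MeasurableSet.iInter fun i => ?_
      have hm : Measurable fun p : (ℕ → Bool) × (ℕ → Bool) => (p.2 i, p.1 i) := by fun_prop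
      exact hm MeasurableSet.of_discrete
    rw [ae_map_iff hK hms]
    have h2 : ∀ᵐ p ∂(μ.prod Dom.U), ∀ i, W i p.1 ≤ Z p.1 i :=
      Measure.quasiMeasurePreserving_fst.ae hWZ
    filter_upwards [h2] with p hp i
    exact (Bool.and_le_left _ _).trans (hp i)

end Pool.Agent.Lib.MP_c12170_pr
end

section
/-! MP_c12170_pr, module EST (helper90): the main estimate. -/
set_option autoImplicit false

open MeasureTheory ProbabilityTheory Filter Topology
open scoped ENNReal NNReal

namespace Pool.Agent.Lib.MP_c12170_pr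
namespace Est

open Classical in
lemma meas_wt {Ω : Type} (m : MeasurableSpace Ω) (S : Finset ℕ) (E : ℕ → Set Ω)
    (hE : ∀ i ∈ S, MeasurableSet[m] (E i)) (δ : ℝ) :
    Measurable[m] fun ω => (1 - δ) ^ (S.filter fun i => ω ∈ E i).card := by
  have e : (fun ω => (1 - δ) ^ (S.filter fun i => ω ∈ E i).card) =
      fun ω => ∏ i ∈ S, if ω ∈ E i then (1 - δ) else 1 := by
    funext ω
    rw [Finset.prod_ite, Finset.prod_const, Finset.prod_const_one, mul_one]
  rw [e]
  refine Finset.measurable_prod _ fun i hi => ?_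
  exact Measurable.ite (hE i hi) measurable_const measurable_const

lemma indep_int {Ω : Type} (m1 m2 : MeasurableSpace Ω) {m0 : MeasurableSpace Ω}
    (μ : Measure Ω) [IsProbabilityMeasure μ] (h1 : m1 ≤ m0) (h2 : m2 ≤ m0) (hi : Indep m1 m2 μ)
    (f : Ω → ℝ) (hf : Measurable[m1] f) (F : Set Ω) (hF : MeasurableSet[m2] F) :
    ∫ ω in F, f ω ∂μ = μ.real F * ∫ ω, f ω ∂μ := by
  have hF' : MeasurableSet F := h2 _ hF
  have hf' : Measurable f := hf.mono h1 le_rfl
  have hg : Measurable[m2] (F.indicator (1 : Ω → ℝ)) :=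
    (@measurable_const ℝ Ω _ m2 1).indicator hF
  have hind : IndepFun f (F.indicator (1 : Ω → ℝ)) μ := by
    rw [IndepFun_iff_Indep]
    exact indep_of_indep_of_le_left (indep_of_indep_of_le_right hi hg.comap_le) hf.comap_le
  have e := hind.integral_fun_mul_eq_mul_integral hf'.aestronglyMeasurable
    (hg.mono h2 le_rfl).aestronglyMeasurable
  rw [integral_indicator_one hF', mul_comm] at e
  rw [← e, ← integral_indicator hF']
  refine integral_congr_ae (Eventually.of_forall fun ω => ?_)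
  by_cases h : ω ∈ F <;> simp [h]

variable {d : ℕ}

lemma measurable_etaS (hI : IND_spec) (hR : RUN_spec) (i : ℤ) (x : Site d) :
    MeasurableSet[Fs {p : Site d × ℤ | p.2 < i}] {ω : Om d | EtaS ω i x} := by
  have e : {ω : Om d | EtaS ω i x} = ⋂ m : ℕ, ⋃ Λ : Finset (Site d),
      (fun ω => run Λ (i - m) m ω Λ) ⁻¹' {B | x ∈ B} := by
    ext ω
    simp [EtaS]
  rw [e]
  refine @MeasurableSet.iInter _ _ (Fs {p : Site d × ℤ | p.2 < i}) _ _ fun m =>
    @MeasurableSet.iUnion _ _ (Fs {p : Site d × ℤ | p.2 < i}) _ _ fun Λ => ?_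
  have h1 := hR.2.2.2.2.1 d Λ (i - m) m Λ
  have h2 : Fs {p : Site d × ℤ | p.1 ∈ Λ ∧ i - m ≤ p.2 ∧ p.2 < i - m + m} ≤
      Fs {p : Site d × ℤ | p.2 < i} := by
    refine hI.2.2.1 d _ _ fun p hp => ?_
    have h4 := hp.2.2
    show p.2 < i
    omega
  exact h2 _ (h1 MeasurableSet.of_discrete)

open Classical in
/-- the weights -/
noncomputable def wt (x : ℕ → Site d) (δ : ℝ) (S : Finset ℕ) (ω : Om d) : ℝ :=
  (1 - δ) ^ (S.filter fun i : ℕ => EtaS ω (i : ℤ) (x i)).card

lemma measurable_wt (hI : IND_spec) (hR : RUN_spec) (x : ℕ → Site d) (δ : ℝ) (S : Finset ℕ)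
    (t : ℤ) (hS : ∀ i ∈ S, (i : ℤ) ≤ t) :
    Measurable[Fs {p : Site d × ℤ | p.2 < t}] (wt x δ S) := by
  refine meas_wt _ S (fun i => {ω : Om d | EtaS ω (i : ℤ) (x i)}) (fun i hi => ?_) δ
  have h2 : Fs {p : Site d × ℤ | p.2 < (i : ℤ)} ≤ Fs {p : Site d × ℤ | p.2 < t} :=
    hI.2.2.1 d _ _ fun p hp => lt_of_lt_of_le hp (hS i hi)
  exact h2 _ (measurable_etaS hI hR i (x i))

lemma wt_nonneg (x : ℕ → Site d) {δ : ℝ} (hδ : δ ≤ 1) (S : Finset ℕ) (ω : Om d) :
    0 ≤ wt x δ S ω := pow_nonneg (by linarith) _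

lemma wt_le_one (x : ℕ → Site d) {δ : ℝ} (hδ0 : 0 ≤ δ) (hδ : δ ≤ 1) (S : Finset ℕ) (ω : Om d) :
    wt x δ S ω ≤ 1 := pow_le_one₀ (by linarith) (by linarith)

lemma wt_anti (x : ℕ → Site d) {δ : ℝ} (hδ0 : 0 ≤ δ) (hδ : δ ≤ 1) {S S' : Finset ℕ}
    (h : S ⊆ S') (ω : Om d) : wt x δ S' ω ≤ wt x δ S ω := by
  classical
  unfold wt
  exact pow_le_pow_of_le_one (by linarith) (by linarith)
    (Finset.card_le_card (Finset.filter_subset_filter _ h))

lemma integrable_wt (hI : IND_spec) (hR : RUN_spec) (lam : ℝ≥0) (x : ℕ → Site d) {δ : ℝ}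
    (hδ0 : 0 ≤ δ) (hδ : δ ≤ 1) (S : Finset ℕ) : Integrable (wt x δ S) (P lam) := by
  have := hI.1 d lam
  obtain ⟨t, ht⟩ : ∃ t : ℤ, ∀ i ∈ S, (i : ℤ) ≤ t :=
    ⟨((S.sup id : ℕ) : ℤ), fun i hi => by exact_mod_cast Finset.le_sup (f := id) hi⟩
  have hm : Measurable (wt x δ S) := (measurable_wt hI hR x δ S t ht).mono (hI.2.1 d _) le_rfl
  refine Integrable.of_bound hm.aestronglyMeasurable 1 (Eventually.of_forall fun ω => ?_)
  rw [Real.norm_eq_abs, abs_of_nonneg (wt_nonneg x hδ S ω)]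
  exact wt_le_one x hδ0 hδ S ω

/-- step of the upper process -/
lemma eta_step (hR : RUN_spec) (ω : Om d) (T : ℤ) (B : Finset (Site d)) (y y' : Site d)
    (hη : EtaS ω T y') (hf : B ⊆ run B T 1 ω {y'}) (hy : y ∈ B) : EtaS ω (T + 1) y := by
  intro m
  rcases Nat.eq_zero_or_pos m with hm | hm
  · subst hm
    refine ⟨{y}, ?_⟩
    simp [run]
  · obtain ⟨m, rfl⟩ : ∃ m', m = m' + 1 := ⟨m - 1, by omega⟩
    obtain ⟨Λ0, h0⟩ := hη m
    refine ⟨Λ0 ∪ B, ?_⟩
    have e1 : T + 1 - ((m + 1 : ℕ) : ℤ) = T - m := by push_cast; ring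
    rw [e1, hR.2.1 d (Λ0 ∪ B) (T - m) m 1 ω (Λ0 ∪ B)]
    have e2 : T - (m : ℤ) + m = T := by ring
    rw [e2]
    have h1 : y' ∈ run (Λ0 ∪ B) (T - m) m ω (Λ0 ∪ B) :=
      hR.1 d _ _ _ m ω _ _ Finset.subset_union_left Finset.subset_union_left h0
    exact hR.1 d _ _ T 1 ω _ _ Finset.subset_union_right
      (Finset.singleton_subset_iff.2 h1) (hf hy)

/-- the events `U m` -/
def U (T : ℤ) (B : Finset (Site d)) (m : ℕ) : Set (Om d) :=
  {ω | ∃ Λ : Finset (Site d), (run Λ (T - m) m ω Λ ∩ B).Nonempty}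

lemma run_anti (hR : RUN_spec) (T : ℤ) (Λ : Finset (Site d)) (ω : Om d) {m m' : ℕ}
    (h : m ≤ m') : run Λ (T - m') m' ω Λ ⊆ run Λ (T - m) m ω Λ := by
  obtain ⟨r, rfl⟩ := Nat.exists_eq_add_of_le h
  have e0 : m + r = r + m := by ring
  rw [e0, hR.2.1 d Λ _ r m ω Λ]
  have e : T - ((r + m : ℕ) : ℤ) + r = T - m := by push_cast; ring
  rw [e]
  exact hR.1 d _ _ _ m ω _ _ (Finset.Subset.refl _) (hR.2.2.2.1 d _ _ _ _ _)

lemma U_anti (hR : RUN_spec) (T : ℤ) (B : Finset (Site d)) : Antitone (U T B) := by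
  rintro m m' h ω ⟨Λ, hΛ⟩
  exact ⟨Λ, hΛ.mono (Finset.inter_subset_inter_right (run_anti hR T Λ ω h))⟩

lemma U_zero (T : ℤ) (B : Finset (Site d)) (hB : B.Nonempty) : U T B 0 = Set.univ := by
  ext ω
  simp only [Set.mem_univ, iff_true]
  refine ⟨B, ?_⟩
  simp only [run, Finset.inter_self]
  exact hB

lemma U_meas (hI : IND_spec) (hR : RUN_spec) (T : ℤ) (B : Finset (Site d)) (m : ℕ) :
    MeasurableSet[Fs {p : Site d × ℤ | T - m ≤ p.2 ∧ p.2 < T}] (U T B m) := by
  have e : U T B m = ⋃ Λ : Finset (Site d),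
      (fun ω => run Λ (T - m) m ω Λ) ⁻¹' {B' | (B' ∩ B).Nonempty} := by
    ext ω
    simp [U]
  rw [e]
  refine @MeasurableSet.iUnion _ _ (Fs {p : Site d × ℤ | T - m ≤ p.2 ∧ p.2 < T}) _ _
    fun Λ => ?_
  have h1 := hR.2.2.2.2.1 d Λ (T - m) m Λ
  have h2 : Fs {p : Site d × ℤ | p.1 ∈ Λ ∧ T - m ≤ p.2 ∧ p.2 < T - m + m} ≤
      Fs {p : Site d × ℤ | T - m ≤ p.2 ∧ p.2 < T} := by
    refine hI.2.2.1 d _ _ fun p hp => ?_
    have h3 := hp.2.1
    have h4 := hp.2.2
    exact ⟨h3, by omega⟩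
  exact h2 _ (h1 MeasurableSet.of_discrete)

lemma inter_U (hR : RUN_spec) (T : ℤ) (B : Finset (Site d)) :
    ⋂ m, U T B m = {ω | ∃ y' ∈ B, EtaS ω T y'} := by
  ext ω
  simp only [Set.mem_iInter, Set.mem_ofPred_eq]
  constructor
  · intro h
    by_contra hcon
    push Not at hcon
    have h1 : ∀ y' ∈ B, ∃ m : ℕ, ∀ Λ : Finset (Site d), y' ∉ run Λ (T - m) m ω Λ := by
      intro y' hy'
      have := hcon y' hy'
      unfold EtaS at this
      push Not at this
      exact this
    choose! mm hmm using h1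
    obtain ⟨Λ, y', hy'⟩ := h (B.sup mm)
    rw [Finset.mem_inter] at hy'
    exact hmm y' hy'.2 Λ (run_anti hR T Λ ω (Finset.le_sup hy'.2) hy'.1)
  · rintro ⟨y', hy', hη⟩ m
    obtain ⟨Λ, hΛ⟩ := hη m
    exact ⟨Λ, y', Finset.mem_inter.2 ⟨hΛ, hy'⟩⟩

lemma bx_mono (z : Site d) {L L' : ℕ} (h : L ≤ L') : bx z L ⊆ bx z L' := by
  unfold bx
  refine Finset.Icc_subset_Icc ?_ ?_
  · intro j
    show z j - (L' : ℤ) ≤ z j - (L : ℤ)
    omega
  · intro j
    show z j + (L : ℤ) ≤ z j + (L' : ℤ)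
    omega

lemma exists_bx (A : Finset (Site d)) : ∃ L : ℕ, A ⊆ bx 0 L := by
  refine ⟨A.sup fun y => Finset.univ.sup fun j => (y j).natAbs, fun y hy => ?_⟩
  have h1 : ∀ j, (y j).natAbs ≤ A.sup fun y => Finset.univ.sup fun j => (y j).natAbs := fun j =>
    (Finset.le_sup (f := fun j => (y j).natAbs) (Finset.mem_univ j)).trans
      (Finset.le_sup (f := fun y : Site d => Finset.univ.sup fun j => (y j).natAbs) hy)
  unfold bx
  rw [Finset.mem_Icc]
  constructor
  · intro j
    have := h1 j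
    simp only [Pi.zero_apply]
    omega
  · intro j
    have := h1 j
    simp only [Pi.zero_apply]
    omega

lemma prob_U (hI : IND_spec) (hR : RUN_spec) (hSV : SV_spec) (hD : DUAL_spec) (lam : ℝ≥0)
    (T : ℤ) (B : Finset (Site d)) (m : ℕ) : (P lam).real (U T B m) = sv lam B m := by
  have := hI.1 d lam
  have hmono : Monotone fun L : ℕ =>
      {ω : Om d | (run (bx 0 L) (T - m) m ω (bx 0 L) ∩ B).Nonempty} := by
    intro L L' h ω hω
    exact hω.mono (Finset.inter_subset_inter_right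
      (hR.1 d _ _ _ m ω _ _ (bx_mono 0 h) (bx_mono 0 h)))
  have e : U T B m = ⋃ L : ℕ, {ω : Om d | (run (bx 0 L) (T - m) m ω (bx 0 L) ∩ B).Nonempty} := by
    ext ω
    simp only [U, Set.mem_iUnion, Set.mem_ofPred_eq]
    constructor
    · rintro ⟨Λ, hΛ⟩
      obtain ⟨L, hL⟩ := exists_bx Λ
      exact ⟨L, hΛ.mono (Finset.inter_subset_inter_right (hR.1 d _ _ _ m ω _ _ hL hL))⟩
    · rintro ⟨L, hL⟩
      exact ⟨_, hL⟩
  have h1 : Tendsto (fun L : ℕ => (P lam).real
      {ω : Om d | (run (bx 0 L) (T - m) m ω (bx 0 L) ∩ B).Nonempty}) atTop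
      (𝓝 ((P lam).real (U T B m))) := by
    rw [e]
    have := tendsto_measure_iUnion_atTop (μ := P lam) hmono
    exact (ENNReal.tendsto_toReal (measure_ne_top _ _)).comp this
  have h2 := hSV.2.2.2.2.2.1 d lam B 0 m
  have h3 : ∀ L : ℕ, (P lam).real
      {ω : Om d | (run (bx 0 L) (T - m) m ω (bx 0 L) ∩ B).Nonempty} =
      (P lam).real {ω : Om d | (run (bx 0 L) 0 m ω B).Nonempty} := by
    intro L
    rw [hD d lam (bx 0 L) (T - m) 0 m (bx 0 L) B]
    congr 1
    ext ω
    simp only [Set.mem_ofPred_eq]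
    rw [Finset.inter_eq_left.2 (hR.2.2.2.1 d _ _ _ _ _)]
  simp only [h3] at h1
  exact tendsto_nhds_unique h1 h2

open Classical in
/-- the observed set -/
noncomputable def obs (x : ℕ → Site d) (n : ℕ) (ω : Om d) : Finset ℕ :=
  (Finset.range n).filter fun i : ℕ => EtaS ω (i : ℤ) (x i)

open Classical in
lemma mem_obs {x : ℕ → Site d} {n : ℕ} {ω : Om d} {i : ℕ} :
    i ∈ obs x n ω ↔ i < n ∧ EtaS ω (i : ℤ) (x i) := by
  unfold obs
  rw [Finset.mem_filter, Finset.mem_range]

lemma measurable_obs (hI : IND_spec) (hR : RUN_spec) (x : ℕ → Site d) (n : ℕ) :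
    Measurable (obs x n) := by
  classical
  refine measurable_to_countable' fun F => ?_
  have hm : ∀ i : ℕ, MeasurableSet {ω : Om d | EtaS ω (i : ℤ) (x i)} := fun i =>
    hI.2.1 d _ _ (measurable_etaS hI hR i (x i))
  have e : (obs x n) ⁻¹' {F} = {ω | F ⊆ Finset.range n} ∩
      ⋂ i ∈ Finset.range n, {ω : Om d | EtaS ω (i : ℤ) (x i) ↔ i ∈ F} := by
    ext ω
    simp only [Set.mem_preimage, Set.mem_singleton_iff, Set.mem_inter_iff, Set.mem_iInter,
      Set.mem_ofPred_eq, Finset.mem_range]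
    constructor
    · intro h
      refine ⟨fun i hi => ?_, fun i hi => ?_⟩
      · rw [← h, mem_obs] at hi
        exact Finset.mem_range.2 hi.1
      · rw [← h, mem_obs]
        simp only [hi, true_and]
    · rintro ⟨h1, h2⟩
      ext i
      rw [mem_obs]
      constructor
      · rintro ⟨h3, h4⟩
        exact (h2 i h3).1 h4
      · intro h3
        have h4 := Finset.mem_range.1 (h1 h3)
        exact ⟨h4, (h2 i h4).2 h3⟩
  rw [e]
  refine (MeasurableSet.const _).inter (Finset.measurableSet_biInter _ fun i _ => ?_)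
  by_cases hi : i ∈ F
  · simp only [hi, iff_true]
    exact hm i
  · simp only [hi, iff_false]
    exact (hm i).compl

lemma obs_inter (x : ℕ → Site d) (δ : ℝ) {n : ℕ} {S : Finset ℕ} (hS : S ⊆ Finset.range n)
    (ω : Om d) : (1 - δ) ^ (obs x n ω ∩ S).card = wt x δ S ω := by
  classical
  unfold wt
  congr 2
  ext i
  rw [Finset.mem_inter, mem_obs, Finset.mem_filter]
  constructor
  · rintro ⟨⟨_, h2⟩, h3⟩
    exact ⟨h3, h2⟩
  · rintro ⟨h1, h2⟩
    exact ⟨⟨Finset.mem_range.1 (hS h1), h2⟩, h1⟩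

lemma thin2 (hI : IND_spec) (hR : RUN_spec) (hZ : DFZ_spec) (hT : THIN_spec) (lam : ℝ≥0)
    (x : ℕ → Site d) {δ : ℝ} (hδ0 : 0 ≤ δ) (hδ : δ ≤ 1) {n : ℕ} {S S' : Finset ℕ}
    (hS : S ⊆ Finset.range n) (hS' : S' ⊆ Finset.range n) (hdis : Disjoint S S') :
    (∫ ω, wt x δ S ω ∂(P lam)) * (∫ ω, wt x δ S' ω ∂(P lam)) ≤
      ∫ ω, wt x δ (S ∪ S') ω ∂(P lam) := by
  classical
  have := hI.1 d lam
  have hm := measurable_obs hI hR x n
  have hDF : DF ((P lam).map (obs x n)) := by
    have := hZ d lam x n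
    unfold obs
    exact this
  have : IsProbabilityMeasure ((P lam).map (obs x n)) :=
    Measure.isProbabilityMeasure_map hm.aemeasurable
  have h := (hT ((P lam).map (obs x n)) hDF δ hδ0 hδ).2 S S' hdis
  have e : ∀ S0 : Finset ℕ, S0 ⊆ Finset.range n →
      ∫ A, (1 - δ) ^ (A ∩ S0).card ∂((P lam).map (obs x n)) = ∫ ω, wt x δ S0 ω ∂(P lam) := by
    intro S0 hS0
    rw [integral_map hm.aemeasurable
      (Measurable.of_discrete (f := fun A : Finset ℕ =>
        (1 - δ) ^ (A ∩ S0).card)).aestronglyMeasurable]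
    simp only [obs_inter x δ hS0]
  rw [e S hS, e S' hS', e (S ∪ S') (Finset.union_subset hS hS')] at h
  exact h

lemma mean_single (hI : IND_spec) (hR : RUN_spec) (hTh : THETA_spec) (lam : ℝ≥0)
    (x : ℕ → Site d) (δ : ℝ) (i : ℕ) :
    ∫ ω, wt x δ {i} ω ∂(P lam) = 1 - δ * (1 - hv lam ({0} : Finset (Site d))) := by
  classical
  have := hI.1 d lam
  set E : Set (Om d) := {ω | EtaS ω (i : ℤ) (x i)} with hE
  have hm : MeasurableSet E := hI.2.1 d _ _ (measurable_etaS hI hR i (x i))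
  have e : (fun ω => wt x δ {i} ω) = fun ω => 1 - δ * E.indicator (fun _ => (1 : ℝ)) ω := by
    funext ω
    unfold wt
    rw [Finset.filter_singleton]
    by_cases h : EtaS ω (i : ℤ) (x i)
    · rw [if_pos h, Set.indicator_of_mem (show ω ∈ E from h)]
      simp
    · rw [if_neg h, Set.indicator_of_notMem (show ω ∉ E from h)]
      simp
  rw [e, integral_sub (integrable_const _)
    (((integrable_const (1 : ℝ)).indicator hm).const_mul δ), integral_const_mul,
    integral_indicator hm]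
  simp only [integral_const, smul_eq_mul, mul_one, measureReal_restrict_apply_univ, probReal_univ]
  rw [hE, hTh d lam i (x i)]

lemma mean_lower (hI : IND_spec) (hR : RUN_spec) (hZ : DFZ_spec) (hT : THIN_spec)
    (hTh : THETA_spec) (lam : ℝ≥0) (x : ℕ → Site d) {δ : ℝ} (hδ0 : 0 ≤ δ) (hδ : δ ≤ 1) (n : ℕ)
    (hb : 0 ≤ 1 - δ * (1 - hv lam ({0} : Finset (Site d)))) (S : Finset ℕ)
    (hS : S ⊆ Finset.range n) :
    (1 - δ * (1 - hv lam ({0} : Finset (Site d)))) ^ S.card ≤ ∫ ω, wt x δ S ω ∂(P lam) := by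
  classical
  have := hI.1 d lam
  induction S using Finset.induction_on with
  | empty =>
    have : ∀ ω : Om d, wt x δ ∅ ω = 1 := by
      intro ω
      unfold wt
      simp
    simp [this]
  | insert i S hi ih =>
    have hS1 : S ⊆ Finset.range n := fun j hj => hS (Finset.mem_insert_of_mem hj)
    have hS2 : ({i} : Finset ℕ) ⊆ Finset.range n :=
      Finset.singleton_subset_iff.2 (hS (Finset.mem_insert_self i S))
    have h1 := thin2 hI hR hZ hT lam x hδ0 hδ hS2 hS1 (Finset.disjoint_singleton_left.2 hi)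
    rw [mean_single hI hR hTh] at h1
    rw [Finset.insert_eq, Finset.card_union_of_disjoint (Finset.disjoint_singleton_left.2 hi),
      Finset.card_singleton, pow_add, pow_one]
    exact (mul_le_mul_of_nonneg_left (ih hS1) hb).trans h1

lemma Dk_est (hI : IND_spec) (hR : RUN_spec) (hZ : DFZ_spec) (hT : THIN_spec)
    (hTh : THETA_spec) (lam : ℝ≥0) (x : ℕ → Site d) {δ : ℝ} (hδ0 : 0 ≤ δ) (hδ : δ ≤ 1) (n : ℕ)
    (hb0 : 0 ≤ 1 - δ * (1 - hv lam ({0} : Finset (Site d))))
    (hb1 : 1 - δ * (1 - hv lam ({0} : Finset (Site d))) ≤ 1) (S : Finset ℕ)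
    (hS : S ⊆ Finset.range n) (B : Finset (Site d)) (k : ℕ) :
    (1 - δ * (1 - hv lam ({0} : Finset (Site d)))) ^ (k + 1) *
      ∫ ω in U ((n : ℤ) - 1) B k \ U ((n : ℤ) - 1) B (k + 1), wt x δ S ω ∂(P lam) ≤
    (P lam).real (U ((n : ℤ) - 1) B k \ U ((n : ℤ) - 1) B (k + 1)) *
      ∫ ω, wt x δ S ω ∂(P lam) := by
  classical
  have := hI.1 d lam
  set b := 1 - δ * (1 - hv lam ({0} : Finset (Site d))) with hb
  set T : ℤ := (n : ℤ) - 1 with hTdef
  set So : Finset ℕ := S.filter fun i : ℕ => (i : ℤ) ≤ T - 1 - k with hSo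
  set Sr : Finset ℕ := S.filter fun i : ℕ => ¬ (i : ℤ) ≤ T - 1 - k with hSr
  have hunion : So ∪ Sr = S := Finset.filter_union_filter_not_eq _ _
  have hdis : Disjoint So Sr := Finset.disjoint_filter_filter_not _ _ _
  have hSoS : So ⊆ S := Finset.filter_subset _ _
  have hSrS : Sr ⊆ S := Finset.filter_subset _ _
  have hcard : Sr.card ≤ k + 1 := by
    have h1 : Sr ⊆ Finset.Ico (n - 1 - k) n := by
      intro i hi
      have h2 := (Finset.mem_filter.1 hi).2
      have h3 := Finset.mem_range.1 (hS (hSrS hi))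
      rw [Finset.mem_Ico]
      omega
    refine (Finset.card_le_card h1).trans ?_
    rw [Nat.card_Ico]
    omega
  have hDm : MeasurableSet[Fs {p : Site d × ℤ | T - ((k + 1 : ℕ) : ℤ) ≤ p.2 ∧ p.2 < T}]
      (U T B k \ U T B (k + 1)) := by
    have h1 : Fs {p : Site d × ℤ | T - (k : ℤ) ≤ p.2 ∧ p.2 < T} ≤
        Fs {p : Site d × ℤ | T - ((k + 1 : ℕ) : ℤ) ≤ p.2 ∧ p.2 < T} := by
      refine hI.2.2.1 d _ _ fun p hp => ?_
      have h2 := hp.1
      have h3 := hp.2
      refine ⟨?_, h3⟩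
      push_cast
      omega
    exact (h1 _ (U_meas hI hR T B k)).diff (U_meas hI hR T B (k + 1))
  have hDm' : MeasurableSet (U T B k \ U T B (k + 1)) := hI.2.1 d _ _ hDm
  have hind := hI.2.2.2.1 d lam {p : Site d × ℤ | p.2 < T - 1 - k}
    {p : Site d × ℤ | T - ((k + 1 : ℕ) : ℤ) ≤ p.2 ∧ p.2 < T} (by
      rw [Set.disjoint_left]
      intro p hp hp'
      have h1 := hp'.1
      have h2 : p.2 < T - 1 - k := hp
      push_cast at h1
      omega)
  have hwo : Measurable[Fs {p : Site d × ℤ | p.2 < T - 1 - k}] (wt x δ So) :=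
    measurable_wt hI hR x δ So (T - 1 - k) fun i hi => (Finset.mem_filter.1 hi).2
  have e1 := indep_int _ _ (P lam) (hI.2.1 d _) (hI.2.1 d _) hind (wt x δ So) hwo _ hDm
  have h1 : ∫ ω in U T B k \ U T B (k + 1), wt x δ S ω ∂(P lam) ≤
      ∫ ω in U T B k \ U T B (k + 1), wt x δ So ω ∂(P lam) :=
    setIntegral_mono (integrable_wt hI hR lam x hδ0 hδ S).integrableOn
      (integrable_wt hI hR lam x hδ0 hδ So).integrableOn (wt_anti x hδ0 hδ hSoS)
  rw [e1] at h1
  have h2 := thin2 hI hR hZ hT lam x hδ0 hδ (hSoS.trans hS) (hSrS.trans hS) hdis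
  rw [hunion] at h2
  have h3 := mean_lower hI hR hZ hT hTh lam x hδ0 hδ n hb0 Sr (hSrS.trans hS)
  have hWo : 0 ≤ ∫ ω, wt x δ So ω ∂(P lam) := integral_nonneg (wt_nonneg x hδ So)
  have h4 : b ^ (k + 1) ≤ ∫ ω, wt x δ Sr ω ∂(P lam) :=
    (pow_le_pow_of_le_one hb0 hb1 hcard).trans h3
  have h5 : b ^ (k + 1) * ∫ ω, wt x δ So ω ∂(P lam) ≤ ∫ ω, wt x δ S ω ∂(P lam) := by
    calc b ^ (k + 1) * ∫ ω, wt x δ So ω ∂(P lam)
        ≤ (∫ ω, wt x δ Sr ω ∂(P lam)) * ∫ ω, wt x δ So ω ∂(P lam) :=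
          mul_le_mul_of_nonneg_right h4 hWo
      _ ≤ _ := by rw [mul_comm]; exact h2
  calc b ^ (k + 1) * ∫ ω in U T B k \ U T B (k + 1), wt x δ S ω ∂(P lam)
      ≤ b ^ (k + 1) * ((P lam).real (U T B k \ U T B (k + 1)) *
          ∫ ω, wt x δ So ω ∂(P lam)) :=
        mul_le_mul_of_nonneg_left h1 (pow_nonneg hb0 _)
    _ = (P lam).real (U T B k \ U T B (k + 1)) *
          (b ^ (k + 1) * ∫ ω, wt x δ So ω ∂(P lam)) := by ring
    _ ≤ _ := mul_le_mul_of_nonneg_left h5 measureReal_nonneg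

lemma prob_Dk (hI : IND_spec) (hR : RUN_spec) (hSV : SV_spec) (hD : DUAL_spec) (lam : ℝ≥0)
    (T : ℤ) (B : Finset (Site d)) (k : ℕ) :
    (P lam).real (U T B k \ U T B (k + 1)) = sv lam B k - sv lam B (k + 1) := by
  have := hI.1 d lam
  rw [measureReal_sdiff (U_anti hR T B (Nat.le_succ k)) (hI.2.1 d _ _ (U_meas hI hR T B (k + 1))),
    prob_U hI hR hSV hD, prob_U hI hR hSV hD]

lemma sv_diff_le_hv (hSV : SV_spec) (lam : ℝ≥0) (B : Finset (Site d)) (k : ℕ) :
    sv lam B k - sv lam B (k + 1) ≤ hv lam B := by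
  have h1 := (hSV.1 d lam B k).2
  have h2 : 1 - hv lam B ≤ sv lam B (k + 1) := by
    unfold hv
    have : ⨅ m, sv lam B m ≤ sv lam B (k + 1) :=
      ciInf_le ⟨0, by rintro _ ⟨m, rfl⟩; exact (hSV.1 d lam B m).1⟩ (k + 1)
    linarith
  linarith

/-- the complement of `U K` has small weight -/
lemma UK_est (hI : IND_spec) (hR : RUN_spec) (hSV : SV_spec) (hD : DUAL_spec) (hZ : DFZ_spec)
    (hT : THIN_spec) (hTh : THETA_spec) (lam : ℝ≥0) (x : ℕ → Site d) {δ : ℝ} (hδ0 : 0 ≤ δ)
    (hδ : δ ≤ 1) (n : ℕ) (γ : ℝ) (hγ : 0 < γ)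
    (hb0 : Real.exp (-(γ / 4)) ≤ 1 - δ * (1 - hv lam ({0} : Finset (Site d))))
    (hb1 : 1 - δ * (1 - hv lam ({0} : Finset (Site d))) ≤ 1)
    (htail : ∀ (A : Finset (Site d)) (k m : ℕ), k ≤ m →
      sv lam A k - sv lam A m ≤ Real.exp (-(γ * k))) (S : Finset ℕ)
    (hS : S ⊆ Finset.range n) (B : Finset (Site d)) (hB : B.Nonempty) (K : ℕ) :
    ∫ ω in (U ((n : ℤ) - 1) B K)ᶜ, wt x δ S ω ∂(P lam) ≤
      Real.sqrt (hv lam B) * Real.exp (γ / 4) *
        ((1 - Real.exp (-(γ / 4)) ^ K) / (1 - Real.exp (-(γ / 4)))) *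
        ∫ ω, wt x δ S ω ∂(P lam) := by
  classical
  have := hI.1 d lam
  set r := Real.exp (-(γ / 4)) with hr
  have hr0 : 0 < r := Real.exp_pos _
  have hr1 : r < 1 := by
    rw [hr, Real.exp_lt_one_iff]
    linarith
  have hr1' : 0 < 1 - r := by linarith
  set W := ∫ ω, wt x δ S ω ∂(P lam) with hW
  have hW0 : 0 ≤ W := integral_nonneg (wt_nonneg x hδ S)
  set T : ℤ := (n : ℤ) - 1 with hTdef
  set b := 1 - δ * (1 - hv lam ({0} : Finset (Site d))) with hb
  have hUm : ∀ m, MeasurableSet (U T B m) := fun m => hI.2.1 d _ _ (U_meas hI hR T B m)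
  induction K with
  | zero =>
    rw [U_zero T B hB, Set.compl_univ, setIntegral_empty]
    simp
  | succ K ih =>
    have e : (U T B (K + 1))ᶜ = (U T B K)ᶜ ∪ (U T B K \ U T B (K + 1)) := by
      ext ω
      simp only [Set.mem_compl_iff, Set.mem_union, Set.mem_sdiff]
      constructor
      · intro h
        by_cases h1 : ω ∈ U T B K
        · exact Or.inr ⟨h1, h⟩
        · exact Or.inl h1
      · rintro (h | h)
        · exact fun h1 => h (U_anti hR T B (Nat.le_succ K) h1)
        · exact h.2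
    have hint := integrable_wt hI hR lam x hδ0 hδ S
    rw [e, setIntegral_union (by
        rw [Set.disjoint_left]
        intro ω h1 h2
        exact h1 h2.1) ((hUm K).diff (hUm (K + 1))) hint.integrableOn hint.integrableOn]
    have h1 := Dk_est hI hR hZ hT hTh lam x hδ0 hδ n (hr0.le.trans hb0) hb1 S hS B K
    rw [← hTdef, ← hW, ← hb, prob_Dk hI hR hSV hD] at h1
    set Q := sv lam B K - sv lam B (K + 1) with hQ
    have hQ0 : 0 ≤ Q := by
      rw [hQ, ← prob_Dk hI hR hSV hD lam T B K]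
      exact measureReal_nonneg
    have hQ1 : Q ≤ Real.exp (-(γ * K)) := htail B K (K + 1) (Nat.le_succ K)
    have hQ2 : Q ≤ hv lam B := sv_diff_le_hv hSV lam B K
    have hQ3 : Q ≤ Real.sqrt (hv lam B) * Real.exp (-(γ / 2 * K)) := by
      have h2 : Q ^ 2 ≤ hv lam B * Real.exp (-(γ * K)) := by
        rw [sq]
        exact mul_le_mul hQ2 hQ1 hQ0 (hQ0.trans hQ2)
      have h3 : Real.exp (-(γ / 2 * K)) = Real.sqrt (Real.exp (-(γ * K))) := by
        rw [show -(γ * (K : ℝ)) = -(γ / 2 * K) + -(γ / 2 * K) by ring, Real.exp_add,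
          Real.sqrt_mul_self (Real.exp_pos _).le]
      rw [h3, ← Real.sqrt_mul (hQ0.trans hQ2)]
      exact Real.le_sqrt_of_sq_le h2
    set I := ∫ ω in U T B K \ U T B (K + 1), wt x δ S ω ∂(P lam) with hIdef
    have hI0 : 0 ≤ I := setIntegral_nonneg ((hUm K).diff (hUm (K + 1)))
      fun ω _ => wt_nonneg x hδ S ω
    have h4 : r ^ (K + 1) * I ≤ Q * W :=
      (mul_le_mul_of_nonneg_right (pow_le_pow_left₀ hr0.le hb0 _) hI0).trans h1
    have h5 : I ≤ Real.sqrt (hv lam B) * Real.exp (γ / 4) * r ^ K * W := by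
      have h6 : r ^ (K + 1) * (Real.exp (γ / 4) * r ^ K) = Real.exp (-(γ / 2 * K)) := by
        rw [hr, ← Real.exp_nat_mul, ← Real.exp_nat_mul, ← Real.exp_add, ← Real.exp_add]
        congr 1
        push_cast
        ring
      have h7 : r ^ (K + 1) * I ≤
          r ^ (K + 1) * (Real.sqrt (hv lam B) * Real.exp (γ / 4) * r ^ K * W) := by
        calc r ^ (K + 1) * I ≤ Q * W := h4
          _ ≤ Real.sqrt (hv lam B) * Real.exp (-(γ / 2 * K)) * W :=
            mul_le_mul_of_nonneg_right hQ3 hW0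
          _ = _ := by rw [← h6]; ring
      exact le_of_mul_le_mul_left h7 (by positivity)
    have h8 : (1 - r ^ (K + 1)) / (1 - r) = (1 - r ^ K) / (1 - r) + r ^ K := by
      field_simp
      ring
    rw [h8]
    calc _ ≤ Real.sqrt (hv lam B) * Real.exp (γ / 4) * ((1 - r ^ K) / (1 - r)) * W +
          Real.sqrt (hv lam B) * Real.exp (γ / 4) * r ^ K * W := add_le_add ih h5
      _ = _ := by ring

lemma hv_tr (hSV : SV_spec) (lam : ℝ≥0) (B : Finset (Site d)) (y : Site d) :
    hv lam ((Aut.tr y).im B) = hv lam B := by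
  unfold hv
  congr 2
  funext m
  exact hSV.2.2.2.1 d lam B m y

lemma bx_tr (y : Site d) (R : ℕ) : bx y R = (Aut.tr y).im (bx 0 R) := by
  ext z
  unfold Aut.im
  rw [Finset.mem_map]
  constructor
  · intro h
    refine ⟨z - y, ?_, ?_⟩
    · unfold bx at h ⊢
      rw [Finset.mem_Icc] at h ⊢
      constructor
      · intro j
        have := h.1 j
        simp only at this
        show (0 : Site d) j - (R : ℤ) ≤ z j - y j
        simp only [Pi.zero_apply]
        omega
      · intro j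
        have := h.2 j
        simp only at this
        show z j - y j ≤ (0 : Site d) j + (R : ℤ)
        simp only [Pi.zero_apply]
        omega
    · simp [Aut.tr]
  · rintro ⟨w, hw, rfl⟩
    have e : (Aut.tr y).e.toEmbedding w = w + y := rfl
    rw [e]
    unfold bx at hw ⊢
    rw [Finset.mem_Icc] at hw ⊢
    constructor
    · intro j
      have := hw.1 j
      simp only [Pi.zero_apply] at this
      show y j - (R : ℤ) ≤ w j + y j
      omega
    · intro j
      have := hw.2 j
      simp only [Pi.zero_apply] at this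
      show w j + y j ≤ y j + (R : ℤ)
      omega

lemma mem_bx (z : Site d) (n : ℕ) : z ∈ bx z n := by
  unfold bx
  rw [Finset.mem_Icc]
  constructor
  · intro j
    show z j - (n : ℤ) ≤ z j
    omega
  · intro j
    show z j ≤ z j + (n : ℤ)
    omega

/-- the first infected point of `B` -/
def Fi (T : ℤ) (B : Finset (Site d)) (y' : Site d) : Set (Om d) :=
  {ω | EtaS ω T y' ∧ ∀ y'' ∈ B, Encodable.encode y'' < Encodable.encode y' → ¬ EtaS ω T y''}

lemma Fi_meas (hI : IND_spec) (hR : RUN_spec) (T : ℤ) (B : Finset (Site d)) (y' : Site d) :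
    MeasurableSet[Fs {p : Site d × ℤ | p.2 < T}] (Fi T B y') := by
  have e : Fi T B y' = {ω | EtaS ω T y'} ∩ ⋂ y'' ∈ B,
      {ω | Encodable.encode y'' < Encodable.encode y' → ¬ EtaS ω T y''} := by
    ext ω
    simp [Fi]
  rw [e]
  refine @MeasurableSet.inter _ (Fs {p : Site d × ℤ | p.2 < T}) _ _
    (measurable_etaS hI hR T y') ?_
  refine @Finset.measurableSet_biInter _ _ (Fs {p : Site d × ℤ | p.2 < T}) _ _ fun y'' _ => ?_
  by_cases h : Encodable.encode y'' < Encodable.encode y'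
  · simp only [h, true_imp_iff]
    exact (measurable_etaS hI hR T y'').compl
  · simp only [h, false_imp_iff]
    exact @MeasurableSet.univ _ (Fs {p : Site d × ℤ | p.2 < T})

lemma iUnion_Fi (T : ℤ) (B : Finset (Site d)) :
    ⋃ y' ∈ B, Fi T B y' = {ω | ∃ y' ∈ B, EtaS ω T y'} := by
  classical
  ext ω
  simp only [Set.mem_iUnion, exists_prop, Set.mem_ofPred_eq]
  constructor
  · rintro ⟨y', hy', h⟩
    exact ⟨y', hy', h.1⟩
  · rintro ⟨y', hy', h⟩
    obtain ⟨z, hz, hmin⟩ := Finset.exists_min_image (B.filter fun y => EtaS ω T y)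
      (fun y => Encodable.encode y) ⟨y', Finset.mem_filter.2 ⟨hy', h⟩⟩
    rw [Finset.mem_filter] at hz
    refine ⟨z, hz.1, hz.2, fun y'' hy'' hlt hη => ?_⟩
    exact absurd (hmin y'' (Finset.mem_filter.2 ⟨hy'', hη⟩)) (not_le.2 hlt)

lemma Fi_disj (T : ℤ) (B : Finset (Site d)) {y y' : Site d} (hy : y ∈ B) (hy' : y' ∈ B)
    (hne : y ≠ y') : Disjoint (Fi T B y) (Fi T B y') := by
  rw [Set.disjoint_left]
  intro ω h1 h2
  rcases lt_trichotomy (Encodable.encode y) (Encodable.encode y') with h | h | h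
  · exact h2.2 y hy h h1.1
  · exact hne (Encodable.encode_injective h)
  · exact h1.2 y' hy' h h2.1

end Est

open Est Classical in
theorem est_holds (hI : IND_spec) (hR : RUN_spec) (hSV : SV_spec) (hD : DUAL_spec)
    (hTh : THETA_spec) (hInf : INFH_spec) (hZ : DFZ_spec) (hT : THIN_spec) (hFill : FILL_spec)
    (hTail : TAIL_spec) : EST_spec := by
  intro d lam hlam hh
  have := hI.1 d lam
  obtain ⟨γ, hγ, htail⟩ := hTail d lam hlam hh
  set r := Real.exp (-(γ / 4)) with hr
  have hr0 : 0 < r := Real.exp_pos _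
  have hr1 : r < 1 := by
    rw [hr, Real.exp_lt_one_iff]
    linarith
  have hr1' : 0 < 1 - r := by linarith
  have hhv0 : 0 ≤ hv lam ({0} : Finset (Site d)) := by
    unfold hv
    have h1 : ⨅ m, sv lam ({0} : Finset (Site d)) m ≤ sv lam {0} 0 :=
      ciInf_le ⟨0, by rintro _ ⟨m, rfl⟩; exact (hSV.1 d lam _ m).1⟩ 0
    have h2 := (hSV.1 d lam ({0} : Finset (Site d)) 0).2
    linarith
  set δ : ℝ := min (1 / 2) (1 - r) with hδ
  have hδ0 : 0 < δ := lt_min (by norm_num) hr1'
  have hδ2 : δ ≤ 1 / 2 := min_le_left _ _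
  have hδr : δ ≤ 1 - r := min_le_right _ _
  have hb1 : 1 - δ * (1 - hv lam ({0} : Finset (Site d))) ≤ 1 := by
    have : 0 ≤ δ * (1 - hv lam ({0} : Finset (Site d))) :=
      mul_nonneg hδ0.le (by linarith)
    linarith
  have hb0 : r ≤ 1 - δ * (1 - hv lam ({0} : Finset (Site d))) := by nlinarith
  set C : ℝ := Real.exp (γ / 4) / (1 - r) with hC
  have hC0 : 0 < C := by positivity
  obtain ⟨R, hRv⟩ := hInf d lam hh ((1 / (2 * C)) ^ 2) (by positivity)
  obtain ⟨f, hf0, hf⟩ := hFill d lam hlam R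
  refine ⟨δ, f / 2, hδ0, by linarith, by positivity, fun x n S hS => ?_⟩
  set y := x n with hy
  set B := bx y R with hB
  set T : ℤ := (n : ℤ) - 1 with hTdef
  have hδ1 : δ ≤ 1 := by linarith
  have hyB : y ∈ B := mem_bx y R
  have hBne : B.Nonempty := ⟨y, hyB⟩
  have hsqrt : Real.sqrt (hv lam B) * C ≤ 1 / 2 := by
    have h1 : hv lam B ≤ (1 / (2 * C)) ^ 2 := by
      rw [hB, bx_tr, hv_tr hSV]
      exact hRv
    have h2 : Real.sqrt (hv lam B) ≤ 1 / (2 * C) := by
      rw [← Real.sqrt_sq (show 0 ≤ 1 / (2 * C) by positivity)]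
      exact Real.sqrt_le_sqrt h1
    calc Real.sqrt (hv lam B) * C ≤ 1 / (2 * C) * C := mul_le_mul_of_nonneg_right h2 hC0.le
      _ = 1 / 2 := by field_simp
  have hint := integrable_wt hI hR lam x hδ0.le hδ1 S
  set W := ∫ ω, wt x δ S ω ∂(P lam) with hW
  have hW0 : 0 ≤ W := integral_nonneg (wt_nonneg x hδ1 S)
  have hUm : ∀ m, MeasurableSet (U T B m) := fun m => hI.2.1 d _ _ (U_meas hI hR T B m)
  have claim1 : ∀ K, W / 2 ≤ ∫ ω in U T B K, wt x δ S ω ∂(P lam) := by
    intro K
    have h1 := UK_est hI hR hSV hD hZ hT hTh lam x hδ0.le hδ1 n γ hγ hb0 hb1 htail S hS B hBne K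
    rw [← hTdef, ← hW, ← hr] at h1
    have h2 := integral_add_compl (hUm K) hint
    have h3 : Real.sqrt (hv lam B) * Real.exp (γ / 4) * ((1 - r ^ K) / (1 - r)) ≤ 1 / 2 := by
      have h4 : (1 - r ^ K) / (1 - r) ≤ 1 / (1 - r) := by
        refine div_le_div_of_nonneg_right ?_ hr1'.le
        have := pow_pos hr0 K
        linarith
      calc Real.sqrt (hv lam B) * Real.exp (γ / 4) * ((1 - r ^ K) / (1 - r))
          ≤ Real.sqrt (hv lam B) * Real.exp (γ / 4) * (1 / (1 - r)) :=
            mul_le_mul_of_nonneg_left h4 (by positivity)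
        _ = Real.sqrt (hv lam B) * C := by rw [hC]; ring
        _ ≤ 1 / 2 := hsqrt
    have h5 : ∫ ω in (U T B K)ᶜ, wt x δ S ω ∂(P lam) ≤ 1 / 2 * W :=
      h1.trans (mul_le_mul_of_nonneg_right h3 hW0)
    rw [← hW] at h2
    linarith
  have claim2 : W / 2 ≤ ∫ ω in ⋂ m, U T B m, wt x δ S ω ∂(P lam) :=
    ge_of_tendsto (tendsto_setIntegral_of_antitone hUm (U_anti hR T B) ⟨0, hint.integrableOn⟩)
      (Eventually.of_forall claim1)
  rw [inter_U hR T B, ← iUnion_Fi T B] at claim2
  have hFim : ∀ y', MeasurableSet (Fi T B y') := fun y' => hI.2.1 d _ _ (Fi_meas hI hR T B y')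
  rw [integral_biUnion_finset B (fun y' _ => hFim y')
    (fun y' hy' y'' hy'' hne => Fi_disj T B hy' hy'' hne)
    (fun _ _ => hint.integrableOn)] at claim2
  set Gf : Site d → Set (Om d) := fun y' => {ω | B ⊆ run B T 1 ω {y'}} with hGf
  have hGm : ∀ y', MeasurableSet[Fs {p : Site d × ℤ | p.1 ∈ B ∧ T ≤ p.2 ∧
      p.2 < T + ((1 : ℕ) : ℤ)}] (Gf y') := fun y' =>
    (hR.2.2.2.2.1 d B T 1 {y'}) (MeasurableSet.of_discrete (s := {B' | B ⊆ B'}))
  have hGm' : ∀ y', MeasurableSet (Gf y') := fun y' => hI.2.1 d _ _ (hGm y')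
  have hwS : Measurable[Fs {p : Site d × ℤ | p.2 < T}] (wt x δ S) := by
    refine measurable_wt hI hR x δ S T fun i hi => ?_
    have := Finset.mem_range.1 (hS hi)
    omega
  have claim3 : ∀ y' ∈ B, f * ∫ ω in Fi T B y', wt x δ S ω ∂(P lam) ≤
      ∫ ω in Gf y' ∩ Fi T B y', wt x δ S ω ∂(P lam) := by
    intro y' hy'
    have hind := hI.2.2.2.1 d lam {p : Site d × ℤ | p.2 < T}
      {p : Site d × ℤ | p.1 ∈ B ∧ T ≤ p.2 ∧ p.2 < T + ((1 : ℕ) : ℤ)} (by
        rw [Set.disjoint_left]
        intro p hp hp'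
        exact absurd hp'.2.1 (not_le.2 hp))
    have h1 := indep_int _ _ (P lam) (hI.2.1 d _) (hI.2.1 d _) hind
      ((Fi T B y').indicator (wt x δ S)) (hwS.indicator (Fi_meas hI hR T B y')) (Gf y') (hGm y')
    rw [setIntegral_indicator (hFim y'), integral_indicator (hFim y')] at h1
    rw [h1]
    exact mul_le_mul_of_nonneg_right (hf y y' T hy')
      (setIntegral_nonneg (hFim y') fun ω _ => wt_nonneg x hδ1 S ω)
  have hEm : MeasurableSet {ω : Om d | EtaS ω (n : ℤ) y} :=
    hI.2.1 d _ _ (measurable_etaS hI hR n y)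
  have claim4 : ∑ y' ∈ B, ∫ ω in Gf y' ∩ Fi T B y', wt x δ S ω ∂(P lam) ≤
      ∫ ω in {ω : Om d | EtaS ω (n : ℤ) y}, wt x δ S ω ∂(P lam) := by
    rw [← integral_biUnion_finset B (fun y' _ => (hGm' y').inter (hFim y'))
      (fun y' hy' y'' hy'' hne => (Fi_disj T B hy' hy'' hne).mono Set.inter_subset_right
        Set.inter_subset_right) (fun _ _ => hint.integrableOn)]
    refine setIntegral_mono_set hint.integrableOn
      (Eventually.of_forall fun ω => wt_nonneg x hδ1 S ω) (Eventually.of_forall ?_)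
    intro ω hω
    have hω' : ω ∈ ⋃ y' ∈ B, Gf y' ∩ Fi T B y' := hω
    simp only [Set.mem_iUnion] at hω'
    obtain ⟨y', hy', hg, hF⟩ := hω'
    have := eta_step hR ω T B y y' hF.1 hg hyB
    show EtaS ω (n : ℤ) y
    rwa [hTdef, sub_add_cancel] at this
  have e1 : ∫ ω in {ω : Om d | EtaS ω (n : ℤ) y}, wt x δ S ω ∂(P lam) =
      ∫ ω, (if EtaS ω (n : ℤ) (x n) then
        (1 - δ) ^ (S.filter fun i : ℕ => EtaS ω (i : ℤ) (x i)).card else 0) ∂(P lam) := by
    rw [← integral_indicator hEm]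
    refine integral_congr_ae (Eventually.of_forall fun ω => ?_)
    by_cases h : EtaS ω (n : ℤ) (x n)
    · show Set.indicator _ _ ω = ite _ _ _
      rw [if_pos h, Set.indicator_of_mem (show ω ∈ {ω : Om d | EtaS ω (n : ℤ) y} from h)]
      unfold wt
      rfl
    · show Set.indicator _ _ ω = ite _ _ _
      rw [if_neg h, Set.indicator_of_notMem (show ω ∉ {ω : Om d | EtaS ω (n : ℤ) y} from h)]
  rw [← e1]
  have e2 : ∫ ω, (1 - δ) ^ (S.filter fun i : ℕ => EtaS ω (i : ℤ) (x i)).card ∂(P lam) = W := rfl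
  rw [e2]
  calc f / 2 * W = f * (W / 2) := by ring
    _ ≤ f * ∑ y' ∈ B, ∫ ω in Fi T B y', wt x δ S ω ∂(P lam) :=
        mul_le_mul_of_nonneg_left claim2 hf0.le
    _ = ∑ y' ∈ B, f * ∫ ω in Fi T B y', wt x δ S ω ∂(P lam) := by rw [Finset.mul_sum]
    _ ≤ ∑ y' ∈ B, ∫ ω in Gf y' ∩ Fi T B y', wt x δ S ω ∂(P lam) := Finset.sum_le_sum claim3
    _ ≤ _ := claim4

end Pool.Agent.Lib.MP_c12170_pr
end

section
/-!
# MP_c12170_pr: KILLDET (helper10)
-/
open MeasureTheory ProbabilityTheory Filter Topology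
open scoped ENNReal NNReal

namespace Pool.Agent.Lib.MP_c12170_pr

namespace KillDet

variable {d : ℕ}

theorem fold_nil (A : Finset (Site d)) : fold A [] = A := rfl

theorem fold_cons (A : Finset (Site d)) (l : Letter d) (w : List (Letter d)) :
    fold A (l :: w) = fold (upd A l) w := rfl

/-- points outside `Λ` are not deleted by letters with source in `Λ` -/
theorem mem_fold_of_mem {Λ : Finset (Site d)} {x : Site d} (hx : x ∉ Λ) :
    ∀ (w : List (Letter d)) (X : Finset (Site d)), (∀ l ∈ w, l.1 ∈ Λ) → x ∈ X → x ∈ fold X w := by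
  intro w
  induction w with
  | nil => intro X _ h; exact h
  | cons l w ih =>
    intro X hw h
    rw [fold_cons]
    apply ih _ (fun l' hl' => hw l' (List.mem_cons_of_mem _ hl'))
    have hl : l.1 ∈ Λ := hw l List.mem_cons_self
    have hne : x ≠ l.1 := fun e => hx (e ▸ hl)
    unfold upd
    split
    · exact Finset.mem_erase.2 ⟨hne, h⟩
    · split
      · exact Finset.mem_insert_of_mem h
      · exact h

/-- comparison of two processes in one strip -/
theorem fold_subset (Λ : Finset (Site d)) : ∀ (w : List (Letter d)) (X' X : Finset (Site d)),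
    (∀ x ∈ X', x ∈ Λ → x ∈ X) → (∀ x ∈ X', x ∉ Λ → x ∈ X ∨ ∃ l ∈ w, l.1 = x) →
    (∀ x, x ∉ Λ → (x ∈ X' ∨ x ∈ fold X (w.filter fun l => l.1 ∈ Λ)) →
      ∀ l ∈ w, l.1 = x → l.2 = none) →
    fold X' w ⊆ fold X (w.filter fun l => l.1 ∈ Λ) := by
  intro w
  induction w with
  | nil =>
    intro X' X h1 h2 _ x hx
    by_cases hxΛ : x ∈ Λ
    · exact h1 x hx hxΛ
    · rcases h2 x hx hxΛ with h | ⟨l, hl, -⟩
      · exact h
      · simp at hl
  | cons l w ih =>
    intro X' X h1 h2 h3
    rw [fold_cons]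
    by_cases hl : l.1 ∈ Λ
    · have hf : (l :: w).filter (fun l => l.1 ∈ Λ) = l :: w.filter (fun l => l.1 ∈ Λ) := by
        simp [hl]
      simp only [hf, fold_cons] at h3 ⊢
      have key : ∀ x ∈ upd X' l, x ∈ X' ∧ (l.2 = none → x ≠ l.1) ∨ x ∈ upd X l := by
        intro x hx
        unfold upd at hx ⊢
        rcases h : l.2 with _ | a
        · rw [h] at hx
          obtain ⟨hne, hx'⟩ := Finset.mem_erase.1 hx
          exact Or.inl ⟨hx', fun _ => hne⟩
        · rw [h] at hx
          simp only at hx ⊢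
          split at hx
          · rename_i hmem
            rcases Finset.mem_insert.1 hx with rfl | hx
            · right
              rw [if_pos (h1 _ hmem hl)]
              exact Finset.mem_insert_self _ _
            · exact Or.inl ⟨hx, fun e => by simp at e⟩
          · exact Or.inl ⟨hx, fun e => by simp at e⟩
      have keep : ∀ x ∈ X, (l.2 = none → x ≠ l.1) → x ∈ upd X l := by
        intro x hx hne
        unfold upd
        rcases h : l.2 with _ | a
        · exact Finset.mem_erase.2 ⟨hne h, hx⟩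
        · simp only
          split
          · exact Finset.mem_insert_of_mem hx
          · exact hx
      apply ih
      · intro x hx hxΛ
        rcases key x hx with ⟨hx', hne⟩ | hx'
        · exact keep x (h1 x hx' hxΛ) hne
        · exact hx'
      · intro x hx hxΛ
        rcases key x hx with ⟨hx', hne⟩ | hx'
        · rcases h2 x hx' hxΛ with h | ⟨l', hl', rfl⟩
          · exact Or.inl (keep x h hne)
          · rcases List.mem_cons.1 hl' with rfl | hl''
            · exact absurd hl hxΛ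
            · exact Or.inr ⟨l', hl'', rfl⟩
        · exact Or.inl hx'
      · intro x hxΛ hx l' hl'
        apply h3 x hxΛ _ l' (List.mem_cons_of_mem _ hl')
        rcases hx with hx | hx
        · rcases key x hx with ⟨hx', -⟩ | hx'
          · exact Or.inl hx'
          · right
            exact mem_fold_of_mem hxΛ _ _ (fun l hl => by simpa using (List.mem_filter.1 hl).2) hx'
        · exact Or.inr hx
    · have hf : (l :: w).filter (fun l => l.1 ∈ Λ) = w.filter (fun l => l.1 ∈ Λ) := by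
        simp [hl]
      simp only [hf] at h3 ⊢
      have key : ∀ x ∈ upd X' l, x ∈ X' ∧ x ≠ l.1 := by
        intro x hx
        by_cases hmem : l.1 ∈ X'
        · have hnone := h3 l.1 hl (Or.inl hmem) l List.mem_cons_self rfl
          unfold upd at hx
          rw [hnone] at hx
          obtain ⟨hne, hx'⟩ := Finset.mem_erase.1 hx
          exact ⟨hx', hne⟩
        · unfold upd at hx
          rcases h : l.2 with _ | a
          · rw [h] at hx
            obtain ⟨hne, hx'⟩ := Finset.mem_erase.1 hx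
            exact ⟨hx', hne⟩
          · rw [h] at hx
            simp only [if_neg hmem] at hx
            exact ⟨hx, fun e => hmem (e ▸ hx)⟩
      apply ih
      · intro x hx hxΛ
        exact h1 x (key x hx).1 hxΛ
      · intro x hx hxΛ
        obtain ⟨hx', hne⟩ := key x hx
        rcases h2 x hx' hxΛ with h | ⟨l', hl', rfl⟩
        · exact Or.inl h
        · rcases List.mem_cons.1 hl' with rfl | hl''
          · exact absurd rfl hne
          · exact Or.inr ⟨l', hl'', rfl⟩
      · intro x hxΛ hx l' hl'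
        apply h3 x hxΛ _ l' (List.mem_cons_of_mem _ hl')
        rcases hx with hx | hx
        · exact Or.inl (key x hx).1
        · exact Or.inr hx

/-- everything dies in one strip -/
theorem fold_empty : ∀ (w : List (Letter d)) (X : Finset (Site d)),
    (∀ x ∈ X, (∀ l ∈ w, l.1 = x → l.2 = none) ∧ ∃ l ∈ w, l.1 = x) → fold X w = ∅ := by
  intro w
  induction w with
  | nil =>
    intro X h
    rw [fold_nil, Finset.eq_empty_iff_forall_notMem]
    intro x hx
    obtain ⟨-, l, hl, -⟩ := h x hx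
    simp at hl
  | cons l w ih =>
    intro X h
    rw [fold_cons]
    apply ih
    have key : ∀ x ∈ upd X l, x ∈ X ∧ x ≠ l.1 := by
      intro x hx
      by_cases hmem : l.1 ∈ X
      · have hnone := (h l.1 hmem).1 l List.mem_cons_self rfl
        unfold upd at hx
        rw [hnone] at hx
        obtain ⟨hne, hx'⟩ := Finset.mem_erase.1 hx
        exact ⟨hx', hne⟩
      · unfold upd at hx
        rcases h' : l.2 with _ | a
        · rw [h'] at hx
          obtain ⟨hne, hx'⟩ := Finset.mem_erase.1 hx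
          exact ⟨hx', hne⟩
        · rw [h'] at hx
          simp only [if_neg hmem] at hx
          exact ⟨hx, fun e => hmem (e ▸ hx)⟩
    intro x hx
    obtain ⟨hx', hne⟩ := key x hx
    obtain ⟨h1, l', hl', h2⟩ := h x hx'
    refine ⟨fun l'' hl'' => h1 l'' (List.mem_cons_of_mem _ hl''), l', ?_, h2⟩
    rcases List.mem_cons.1 hl' with rfl | hl''
    · exact absurd h2.symm hne
    · exact hl''

end KillDet

open KillDet in
theorem killdet_holds (hw : WORD_spec) (hr : RUN_spec) : KILLDET_spec := by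
  intro d ω Λ A T hA hT hE
  rintro ⟨Λ'', hne⟩
  obtain ⟨hfil, hsup, -⟩ := hw
  obtain ⟨hmono, -, -, hsubΛ, -, -, -⟩ := hr
  set Λ' := Λ ∪ Λ'' with hΛ'
  have hΛΛ' : Λ ⊆ Λ' := Finset.subset_union_left
  have hne' : (run Λ' 0 (T + 1) ω A).Nonempty :=
    hne.mono (hmono d Λ'' Λ' 0 (T + 1) ω A A Finset.subset_union_right (Finset.Subset.refl _))
  -- letters of `word Λ' k` with source `x` are the letters of `word {x} k`
  have hx1 : ∀ (k : ℤ) (x : Site d), x ∈ Λ' → ∀ l, l ∈ word {x} k ω ↔ l ∈ word Λ' k ω ∧ l.1 = x := by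
    intro k x hx l
    rw [hfil d {x} Λ' k ω (Finset.singleton_subset_iff.2 hx), List.mem_filter]
    simp
  have hQ1 : ∀ (k : ℤ) (x : Site d), Qk x k ω → ∀ l ∈ word Λ' k ω, l.1 = x → l.2 = none := by
    intro k x hQ l hl hlx
    have hxΛ : x ∈ Λ' := hlx ▸ hsup d Λ' k ω l hl
    exact hQ.1 l ((hx1 k x hxΛ l).2 ⟨hl, hlx⟩)
  have hQ2 : ∀ (k : ℤ) (x : Site d), x ∈ Λ' → Qk x k ω → ∃ l ∈ word Λ' k ω, l.1 = x := by
    intro k x hx hQ
    obtain ⟨l, hl⟩ := List.exists_mem_of_ne_nil _ hQ.2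
    exact ⟨l, ((hx1 k x hx l).1 hl).1, ((hx1 k x hx l).1 hl).2⟩
  -- the claim
  have claim : ∀ k : ℕ, k ≤ T → ∀ x ∈ run Λ' 0 k ω A,
      (x ∈ Λ → x ∈ run Λ 0 k ω A) ∧ (x ∉ Λ → ∃ j : ℕ, k = j + 1 ∧ x ∈ exits Λ 0 j ω A) := by
    intro k
    induction k with
    | zero =>
      intro _ x hx
      have hxA : x ∈ A := (Finset.mem_inter.1 hx).1
      exact ⟨fun h => Finset.mem_inter.2 ⟨hxA, h⟩, fun h => absurd (hA hxA) h⟩
    | succ k ih =>
      intro hk x hx
      have ih' := ih (by omega)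
      have hsub : fold (run Λ' 0 k ω A) (word Λ' (0 + (k : ℤ)) ω) ⊆
          fold (run Λ 0 k ω A) (word Λ (0 + (k : ℤ)) ω) := by
        rw [hfil d Λ Λ' (0 + (k : ℤ)) ω hΛΛ']
        apply fold_subset
        · intro y hy hyΛ
          exact (ih' y hy).1 hyΛ
        · intro y hy hyΛ
          obtain ⟨j, rfl, hj⟩ := (ih' y hy).2 hyΛ
          right
          have hQ := (hE j (by omega) y hj).2
          apply hQ2 _ y (hsubΛ d Λ' 0 (j + 1) ω A hy)
          rw [zero_add]
          push_cast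
          exact hQ
        · intro y hyΛ hy l hl hly
          rcases hy with hy | hy
          · obtain ⟨j, rfl, hj⟩ := (ih' y hy).2 hyΛ
            have hQ := (hE j (by omega) y hj).2
            refine hQ1 _ y ?_ l hl hly
            rw [zero_add]
            push_cast
            exact hQ
          · rw [← hfil d Λ Λ' (0 + (k : ℤ)) ω hΛΛ'] at hy
            have hyE : y ∈ exits Λ 0 k ω A := Finset.mem_sdiff.2 ⟨hy, hyΛ⟩
            have hQ := (hE k (by omega) y hyE).1
            refine hQ1 _ y ?_ l hl hly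
            rw [zero_add]
            exact hQ
      have hx' := hsub (Finset.mem_inter.1 hx).1
      exact ⟨fun h => Finset.mem_inter.2 ⟨hx', h⟩, fun h => ⟨k, rfl, Finset.mem_sdiff.2 ⟨hx', h⟩⟩⟩
  -- the last strip
  have hlast : fold (run Λ' 0 T ω A) (word Λ' (0 + (T : ℤ)) ω) = ∅ := by
    apply fold_empty
    intro x hx
    have hQ : Qk x (0 + (T : ℤ)) ω := by
      rw [zero_add]
      by_cases hxΛ : x ∈ Λ
      · exact hT x ((claim T le_rfl x hx).1 hxΛ)
      · obtain ⟨j, rfl, hj⟩ := (claim T le_rfl x hx).2 hxΛ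
        have := (hE j (by omega) x hj).2
        push_cast
        exact this
    exact ⟨hQ1 _ x hQ, hQ2 _ x (hsubΛ d Λ' 0 T ω A hx) hQ⟩
  obtain ⟨x, hx⟩ := hne'
  have hx' : x ∈ fold (run Λ' 0 T ω A) (word Λ' (0 + (T : ℤ)) ω) := (Finset.mem_inter.1 hx).1
  rw [hlast] at hx'
  simp at hx'

end Pool.Agent.Lib.MP_c12170_pr
end

section
/-!
# MP_c12170_pr: module SUPER (pure combinatorics)
-/
open Finset

namespace Pool.Agent.Lib.MP_c12170_pr

namespace Sup

/-- The part of `X` above `b`. -/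
def up (X : Finset ℤ) (b : ℤ) : Finset ℤ := X.filter (b < ·)

theorem mem_up {X : Finset ℤ} {b z : ℤ} : z ∈ up X b ↔ z ∈ X ∧ b < z := by
  simp [up]

theorem up_subset (X : Finset ℤ) (b : ℤ) : up X b ⊆ X := Finset.filter_subset _ _

theorem card_up {X : Finset ℤ} {b : ℤ} (hb : b ∈ X) : (up X b).card < X.card := by
  apply Finset.card_lt_card
  refine ⟨up_subset X b, fun h => ?_⟩
  have := (mem_up.1 (h hb)).2
  exact lt_irrefl _ this

theorem up_up {X : Finset ℤ} {b b' : ℤ} (h : b < b') : up (up X b) b' = up X b' := by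
  ext z
  simp only [mem_up]
  constructor
  · rintro ⟨⟨h1, _⟩, h3⟩; exact ⟨h1, h3⟩
  · rintro ⟨h1, h3⟩; exact ⟨⟨h1, h.trans h3⟩, h3⟩

/-- Minimum (zero for the empty set). -/
noncomputable def mn (X : Finset ℤ) : ℤ := if h : X.Nonempty then X.min' h else 0

theorem mn_mem {X : Finset ℤ} (h : X.Nonempty) : mn X ∈ X := by
  rw [mn, dif_pos h]; exact X.min'_mem h

theorem mn_le {X : Finset ℤ} {b : ℤ} (hb : b ∈ X) : mn X ≤ b := by
  rw [mn, dif_pos ⟨b, hb⟩]; exact X.min'_le b hb

theorem mn_eq {X : Finset ℤ} {m : ℤ} (hm : m ∈ X) (h : ∀ b ∈ X, m ≤ b) : mn X = m :=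
  le_antisymm (mn_le hm) (h _ (mn_mem ⟨m, hm⟩))

/-- The general recursion. -/
noncomputable def rc (W : Finset ℤ → ℤ → ℝ) (X : Finset ℤ) : ℝ :=
  if X.Nonempty then ∑ b ∈ X.attach, W X b * rc W (up X b) else 1
termination_by X.card
decreasing_by exact card_up b.2

theorem rc_empty (W : Finset ℤ → ℤ → ℝ) : rc W ∅ = 1 := by
  rw [rc]; simp

theorem rc_step (W : Finset ℤ → ℤ → ℝ) {X : Finset ℤ} (h : X.Nonempty) :
    rc W X = ∑ b ∈ X, W X b * rc W (up X b) := by
  rw [rc, if_pos h, ← Finset.sum_attach X (fun b => W X b * rc W (up X b))]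

theorem ind {Q : Finset ℤ → Prop} (h0 : Q ∅)
    (h1 : ∀ X : Finset ℤ, X.Nonempty → (∀ b ∈ X, Q (up X b)) → Q X) (X : Finset ℤ) : Q X := by
  induction hn : X.card using Nat.strong_induction_on generalizing X with
  | _ n ih =>
    rcases X.eq_empty_or_nonempty with h | h
    · rw [h]; exact h0
    · exact h1 X h fun b hb => ih _ (hn ▸ card_up hb) _ rfl

theorem rc_nonneg (W : Finset ℤ → ℤ → ℝ) (hW : ∀ X, ∀ b ∈ X, 0 ≤ W X b) (X : Finset ℤ) :
    0 ≤ rc W X := by
  induction X using ind with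
  | h0 => rw [rc_empty]; exact zero_le_one
  | h1 X h ih =>
    rw [rc_step W h]
    exact Finset.sum_nonneg fun b hb => mul_nonneg (hW X b hb) (ih b hb)

/-- The weights. -/
noncomputable def ps (m : ℕ) : ℝ := 1 / 64 * (1 / 4) ^ m / ((m : ℝ) + 1) ^ 2

theorem ps_pos (m : ℕ) : 0 < ps m := by unfold ps; positivity

theorem sum_sq (m : ℕ) : ∑ a ∈ range m, 1 / ((a : ℝ) + 1) ^ 2 ≤ 2 := by
  have key : ∀ n : ℕ, ∑ a ∈ range (n + 1), 1 / ((a : ℝ) + 1) ^ 2 ≤ 2 - 1 / ((n : ℝ) + 1) := by
    intro n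
    induction n with
    | zero => norm_num
    | succ n ih =>
      rw [Finset.sum_range_succ]
      have h1 : (0 : ℝ) < (n : ℝ) + 1 := by positivity
      have h2 : 1 / (((n + 1 : ℕ) : ℝ) + 1) ^ 2 ≤ 1 / ((n : ℝ) + 1) - 1 / (((n + 1 : ℕ) : ℝ) + 1) := by
        push_cast
        rw [div_sub_div _ _ h1.ne' (by positivity), div_le_div_iff₀ (by positivity) (by positivity)]
        nlinarith
      linarith
  cases m with
  | zero => simp
  | succ n =>
    have := key n
    have h1 : (0 : ℝ) < 1 / ((n : ℝ) + 1) := by positivity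
    linarith

theorem conv (m : ℕ) : ∑ a ∈ range m, 2 * ps a * ps (m - 1 - a) ≤ ps m := by
  have hM : (0 : ℝ) < (m : ℝ) + 1 := by positivity
  have h1 : ∀ a ∈ range m, 2 * ps a * ps (m - 1 - a) ≤
      (1 / 64) ^ 2 * (1 / 4) ^ m * 4 * (4 / ((m : ℝ) + 1) ^ 2) *
        (1 / ((a : ℝ) + 1) ^ 2 + 1 / (((m - 1 - a : ℕ) : ℝ) + 1) ^ 2) := by
    intro a ha
    have ham : a < m := Finset.mem_range.1 ha
    obtain ⟨k, rfl⟩ : ∃ k, m = a + 1 + k := ⟨m - a - 1, by omega⟩
    have e : a + 1 + k - 1 - a = k := by omega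
    rw [e]
    unfold ps
    have e2 : (1 / 4 : ℝ) ^ (a + 1 + k) = (1 / 4) ^ a * (1 / 4) ^ k * (1 / 4) := by ring
    rw [e2]
    push_cast
    set x : ℝ := (a : ℝ) + 1 with hx
    set y : ℝ := (k : ℝ) + 1 with hy
    have hxy : (a : ℝ) + 1 + k + 1 = x + y := by rw [hx, hy]; ring
    rw [hxy]
    have hx0 : 0 < x := by positivity
    have hy0 : 0 < y := by positivity
    have key : 2 * (1 / (x ^ 2 * y ^ 2)) ≤ 4 / (x + y) ^ 2 * (1 / x ^ 2 + 1 / y ^ 2) := by
      have : 4 / (x + y) ^ 2 * (1 / x ^ 2 + 1 / y ^ 2) =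
          4 * (x ^ 2 + y ^ 2) / ((x + y) ^ 2 * (x ^ 2 * y ^ 2)) := by
        field_simp; ring
      rw [this, mul_one_div, div_le_div_iff₀ (by positivity) (by positivity)]
      have : 0 ≤ (x - y) ^ 2 * (x ^ 2 * y ^ 2) := by positivity
      nlinarith
    have hp : 0 ≤ (1 / 64 : ℝ) ^ 2 * ((1 / 4) ^ a * (1 / 4) ^ k) := by positivity
    have := mul_le_mul_of_nonneg_left key hp
    calc _ = (1 / 64 : ℝ) ^ 2 * ((1 / 4) ^ a * (1 / 4) ^ k) * (2 * (1 / (x ^ 2 * y ^ 2))) := by
          field_simp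
      _ ≤ _ := this
      _ = _ := by ring
  refine (Finset.sum_le_sum h1).trans ?_
  rw [← Finset.mul_sum, Finset.sum_add_distrib]
  have h2 : ∑ a ∈ range m, 1 / (((m - 1 - a : ℕ) : ℝ) + 1) ^ 2 =
      ∑ a ∈ range m, 1 / ((a : ℝ) + 1) ^ 2 :=
    Finset.sum_range_reflect (fun a : ℕ => 1 / ((a : ℝ) + 1) ^ 2) m
  rw [h2]
  have h3 := sum_sq m
  have hp : 0 ≤ (1 / 64 : ℝ) ^ 2 * (1 / 4) ^ m * 4 * (4 / ((m : ℝ) + 1) ^ 2) := by positivity
  refine (mul_le_mul_of_nonneg_left (add_le_add h3 h3) hp).trans ?_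
  unfold ps
  have : (1 / 64 : ℝ) ^ 2 * (1 / 4) ^ m * 4 * (4 / ((m : ℝ) + 1) ^ 2) * (2 + 2) =
      1 / 64 * (1 / 4) ^ m / ((m : ℝ) + 1) ^ 2 := by
    field_simp; norm_num
  rw [this]

/-- `φ`. -/
noncomputable def ph : Finset ℤ → ℝ := rc fun X b => ps (b - mn X).toNat

/-- `γ`. -/
noncomputable def gm : Finset ℤ → ℝ :=
  rc fun X b => if b + 1 ∈ X then 0 else 2 * ps (b - mn X).toNat

/-- `φ₂`. -/
noncomputable def ph2 : Finset ℤ → ℝ := rc fun X b => 2 * ps ((b - mn X).toNat + 2)

/-- `G`. -/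
noncomputable def GG (Y : Finset ℤ) : Finset ℤ → ℝ :=
  rc fun X b => (if b = mn X ∧ b ∉ Y then 1 else 0) + 2 * ps ((b - mn X).toNat + 2)

/-- `H`. -/
noncomputable def HH (q : ℝ) : Finset ℤ → ℝ :=
  rc fun X b => (if b = mn X then q else 0) + 2 * ps ((b - mn X).toNat + 2)

theorem ph_nonneg (X : Finset ℤ) : 0 ≤ ph X := rc_nonneg _ (fun _ _ _ => (ps_pos _).le) X

theorem gm_nonneg (X : Finset ℤ) : 0 ≤ gm X := rc_nonneg _ (fun X b _ => by
  have := ps_pos (b - mn X).toNat
  split_ifs <;> positivity) X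

theorem ph2_nonneg (X : Finset ℤ) : 0 ≤ ph2 X := rc_nonneg _ (fun X b _ => by
  have := ps_pos ((b - mn X).toNat + 2)
  positivity) X

theorem GG_nonneg (Y X : Finset ℤ) : 0 ≤ GG Y X := rc_nonneg _ (fun X b _ => by
  have := ps_pos ((b - mn X).toNat + 2)
  split_ifs <;> positivity) X

theorem HH_nonneg {q : ℝ} (hq : 0 ≤ q) (X : Finset ℤ) : 0 ≤ HH q X := rc_nonneg _ (fun X b _ => by
  have := ps_pos ((b - mn X).toNat + 2)
  split_ifs <;> positivity) X

theorem ph_step {X : Finset ℤ} (h : X.Nonempty) :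
    ph X = ∑ b ∈ X, ps (b - mn X).toNat * ph (up X b) := rc_step _ h

theorem gm_step {X : Finset ℤ} (h : X.Nonempty) :
    gm X = ∑ b ∈ X, (if b + 1 ∈ X then 0 else 2 * ps (b - mn X).toNat) * gm (up X b) :=
  rc_step _ h

theorem ph2_step {X : Finset ℤ} (h : X.Nonempty) :
    ph2 X = ∑ b ∈ X, 2 * ps ((b - mn X).toNat + 2) * ph2 (up X b) := rc_step _ h

theorem GG_step (Y : Finset ℤ) {X : Finset ℤ} (h : X.Nonempty) :
    GG Y X = (if mn X ∈ Y then 0 else 1) * GG Y (up X (mn X)) +
      ∑ b ∈ X, 2 * ps ((b - mn X).toNat + 2) * GG Y (up X b) := by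
  rw [GG, rc_step _ h]
  simp_rw [add_mul]
  rw [Finset.sum_add_distrib]
  congr 1
  rw [Finset.sum_eq_single (mn X)]
  · by_cases h1 : mn X ∈ Y <;> simp [h1]
  · intro b _ hb
    simp [hb]
  · intro h1; exact absurd (mn_mem h) h1

theorem HH_step (q : ℝ) {X : Finset ℤ} (h : X.Nonempty) :
    HH q X = q * HH q (up X (mn X)) +
      ∑ b ∈ X, 2 * ps ((b - mn X).toNat + 2) * HH q (up X b) := by
  rw [HH, rc_step _ h]
  simp_rw [add_mul]
  rw [Finset.sum_add_distrib]
  congr 1
  rw [Finset.sum_eq_single (mn X)]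
  · simp
  · intro b _ hb
    simp [hb]
  · intro h1; exact absurd (mn_mem h) h1

/-- (a) -/
theorem ph_le_gm (X : Finset ℤ) : ph X ≤ gm X := by
  induction X using ind with
  | h0 => rw [ph, gm, rc_empty, rc_empty]
  | h1 X h ih =>
    have e1 : ph X ≤ ∑ b ∈ X, ps (b - mn X).toNat * gm (up X b) := by
      rw [ph_step h]
      exact Finset.sum_le_sum fun b hb => mul_le_mul_of_nonneg_left (ih b hb) (ps_pos _).le
    refine e1.trans ?_
    have e2 : ∀ b ∈ X, b + 1 ∈ X → gm (up X b) =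
        ∑ b' ∈ X, (if b' + 1 ∈ X then 0 else if b < b' then
          2 * ps (b' - b - 1).toNat * gm (up X b') else 0) := by
      intro b hb hb1
      have hne : (up X b).Nonempty := ⟨b + 1, mem_up.2 ⟨hb1, by omega⟩⟩
      have hmn : mn (up X b) = b + 1 := mn_eq (mem_up.2 ⟨hb1, by omega⟩) fun z hz => by
        have := (mem_up.1 hz).2; omega
      rw [gm_step hne, hmn]
      have hsub := up_subset X b
      rw [← Finset.sum_subset hsub]
      · refine Finset.sum_congr rfl fun z hz => ?_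
        have hz2 := (mem_up.1 hz).2
        have hiff : z + 1 ∈ up X b ↔ z + 1 ∈ X := by
          rw [mem_up]; constructor
          · exact fun h => h.1
          · exact fun h => ⟨h, by omega⟩
        by_cases hzz : z + 1 ∈ X
        · rw [if_pos (hiff.2 hzz), if_pos hzz, zero_mul]
        · rw [if_neg (fun h => hzz (hiff.1 h)), if_neg hzz, if_pos hz2, up_up hz2]
          have : z - (b + 1) = z - b - 1 := by ring
          rw [this]
      · intro z hz hz2
        have : ¬ b < z := fun h => hz2 (mem_up.2 ⟨hz, h⟩)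
        rw [if_neg this]
        split_ifs <;> rfl
    rw [gm_step h]
    have e3 : ∑ b ∈ X, ps (b - mn X).toNat * gm (up X b) ≤
        ∑ b ∈ X, ((if b + 1 ∈ X then 0 else ps (b - mn X).toNat * gm (up X b)) +
          ∑ b' ∈ X, (if b' + 1 ∈ X then 0 else if b < b' then
            2 * ps (b - mn X).toNat * ps (b' - b - 1).toNat * gm (up X b') else 0)) := by
      refine Finset.sum_le_sum fun b hb => ?_
      by_cases hb1 : b + 1 ∈ X
      · rw [if_pos hb1, zero_add, e2 b hb hb1, Finset.mul_sum]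
        refine le_of_eq (Finset.sum_congr rfl fun z _ => ?_)
        split_ifs <;> ring
      · rw [if_neg hb1]
        refine le_add_of_nonneg_right (Finset.sum_nonneg fun z _ => ?_)
        have h1 := ps_pos (b - mn X).toNat
        have h2 := ps_pos (z - b - 1).toNat
        have h3 := gm_nonneg (up X z)
        split_ifs
        · exact le_rfl
        · positivity
        · exact le_rfl
    refine e3.trans ?_
    rw [Finset.sum_add_distrib, Finset.sum_comm (s := X) (t := X), ← Finset.sum_add_distrib]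
    refine Finset.sum_le_sum fun b' hb' => ?_
    by_cases hb1 : b' + 1 ∈ X
    · simp [hb1]
    · simp only [hb1, if_false]
      have h0 := mn_le hb'
      obtain ⟨m, hm⟩ : ∃ m : ℕ, b' = mn X + m := ⟨(b' - mn X).toNat, by omega⟩
      have hm1 : (b' - mn X).toNat = m := by omega
      rw [hm1]
      have h3 := gm_nonneg (up X b')
      have e4 : ∑ b ∈ X, (if b < b' then
            2 * ps (b - mn X).toNat * ps (b' - b - 1).toNat * gm (up X b') else 0) ≤
          (∑ a ∈ range m, 2 * ps a * ps (m - 1 - a)) * gm (up X b') := by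
        rw [← Finset.sum_filter, Finset.sum_mul]
        refine le_trans (le_of_eq ?_) (Finset.sum_le_sum_of_subset_of_nonneg
          (s := (X.filter (· < b')).image (fun b => (b - mn X).toNat)) (t := range m)
          (f := fun a => 2 * ps a * ps (m - 1 - a) * gm (up X b')) ?_ ?_)
        · rw [Finset.sum_image]
          · refine Finset.sum_congr rfl fun b hb => ?_
            have hb2 := Finset.mem_filter.1 hb
            have h4 := mn_le hb2.1
            have h5 := hb2.2
            have : (b' - b - 1).toNat = m - 1 - (b - mn X).toNat := by omega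
            rw [this]
          · intro b hb c hc hbc
            have hb2 := mn_le (Finset.mem_filter.1 hb).1
            have hc2 := mn_le (Finset.mem_filter.1 hc).1
            simp only at hbc
            omega
        · intro a ha
          obtain ⟨b, hb, rfl⟩ := Finset.mem_image.1 ha
          have hb2 := Finset.mem_filter.1 hb
          have h4 := mn_le hb2.1
          have h5 := hb2.2
          rw [Finset.mem_range]
          omega
        · intro a _ _
          have h1 := ps_pos a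
          have h2 := ps_pos (m - 1 - a)
          positivity
      have e5 := mul_le_mul_of_nonneg_right (conv m) h3
      calc _ ≤ ps m * gm (up X b') + ps m * gm (up X b') := by
            exact add_le_add le_rfl (e4.trans e5)
        _ = _ := by ring

theorem mem_plus {Y : Finset ℤ} {z : ℤ} : z ∈ plus Y ↔ z + 1 ∈ Y ∨ z ∈ Y ∨ z - 1 ∈ Y := by
  simp only [plus, Finset.mem_union, Finset.mem_image]
  constructor
  · rintro ((⟨a, ha, rfl⟩ | h) | ⟨a, ha, rfl⟩)
    · left; simpa using ha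
    · right; left; exact h
    · right; right; simpa using ha
  · rintro (h | h | h)
    · exact Or.inl (Or.inl ⟨z + 1, h, by ring⟩)
    · exact Or.inl (Or.inr h)
    · exact Or.inr ⟨z - 1, h, by ring⟩

/-- (b) -/
theorem gm_plus (Y : Finset ℤ) : gm (plus Y) ≤ ph2 Y := by
  induction Y using ind with
  | h0 =>
    have : plus (∅ : Finset ℤ) = ∅ := by simp [plus]
    rw [this, gm, ph2, rc_empty, rc_empty]
  | h1 Y h ih =>
    have hm := mn_mem h
    have hne : (plus Y).Nonempty := ⟨mn Y, mem_plus.2 (Or.inr (Or.inl hm))⟩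
    have hmn : mn (plus Y) = mn Y - 1 := by
      refine mn_eq (mem_plus.2 (Or.inl (by simpa using hm))) fun z hz => ?_
      rcases mem_plus.1 hz with h1 | h1 | h1
      · have := mn_le h1; omega
      · have := mn_le h1; omega
      · have := mn_le h1; omega
    rw [gm_step hne, ph2_step h, hmn]
    have e1 : ∑ b ∈ plus Y, (if b + 1 ∈ plus Y then 0 else
          2 * ps (b - (mn Y - 1)).toNat) * gm (up (plus Y) b) =
        ∑ b ∈ (plus Y).filter (fun b => ¬ b + 1 ∈ plus Y),
          2 * ps (b - (mn Y - 1)).toNat * gm (up (plus Y) b) := by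
      rw [Finset.sum_filter]
      refine Finset.sum_congr rfl fun b _ => ?_
      split_ifs <;> simp
    rw [e1]
    have key : ∀ b ∈ (plus Y).filter (fun b => ¬ b + 1 ∈ plus Y), b - 1 ∈ Y ∧
        up (plus Y) b = plus (up Y (b - 1)) := by
      intro b hb
      obtain ⟨hb1, hb2⟩ := Finset.mem_filter.1 hb
      have n1 : b ∉ Y := fun h1 => hb2 (mem_plus.2 (Or.inr (Or.inr (by simpa using h1))))
      have n2 : b + 1 ∉ Y := fun h1 => hb2 (mem_plus.2 (Or.inr (Or.inl h1)))
      have hY : b - 1 ∈ Y := by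
        rcases mem_plus.1 hb1 with h1 | h1 | h1
        · exact absurd h1 n2
        · exact absurd h1 n1
        · exact h1
      refine ⟨hY, ?_⟩
      ext z
      rw [mem_up, mem_plus, mem_plus]
      simp only [mem_up]
      constructor
      · rintro ⟨h1 | h1 | h1, h2⟩
        · exact Or.inl ⟨h1, by omega⟩
        · exact Or.inr (Or.inl ⟨h1, by omega⟩)
        · exact Or.inr (Or.inr ⟨h1, by omega⟩)
      · rintro (⟨h1, h2⟩ | ⟨h1, h2⟩ | ⟨h1, h2⟩)
        · refine ⟨Or.inl h1, ?_⟩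
          have a1 : z + 1 ≠ b := fun h3 => n1 (h3 ▸ h1)
          have a2 : z + 1 ≠ b + 1 := fun h3 => n2 (h3 ▸ h1)
          omega
        · refine ⟨Or.inr (Or.inl h1), ?_⟩
          have a1 : z ≠ b := fun h3 => n1 (h3 ▸ h1)
          omega
        · exact ⟨Or.inr (Or.inr h1), by omega⟩
    have e2 : ∑ b ∈ (plus Y).filter (fun b => ¬ b + 1 ∈ plus Y),
          2 * ps (b - (mn Y - 1)).toNat * gm (up (plus Y) b) ≤
        ∑ b ∈ (plus Y).filter (fun b => ¬ b + 1 ∈ plus Y),
          2 * ps ((b - 1 - mn Y).toNat + 2) * ph2 (up Y (b - 1)) := by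
      refine Finset.sum_le_sum fun b hb => ?_
      obtain ⟨h1, h2⟩ := key b hb
      have h3 := mn_le h1
      have h4 : (b - (mn Y - 1)).toNat = (b - 1 - mn Y).toNat + 2 := by omega
      rw [h2, h4]
      exact mul_le_mul_of_nonneg_left (ih _ h1) (by have := ps_pos ((b - 1 - mn Y).toNat + 2); positivity)
    refine e2.trans ?_
    refine le_trans (le_of_eq ?_) (Finset.sum_le_sum_of_subset_of_nonneg
      (s := ((plus Y).filter (fun b => ¬ b + 1 ∈ plus Y)).image (· - 1)) (t := Y)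
      (f := fun b => 2 * ps ((b - mn Y).toNat + 2) * ph2 (up Y b)) ?_ ?_)
    · rw [Finset.sum_image]
      intro a _ c _ hac
      simpa using hac
    · intro a ha
      obtain ⟨b, hb, rfl⟩ := Finset.mem_image.1 ha
      exact (key b hb).1
    · intro a _ _
      have h1 := ps_pos ((a - mn Y).toNat + 2)
      have h2 := ph2_nonneg (up Y a)
      positivity

/-- (c) -/
theorem ph2_le_GG (Y X : Finset ℤ) : ph2 (Y ∩ X) ≤ GG Y X := by
  induction X using ind with
  | h0 => rw [Finset.inter_empty, ph2, GG, rc_empty, rc_empty]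
  | h1 X h ih =>
    have hm := mn_mem h
    have hnn : 0 ≤ ∑ b ∈ X, 2 * ps ((b - mn X).toNat + 2) * GG Y (up X b) :=
      Finset.sum_nonneg fun b _ => by
        have h1 := ps_pos ((b - mn X).toNat + 2)
        have h2 := GG_nonneg Y (up X b)
        positivity
    rw [GG_step Y h]
    by_cases hY : mn X ∈ Y
    · rw [if_pos hY, zero_mul, zero_add]
      have hne : (Y ∩ X).Nonempty := ⟨mn X, Finset.mem_inter.2 ⟨hY, hm⟩⟩
      have hmn : mn (Y ∩ X) = mn X := mn_eq (Finset.mem_inter.2 ⟨hY, hm⟩) fun z hz =>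
        mn_le (Finset.mem_inter.1 hz).2
      rw [ph2_step hne, hmn]
      have e1 : ∑ b ∈ Y ∩ X, 2 * ps ((b - mn X).toNat + 2) * ph2 (up (Y ∩ X) b) ≤
          ∑ b ∈ Y ∩ X, 2 * ps ((b - mn X).toNat + 2) * GG Y (up X b) := by
        refine Finset.sum_le_sum fun b hb => ?_
        have : up (Y ∩ X) b = Y ∩ up X b := by
          ext z; simp only [mem_up, Finset.mem_inter]; tauto
        rw [this]
        exact mul_le_mul_of_nonneg_left (ih b (Finset.mem_inter.1 hb).2)
          (by have := ps_pos ((b - mn X).toNat + 2); positivity)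
      refine e1.trans (Finset.sum_le_sum_of_subset_of_nonneg Finset.inter_subset_right
        fun b _ _ => ?_)
      have h1 := ps_pos ((b - mn X).toNat + 2)
      have h2 := GG_nonneg Y (up X b)
      positivity
    · rw [if_neg hY, one_mul]
      have : Y ∩ X = Y ∩ up X (mn X) := by
        ext z
        simp only [Finset.mem_inter, mem_up]
        constructor
        · rintro ⟨h1, h2⟩
          refine ⟨h1, h2, lt_of_le_of_ne (mn_le h2) ?_⟩
          rintro rfl
          exact hY h1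
        · rintro ⟨h1, h2, _⟩; exact ⟨h1, h2⟩
      rw [this]
      have := ih _ hm
      linarith

/-- (d) -/
theorem sum_GG (q : ℝ) (hq : 0 ≤ q) (X : Finset ℤ) (p : Finset ℤ → ℝ)
    (hp : ∀ B, B ⊆ X → ∑ F ∈ X.powerset.filter (B ⊆ ·), p F ≤ q ^ B.card) (X' : Finset ℤ) :
    X' ⊆ X → ∀ B, B ⊆ X → Disjoint B X' →
      ∑ F ∈ X.powerset.filter (B ⊆ ·), p F * GG (X \ F) X' ≤ q ^ B.card * HH q X' := by
  induction X' using ind with
  | h0 =>
    intro _ B hB _
    simp only [GG, HH, rc_empty, mul_one]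
    exact hp B hB
  | h1 X' h ih =>
    intro hX' B hB hd
    have hm := mn_mem h
    have e1 : ∀ F ∈ X.powerset.filter (B ⊆ ·), p F * GG (X \ F) X' =
        (if mn X' ∈ F then p F * GG (X \ F) (up X' (mn X')) else 0) +
          ∑ b ∈ X', 2 * ps ((b - mn X').toNat + 2) * (p F * GG (X \ F) (up X' b)) := by
      intro F _
      rw [GG_step _ h, mul_add, Finset.mul_sum]
      congr 1
      · have : mn X' ∈ X \ F ↔ ¬ mn X' ∈ F := by
          rw [Finset.mem_sdiff]
          exact ⟨fun h => h.2, fun h => ⟨hX' hm, h⟩⟩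
        by_cases h1 : mn X' ∈ F
        · rw [if_neg (fun h2 => this.1 h2 h1), if_pos h1, one_mul]
        · rw [if_pos (this.2 h1), if_neg h1]; ring
      · refine Finset.sum_congr rfl fun b _ => ?_
        ring
    rw [Finset.sum_congr rfl e1, Finset.sum_add_distrib, ← Finset.sum_filter, Finset.filter_filter]
    have e2 : X.powerset.filter (fun F => B ⊆ F ∧ mn X' ∈ F) =
        X.powerset.filter (insert (mn X') B ⊆ ·) := by
      ext F
      simp only [Finset.mem_filter, Finset.insert_subset_iff]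
      tauto
    rw [e2]
    have hmB : mn X' ∉ B := fun h1 => Finset.disjoint_left.1 hd h1 hm
    have e3 := ih _ hm ((up_subset _ _).trans hX') (insert (mn X') B)
      (Finset.insert_subset (hX' hm) hB) (by
        rw [Finset.disjoint_insert_left]
        exact ⟨fun h1 => lt_irrefl _ (mem_up.1 h1).2, hd.mono_right (up_subset _ _)⟩)
    rw [Finset.card_insert_of_notMem hmB] at e3
    rw [Finset.sum_comm]
    have e4 : ∑ b ∈ X', ∑ F ∈ X.powerset.filter (B ⊆ ·),
          2 * ps ((b - mn X').toNat + 2) * (p F * GG (X \ F) (up X' b)) ≤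
        ∑ b ∈ X', 2 * ps ((b - mn X').toNat + 2) * (q ^ B.card * HH q (up X' b)) := by
      refine Finset.sum_le_sum fun b hb => ?_
      rw [← Finset.mul_sum]
      refine mul_le_mul_of_nonneg_left (ih b hb ((up_subset _ _).trans hX') B hB
        (hd.mono_right (up_subset _ _))) ?_
      have := ps_pos ((b - mn X').toNat + 2)
      positivity
    refine (add_le_add e3 e4).trans (le_of_eq ?_)
    rw [HH_step q h, mul_add, Finset.mul_sum]
    congr 1
    · ring
    · refine Finset.sum_congr rfl fun b _ => ?_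
      ring

theorem ps2_le (k : ℕ) : 2 * ps (k + 2) ≤ 1 / 8 * ps k := by
  unfold ps
  have h1 : (0 : ℝ) < ((k : ℝ) + 1) ^ 2 := by positivity
  have h2 : ((k : ℝ) + 1) ^ 2 ≤ (((k + 2 : ℕ) : ℝ) + 1) ^ 2 := by
    push_cast
    have : (0 : ℝ) ≤ k := by positivity
    nlinarith
  have h3 : 1 / 64 * (1 / 4 : ℝ) ^ (k + 2) / (((k + 2 : ℕ) : ℝ) + 1) ^ 2 ≤
      1 / 64 * (1 / 4 : ℝ) ^ (k + 2) / ((k : ℝ) + 1) ^ 2 :=
    div_le_div_of_nonneg_left (by positivity) h1 h2
  have h4 : 1 / 8 * (1 / 64 * (1 / 4 : ℝ) ^ k / ((k : ℝ) + 1) ^ 2) =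
      2 * (1 / 64 * (1 / 4 : ℝ) ^ (k + 2) / ((k : ℝ) + 1) ^ 2) := by
    rw [pow_add]; ring
  rw [h4]
  linarith

theorem ph_up {X : Finset ℤ} (h : X.Nonempty) : 1 / 64 * ph (up X (mn X)) ≤ ph X := by
  rw [ph_step h]
  have := Finset.single_le_sum (f := fun b => ps (b - mn X).toNat * ph (up X b))
    (fun b _ => mul_nonneg (ps_pos _).le (ph_nonneg _)) (mn_mem h)
  refine le_trans (le_of_eq ?_) this
  simp [ps]

/-- (e) -/
theorem HH_step_le {q : ℝ} (hq : 0 ≤ q) (hq1 : q ≤ 1 / 512) {X : Finset ℤ} (h : X.Nonempty)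
    (ih : ∀ b ∈ X, HH q (up X b) ≤ ph (up X b)) : HH q X ≤ 1 / 4 * ph X := by
  rw [HH_step q h]
  have h1 : q * HH q (up X (mn X)) ≤ 1 / 8 * ph X := by
    have a1 := ih _ (mn_mem h)
    have a2 := ph_up h
    have a3 := ph_nonneg (up X (mn X))
    have a4 := HH_nonneg hq (up X (mn X))
    nlinarith
  have h2 : ∑ b ∈ X, 2 * ps ((b - mn X).toNat + 2) * HH q (up X b) ≤ 1 / 8 * ph X := by
    rw [ph_step h, Finset.mul_sum]
    refine Finset.sum_le_sum fun b hb => ?_
    have a1 := ps2_le (b - mn X).toNat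
    have a2 := ih b hb
    have a3 := ph_nonneg (up X b)
    have a4 := HH_nonneg hq (up X b)
    have a5 := ps_pos (b - mn X).toNat
    calc _ ≤ (1 / 8 * ps (b - mn X).toNat) * HH q (up X b) :=
          mul_le_mul_of_nonneg_right a1 a4
      _ ≤ (1 / 8 * ps (b - mn X).toNat) * ph (up X b) :=
          mul_le_mul_of_nonneg_left a2 (by positivity)
      _ = _ := by ring
  linarith

theorem HH_le {q : ℝ} (hq : 0 ≤ q) (hq1 : q ≤ 1 / 512) (X : Finset ℤ) : HH q X ≤ ph X := by
  induction X using ind with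
  | h0 => rw [HH, ph, rc_empty, rc_empty]
  | h1 X h ih =>
    have := HH_step_le hq hq1 h ih
    have := ph_nonneg X
    linarith

/-- (f) -/
theorem pow_le_ph (X : Finset ℤ) : (1 / 64 : ℝ) ^ X.card ≤ ph X := by
  induction X using ind with
  | h0 => rw [ph, rc_empty]; simp
  | h1 X h ih =>
    have h1 := ih _ (mn_mem h)
    have h2 := ph_up h
    have hc : X.card = (up X (mn X)).card + 1 := by
      have : X = insert (mn X) (up X (mn X)) := by
        ext z
        simp only [Finset.mem_insert, mem_up]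
        constructor
        · intro hz
          rcases (mn_le hz).eq_or_lt with h3 | h3
          · exact Or.inl h3.symm
          · exact Or.inr ⟨hz, h3⟩
        · rintro (h3 | h3)
          · rw [h3]; exact mn_mem h
          · exact h3.1
      conv_lhs => rw [this]
      rw [Finset.card_insert_of_notMem]
      exact fun h3 => lt_irrefl _ (mem_up.1 h3).2
    rw [hc, pow_succ]
    linarith

end Sup

open Sup in
theorem super_holds : SUPER_spec := by
  refine ⟨ph, 1 / 512, by norm_num, by norm_num, ph_nonneg, fun i => ?_, ?_⟩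
  · have h : ({i} : Finset ℤ).Nonempty := Finset.singleton_nonempty i
    rw [ph_step h, Finset.sum_singleton]
    have hu : up {i} i = ∅ := by
      ext z; simp only [mem_up, Finset.mem_singleton, Finset.notMem_empty, iff_false]
      rintro ⟨rfl, h2⟩; exact lt_irrefl _ h2
    have hm : mn ({i} : Finset ℤ) = i := mn_eq (Finset.mem_singleton_self i) (by simp)
    rw [hu, hm, sub_self, ph, rc_empty]
    norm_num [ps]
  · intro q hq0 hq1 X hX p hp0 hp
    constructor
    · have h1 : ∑ F ∈ X.powerset.erase X, p F * ph (plus (X \ F)) ≤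
          ∑ F ∈ X.powerset, p F * ph (plus (X \ F)) :=
        Finset.sum_le_sum_of_subset_of_nonneg (Finset.erase_subset _ _)
          fun F _ _ => mul_nonneg (hp0 F) (ph_nonneg _)
      have h2 : ∑ F ∈ X.powerset, p F * ph (plus (X \ F)) ≤
          ∑ F ∈ X.powerset, p F * GG (X \ F) X := by
        refine Finset.sum_le_sum fun F _ => mul_le_mul_of_nonneg_left ?_ (hp0 F)
        have h3 := ph2_le_GG (X \ F) X
        rw [Finset.inter_eq_left.2 Finset.sdiff_subset] at h3
        exact ((ph_le_gm _).trans (gm_plus _)).trans h3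
      have h3 := sum_GG q hq0 X p hp X (Finset.Subset.refl X) ∅ (Finset.empty_subset _)
        (Finset.disjoint_empty_left _)
      have h4 : X.powerset.filter ((∅ : Finset ℤ) ⊆ ·) = X.powerset := by
        ext F; simp
      rw [h4, Finset.card_empty, pow_zero, one_mul] at h3
      have h5 := HH_step_le hq0 hq1 hX fun b _ => HH_le hq0 hq1 (up X b)
      linarith
    · have h1 := hp X (Finset.Subset.refl X)
      have h2 : X.powerset.filter (X ⊆ ·) = {X} := by
        ext F
        simp only [Finset.mem_filter, Finset.mem_powerset, Finset.mem_singleton]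
        constructor
        · rintro ⟨a, b⟩; exact Finset.Subset.antisymm a b
        · rintro rfl; exact ⟨Finset.Subset.refl _, Finset.Subset.refl _⟩
      rw [h2, Finset.sum_singleton] at h1
      have h3 := pow_le_ph X
      obtain ⟨n, hn⟩ : ∃ n, X.card = n + 1 := ⟨X.card - 1, by have := hX.card_pos; omega⟩
      rw [hn] at h1 h3
      have h4 : q ^ (n + 1) ≤ (1 / 512) ^ (n + 1) := pow_le_pow_left₀ hq0 hq1 _
      have h5 : (1 / 512 : ℝ) ^ (n + 1) ≤ 1 / 8 * (1 / 64) ^ (n + 1) := by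
        have e : (1 / 512 : ℝ) = 1 / 8 * (1 / 64) := by norm_num
        rw [e, mul_pow]
        refine mul_le_mul_of_nonneg_right ?_ (by positivity)
        exact pow_le_of_le_one (by norm_num) (by norm_num) (Nat.succ_ne_zero n)
      linarith

end Pool.Agent.Lib.MP_c12170_pr
end

section
/-! MP_c12170_pr, module TAIL (helper90): exponential bound for the finite extinction times. -/
set_option autoImplicit false

open MeasureTheory ProbabilityTheory Filter Topology
open scoped ENNReal NNReal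

namespace Pool.Agent.Lib.MP_c12170_pr
namespace Tail

variable {d : ℕ}

/-- sets which contain a full box in every window of `X` -/
def Acl (n ℓ : ℕ) (X : Finset ℤ) (A : Finset (Site d)) : Prop :=
  ∀ i ∈ X, ∃ z ∈ win (d := d) ℓ i, bx z n ⊆ A

lemma mem_bx (z : Site d) (n : ℕ) : z ∈ bx z n := by
  unfold bx
  rw [Finset.mem_Icc]
  constructor
  · intro j
    show z j - (n : ℤ) ≤ z j
    omega
  · intro j
    show z j ≤ z j + (n : ℤ)
    omega

lemma measurableSet_alive (hI : IND_spec) (hR : RUN_spec) (s : ℤ) (m : ℕ)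
    (A : Finset (Site d)) : MeasurableSet {ω : Om d | alive s m ω A} := by
  have : {ω : Om d | alive s m ω A} =
      ⋃ Λ : Finset (Site d), (fun ω => run Λ s m ω A) ⁻¹' {B | B.Nonempty} := by
    ext ω
    simp [alive]
  rw [this]
  refine MeasurableSet.iUnion fun Λ => ?_
  have h := (hR.2.2.2.2.1 d Λ s m A).mono (hI.2.1 d _) le_rfl
  exact h MeasurableSet.of_discrete

lemma svdiff (hI : IND_spec) (hR : RUN_spec) (hSV : SV_spec) (lam : ℝ≥0)
    (A : Finset (Site d)) {j m : ℕ} (hjm : j ≤ m) :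
    sv lam A j - sv lam A m =
      (P lam).real {ω : Om d | alive 0 j ω A ∧ ¬ alive 0 m ω A} := by
  have := hI.1 d lam
  have e : {ω : Om d | alive 0 j ω A ∧ ¬ alive 0 m ω A} =
      {ω : Om d | alive 0 j ω A} \ {ω : Om d | alive 0 m ω A} := rfl
  have hsub : {ω : Om d | alive 0 m ω A} ⊆ {ω : Om d | alive 0 j ω A} :=
    fun ω hω => hSV.2.2.2.2.2.2.2.2 d 0 j m ω A hjm hω
  rw [e, measureReal_sdiff hsub (measurableSet_alive hI hR 0 m A)]
  rfl

/-- partition according to a random finite subset of `X` -/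
lemma partition (μ : Measure (Om d)) [IsProbabilityMeasure μ] (X : Finset ℤ)
    (Fω : Om d → Finset ℤ) (hF : ∀ ω, Fω ω ⊆ X) (hm : ∀ F, MeasurableSet {ω | Fω ω = F})
    (S : Set (Om d)) (hS : MeasurableSet S) :
    μ.real S = ∑ F ∈ X.powerset, μ.real ({ω | Fω ω = F} ∩ S) := by
  rw [← measureReal_biUnion_finset]
  · congr 1
    ext ω
    simp only [Set.mem_iUnion, Set.mem_inter_iff, Set.mem_ofPred_eq, Finset.mem_powerset,
      exists_prop]
    constructor
    · intro h
      exact ⟨Fω ω, hF ω, rfl, h⟩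
    · rintro ⟨F, _, _, h⟩
      exact h
  · intro F _ F' _ hne
    rw [Function.onFun, Set.disjoint_left]
    rintro ω ⟨h1, _⟩ ⟨h2, _⟩
    exact hne (h1.symm.trans h2)
  · intro F _
    exact (hm F).inter hS

lemma measurable_good (hR : RUN_spec) (n ℓ H : ℕ) (i : ℤ) (z : Site d) :
    MeasurableSet[Fs {p : Site d × ℤ | p.1 ∈ reg ℓ i ∧ 0 ≤ p.2 ∧ p.2 < 0 + H}]
      {ω : Om d | BlockGood n ℓ H i z ω} := by
  have h := hR.2.2.2.2.1 d (reg ℓ i) 0 H (bx z n)
  exact h (MeasurableSet.of_discrete (s := {B : Finset (Site d) | ∀ i' : ℤ, |i' - i| ≤ 1 →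
    ∃ z' ∈ win (d := d) ℓ i', bx z' n ⊆ B}))

lemma reg_disj {ℓ : ℕ} (hℓ : 0 < ℓ) {i i' : ℤ} (h : i + 4 ≤ i') (x : Site d)
    (hx : x ∈ reg ℓ i) (hx' : x ∈ reg ℓ i') : False := by
  unfold reg at hx hx'
  rw [Finset.mem_Icc] at hx hx'
  have h1 := hx.2 0
  have h2 := hx'.1 0
  simp only [if_true] at h1 h2
  have hℓ' : (0 : ℤ) < ℓ := by exact_mod_cast hℓ
  nlinarith

lemma exists_class (B : Finset ℤ) : ∃ r : ℤ, B.card ≤ 4 * (B.filter fun i => i % 4 = r).card := by
  by_contra hcon
  push Not at hcon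
  have h1 : B.card = ∑ r ∈ (Finset.Ico (0:ℤ) 4), (B.filter fun i => i % 4 = r).card := by
    refine Finset.card_eq_sum_card_fiberwise fun i _ => ?_
    rw [Finset.coe_Ico, Set.mem_Ico]
    exact ⟨Int.emod_nonneg _ (by norm_num), Int.emod_lt_of_pos _ (by norm_num)⟩
  have e : Finset.Ico (0:ℤ) 4 = {0, 1, 2, 3} := by decide
  rw [e, Finset.sum_insert (by decide), Finset.sum_insert (by decide),
    Finset.sum_insert (by decide), Finset.sum_singleton] at h1
  have h2 := hcon 0
  have h3 := hcon 1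
  have h4 := hcon 2
  have h5 := hcon 3
  omega

lemma blockfail (hI : IND_spec) (hR : RUN_spec) (lam : ℝ≥0) (n ℓ H : ℕ) (hℓ : 0 < ℓ) (q : ℝ)
    (hq0 : 0 ≤ q) (hq1 : q ≤ 1)
    (hb : ∀ (i : ℤ) (z : Site d), z ∈ win ℓ i →
      1 - q ^ 4 ≤ (P lam).real {ω : Om d | BlockGood n ℓ H i z ω})
    (B : Finset ℤ) (z : ℤ → Site d) (hz : ∀ i ∈ B, z i ∈ win ℓ i) :
    (P lam).real {ω : Om d | ∀ i ∈ B, ¬ BlockGood n ℓ H i (z i) ω} ≤ q ^ B.card := by
  have := hI.1 d lam
  obtain ⟨r, hr⟩ := exists_class B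
  set B' := B.filter fun i => i % 4 = r with hB'
  have hsub : B' ⊆ B := Finset.filter_subset _ _
  have h1 : (P lam).real {ω : Om d | ∀ i ∈ B, ¬ BlockGood n ℓ H i (z i) ω} ≤
      (P lam).real (⋂ i ∈ B', {ω : Om d | ¬ BlockGood n ℓ H i (z i) ω}) := by
    refine measureReal_mono fun ω hω => ?_
    simp only [Set.mem_iInter]
    intro i hi
    exact hω i (hsub hi)
  have h2 := hI.2.2.2.2 d lam ℤ B'
    (fun i => {p : Site d × ℤ | p.1 ∈ reg ℓ i ∧ 0 ≤ p.2 ∧ p.2 < 0 + (H : ℤ)})
    (fun i => {ω : Om d | ¬ BlockGood n ℓ H i (z i) ω}) (by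
      intro i hi i' hi' hne
      rw [Set.disjoint_left]
      rintro p ⟨hp, _⟩ ⟨hp', _⟩
      have hri := (Finset.mem_filter.1 hi).2
      have hri' := (Finset.mem_filter.1 hi').2
      rcases lt_or_gt_of_ne hne with hlt | hlt
      · exact reg_disj hℓ (by omega) p.1 hp hp'
      · exact reg_disj hℓ (by omega) p.1 hp' hp) (by
      intro i _
      exact (measurable_good hR n ℓ H i (z i)).compl)
  rw [h2] at h1
  refine h1.trans ?_
  have h3 : ∀ i ∈ B', (P lam).real {ω : Om d | ¬ BlockGood n ℓ H i (z i) ω} ≤ q ^ 4 := by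
    intro i hi
    have hm : MeasurableSet {ω : Om d | BlockGood n ℓ H i (z i) ω} :=
      hI.2.1 d _ _ (measurable_good hR n ℓ H i (z i))
    have h4 : (P lam).real {ω : Om d | BlockGood n ℓ H i (z i) ω}ᶜ =
        1 - (P lam).real {ω : Om d | BlockGood n ℓ H i (z i) ω} := probReal_compl_eq_one_sub hm
    have h5 := hb i (z i) (hz i (hsub hi))
    have h6 : {ω : Om d | ¬ BlockGood n ℓ H i (z i) ω} =
        {ω : Om d | BlockGood n ℓ H i (z i) ω}ᶜ := rfl
    rw [h6, h4]
    linarith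
  calc ∏ i ∈ B', (P lam).real {ω : Om d | ¬ BlockGood n ℓ H i (z i) ω}
      ≤ ∏ _i ∈ B', q ^ 4 := Finset.prod_le_prod (fun _ _ => measureReal_nonneg) h3
    _ = q ^ (4 * B'.card) := by rw [Finset.prod_const, ← pow_mul]
    _ ≤ q ^ B.card := pow_le_pow_of_le_one hq0 hq1 hr

open Classical in
/-- the failing blocks -/
noncomputable def Fset (n ℓ H : ℕ) (X : Finset ℤ) (z : ℤ → Site d) (ω : Om d) : Finset ℤ :=
  X.filter fun i => ¬ BlockGood n ℓ H i (z i) ω

open Classical in
lemma mem_Fset {n ℓ H : ℕ} {X : Finset ℤ} {z : ℤ → Site d} {ω : Om d} {i : ℤ} :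
    i ∈ Fset n ℓ H X z ω ↔ i ∈ X ∧ ¬ BlockGood n ℓ H i (z i) ω := by
  unfold Fset
  rw [Finset.mem_filter]

lemma Fset_sub {n ℓ H : ℕ} {X : Finset ℤ} {z : ℤ → Site d} {ω : Om d} :
    Fset n ℓ H X z ω ⊆ X := fun _ h => (mem_Fset.1 h).1

lemma measurable_Fset (hI : IND_spec) (hR : RUN_spec) (n ℓ H : ℕ) (X : Finset ℤ)
    (z : ℤ → Site d) (F : Finset ℤ) :
    MeasurableSet[Fs {p : Site d × ℤ | 0 ≤ p.2 ∧ p.2 < H}]
      {ω : Om d | Fset n ℓ H X z ω = F} := by
  classical
  by_cases hF : F ⊆ X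
  · have e : {ω : Om d | Fset n ℓ H X z ω = F} =
        ⋂ i ∈ X, {ω : Om d | ¬ BlockGood n ℓ H i (z i) ω ↔ i ∈ F} := by
      ext ω
      simp only [Set.mem_iInter, Set.mem_ofPred_eq]
      constructor
      · intro h i hi
        rw [← h, mem_Fset]
        simp only [hi, true_and]
      · intro h
        ext i
        rw [mem_Fset]
        constructor
        · rintro ⟨h1, h2⟩
          exact (h i h1).1 h2
        · intro h1
          exact ⟨hF h1, (h i (hF h1)).2 h1⟩
    rw [e]
    refine @Finset.measurableSet_biInter _ _ (Fs {p : Site d × ℤ | 0 ≤ p.2 ∧ p.2 < (H : ℤ)}) _ _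
      fun i _ => ?_
    have hle : Fs {p : Site d × ℤ | p.1 ∈ reg ℓ i ∧ 0 ≤ p.2 ∧ p.2 < 0 + (H : ℤ)} ≤
        Fs {p : Site d × ℤ | 0 ≤ p.2 ∧ p.2 < (H : ℤ)} := by
      refine hI.2.2.1 d _ _ fun p hp => ?_
      have h1 := hp.2.1
      have h2 := hp.2.2
      rw [zero_add] at h2
      exact ⟨h1, h2⟩
    have hg := hle _ (measurable_good hR n ℓ H i (z i))
    by_cases hi : i ∈ F
    · have e2 : {ω : Om d | ¬ BlockGood n ℓ H i (z i) ω ↔ i ∈ F} =
          {ω : Om d | BlockGood n ℓ H i (z i) ω}ᶜ := by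
        ext ω
        simp only [hi, iff_true, Set.mem_ofPred_eq, Set.mem_compl_iff]
      rw [e2]
      exact hg.compl
    · have e2 : {ω : Om d | ¬ BlockGood n ℓ H i (z i) ω ↔ i ∈ F} =
          {ω : Om d | BlockGood n ℓ H i (z i) ω} := by
        ext ω
        simp only [hi, iff_false, not_not, Set.mem_ofPred_eq]
      rw [e2]
      exact hg
  · have e : {ω : Om d | Fset n ℓ H X z ω = F} = ∅ := by
      ext ω
      simp only [Set.mem_ofPred_eq, Set.mem_empty_iff_false, iff_false]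
      intro h
      exact hF (h ▸ Fset_sub)
    rw [e]
    exact @MeasurableSet.empty _ (Fs {p : Site d × ℤ | 0 ≤ p.2 ∧ p.2 < (H : ℤ)})

lemma claim (hI : IND_spec) (hR : RUN_spec) (hSV : SV_spec) (hM : MARKOV_spec) (lam : ℝ≥0)
    (φ : Finset ℤ → ℝ) (q : ℝ) (hq0 : 0 < q) (hq1 : q ≤ 1) (hφ0 : ∀ X, 0 ≤ φ X)
    (hφ : ∀ X : Finset ℤ, X.Nonempty → ∀ p : Finset ℤ → ℝ, (∀ F, 0 ≤ p F) →
      (∀ B, B ⊆ X → ∑ F ∈ X.powerset.filter (B ⊆ ·), p F ≤ q ^ B.card) →
      ∑ F ∈ X.powerset.erase X, p F * φ (plus (X \ F)) ≤ 1 / 4 * φ X ∧ p X ≤ 1 / 8 * φ X)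
    (n ℓ H : ℕ) (hℓ : 0 < ℓ) (hH : 0 < H)
    (hb : ∀ (i : ℤ) (z : Site d), z ∈ win ℓ i →
      1 - q ^ 4 ≤ (P lam).real {ω : Om d | BlockGood n ℓ H i z ω})
    (γ : ℝ) (hγ : 0 < γ) (hγH : Real.exp (γ * H) ≤ 2) (k : ℕ)
    (hv : ∀ j < k, ∀ (A : Finset (Site d)) (m : ℕ), j ≤ m →
      sv lam A j - sv lam A m ≤ Real.exp (-(γ * j))) :
    ∀ (m : ℕ) (X : Finset ℤ) (A : Finset (Site d)) (j : ℕ), X.Nonempty → Acl n ℓ X A →
      j < k → j ≤ m → sv lam A j - sv lam A m ≤ φ X * (1 / 2) * Real.exp (-(γ * j)) := by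
  have := hI.1 d lam
  intro m
  induction m using Nat.strong_induction_on with
  | _ m ih =>
  intro X A j hX hA hj hjm
  choose! z hz hzA using hA
  set E : Finset ℤ → Set (Om d) := fun F => {ω | Fset n ℓ H X z ω = F} with hE
  have hEm : ∀ F, MeasurableSet[Fs {p : Site d × ℤ | 0 ≤ p.2 ∧ p.2 < H}] (E F) :=
    fun F => measurable_Fset hI hR n ℓ H X z F
  have hEm' : ∀ F, MeasurableSet (E F) := fun F => hI.2.1 d _ _ (hEm F)
  set p : Finset ℤ → ℝ := fun F => (P lam).real (E F) with hp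
  have hsum : ∀ B, B ⊆ X → ∑ F ∈ X.powerset.filter (B ⊆ ·), p F ≤ q ^ B.card := by
    intro B hB
    have h1 : ∑ F ∈ X.powerset.filter (B ⊆ ·), p F =
        (P lam).real (⋃ F ∈ X.powerset.filter (B ⊆ ·), E F) := by
      rw [measureReal_biUnion_finset]
      · intro F _ F' _ hne
        rw [Function.onFun, Set.disjoint_left]
        intro ω h1 h2
        exact hne (Eq.trans (Eq.symm h1) h2)
      · intro F _
        exact hEm' F
    rw [h1]
    refine le_trans (measureReal_mono ?_) (blockfail hI hR lam n ℓ H hℓ q hq0.le hq1 hb B z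
      fun i hi => hz i (hB hi))
    intro ω hω
    simp only [Set.mem_iUnion] at hω
    obtain ⟨F, hF, hω⟩ := hω
    have hω' : Fset n ℓ H X z ω = F := hω
    intro i hi
    have : i ∈ Fset n ℓ H X z ω := by
      rw [hω']
      exact (Finset.mem_filter.1 hF).2 hi
    exact (mem_Fset.1 this).2
  obtain ⟨hs1, hs2⟩ := hφ X hX p (fun F => measureReal_nonneg) hsum
  set S : Set (Om d) := {ω | alive 0 j ω A ∧ ¬ alive 0 m ω A} with hS
  have hSm : MeasurableSet S := (measurableSet_alive hI hR 0 j A).diff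
    (measurableSet_alive hI hR 0 m A)
  rw [svdiff hI hR hSV lam A hjm, ← hS, partition (P lam) X (Fset n ℓ H X z)
    (fun ω => Fset_sub) hEm' S hSm,
    ← Finset.add_sum_erase _ _ (Finset.mem_powerset_self X)]
  have hgood : ∀ F, ∀ ω ∈ E F, ∀ i ∈ X \ F, BlockGood n ℓ H i (z i) ω := by
    intro F ω hω i hi
    by_contra hcon
    rw [Finset.mem_sdiff] at hi
    have hω' : Fset n ℓ H X z ω = F := hω
    apply hi.2
    rw [← hω']
    exact mem_Fset.2 ⟨hi.1, hcon⟩
  have hne : ∀ F ∈ X.powerset.erase X, (X \ F).Nonempty := by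
    intro F hF
    rw [Finset.mem_erase, Finset.mem_powerset] at hF
    rw [Finset.sdiff_nonempty]
    exact fun h => hF.1 (Finset.Subset.antisymm hF.2 h)
  have halive : ∀ F ∈ X.powerset.erase X, ∀ ω ∈ E F, alive 0 H ω A := by
    intro F hF ω hω
    obtain ⟨i, hi⟩ := hne F hF
    obtain ⟨z', _, hz'⟩ := hgood F ω hω i hi i (by simp)
    refine ⟨reg ℓ i, z', ?_⟩
    exact hR.1 d _ _ 0 H ω _ _ (Finset.Subset.refl _) (hzA i (Finset.mem_sdiff.1 hi).1)
      (hz' (mem_bx z' n))
  have hfull : ∀ F, ∀ ω ∈ E F, ∀ B, IsFull 0 H ω A B → Acl n ℓ (plus (X \ F)) B := by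
    intro F ω hω B hB i' hi'
    obtain ⟨i, hi, hii⟩ : ∃ i ∈ X \ F, |i' - i| ≤ 1 := by
      unfold plus at hi'
      rw [Finset.mem_union, Finset.mem_union, Finset.mem_image, Finset.mem_image] at hi'
      rcases hi' with (⟨i, hi, h⟩ | hi) | ⟨i, hi, h⟩
      · refine ⟨i, hi, ?_⟩
        rw [← h]
        simp
      · exact ⟨i', hi, by simp⟩
      · refine ⟨i, hi, ?_⟩
        rw [← h]
        simp
    obtain ⟨z', hw, hz'⟩ := hgood F ω hω i hi i' hii
    refine ⟨z', hw, (hz'.trans ?_).trans (hB.1 (reg ℓ i))⟩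
    exact hR.1 d _ _ 0 H ω _ _ (Finset.Subset.refl _) (hzA i (Finset.mem_sdiff.1 hi).1)
  have hpX : (P lam).real (E X ∩ S) ≤ p X := measureReal_mono Set.inter_subset_left
  have hφX := hφ0 X
  rcases le_or_gt m H with hmH | hmH
  · have hz0 : ∑ F ∈ X.powerset.erase X, (P lam).real (E F ∩ S) = 0 := by
      refine Finset.sum_eq_zero fun F hF => ?_
      have : E F ∩ S = ∅ := by
        ext ω
        simp only [Set.mem_inter_iff, Set.mem_empty_iff_false, iff_false]
        rintro ⟨h1, h2⟩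
        exact h2.2 (hSV.2.2.2.2.2.2.2.2 d 0 m H ω A hmH (halive F hF ω h1))
      rw [this, measureReal_empty]
    have hexp : 1 / 2 ≤ Real.exp (-(γ * j)) := by
      have h1 : Real.exp (γ * j) ≤ 2 := by
        refine le_trans (Real.exp_le_exp.2 ?_) hγH
        refine mul_le_mul_of_nonneg_left ?_ hγ.le
        exact_mod_cast hjm.trans hmH
      rw [Real.exp_neg, one_div]
      exact inv_anti₀ (Real.exp_pos _) h1
    have h0 : (P lam).real (E X ∩ S) + ∑ F ∈ X.powerset.erase X, (P lam).real (E F ∩ S) ≤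
        1 / 8 * φ X := by
      rw [hz0, add_zero]
      exact hpX.trans hs2
    refine h0.trans ?_
    nlinarith [mul_nonneg hφX (sub_nonneg.2 hexp)]
  · set j' := j - H with hj'
    set m' := m - H with hm'
    have hj'm' : j' ≤ m' := Nat.sub_le_sub_right hjm H
    have hm'm : m' < m := by omega
    have hj'k : j' < k := by omega
    have hHm : H + m' = m := by omega
    set e' := Real.exp (-(γ * (j' : ℝ))) with he'
    have he0 : 0 < e' := Real.exp_pos _
    have hee : e' ≤ 2 * Real.exp (-(γ * j)) := by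
      have h1 : e' ≤ Real.exp (γ * H) * Real.exp (-(γ * j)) := by
        rw [he', ← Real.exp_add]
        refine Real.exp_le_exp.2 ?_
        have h2 : (j : ℝ) ≤ j' + H := by
          have : j ≤ j' + H := by omega
          exact_mod_cast this
        nlinarith
      exact h1.trans (mul_le_mul_of_nonneg_right hγH (Real.exp_pos _).le)
    have hclaima : ∀ F ∈ X.powerset.erase X, (P lam).real (E F ∩ S) ≤
        φ (plus (X \ F)) * (1 / 2) * e' * p F := by
      intro F hF
      have hc0 : 0 ≤ φ (plus (X \ F)) * (1 / 2) * e' :=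
        mul_nonneg (mul_nonneg (hφ0 _) (by norm_num)) he0.le
      have h1 := hM.1 d lam H j' m' A (E F) (φ (plus (X \ F)) * (1 / 2) * e') hc0 hj'm' (hEm F)
        (fun ω hω B hB => by
          refine ih m' hm'm (plus (X \ F)) B j' ?_ (hfull F ω hω B hB) hj'k hj'm'
          obtain ⟨i, hi⟩ := hne F hF
          exact ⟨i, by
            unfold plus
            rw [Finset.mem_union, Finset.mem_union]
            exact Or.inl (Or.inr hi)⟩)
      refine le_trans (measureReal_mono ?_) h1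
      rintro ω ⟨hω1, hω2⟩
      refine ⟨hω1, ?_, ?_⟩
      · rcases le_or_gt H j with h | h
        · have : H + j' = j := by omega
          rw [this]
          exact hω2.1
        · have : H + j' = H := by omega
          rw [this]
          exact halive F hF ω hω1
      · rw [hHm]
        exact hω2.2
    have hclaimb : (P lam).real (E X ∩ S) ≤ e' * p X := by
      rcases le_or_gt H j with h | h
      · have h1 := hM.1 d lam H j' m' A (E X) e' he0.le hj'm' (hEm X)
          (fun ω _ B _ => hv j' hj'k B m' hj'm')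
        have e1 : H + j' = j := by omega
        rw [e1, hHm] at h1
        exact h1
      · have e1 : j' = 0 := by omega
        have e2 : e' = 1 := by
          rw [he', e1]
          simp
        rw [e2, one_mul]
        exact hpX
    have hsum2 : ∑ F ∈ X.powerset.erase X, (P lam).real (E F ∩ S) ≤
        (1 / 2) * e' * (1 / 4 * φ X) := by
      calc ∑ F ∈ X.powerset.erase X, (P lam).real (E F ∩ S)
          ≤ ∑ F ∈ X.powerset.erase X, φ (plus (X \ F)) * (1 / 2) * e' * p F :=
            Finset.sum_le_sum hclaima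
        _ = (1 / 2) * e' * ∑ F ∈ X.powerset.erase X, p F * φ (plus (X \ F)) := by
            rw [Finset.mul_sum]
            exact Finset.sum_congr rfl fun F _ => by ring
        _ ≤ _ := mul_le_mul_of_nonneg_left hs1 (by positivity)
    have hb1 : (P lam).real (E X ∩ S) ≤ e' * (1 / 8 * φ X) :=
      hclaimb.trans (mul_le_mul_of_nonneg_left hs2 he0.le)
    calc (P lam).real (E X ∩ S) + ∑ F ∈ X.powerset.erase X, (P lam).real (E F ∩ S)
        ≤ e' * (1 / 8 * φ X) + (1 / 2) * e' * (1 / 4 * φ X) := add_le_add hb1 hsum2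
      _ = e' * (1 / 4 * φ X) := by ring
      _ ≤ (2 * Real.exp (-(γ * j))) * (1 / 4 * φ X) :=
          mul_le_mul_of_nonneg_right hee (by positivity)
      _ = _ := by ring

lemma fold_empty (w : List (Letter d)) : fold (∅ : Finset (Site d)) w = ∅ := by
  unfold fold
  induction w with
  | nil => rfl
  | cons l w ih =>
    rw [List.foldl_cons]
    have : upd (∅ : Finset (Site d)) l = ∅ := by
      unfold upd
      rcases l with ⟨x, o⟩
      cases o <;> simp
    rw [this, ih]

lemma run_empty (Λ : Finset (Site d)) (s : ℤ) (m : ℕ) (ω : Om d) :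
    run Λ s m ω (∅ : Finset (Site d)) = ∅ := by
  induction m with
  | zero => simp [run]
  | succ m ih =>
    show strip Λ (s + m) ω (run Λ s m ω ∅) ∩ Λ = ∅
    rw [ih]
    unfold strip
    rw [fold_empty, Finset.empty_inter]

lemma sv_empty (lam : ℝ≥0) (m : ℕ) : sv lam (∅ : Finset (Site d)) m = 0 := by
  unfold sv
  have : {ω : Om d | alive 0 m ω (∅ : Finset (Site d))} = ∅ := by
    ext ω
    simp [alive, run_empty]
  rw [this, measureReal_empty]

end Tail

open Tail in
theorem tail_holds (hI : IND_spec) (hR : RUN_spec) (hSV : SV_spec) (hM : MARKOV_spec)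
    (hS : SUPER_spec) (hB : BLOCK_spec) (hF : FILL_spec) : TAIL_spec := by
  intro d lam hlam hh
  have := hI.1 d lam
  obtain ⟨φ, q, hq0, hq1, hφ0, hφ1, hφ⟩ := hS
  obtain ⟨n, ℓ, H, hℓ, hH, hb⟩ := hB d lam hlam hh (q ^ 4) (by positivity)
  obtain ⟨f, hf0, hf⟩ := hF d lam hlam n
  have hf1 : f ≤ 1 := (hf 0 0 0 (mem_bx 0 n)).trans measureReal_le_one
  have hf2 : 0 < 1 - f / 2 := by linarith
  have hlog2 : 0 < Real.log 2 := Real.log_pos (by norm_num)
  have hH' : (0 : ℝ) < H := by exact_mod_cast hH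
  have hlogf : Real.log (1 - f / 2) < 0 := Real.log_neg hf2 (by linarith)
  set γ : ℝ := min (Real.log 2 / H) (-Real.log (1 - f / 2)) with hγdef
  have hγ : 0 < γ := lt_min (by positivity) (by linarith)
  have hγH : Real.exp (γ * H) ≤ 2 := by
    have h1 : γ * H ≤ Real.log 2 := by
      have := min_le_left (Real.log 2 / H) (-Real.log (1 - f / 2))
      rw [← hγdef, le_div_iff₀ hH'] at this
      exact this
    calc Real.exp (γ * H) ≤ Real.exp (Real.log 2) := Real.exp_le_exp.2 h1
      _ = 2 := Real.exp_log (by norm_num)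
  have hγf : 1 - f / 2 ≤ Real.exp (-γ) := by
    have h1 : γ ≤ -Real.log (1 - f / 2) := min_le_right _ _
    calc 1 - f / 2 = Real.exp (Real.log (1 - f / 2)) := (Real.exp_log hf2).symm
      _ ≤ Real.exp (-γ) := Real.exp_le_exp.2 (by linarith)
  refine ⟨γ, hγ, ?_⟩
  suffices h : ∀ (k : ℕ) (A : Finset (Site d)) (m : ℕ), k ≤ m →
      sv lam A k - sv lam A m ≤ Real.exp (-(γ * k)) from fun A k m hkm => h k A m hkm
  intro k
  induction k using Nat.strong_induction_on with
  | _ k ih =>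
  intro A m hkm
  rcases Nat.eq_zero_or_pos k with hk0 | hkpos
  · subst hk0
    have h1 := (hSV.1 d lam A 0).2
    have h2 := (hSV.1 d lam A m).1
    simp only [Nat.cast_zero, mul_zero, neg_zero, Real.exp_zero]
    linarith
  obtain ⟨k, rfl⟩ : ∃ k', k = k' + 1 := ⟨k - 1, by omega⟩
  obtain ⟨m, rfl⟩ : ∃ m', m = m' + 1 := ⟨m - 1, by omega⟩
  have hkm' : k ≤ m := by omega
  rcases Finset.eq_empty_or_nonempty A with hA | ⟨x, hx⟩
  · rw [hA, sv_empty, sv_empty, sub_zero]
    exact (Real.exp_pos _).le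
  have hcl := claim hI hR hSV hM lam φ q hq0 hq1 hφ0 (fun X hX p => hφ q hq0.le le_rfl X hX p)
    n ℓ H hℓ hH hb γ hγ hγH (k + 1) (fun j hj A m hjm => ih j hj A m hjm)
  set E : Set (Om d) := {ω | bx x n ⊆ run (bx x n) 0 1 ω {x}} with hE
  have hEm : MeasurableSet[Fs {p : Site d × ℤ | 0 ≤ p.2 ∧ p.2 < ((1 : ℕ) : ℤ)}] E := by
    have h1 := hR.2.2.2.2.1 d (bx x n) 0 1 {x}
    have h2 : Fs {p : Site d × ℤ | p.1 ∈ bx x n ∧ 0 ≤ p.2 ∧ p.2 < 0 + ((1 : ℕ) : ℤ)} ≤
        Fs {p : Site d × ℤ | 0 ≤ p.2 ∧ p.2 < ((1 : ℕ) : ℤ)} := by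
      refine hI.2.2.1 d _ _ fun p hp => ?_
      have h3 := hp.2.1
      have h4 := hp.2.2
      rw [zero_add] at h4
      exact ⟨h3, h4⟩
    exact h2 _ (h1 (MeasurableSet.of_discrete (s := {B : Finset (Site d) | bx x n ⊆ B})))
  have hEm' : MeasurableSet E := hI.2.1 d _ _ hEm
  have hPE : f ≤ (P lam).real E := hf x x 0 (mem_bx x n)
  have hPE1 : (P lam).real E ≤ 1 := measureReal_le_one
  have hPEc : (P lam).real Eᶜ = 1 - (P lam).real E := probReal_compl_eq_one_sub hEm'
  set e : ℝ := Real.exp (-(γ * (k : ℝ))) with he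
  have he0 : 0 < e := Real.exp_pos _
  have h1 := hM.1 d lam 1 k m A E ((1 / 2) * e) (by positivity) hkm' hEm (by
    intro ω hω B hB
    set B' := (Aut.tr (-x)).im B with hB'
    have hAcl : Acl n ℓ {0} B' := by
      intro i hi
      rw [Finset.mem_singleton] at hi
      subst hi
      refine ⟨0, ?_, ?_⟩
      · constructor
        · simp
        · intro j _
          simp
      · intro y hy
        have hyx : y + x ∈ bx x n := by
          unfold bx at hy ⊢
          rw [Finset.mem_Icc] at hy ⊢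
          constructor
          · intro j
            have := hy.1 j
            simp only [Pi.zero_apply, zero_sub] at this
            show x j - (n : ℤ) ≤ y j + x j
            omega
          · intro j
            have := hy.2 j
            simp only [Pi.zero_apply, zero_add] at this
            show y j + x j ≤ x j + (n : ℤ)
            omega
        have h5 : y + x ∈ B := by
          refine hB.1 (bx x n) (hR.1 d _ _ 0 1 ω _ _ (Finset.Subset.refl _) ?_ (hω hyx))
          exact Finset.singleton_subset_iff.2 hx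
        rw [hB']
        unfold Aut.im
        rw [Finset.mem_map]
        refine ⟨y + x, h5, ?_⟩
        simp [Aut.tr]
    have h6 := hcl m {0} B' k (Finset.singleton_nonempty 0) hAcl (Nat.lt_succ_self k) hkm'
    rw [hB', hSV.2.2.2.1 d lam B k (-x), hSV.2.2.2.1 d lam B m (-x)] at h6
    refine h6.trans ?_
    rw [mul_assoc]
    have := hφ1 0
    have h7 : 0 ≤ 1 / 2 * Real.exp (-(γ * (k : ℝ))) := by positivity
    nlinarith)
  have h2 := hM.1 d lam 1 k m A Eᶜ e he0.le hkm' hEm.compl (by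
    intro ω _ B _
    exact ih k (Nat.lt_succ_self k) B m hkm')
  have hsv := svdiff hI hR hSV lam A hkm
  set S : Set (Om d) := {ω : Om d | alive 0 (k + 1) ω A ∧ ¬ alive 0 (m + 1) ω A} with hSdef
  have hSe : S = {ω : Om d | alive 0 (1 + k) ω A ∧ ¬ alive 0 (1 + m) ω A} := by
    rw [hSdef, add_comm k 1, add_comm m 1]
  rw [← hSe] at h1 h2
  have hSm : MeasurableSet S := (measurableSet_alive hI hR 0 (k + 1) A).diff
    (measurableSet_alive hI hR 0 (m + 1) A)
  have hsplit : (P lam).real S = (P lam).real (E ∩ S) + (P lam).real (Eᶜ ∩ S) := by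
    have := measureReal_inter_add_sdiff (μ := P lam) (s := S) hEm'
    rw [← this]
    congr 2
    · exact Set.inter_comm _ _
    · ext ω
      simp only [Set.mem_sdiff, Set.mem_inter_iff, Set.mem_compl_iff]
      tauto
  have hfin : Real.exp (-(γ * ((k + 1 : ℕ) : ℝ))) = e * Real.exp (-γ) := by
    rw [he, ← Real.exp_add]
    congr 1
    push_cast
    ring
  rw [hsv, hfin, hsplit]
  calc (P lam).real (E ∩ S) + (P lam).real (Eᶜ ∩ S)
      ≤ (1 / 2) * e * (P lam).real E + e * (P lam).real Eᶜ := add_le_add h1 h2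
    _ = e * (1 - (P lam).real E / 2) := by rw [hPEc]; ring
    _ ≤ e * (1 - f / 2) := mul_le_mul_of_nonneg_left (by linarith) he0.le
    _ ≤ e * Real.exp (-γ) := mul_le_mul_of_nonneg_left hγf he0.le

end Pool.Agent.Lib.MP_c12170_pr
end
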