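import Pool.Agent.Lib.MP_c12170_pr.Infh

section
open MeasureTheory ProbabilityTheory Filter Topology
open scoped ENNReal NNReal

namespace Pool.Agent.Lib.MP_c12170_pr

namespace Block

variable {d : ℕ}

/-- Hold targets: exactly at time `t'`, within distance `ℓ` of the centre `b`. -/
def holdS (ℓ : ℕ) (b : Site d) (t' : ℕ) : Set (Site d × ℕ) :=
  {p | (∀ j, |p.1 j - b j| ≤ ℓ) ∧ p.2 = t'}

/-- Targets of `k` side steps in direction `s` from `z` at time `s0`. -/
def sidesS (ℓ T : ℕ) (z : Site d) (s : ℤ) (s0 k : ℕ) : Set (Site d × ℕ) :=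
  {p | p.1 0 = z 0 + s * k * ℓ ∧ (∀ j, j ≠ 0 → |p.1 j| ≤ ℓ) ∧ s0 + 2 * k ≤ p.2 ∧
    p.2 ≤ s0 + k * (T + 2)}

theorem mem_bx {z x : Site d} {n : ℕ} : x ∈ bx z n ↔ ∀ j, |x j - z j| ≤ n := by
  simp only [bx, Finset.mem_Icc, Pi.le_def, abs_le]
  constructor
  · rintro ⟨h1, h2⟩ j
    have := h1 j; have := h2 j
    constructor <;> omega
  · intro h
    refine ⟨fun j => ?_, fun j => ?_⟩
    · have := (h j).1; omega
    · have := (h j).2; omega

theorem top_move (hC : COMPOSE_spec) {lam : ℝ≥0} {n L u0 T : ℕ} {ε : ℝ}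
    (hTop : ∀ u, u0 ≤ u → u ≤ T → ∀ σ : Fin (d + 1) → Bool,
      1 - ε ≤ (P lam).real {ω : Om d | Hit (bx 0 (L + n)) n 0 0 (topS L (u + 1) σ) ω})
    {Λ : Finset (Site d)} {z b : Site d} {s t : ℕ} (ht : u0 + 1 ≤ t) (ht' : t ≤ T + 1)
    (hz : ∀ j, |z j - b j| ≤ ((L + 1 + n : ℕ) : ℤ)) (hΛ : bx z (L + n) ⊆ Λ) :
    1 - ε ≤ (P lam).real {ω : Om d | Hit Λ n z s (holdS (L + 1 + n) b (s + t)) ω} := by
  obtain ⟨hC1, hC2, _⟩ := hC
  obtain ⟨u, rfl⟩ : ∃ u, t = u + 1 := ⟨t - 1, by omega⟩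
  set σ : Fin (d + 1) → Bool := fun j => decide (z j ≤ b j) with hσ
  have h1 := hTop u (by omega) (by omega) σ
  rw [← hC1 d lam (bx 0 (L + n)) n 0 z 0 s (topS L (u + 1) σ)] at h1
  refine h1.trans (measureReal_mono fun ω hω => ?_)
  rw [SymRun.im_bx, zero_add, zero_add] at hω
  refine hC2 d _ _ n z s _ _ ω hΛ ?_ hω
  rintro _ ⟨p, ⟨hp1, hp2, hp3⟩, rfl⟩
  refine ⟨fun j => ?_, by simp only; omega⟩
  have h2 := hz j
  have h3 := mem_bx.1 hp1 j
  have h4 := hp2 j
  simp only [hσ, decide_eq_true_eq, Pi.zero_apply, sub_zero] at h3 h4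
  simp only [Pi.add_apply]
  rw [abs_le] at h2 h3 ⊢
  push_cast at h2 h3 ⊢
  split_ifs at h4 with h5 <;> constructor <;> omega

theorem side_move (hC : COMPOSE_spec) {lam : ℝ≥0} {n L T : ℕ} {ε : ℝ}
    (hSide : ∀ (a : Dir d) (σ : Fin (d + 1) → Bool),
      1 - ε ≤ (P lam).real {ω : Om d | Hit (bx 0 (L + 2 * n + 1)) n 0 0 (sideS L n T a σ) ω})
    {Λ : Finset (Site d)} {z : Site d} {s : ℕ} (b : Bool)
    (hz : ∀ j, j ≠ 0 → |z j| ≤ ((L + 1 + n : ℕ) : ℤ)) (hΛ : bx z (L + 2 * n + 1) ⊆ Λ) :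
    1 - ε ≤ (P lam).real {ω : Om d | Hit Λ n z s
      (sidesS (L + 1 + n) T z (if b then 1 else -1) s 1) ω} := by
  obtain ⟨hC1, hC2, _⟩ := hC
  set σ : Fin (d + 1) → Bool := fun j => decide (z j ≤ 0) with hσ
  have h1 := hSide (0, b) σ
  rw [← hC1 d lam (bx 0 (L + 2 * n + 1)) n 0 z 0 s (sideS L n T (0, b) σ)] at h1
  refine h1.trans (measureReal_mono fun ω hω => ?_)
  rw [SymRun.im_bx, zero_add, zero_add] at hω
  refine hC2 d _ _ n z s _ _ ω hΛ ?_ hω
  rintro _ ⟨p, ⟨hp1, hp2, hp3, hp4⟩, rfl⟩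
  refine ⟨?_, fun j hj => ?_, by simp only; omega, by simp only; omega⟩
  · simp only at hp1
    simp only [Pi.add_apply, hp1]
    push_cast
    ring
  · have h2 := hz j hj
    obtain ⟨h3, h4⟩ := hp2 j hj
    simp only [hσ, decide_eq_true_eq] at h4
    simp only [Pi.add_apply]
    rw [abs_le] at h2 h3 ⊢
    push_cast at h2 h3 ⊢
    split_ifs at h4 with h5 <;> constructor <;> omega

theorem hit_self {lam : ℝ≥0} {Λ : Finset (Site d)} {n : ℕ} {z : Site d} {s : ℕ}
    (hΛ : bx z n ⊆ Λ) {S : Set (Site d × ℕ)} (hS : (z, s) ∈ S) :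
    (P lam).real {ω : Om d | Hit Λ n z s S ω} = 1 := by
  have : {ω : Om d | Hit Λ n z s S ω} = Set.univ := by
    ext ω
    simp only [Set.mem_ofPred_eq, Set.mem_univ, iff_true]
    refine ⟨(z, s), hS, le_rfl, ?_⟩
    simp only [Nat.sub_self, run]
    exact Finset.subset_inter (Finset.Subset.refl _) hΛ
  rw [this]
  simp

theorem hold (hC : COMPOSE_spec) {lam : ℝ≥0} {n L u0 T : ℕ} {ε : ℝ} (hε : ε ≤ 1)
    (hTop : ∀ u, u0 ≤ u → u ≤ T → ∀ σ : Fin (d + 1) → Bool,
      1 - ε ≤ (P lam).real {ω : Om d | Hit (bx 0 (L + n)) n 0 0 (topS L (u + 1) σ) ω})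
    (hu : u0 ≤ T) {Λ : Finset (Site d)} {b : Site d}
    (hΛ : ∀ z : Site d, (∀ j, |z j - b j| ≤ ((L + 1 + n : ℕ) : ℤ)) → bx z (L + n) ⊆ Λ)
    (J : ℕ) : ∀ (r : ℕ) (z : Site d) (s : ℕ), J * (u0 + 1) ≤ r → r ≤ J * (T + 1) →
    (∀ j, |z j - b j| ≤ ((L + 1 + n : ℕ) : ℤ)) →
    (1 - ε) ^ J ≤ (P lam).real {ω : Om d | Hit Λ n z s (holdS (L + 1 + n) b (s + r)) ω} := by
  induction J with
  | zero =>
    intro r z s _ h2 hz
    obtain rfl : r = 0 := by omega
    rw [pow_zero, hit_self ((Sv.bx_mono z (show n ≤ L + n by omega)).trans (hΛ z hz))]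
    exact ⟨hz, by simp⟩
  | succ J ih =>
    intro r z s h1 h2 hz
    set t := max (u0 + 1) (r - J * (T + 1)) with ht
    have e1 : (J + 1) * (u0 + 1) = J * (u0 + 1) + (u0 + 1) := by ring
    have e2 : (J + 1) * (T + 1) = J * (T + 1) + (T + 1) := by ring
    have e3 : J * (u0 + 1) ≤ J * (T + 1) := Nat.mul_le_mul_left _ (by omega)
    rw [e1] at h1
    rw [e2] at h2
    have ht1 : u0 + 1 ≤ t := le_max_left _ _
    have ht2 : t ≤ T + 1 := max_le (by omega) (by omega)
    have ht3 : t ≤ r := max_le (by omega) (by omega)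
    have ht4 : J * (u0 + 1) ≤ r - t := by
      rcases max_choice (u0 + 1) (r - J * (T + 1)) with h | h <;> rw [← ht] at h <;> omega
    have ht5 : r - t ≤ J * (T + 1) := by
      have : r - J * (T + 1) ≤ t := le_max_right _ _
      omega
    have hmove := top_move hC hTop (Λ := Λ) (s := s) ht1 ht2 hz (hΛ z hz)
    have hcomp := hC.2.2 d lam Λ n z s (holdS (L + 1 + n) b (s + t))
      (holdS (L + 1 + n) b (s + r)) ((1 - ε) ^ J) (pow_nonneg (by linarith) _) (by
        rintro p ⟨hp1, hp2⟩ _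
        have := ih (r - t) p.1 p.2 ht4 ht5 hp1
        rw [hp2] at this ⊢
        have e4 : s + t + (r - t) = s + r := by omega
        rw [e4] at this
        exact this)
    calc (1 - ε) ^ (J + 1) = (1 - ε) ^ J * (1 - ε) := pow_succ _ _
      _ ≤ (1 - ε) ^ J * (P lam).real {ω : Om d | Hit Λ n z s (holdS (L + 1 + n) b (s + t)) ω} :=
        mul_le_mul_of_nonneg_left hmove (pow_nonneg (by linarith) _)
      _ ≤ _ := hcomp

/-- `k` side steps. -/
theorem sides (hC : COMPOSE_spec) {lam : ℝ≥0} {n L T : ℕ} {ε : ℝ} (hε : ε ≤ 1)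
    (hSide : ∀ (a : Dir d) (σ : Fin (d + 1) → Bool),
      1 - ε ≤ (P lam).real {ω : Om d | Hit (bx 0 (L + 2 * n + 1)) n 0 0 (sideS L n T a σ) ω})
    {Λ : Finset (Site d)} {z : Site d} {s0 : ℕ} (b : Bool) (K : ℕ)
    (hz : ∀ j, j ≠ 0 → |z j| ≤ ((L + 1 + n : ℕ) : ℤ))
    (hΛ : ∀ (k : ℕ) (z' : Site d), k < K →
      z' 0 = z 0 + (if b then 1 else -1) * k * ((L + 1 + n : ℕ) : ℤ) →
      (∀ j, j ≠ 0 → |z' j| ≤ ((L + 1 + n : ℕ) : ℤ)) → bx z' (L + 2 * n + 1) ⊆ Λ) (hK : 0 < K)
    (k : ℕ) (hk : k ≤ K) :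
    (1 - ε) ^ k ≤ (P lam).real {ω : Om d | Hit Λ n z s0
      (sidesS (L + 1 + n) T z (if b then 1 else -1) s0 k) ω} := by
  induction k with
  | zero =>
    rw [pow_zero, hit_self ((Sv.bx_mono z (show n ≤ L + 2 * n + 1 by omega)).trans
      (hΛ 0 z hK (by simp) hz))]
    exact ⟨by simp, hz, by simp, by simp⟩
  | succ k ih =>
    have hcomp := hC.2.2 d lam Λ n z s0
      (sidesS (L + 1 + n) T z (if b then 1 else -1) s0 k)
      (sidesS (L + 1 + n) T z (if b then 1 else -1) s0 (k + 1)) (1 - ε) (by linarith) (by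
        rintro p ⟨hp1, hp2, hp3, hp4⟩ _
        have hmove := side_move hC hSide (Λ := Λ) (z := p.1) (s := p.2) b hp2
          (hΛ k p.1 (by omega) hp1 hp2)
        refine hmove.trans (measureReal_mono fun ω hω => ?_)
        refine hC.2.1 d Λ Λ n p.1 p.2 _ _ ω (Finset.Subset.refl _) ?_ hω
        rintro q ⟨hq1, hq2, hq3, hq4⟩
        refine ⟨?_, hq2, by omega, ?_⟩
        · rw [hq1, hp1]; push_cast; ring
        · have : (k + 1) * (T + 2) = k * (T + 2) + (T + 2) := by ring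
          rw [this]; omega)
    calc (1 - ε) ^ (k + 1) = (1 - ε) * (1 - ε) ^ k := pow_succ' _ _
      _ ≤ (1 - ε) * (P lam).real {ω : Om d | Hit Λ n z s0
        (sidesS (L + 1 + n) T z (if b then 1 else -1) s0 k) ω} :=
        mul_le_mul_of_nonneg_left (ih (by omega)) (by linarith)
      _ ≤ _ := hcomp

/-- Reaching a window: hold for the remaining time. -/
theorem hold_final (hC : COMPOSE_spec) {lam : ℝ≥0} {n L u0 T : ℕ} {ε : ℝ} (hε0 : 0 ≤ ε)
    (hε : ε ≤ 1)
    (hTop : ∀ u, u0 ≤ u → u ≤ T → ∀ σ : Fin (d + 1) → Bool,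
      1 - ε ≤ (P lam).real {ω : Om d | Hit (bx 0 (L + n)) n 0 0 (topS L (u + 1) σ) ω})
    (hu : 2 * (u0 + 1) ≤ T + 1) {Λ : Finset (Site d)} {b : Site d}
    (hΛ : ∀ z : Site d, (∀ j, |z j - b j| ≤ ((L + 1 + n : ℕ) : ℤ)) → bx z (L + n) ⊆ Λ)
    (z : Site d) (s H : ℕ) (hs : s + 4 * (T + 2) ≤ H) (hs' : H ≤ s + 8 * (T + 2))
    (hz : ∀ j, |z j - b j| ≤ ((L + 1 + n : ℕ) : ℤ)) :
    (1 - ε) ^ 12 ≤ (P lam).real {ω : Om d | Hit Λ n z s (holdS (L + 1 + n) b H) ω} := by
  obtain ⟨r, rfl⟩ : ∃ r, H = s + r := ⟨H - s, by omega⟩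
  have hr1 : 4 * (T + 2) ≤ r := by omega
  have hr2 : r ≤ 8 * (T + 2) := by omega
  set J := (r + T) / (T + 1) with hJ
  have hJ1 : r ≤ J * (T + 1) := by
    have h1 := Nat.div_add_mod (r + T) (T + 1)
    have h2 := Nat.mod_lt (r + T) (show 0 < T + 1 by omega)
    rw [← hJ] at h1
    have : J * (T + 1) = (T + 1) * J := mul_comm _ _
    omega
  have hJ2 : J * (T + 1) ≤ r + T := Nat.div_mul_le_self _ _
  have hJ3 : J ≤ 12 := by
    by_contra hcon
    have h3 : 13 ≤ J := by omega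
    have h4 : 13 * (T + 1) ≤ J * (T + 1) := Nat.mul_le_mul_right _ h3
    omega
  have hJ4 : J * (u0 + 1) ≤ r := by
    rcases Nat.eq_zero_or_pos J with h0 | hpos
    · rw [h0]; omega
    · have h5 : 2 ≤ J := by
        by_contra hcon
        have h6 : J = 1 := by omega
        rw [h6] at hJ1
        omega
      have h6 : J * (2 * (u0 + 1)) ≤ J * (T + 1) := Nat.mul_le_mul_left _ hu
      have h7 : J * (2 * (u0 + 1)) = 2 * (J * (u0 + 1)) := by ring
      obtain ⟨J', hJ'⟩ : ∃ J', J = J' + 2 := ⟨J - 2, by omega⟩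
      have h8 : J * (T + 1) = J' * (T + 1) + 2 * (T + 1) := by rw [hJ']; ring
      have h9 : 2 * (T + 1) ≤ J * (T + 1) := by rw [h8]; omega
      omega
  have h := hold hC hε hTop (by omega) hΛ J r z s hJ4 hJ1 hz
  refine le_trans ?_ h
  exact pow_le_pow_of_le_one (by linarith) (by linarith) hJ3

theorem abs_le_win {ℓ : ℕ} {i : ℤ} {z : Site d} (hz : z ∈ win ℓ i) (c : Site d)
    (hc0 : c 0 = 4 * ℓ * i) (hc : ∀ j, j ≠ 0 → c j = 0) : ∀ j, |z j - c j| ≤ (ℓ : ℤ) := by
  intro j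
  by_cases hj : j = 0
  · subst hj; rw [hc0]; exact hz.1
  · rw [hc j hj, sub_zero]; exact hz.2 j hj

/-- The centre of window `i`. -/
def ctr (ℓ : ℕ) (i : ℤ) : Site d := fun j => if j = 0 then 4 * ℓ * i else 0

theorem target (hC : COMPOSE_spec) {lam : ℝ≥0} {n L u0 T : ℕ} {ε : ℝ} (hε0 : 0 ≤ ε)
    (hε : ε ≤ 1) (hnL : n ≤ L)
    (hTop : ∀ u, u0 ≤ u → u ≤ T → ∀ σ : Fin (d + 1) → Bool,
      1 - ε ≤ (P lam).real {ω : Om d | Hit (bx 0 (L + n)) n 0 0 (topS L (u + 1) σ) ω})
    (hSide : ∀ (a : Dir d) (σ : Fin (d + 1) → Bool),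
      1 - ε ≤ (P lam).real {ω : Om d | Hit (bx 0 (L + 2 * n + 1)) n 0 0 (sideS L n T a σ) ω})
    (hu : 2 * (u0 + 1) ≤ T + 1) (i i' : ℤ) (hi : |i' - i| ≤ 1) (z : Site d)
    (hz : z ∈ win (L + 1 + n) i) :
    (1 - ε) ^ 16 ≤ (P lam).real {ω : Om d | ∃ z' ∈ win (L + 1 + n) i',
      bx z' n ⊆ run (reg (L + 1 + n) i) 0 (8 * (T + 2)) ω (bx z n)} := by
  set ℓ := L + 1 + n with hℓ
  set Λ : Finset (Site d) := reg ℓ i with hΛdef
  have hmemΛ : ∀ x : Site d, (|x 0 - 4 * ℓ * i| ≤ 7 * ℓ) → (∀ j, j ≠ 0 → |x j| ≤ 3 * ℓ) →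
      x ∈ Λ := by
    intro x h0 h1
    simp only [hΛdef, reg, Finset.mem_Icc, Pi.le_def]
    refine ⟨fun j => ?_, fun j => ?_⟩
    · by_cases hj : j = 0
      · subst hj; rw [if_pos rfl]; rw [abs_le] at h0; linarith [h0.1]
      · rw [if_neg hj]; have := h1 j hj; rw [abs_le] at this; linarith [this.1]
    · by_cases hj : j = 0
      · subst hj; rw [if_pos rfl]; rw [abs_le] at h0; linarith [h0.2]
      · rw [if_neg hj]; have := h1 j hj; rw [abs_le] at this; linarith [this.2]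
  have hi' : -1 ≤ i' - i ∧ i' - i ≤ 1 := abs_le.1 hi
  have hℓ0 : (ℓ : ℤ) = L + 1 + n := by rw [hℓ]; push_cast; ring
  have hnL' : (n : ℤ) ≤ L := by exact_mod_cast hnL
  -- the region around the centre of window `i'`
  have hmul : |4 * (ℓ : ℤ) * i' - 4 * ℓ * i| ≤ 4 * ℓ := by
    have : 4 * (ℓ : ℤ) * i' - 4 * ℓ * i = 4 * ℓ * (i' - i) := by ring
    rw [this, abs_mul, abs_of_nonneg (by positivity : (0 : ℤ) ≤ 4 * ℓ)]
    calc 4 * (ℓ : ℤ) * |i' - i| ≤ 4 * ℓ * 1 := by gcongr
      _ = 4 * ℓ := by ring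
  have hΛhold : ∀ z' : Site d, (∀ j, |z' j - ctr ℓ i' j| ≤ ((ℓ : ℕ) : ℤ)) →
      bx z' (L + n) ⊆ Λ := by
    intro z' hz' x hx
    rw [mem_bx] at hx
    refine hmemΛ x ?_ fun j hj => ?_
    · have h1 := hz' 0
      have h2 := hx 0
      simp only [ctr, ↓reduceIte] at h1
      rw [abs_le] at h1 h2 hmul ⊢
      push_cast at h1 h2
      constructor <;> linarith [h1.1, h1.2, h2.1, h2.2, hmul.1, hmul.2]
    · have h1 := hz' j
      have h2 := hx j
      simp only [ctr, if_neg hj, sub_zero] at h1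
      rw [abs_le] at h1 h2 ⊢
      push_cast at h1 h2
      constructor <;> linarith [h1.1, h1.2, h2.1, h2.2]
  have hfin : ∀ (ω : Om d), Hit Λ n z 0 (holdS ℓ (ctr ℓ i') (8 * (T + 2))) ω →
      ∃ z' ∈ win ℓ i', bx z' n ⊆ run Λ 0 (8 * (T + 2)) ω (bx z n) := by
    rintro ω ⟨p, ⟨hp1, hp2⟩, _, hp3⟩
    refine ⟨p.1, ⟨?_, fun j hj => ?_⟩, ?_⟩
    · have := hp1 0; simpa only [ctr, ↓reduceIte] using this
    · have := hp1 j; simpa only [ctr, if_neg hj, sub_zero] using this
    · rw [hp2] at hp3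
      simpa using hp3
  refine le_trans ?_ (measureReal_mono (μ := P lam) (s₁ := {ω : Om d | Hit Λ n z 0
    (holdS ℓ (ctr ℓ i') (8 * (T + 2))) ω}) (fun ω hω => hfin ω hω) (by finiteness))
  by_cases hii : i' = i
  · -- hold only
    subst hii
    have h1 := hold_final hC hε0 hε hTop hu hΛhold z 0 (8 * (T + 2)) (by omega) (by omega)
      (abs_le_win hz (ctr ℓ i') (by simp [ctr]) (fun j hj => by simp [ctr, hj]))
    refine le_trans ?_ h1
    exact pow_le_pow_of_le_one (by linarith) (by linarith) (by norm_num)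
  · -- four side steps, then hold
    obtain ⟨b, hb⟩ : ∃ b : Bool, i' = i + (if b then 1 else -1) := by
      rcases lt_or_gt_of_ne hii with h | h
      · exact ⟨false, by simp only [Bool.false_eq_true, ↓reduceIte]; omega⟩
      · exact ⟨true, by simp only [↓reduceIte]; omega⟩
    have hΛside : ∀ (k : ℕ) (z' : Site d), k < 4 →
        z' 0 = z 0 + (if b then 1 else -1) * k * ((L + 1 + n : ℕ) : ℤ) →
        (∀ j, j ≠ 0 → |z' j| ≤ ((L + 1 + n : ℕ) : ℤ)) → bx z' (L + 2 * n + 1) ⊆ Λ := by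
      intro k z' hk h0 h1 x hx
      rw [mem_bx] at hx
      have hk' : (k : ℤ) ≤ 3 := by exact_mod_cast (by omega : k ≤ 3)
      refine hmemΛ x ?_ fun j hj => ?_
      · have h2 := hx 0
        have h3 := hz.1
        rw [← hℓ] at h0
        have h4 : |(if b then (1 : ℤ) else -1) * k * (ℓ : ℤ)| ≤ 3 * ℓ := by
          rw [abs_mul, abs_mul]
          have : |(if b then (1 : ℤ) else -1)| = 1 := by cases b <;> simp
          rw [this, one_mul, abs_of_nonneg (by positivity : (0 : ℤ) ≤ (k : ℤ)),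
            abs_of_nonneg (by positivity : (0 : ℤ) ≤ (ℓ : ℤ))]
          gcongr
        rw [abs_le] at h2 h3 h4 ⊢
        push_cast at h2
        constructor <;> linarith [h2.1, h2.2, h3.1, h3.2, h4.1, h4.2]
      · have h2 := hx j
        have h3 := h1 j hj
        rw [abs_le] at h2 h3 ⊢
        push_cast at h2 h3
        constructor <;> linarith [h2.1, h2.2, h3.1, h3.2]
    have h1 := sides hC hε hSide (s0 := 0) b 4 hz.2 hΛside (by norm_num) 4 le_rfl
    have hcomp := hC.2.2 d lam Λ n z 0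
      (sidesS (L + 1 + n) T z (if b then 1 else -1) 0 4)
      (holdS ℓ (ctr ℓ i') (8 * (T + 2))) ((1 - ε) ^ 12) (pow_nonneg (by linarith) _) (by
        rintro p ⟨hp1, hp2, hp3, hp4⟩ _
        refine hold_final hC hε0 hε hTop hu hΛhold p.1 p.2 (8 * (T + 2)) (by omega) (by omega)
          fun j => ?_
        by_cases hj : j = 0
        · subst hj
          simp only [ctr, ↓reduceIte]
          rw [hp1, hb]
          have h3 := hz.1
          have e : z 0 + (if b then (1 : ℤ) else -1) * (4 : ℕ) * ((L + 1 + n : ℕ) : ℤ) -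
              4 * ((L + 1 + n : ℕ) : ℤ) * (i + (if b then (1 : ℤ) else -1)) =
              z 0 - 4 * ((L + 1 + n : ℕ) : ℤ) * i := by push_cast; ring
          rw [hℓ, e]
          exact h3
        · simp only [ctr, if_neg hj, sub_zero]
          exact hp2 j hj)
    calc (1 - ε) ^ 16 = (1 - ε) ^ 12 * (1 - ε) ^ 4 := by rw [← pow_add]
      _ ≤ (1 - ε) ^ 12 * (P lam).real {ω : Om d | Hit Λ n z 0
        (sidesS (L + 1 + n) T z (if b then 1 else -1) 0 4) ω} :=
        mul_le_mul_of_nonneg_left h1 (pow_nonneg (by linarith) _)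
      _ ≤ _ := hcomp

end Block

theorem block_holds (hM : MOVES_spec) (hC : COMPOSE_spec) : BLOCK_spec := by
  intro d lam hlam hθ ε0 hε0
  set ε : ℝ := min ε0 1 / 48 with hε
  have hεpos : 0 < ε := by rw [hε]; positivity
  have hεle : ε ≤ 1 := by
    rw [hε]
    have := min_le_right ε0 1
    linarith
  obtain ⟨n, L, u0, T, hnL, hu, hTop, hSide⟩ := hM d lam hlam hθ ε hεpos
  refine ⟨n, L + 1 + n, 8 * (T + 2), by omega, by omega, fun i z hz => ?_⟩
  have htarget : ∀ i' : ℤ, |i' - i| ≤ 1 → (P lam).real {ω : Om d | ¬ ∃ z' ∈ win (L + 1 + n) i',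
      bx z' n ⊆ run (reg (L + 1 + n) i) 0 (8 * (T + 2)) ω (bx z n)} ≤ 16 * ε := by
    intro i' hi'
    have h1 := Block.target hC hεpos.le hεle hnL hTop hSide hu i i' hi' z hz
    have h2 : 1 - 16 * ε ≤ (1 - ε) ^ 16 := by
      have := one_add_mul_le_pow (a := -ε) (by linarith) 16
      push_cast at this
      linarith
    have hm : MeasurableSet {ω : Om d | ∃ z' ∈ win (L + 1 + n) i',
        bx z' n ⊆ run (reg (L + 1 + n) i) 0 (8 * (T + 2)) ω (bx z n)} :=
      Ind.Fs_le _ _ (Run.run_meas (reg (L + 1 + n) i) 0 (8 * (T + 2)) (bx z n)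
        (t := {B | ∃ z' ∈ win (L + 1 + n) i', bx z' n ⊆ B}) trivial)
    have h3 := measureReal_compl (μ := P lam) hm
    have h4 : (P lam).real {ω : Om d | ¬ ∃ z' ∈ win (L + 1 + n) i',
        bx z' n ⊆ run (reg (L + 1 + n) i) 0 (8 * (T + 2)) ω (bx z n)} =
        (P lam).real {ω : Om d | ∃ z' ∈ win (L + 1 + n) i',
        bx z' n ⊆ run (reg (L + 1 + n) i) 0 (8 * (T + 2)) ω (bx z n)}ᶜ := rfl
    rw [h4, h3]
    simp only [probReal_univ]
    linarith
  have hcov : {ω : Om d | ¬ BlockGood n (L + 1 + n) (8 * (T + 2)) i z ω} ⊆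
      ({ω : Om d | ¬ ∃ z' ∈ win (L + 1 + n) (i - 1),
      bx z' n ⊆ run (reg (L + 1 + n) i) 0 (8 * (T + 2)) ω (bx z n)} ∪
      {ω : Om d | ¬ ∃ z' ∈ win (L + 1 + n) i,
      bx z' n ⊆ run (reg (L + 1 + n) i) 0 (8 * (T + 2)) ω (bx z n)}) ∪
      {ω : Om d | ¬ ∃ z' ∈ win (L + 1 + n) (i + 1),
      bx z' n ⊆ run (reg (L + 1 + n) i) 0 (8 * (T + 2)) ω (bx z n)} := by
    intro ω hω
    by_contra hcon
    simp only [Set.mem_union, Set.mem_ofPred_eq, not_or, not_not] at hcon
    apply hω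
    intro i' hi'
    have h5 := abs_le.1 hi'
    have : i' = i - 1 ∨ i' = i ∨ i' = i + 1 := by omega
    rcases this with rfl | rfl | rfl
    · exact hcon.1.1
    · exact hcon.1.2
    · exact hcon.2
  have hbad : (P lam).real {ω : Om d | ¬ BlockGood n (L + 1 + n) (8 * (T + 2)) i z ω} ≤ 48 * ε := by
    calc (P lam).real {ω : Om d | ¬ BlockGood n (L + 1 + n) (8 * (T + 2)) i z ω}
        ≤ _ := measureReal_mono hcov (by finiteness)
      _ ≤ _ := measureReal_union_le _ _
      _ ≤ ((P lam).real _ + (P lam).real _) + (P lam).real _ :=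
        add_le_add_left (measureReal_union_le _ _) _
      _ ≤ (16 * ε + 16 * ε) + 16 * ε := by
        refine add_le_add (add_le_add (htarget (i - 1) ?_) (htarget i ?_)) (htarget (i + 1) ?_)
        all_goals simp
      _ = 48 * ε := by ring
  have hm : MeasurableSet {ω : Om d | BlockGood n (L + 1 + n) (8 * (T + 2)) i z ω} :=
    Ind.Fs_le _ _ (Run.run_meas (reg (L + 1 + n) i) 0 (8 * (T + 2)) (bx z n)
      (t := {B | ∀ i' : ℤ, |i' - i| ≤ 1 → ∃ z' ∈ win (L + 1 + n) i', bx z' n ⊆ B}) trivial)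
  have h3 := measureReal_compl (μ := P lam) hm
  have h4 : (P lam).real {ω : Om d | ¬ BlockGood n (L + 1 + n) (8 * (T + 2)) i z ω} =
      (P lam).real {ω : Om d | BlockGood n (L + 1 + n) (8 * (T + 2)) i z ω}ᶜ := rfl
  rw [h4, h3] at hbad
  simp only [probReal_univ] at hbad
  have h5 : 48 * ε ≤ ε0 := by
    rw [hε]
    have := min_le_left ε0 1
    linarith
  linarith

end Pool.Agent.Lib.MP_c12170_pr
end

section
/-!
# MP_c12170_pr: KILL (helper10)
-/
open MeasureTheory ProbabilityTheory Filter Topology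
open scoped ENNReal NNReal

namespace Pool.Agent.Lib.MP_c12170_pr

namespace Kill

/-- Summing a conditional lower bound over the values of a discrete random variable. -/
theorem sum_bound {Ω β : Type} [MeasurableSpace Ω] [Countable β] (μ : Measure Ω) (X : Ω → β)
    (hX : ∀ v, MeasurableSet {ω | X ω = v}) (Q : β → Prop) (G : β → Set Ω)
    (hG : ∀ v, MeasurableSet (G v)) (c : ℝ≥0∞)
    (h : ∀ v, Q v → c * μ {ω | X ω = v} ≤ μ ({ω | X ω = v} ∩ G v)) :
    c * μ {ω | Q (X ω)} ≤ μ {ω | Q (X ω) ∧ ω ∈ G (X ω)} := by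
  have e1 : {ω | Q (X ω)} = ⋃ v : {v // Q v}, {ω | X ω = v} := by
    ext ω
    simp
  have e2 : {ω | Q (X ω) ∧ ω ∈ G (X ω)} = ⋃ v : {v // Q v}, ({ω | X ω = v} ∩ G v) := by
    ext ω
    simp
  have hd : Pairwise (Function.onFun Disjoint fun v : {v // Q v} => {ω | X ω = (v : β)}) := by
    intro v w hvw
    rw [Function.onFun, Set.disjoint_left]
    intro ω h1 h2
    exact hvw (Subtype.ext (h1.symm.trans h2))
  have hd' : Pairwise (Function.onFun Disjoint fun v : {v // Q v} =>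
      ({ω | X ω = (v : β)} ∩ G v)) := by
    intro v w hvw
    exact (hd hvw).mono Set.inter_subset_left Set.inter_subset_left
  rw [e1, e2, measure_iUnion hd (fun v => hX v),
    measure_iUnion hd' (fun v => (hX v).inter (hG v)), ← ENNReal.tsum_mul_left]
  exact ENNReal.tsum_le_tsum fun v => h v v.2

variable {d : ℕ}

open Classical in
/-- the space-time points which have to be killed, as a function of the trace -/
noncomputable def VT (Λ A : Finset (Site d)) (T : ℕ) (L : List (Finset (Site d))) :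
    Finset (Site d × ℤ) :=
  (SymRun.runT Λ A L).image (fun x => (x, (T : ℤ))) ∪ (Finset.range T).biUnion fun k =>
    (L[k]?.getD ∅ \ Λ).image (fun x => (x, (k : ℤ))) ∪
    (L[k]?.getD ∅ \ Λ).image (fun x => (x, (k : ℤ) + 1))

/-- the number of points at the top and of exits, as a function of the trace -/
noncomputable def NT (Λ A : Finset (Site d)) (T : ℕ) (L : List (Finset (Site d))) : ℕ :=
  (SymRun.runT Λ A L).card + ∑ k ∈ Finset.range T, (L[k]?.getD ∅ \ Λ).card

theorem NT_trace (Λ A : Finset (Site d)) (T : ℕ) (ω : Om d) :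
    NT Λ A T (trace Λ 0 T ω A) = (run Λ 0 T ω A).card +
      ∑ k ∈ Finset.range T, (exits Λ 0 k ω A).card := by
  rw [NT, ← SymRun.run_eq]
  congr 1
  refine Finset.sum_congr rfl fun k hk => ?_
  rw [SymRun.exits_eq Λ 0 T ω A k (Finset.mem_range.1 hk)]

theorem card_VT (Λ A : Finset (Site d)) (T : ℕ) (L : List (Finset (Site d))) :
    (VT Λ A T L).card ≤ 2 * NT Λ A T L := by
  classical
  unfold VT NT
  refine (Finset.card_union_le _ _).trans ?_
  have h1 := Finset.card_image_le (s := SymRun.runT Λ A L) (f := fun x => (x, (T : ℤ)))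
  have h2 : ((Finset.range T).biUnion fun k =>
      (L[k]?.getD ∅ \ Λ).image (fun x => (x, (k : ℤ))) ∪
      (L[k]?.getD ∅ \ Λ).image (fun x => (x, (k : ℤ) + 1))).card ≤
      2 * ∑ k ∈ Finset.range T, (L[k]?.getD ∅ \ Λ).card := by
    refine Finset.card_biUnion_le.trans ?_
    rw [Finset.mul_sum]
    refine Finset.sum_le_sum fun k _ => ?_
    refine (Finset.card_union_le _ _).trans ?_
    have h3 := Finset.card_image_le (s := L[k]?.getD ∅ \ Λ) (f := fun x => (x, (k : ℤ)))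
    have h4 := Finset.card_image_le (s := L[k]?.getD ∅ \ Λ) (f := fun x => (x, (k : ℤ) + 1))
    omega
  omega

theorem VT_disj (Λ A : Finset (Site d)) (T : ℕ) (L : List (Finset (Site d))) :
    ∀ p ∈ VT Λ A T L, ¬ (p.1 ∈ Λ ∧ (0 : ℤ) ≤ p.2 ∧ p.2 < 0 + T) := by
  classical
  intro p hp
  unfold VT at hp
  rw [Finset.mem_union] at hp
  rintro ⟨h1, h2, h3⟩
  rcases hp with hp | hp
  · obtain ⟨x, -, rfl⟩ := Finset.mem_image.1 hp
    simp at h3
  · obtain ⟨k, -, hp⟩ := Finset.mem_biUnion.1 hp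
    rw [Finset.mem_union] at hp
    rcases hp with hp | hp
    · obtain ⟨x, hx, rfl⟩ := Finset.mem_image.1 hp
      exact (Finset.mem_sdiff.1 hx).2 h1
    · obtain ⟨x, hx, rfl⟩ := Finset.mem_image.1 hp
      exact (Finset.mem_sdiff.1 hx).2 h1

/-- the kill event at a space-time point: exactly one recovery mark, nothing else. -/
def Gk (p : Site d × ℤ) : Set (Om d) := {ω | word {p.1} p.2 ω = [(p.1, none)]}

theorem Gk_sub {p : Site d × ℤ} {ω : Om d} (h : ω ∈ Gk p) : Qk p.1 p.2 ω := by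
  have h' : word {p.1} p.2 ω = [(p.1, none)] := h
  constructor
  · intro l hl
    rw [h'] at hl
    rw [List.mem_singleton.1 hl]
  · rw [h']
    simp

theorem Gk_meas (p : Site d × ℤ) : MeasurableSet[Fs {p}] (Gk p : Set (Om d)) := by
  have h : {q : Site d × ℤ | q.1 ∈ ({p.1} : Finset (Site d)) ∧ q.2 = p.2} ⊆ {p} := by
    rintro ⟨x, k⟩ ⟨h1, h2⟩
    simp only [Finset.mem_singleton] at h1 h2
    subst h1 h2
    rfl
  exact Ind.Fs_mono h _ (Word.word_meas {p.1} p.2 (t := {[(p.1, none)]}) trivial)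

/-- the probability of a kill event -/
noncomputable def p0 (d : ℕ) (lam : ℝ≥0) : ℝ :=
  Real.exp (-(1 + 2 * ((d : ℝ) + 1) * lam))

theorem p0_pos (d : ℕ) (lam : ℝ≥0) : 0 < p0 d lam := Real.exp_pos _

theorem p0_le_one (d : ℕ) (lam : ℝ≥0) : p0 d lam ≤ 1 := by
  unfold p0
  rw [Real.exp_le_one_iff]
  have : (0 : ℝ) ≤ 2 * ((d : ℝ) + 1) * lam := by positivity
  linarith

theorem Gk_prob (hW : WLAW_spec) (lam : ℝ≥0) (p : Site d × ℤ) :
    (P lam).real (Gk p) = p0 d lam := by
  have h := hW d lam {p.1} p.2 [(p.1, none)] (by simp)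
  rw [Gk, h, p0]
  simp [rate]

/-- independence: kill everything in `v` -/
theorem kill_all (hW : WLAW_spec) (lam : ℝ≥0) (J0 : Set (Site d × ℤ)) (E : Set (Om d))
    (hE : MeasurableSet[Fs J0] E) (v : Finset (Site d × ℤ)) (hv : ∀ p ∈ v, p ∉ J0) :
    (P lam).real (E ∩ ⋂ p ∈ v, Gk p) = (P lam).real E * p0 d lam ^ v.card := by
  have h1 : (P lam).real (⋂ p ∈ v, Gk p) = p0 d lam ^ v.card := by
    rw [Ind.prod_formula lam v (fun p => {p}) Gk (fun p _ q _ hpq => by simpa using hpq)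
      (fun p _ => Gk_meas p)]
    rw [Finset.prod_congr rfl (fun p _ => Gk_prob hW lam p)]
    simp
  have hdisj : Disjoint J0 (v : Set (Site d × ℤ)) := by
    rw [Set.disjoint_left]
    intro p h1 h2
    exact hv p h2 h1
  have hm : MeasurableSet[Fs (v : Set (Site d × ℤ))] (⋂ p ∈ v, Gk p : Set (Om d)) := by
    refine @Finset.measurableSet_biInter _ _ (Fs (v : Set (Site d × ℤ))) _ v fun p hp => ?_
    exact Ind.Fs_mono (Set.singleton_subset_iff.2 hp) _ (Gk_meas p)
  rw [Ind.inter lam hdisj hE hm, h1]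

theorem trace_set_meas (Λ A : Finset (Site d)) (T : ℕ) (t : Set (List (Finset (Site d)))) :
    MeasurableSet[Fs {p : Site d × ℤ | p.1 ∈ Λ ∧ (0 : ℤ) ≤ p.2 ∧ p.2 < 0 + T}]
      {ω : Om d | trace Λ 0 T ω A ∈ t} :=
  Run.trace_meas Λ 0 T A (t := t) trivial

open Classical in
/-- The main step: with few points to kill everything is killed with a conditional probability
which is bounded below. -/
theorem main_step (hW : WLAW_spec) (hKD : KILLDET_spec) (lam : ℝ≥0) (A Λ : Finset (Site d))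
    (hA : A ⊆ Λ) (T C : ℕ) (R : List (Finset (Site d)) → Prop) :
    p0 d lam ^ (2 * C) * (P lam).real {ω : Om d | R (trace Λ 0 T ω A) ∧
        NT Λ A T (trace Λ 0 T ω A) ≤ C} ≤
      (P lam).real ({ω : Om d | R (trace Λ 0 T ω A) ∧
        NT Λ A T (trace Λ 0 T ω A) ≤ C} ∩ {ω : Om d | ∃ m, ¬ alive 0 m ω A}) := by
  have hc0 : 0 ≤ p0 d lam ^ (2 * C) := (pow_pos (p0_pos d lam) _).le
  have h := sum_bound (P lam) (fun ω : Om d => trace Λ 0 T ω A)
    (fun v => Ind.Fs_le _ _ (trace_set_meas Λ A T {v}))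
    (fun L => R L ∧ NT Λ A T L ≤ C) (fun L => ⋂ p ∈ VT Λ A T L, Gk p)
    (fun v => Finset.measurableSet_biInter _ fun p _ => Ind.Fs_le _ _ (Gk_meas p))
    (ENNReal.ofReal (p0 d lam ^ (2 * C))) (by
      rintro L ⟨-, hL⟩
      have h1 := kill_all hW lam {p : Site d × ℤ | p.1 ∈ Λ ∧ (0 : ℤ) ≤ p.2 ∧ p.2 < 0 + T}
        {ω : Om d | trace Λ 0 T ω A = L} (trace_set_meas Λ A T {L}) (VT Λ A T L)
        (VT_disj Λ A T L)
      have h2 : p0 d lam ^ (2 * C) ≤ p0 d lam ^ (VT Λ A T L).card :=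
        pow_le_pow_of_le_one (p0_pos d lam).le (p0_le_one d lam)
          ((card_VT Λ A T L).trans (by omega))
      have h3 : p0 d lam ^ (2 * C) * (P lam).real {ω : Om d | trace Λ 0 T ω A = L} ≤
          (P lam).real ({ω : Om d | trace Λ 0 T ω A = L} ∩ ⋂ p ∈ VT Λ A T L, Gk p) := by
        rw [h1, mul_comm]
        exact mul_le_mul_of_nonneg_left h2 measureReal_nonneg
      have h4 := ENNReal.ofReal_le_ofReal h3
      rw [ENNReal.ofReal_mul hc0, ofReal_measureReal, ofReal_measureReal] at h4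
      exact h4)
  have h5 := ENNReal.toReal_mono (measure_ne_top _ _) h
  rw [ENNReal.toReal_mul, ENNReal.toReal_ofReal hc0] at h5
  refine le_trans h5 (measureReal_mono ?_)
  rintro ω ⟨h6, h7⟩
  have h7' : ∀ p ∈ VT Λ A T (trace Λ 0 T ω A), Qk p.1 p.2 ω := by
    intro p hp
    simp only [Set.mem_iInter] at h7
    exact Gk_sub (h7 p hp)
  refine ⟨h6, T + 1, hKD d ω Λ A T hA ?_ ?_⟩
  · intro x hx
    rw [SymRun.run_eq] at hx
    have hmem : (x, (T : ℤ)) ∈ VT Λ A T (trace Λ 0 T ω A) := by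
      unfold VT
      exact Finset.mem_union_left _ (Finset.mem_image_of_mem _ hx)
    exact h7' (x, (T : ℤ)) hmem
  · intro k hk x hx
    rw [SymRun.exits_eq Λ 0 T ω A k hk] at hx
    have hmem1 : (x, (k : ℤ)) ∈ VT Λ A T (trace Λ 0 T ω A) := by
      unfold VT
      refine Finset.mem_union_right _ (Finset.mem_biUnion.2 ⟨k, Finset.mem_range.2 hk, ?_⟩)
      exact Finset.mem_union_left _ (Finset.mem_image_of_mem _ hx)
    have hmem2 : (x, (k : ℤ) + 1) ∈ VT Λ A T (trace Λ 0 T ω A) := by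
      unfold VT
      refine Finset.mem_union_right _ (Finset.mem_biUnion.2 ⟨k, Finset.mem_range.2 hk, ?_⟩)
      exact Finset.mem_union_right _
        (Finset.mem_image_of_mem (fun x : Site d => (x, (k : ℤ) + 1)) hx)
    exact ⟨h7' (x, (k : ℤ)) hmem1, h7' (x, (k : ℤ) + 1) hmem2⟩

theorem fold_empty (w : List (Letter d)) : fold (∅ : Finset (Site d)) w = ∅ := by
  induction w with
  | nil => rfl
  | cons l w ih =>
    have h : upd (∅ : Finset (Site d)) l = ∅ := by
      unfold upd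
      split <;> simp
    change fold (upd ∅ l) w = ∅
    rw [h, ih]

end Kill

open Kill in
theorem kill_holds (hW : WLAW_spec) (hKD : KILLDET_spec) (hE : EXIT0_spec) : KILL_spec := by
  intro d lam A C ε hε
  set c : ℝ := p0 d lam ^ (2 * C) with hc
  have hc0 : 0 < c := pow_pos (p0_pos d lam) _
  set η : ℝ := ε * c with hη
  have hη0 : 0 < η := mul_pos hε hc0
  obtain ⟨t0, ht0⟩ : ∃ t0 : ℕ, sv lam A t0 ≤ 1 - hv lam A + η / 2 := by
    have h := (Sv.sv_tendsto lam A).eventually (gt_mem_nhds (show 1 - hv lam A <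
      1 - hv lam A + η / 2 by linarith))
    obtain ⟨t0, ht0⟩ := h.exists
    exact ⟨t0, ht0.le⟩
  obtain ⟨L1, hL1⟩ := hE d lam A t0 (η / 2) (by linarith)
  obtain ⟨n, hn⟩ := Sv.exists_bx A
  refine ⟨max L1 n, t0, fun L T hL hT => ?_⟩
  have hLL1 : L1 ≤ L := (le_max_left _ _).trans hL
  have hLn : n ≤ L := (le_max_right _ _).trans hL
  set Λ : Finset (Site d) := bx 0 L with hΛ
  have hAΛ : A ⊆ Λ := hn.trans (Sv.bx_mono 0 hLn)
  have eN : ∀ ω : Om d, (run Λ 0 T ω A).card + ∑ k ∈ Finset.range T, (exits Λ 0 k ω A).card =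
      NT Λ A T (trace Λ 0 T ω A) := fun ω => (NT_trace Λ A T ω).symm
  simp only [eN]
  set F0 : Set (Om d) := {ω | NT Λ A T (trace Λ 0 T ω A) = 0} with hF0
  set F1 : Set (Om d) := {ω | 1 ≤ NT Λ A T (trace Λ 0 T ω A) ∧
    NT Λ A T (trace Λ 0 T ω A) ≤ C} with hF1
  set X : Set (Om d) := {ω | ∃ m, ¬ alive 0 m ω A} with hX
  have hstep : c * (P lam).real F1 ≤ (P lam).real (F1 ∩ X) :=
    main_step hW hKD lam A Λ hAΛ T C (fun L => 1 ≤ NT Λ A T L)
  have hF0m : MeasurableSet F0 :=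
    Ind.Fs_le _ _ (trace_set_meas Λ A T {L | NT Λ A T L = 0})
  have hF0X : F0 ⊆ X := by
    intro ω hω
    have h0 : (run Λ 0 T ω A).card + ∑ k ∈ Finset.range T, (exits Λ 0 k ω A).card = 0 := by
      rw [eN]
      exact hω
    have h1 : (run Λ 0 T ω A) = ∅ := Finset.card_eq_zero.1 (by omega)
    have h2 : ∀ k ∈ Finset.range T, (exits Λ 0 k ω A).card = 0 :=
      Finset.sum_eq_zero_iff.1 (by omega)
    refine ⟨T + 1, hKD d ω Λ A T hAΛ ?_ ?_⟩
    · intro x hx
      rw [h1] at hx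
      simp at hx
    · intro k hk x hx
      rw [Finset.card_eq_zero.1 (h2 k (Finset.mem_range.2 hk))] at hx
      simp at hx
  have hsum : (P lam).real F0 + (P lam).real (F1 ∩ X) ≤ hv lam A := by
    rw [Sv.hv_eq, add_comm, ← measureReal_union _ hF0m]
    · exact measureReal_mono (Set.union_subset Set.inter_subset_right hF0X)
    · rw [Set.disjoint_left]
      rintro ω ⟨⟨h1, -⟩, -⟩ h2
      have h2' : NT Λ A T (trace Λ 0 T ω A) = 0 := h2
      omega
  have hF : {ω : Om d | NT Λ A T (trace Λ 0 T ω A) ≤ C} ⊆ F0 ∪ F1 := by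
    intro ω hω
    rcases Nat.eq_zero_or_pos (NT Λ A T (trace Λ 0 T ω A)) with h | h
    · exact Or.inl h
    · exact Or.inr ⟨h, hω⟩
  have hPF : (P lam).real {ω : Om d | NT Λ A T (trace Λ 0 T ω A) ≤ C} ≤
      (P lam).real F0 + (P lam).real F1 :=
    (measureReal_mono hF).trans (measureReal_union_le _ _)
  -- the lower bound for `F0`
  have hcover : (Set.univ : Set (Om d)) ⊆ (F0 ∪ {ω | alive 0 t0 ω A}) ∪
      {ω | ∃ k, k < t0 ∧ (exits (bx 0 L) 0 k ω A).Nonempty} := by
    intro ω _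
    by_cases h1 : alive 0 t0 ω A
    · exact Or.inl (Or.inr h1)
    by_cases h2 : ∃ k, k < t0 ∧ (exits (bx 0 L) 0 k ω A).Nonempty
    · exact Or.inr h2
    refine Or.inl (Or.inl ?_)
    have hrun : ∀ k, t0 ≤ k → run Λ 0 k ω A = ∅ := by
      intro k hk
      by_contra hne
      exact h1 ⟨Λ, Sv.run_nonempty_of_le hk (Finset.nonempty_iff_ne_empty.2 hne)⟩
    have hex : ∀ k, exits Λ 0 k ω A = ∅ := by
      intro k
      by_cases hk : k < t0
      · by_contra hne
        exact h2 ⟨k, hk, Finset.nonempty_iff_ne_empty.2 hne⟩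
      · rw [exits, hrun k (not_lt.1 hk), strip, fold_empty]
        simp
    change NT Λ A T (trace Λ 0 T ω A) = 0
    rw [← eN, hrun T hT]
    simp [hex]
  have hone : 1 ≤ (P lam).real F0 + (P lam).real {ω : Om d | alive 0 t0 ω A} +
      (P lam).real {ω : Om d | ∃ k, k < t0 ∧ (exits (bx 0 L) 0 k ω A).Nonempty} := by
    calc (1 : ℝ) = (P lam).real (Set.univ : Set (Om d)) := by simp
      _ ≤ _ := measureReal_mono hcover
      _ ≤ _ := measureReal_union_le _ _
      _ ≤ _ := by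
        gcongr
        exact measureReal_union_le _ _
  have hsv : (P lam).real {ω : Om d | alive 0 t0 ω A} ≤ 1 - hv lam A + η / 2 := ht0
  have hex := hL1 L hLL1
  have hF1ε : (P lam).real F1 ≤ ε := by
    have h1 : c * (P lam).real F1 ≤ ε * c := by linarith
    nlinarith
  have hF0h : (P lam).real F0 ≤ hv lam A := by
    have := measureReal_nonneg (μ := P lam) (s := F1 ∩ X)
    linarith
  linarith

end Pool.Agent.Lib.MP_c12170_pr
end

section
open MeasureTheory ProbabilityTheory Filter Topology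
open scoped ENNReal NNReal

namespace Pool.Agent.Lib.MP_c12170_pr

namespace Theta

variable {d : ℕ}

/-- Some site of `B` is reached from time `s` (from all of `Λ`) after `m` strips. -/
def Um (s : ℤ) (m : ℕ) (ω : Om d) (B : Finset (Site d)) : Prop :=
  ∃ Λ : Finset (Site d), (run Λ s m ω Λ ∩ B).Nonempty

theorem um_meas_Fs (s : ℤ) (m : ℕ) (B : Finset (Site d)) :
    MeasurableSet[Fs {p : Site d × ℤ | s ≤ p.2 ∧ p.2 < s + m}] {ω : Om d | Um s m ω B} := by
  have e : {ω : Om d | Um s m ω B} =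
      ⋃ Λ : Finset (Site d), {ω : Om d | (run Λ s m ω Λ ∩ B).Nonempty} := by
    ext ω; simp [Um]
  rw [e]
  refine MeasurableSet.iUnion fun Λ => ?_
  have hsub : {p : Site d × ℤ | p.1 ∈ Λ ∧ s ≤ p.2 ∧ p.2 < s + m} ⊆
      {p : Site d × ℤ | s ≤ p.2 ∧ p.2 < s + m} := fun p hp => ⟨hp.2.1, hp.2.2⟩
  exact Ind.Fs_mono hsub _ (Run.run_meas Λ s m Λ (t := {C | (C ∩ B).Nonempty}) trivial)

theorem um_meas (s : ℤ) (m : ℕ) (B : Finset (Site d)) :
    MeasurableSet {ω : Om d | Um s m ω B} := Ind.Fs_le _ _ (um_meas_Fs s m B)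

/-- Starting one strip earlier gives fewer infected sites. -/
theorem run_earlier (Λ : Finset (Site d)) (s : ℤ) (m : ℕ) (ω : Om d) :
    run Λ (s - 1) (m + 1) ω Λ ⊆ run Λ s m ω Λ := by
  rw [Nat.add_comm m 1, Run.run_add]
  have : s - 1 + (1 : ℕ) = s := by push_cast; ring
  rw [this]
  exact Run.run_mono (Finset.Subset.refl Λ) s m ω (Run.run_sub _ _ _ _ _)

theorem um_succ {s : ℤ} {m : ℕ} {ω : Om d} {B : Finset (Site d)} (h : Um (s - 1) (m + 1) ω B) :
    Um s m ω B := by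
  obtain ⟨Λ, hΛ⟩ := h
  exact ⟨Λ, hΛ.mono (Finset.inter_subset_inter_right (run_earlier Λ s m ω))⟩

theorem um_anti {i : ℤ} {m m' : ℕ} (h : m ≤ m') {ω : Om d} {B : Finset (Site d)}
    (hu : Um (i - m') m' ω B) : Um (i - m) m ω B := by
  induction m', h using Nat.le_induction with
  | base => exact hu
  | succ k hk ih =>
    refine ih (um_succ ?_)
    have : i - (k + 1 : ℕ) = i - k - 1 := by push_cast; ring
    rw [this] at hu
    exact hu

/-- The probability of `Um` is the survival probability (duality). -/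
theorem um_prob (hD : DUAL_spec) (lam : ℝ≥0) (s : ℤ) (m : ℕ) (B : Finset (Site d)) :
    (P lam).real {ω : Om d | Um s m ω B} = sv lam B m := by
  have hmono : Monotone (fun L : ℕ => {ω : Om d | (run (bx 0 L) s m ω (bx 0 L) ∩ B).Nonempty}) := by
    intro L L' h ω hω
    exact Finset.Nonempty.mono (Finset.inter_subset_inter_right
      (Run.run_mono (Sv.bx_mono 0 h) s m ω (Sv.bx_mono 0 h))) hω
  have h := tendsto_measure_iUnion_atTop (μ := P lam) hmono
  have e : (⋃ L : ℕ, {ω : Om d | (run (bx 0 L) s m ω (bx 0 L) ∩ B).Nonempty}) =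
      {ω : Om d | Um s m ω B} := by
    ext ω
    simp only [Set.mem_iUnion, Set.mem_ofPred_eq, Um]
    constructor
    · rintro ⟨L, hL⟩
      exact ⟨_, hL⟩
    · rintro ⟨Λ, hΛ⟩
      obtain ⟨L, hL⟩ := Sv.exists_bx Λ
      exact ⟨L, hΛ.mono (Finset.inter_subset_inter_right (Run.run_mono hL s m ω hL))⟩
  rw [e] at h
  have h1 := (ENNReal.tendsto_toReal (measure_ne_top _ _)).comp h
  have h2 : Tendsto (fun L : ℕ => (P lam).real {ω : Om d | (run (bx 0 L) 0 m ω B).Nonempty}) atTop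
      (𝓝 ((P lam).real {ω : Om d | Um s m ω B})) := by
    refine h1.congr fun L => ?_
    have h3 := hD d lam (bx 0 L) s 0 m (bx 0 L) B
    have h4 : ∀ ω : Om d, run (bx 0 L) 0 m ω B ∩ bx 0 L = run (bx 0 L) 0 m ω B :=
      fun ω => Finset.inter_eq_left.2 (Run.run_sub _ _ _ _ _)
    simp only [h4] at h3
    exact h3
  exact tendsto_nhds_unique h2 (Sv.tendsto_alive lam 0 m B)

theorem etaS_iff (ω : Om d) (i : ℤ) (x : Site d) :
    EtaS ω i x ↔ ∀ m : ℕ, Um (i - m) m ω {x} := by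
  unfold EtaS Um
  refine forall_congr' fun m => exists_congr fun Λ => ?_
  constructor
  · intro h
    exact ⟨x, by simp [h]⟩
  · rintro ⟨y, hy⟩
    simp only [Finset.mem_inter, Finset.mem_singleton] at hy
    rw [← hy.2]; exact hy.1

/-- `EtaS ω i x` only depends on the strips before `i`. -/
theorem etaS_meas_Fs (i : ℤ) (x : Site d) :
    MeasurableSet[Fs {p : Site d × ℤ | p.2 < i}] {ω : Om d | EtaS ω i x} := by
  have e : {ω : Om d | EtaS ω i x} = ⋂ m : ℕ, {ω : Om d | Um (i - m) m ω {x}} := by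
    ext ω; simp [etaS_iff]
  rw [e]
  refine MeasurableSet.iInter fun m => ?_
  have hsub : {p : Site d × ℤ | i - m ≤ p.2 ∧ p.2 < i - m + m} ⊆
      {p : Site d × ℤ | p.2 < i} := fun p hp => by
    have := hp.2
    simp only [Set.mem_ofPred_eq]
    omega
  exact Ind.Fs_mono hsub _ (um_meas_Fs (i - m) m {x})

theorem etaS_meas (i : ℤ) (x : Site d) : MeasurableSet {ω : Om d | EtaS ω i x} :=
  Ind.Fs_le _ _ (etaS_meas_Fs i x)

theorem theta_eq (hS : SYM_spec) (hD : DUAL_spec) (lam : ℝ≥0) (i : ℤ) (x : Site d) :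
    (P lam).real {ω : Om d | EtaS ω i x} = 1 - hv lam ({0} : Finset (Site d)) := by
  have hanti : Antitone (fun m : ℕ => {ω : Om d | Um (i - m) m ω {x}}) :=
    fun _ _ h _ hω => um_anti h hω
  have h := tendsto_measure_iInter_atTop (μ := P lam)
    (fun m : ℕ => (um_meas (i - m) m {x}).nullMeasurableSet) hanti ⟨0, measure_ne_top _ _⟩
  have h' := (ENNReal.tendsto_toReal (measure_ne_top _ _)).comp h
  have e : (⋂ m : ℕ, {ω : Om d | Um (i - m) m ω {x}}) = {ω : Om d | EtaS ω i x} := by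
    ext ω; simp [etaS_iff]
  rw [e] at h'
  have h2 : Tendsto (fun m : ℕ => sv lam ({0} : Finset (Site d)) m) atTop
      (𝓝 ((P lam).real {ω : Om d | EtaS ω i x})) := by
    refine h'.congr fun m => ?_
    have h3 := um_prob hD lam (i - m) m {x}
    have h4 : (Aut.tr x).im ({0} : Finset (Site d)) = {x} := by
      ext y
      rw [SymRun.mem_tr_im]
      simp [sub_eq_zero]
    rw [← h4, Sv.sv_tr hS, h4] at h3
    exact h3
  exact tendsto_nhds_unique h2 (Sv.sv_tendsto lam {0})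

end Theta

theorem theta_holds (hS : SYM_spec) (hD : DUAL_spec) : THETA_spec :=
  fun _ lam i x => Theta.theta_eq hS hD lam i x

end Pool.Agent.Lib.MP_c12170_pr
end

section
open MeasureTheory ProbabilityTheory Filter Topology
open scoped ENNReal NNReal

namespace Pool.Agent.Lib.MP_c12170_pr

namespace Main

variable {d : ℕ}

instance instBern (ρ : unitInterval) : IsProbabilityMeasure (bern ρ) := by
  unfold bern; infer_instance

theorem zs_meas (i : ℕ) :
    MeasurableSet {p : Om d × (ℕ → Site d) | EtaS p.1 (i : ℤ) (p.2 i)} := by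
  have e : {p : Om d × (ℕ → Site d) | EtaS p.1 (i : ℤ) (p.2 i)} =
      ⋃ x : Site d, {ω : Om d | EtaS ω (i : ℤ) x} ×ˢ {X : ℕ → Site d | X i = x} := by
    ext ⟨ω, X⟩
    simp
  rw [e]
  refine MeasurableSet.iUnion fun x => (Theta.etaS_meas (i : ℤ) x).prod ?_
  exact measurableSet_eq_fun (measurable_pi_apply i) measurable_const

open Classical in
/-- Strip version of `Zseq`. -/
noncomputable def ZS (p : Om d × (ℕ → Site d)) (i : ℕ) : Bool :=
  decide (EtaS p.1 (i : ℤ) (p.2 i))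

theorem ZS_meas : Measurable (ZS (d := d)) := by
  classical
  refine measurable_pi_lambda _ fun i => ?_
  refine measurable_to_bool ?_
  have e : (fun p : Om d × (ℕ → Site d) => ZS p i) ⁻¹' {true} =
      {p : Om d × (ℕ → Site d) | EtaS p.1 (i : ℤ) (p.2 i)} := by
    ext p; simp [ZS]
  rw [e]
  exact zs_meas i

theorem Zseq_ae (hB : BRIDGE_spec) (lam : ℝ≥0) (ν : Measure (ℕ → Site d))
    [IsProbabilityMeasure ν] :
    ∀ᵐ p ∂((P lam).prod ν), Zseq p = ZS p := by
  have h1 : ∀ᵐ p ∂((P (d := d) lam).prod ν), ∀ (i : ℤ) (x : Site d),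
      Eta p.1 (i : ℝ) x ↔ EtaS p.1 i x :=
    (Measure.quasiMeasurePreserving_fst).ae (hB d lam)
  filter_upwards [h1] with p hp
  funext i
  have h2 := hp (i : ℤ) (p.2 i)
  rw [Int.cast_natCast] at h2
  exact decide_eq_decide.2 h2

/-- The coins and the thinned observations. -/
noncomputable def WW (i : ℕ) (q : (Om d × (ℕ → Site d)) × (ℕ → Bool)) : Bool :=
  q.2 i && ZS q.1 i

theorem WW_meas (i : ℕ) : Measurable (WW (d := d) i) := by
  have h1 : Measurable (fun q : (Om d × (ℕ → Site d)) × (ℕ → Bool) => (q.2 i, ZS q.1 i)) :=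
    ((measurable_pi_apply i).comp measurable_snd).prodMk
      ((measurable_pi_apply i).comp (ZS_meas.comp measurable_fst))
  exact (Measurable.of_discrete (f := fun b : Bool × Bool => b.1 && b.2)).comp h1

/-- Probability of a value of the thinned observation. -/
noncomputable def pr (δ : ℝ) (w z : Bool) : ℝ :=
  if w then (if z then δ else 0) else (if z then 1 - δ else 1)

theorem bern_one (δ : unitInterval) (w z : Bool) :
    (bernoulliMeasure true false δ : Measure Bool) {x : Bool | (x && z) = w} =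
      ENNReal.ofReal (pr (δ : ℝ) w z) := by
  have h1 : ((unitInterval.toNNReal δ : ℝ≥0) : ℝ≥0∞) = ENNReal.ofReal (δ : ℝ) := by
    rw [ENNReal.ofReal, Real.toNNReal_of_nonneg δ.2.1]; rfl
  have h2 : ((unitInterval.toNNReal (unitInterval.symm δ) : ℝ≥0) : ℝ≥0∞) =
      ENNReal.ofReal (1 - δ : ℝ) := by
    rw [ENNReal.ofReal, Real.toNNReal_of_nonneg (by linarith [δ.2.2])]; rfl
  rw [bernoulliMeasure_def]
  have hsum : ENNReal.ofReal (δ : ℝ) + ENNReal.ofReal (1 - δ : ℝ) = 1 := by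
    rw [← ENNReal.ofReal_add δ.2.1 (by linarith [δ.2.2])]; simp
  cases w <;> cases z <;>
    simp [pr, Measure.add_apply, Measure.smul_apply, h1, h2, hsum]

theorem bern_formula (δ : unitInterval) (n : ℕ) (w z : ℕ → Bool) :
    (bern δ).real {ξ : ℕ → Bool | ∀ i < n, (ξ i && z i) = w i} =
      ∏ i ∈ Finset.range n, pr δ (w i) (z i) := by
  have hset : {ξ : ℕ → Bool | ∀ i < n, (ξ i && z i) = w i} =
      Set.pi (Finset.range n : Set ℕ) (fun i => {x : Bool | (x && z i) = w i}) := by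
    ext ξ
    simp [Set.mem_pi]
  have h := Measure.infinitePi_pi (μ := fun _ : ℕ => (bernoulliMeasure true false δ : Measure Bool))
    (s := Finset.range n) (t := fun i => {x : Bool | (x && z i) = w i})
    (fun _ _ => MeasurableSet.of_discrete)
  rw [Measure.real, hset, bern, h, ENNReal.toReal_prod]
  refine Finset.prod_congr rfl fun i _ => ?_
  rw [bern_one, ENNReal.toReal_ofReal]
  unfold pr
  have := δ.2.1
  have := δ.2.2
  split_ifs <;> linarith

/-- The weight of a pattern. -/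
noncomputable def wgt (δ : ℝ) (n : ℕ) (w : ℕ → Bool) (p : Om d × (ℕ → Site d)) : ℝ :=
  ∏ i ∈ Finset.range n, pr δ (w i) (ZS p i)

theorem pr_bounds {δ : ℝ} (h0 : 0 ≤ δ) (h1 : δ ≤ 1) (w z : Bool) :
    0 ≤ pr δ w z ∧ pr δ w z ≤ 1 := by
  unfold pr
  split_ifs <;> constructor <;> linarith

theorem wgt_bounds {δ : ℝ} (h0 : 0 ≤ δ) (h1 : δ ≤ 1) (n : ℕ) (w : ℕ → Bool)
    (p : Om d × (ℕ → Site d)) : 0 ≤ wgt δ n w p ∧ wgt δ n w p ≤ 1 :=
  ⟨Finset.prod_nonneg fun _ _ => (pr_bounds h0 h1 _ _).1,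
    Finset.prod_le_one (fun _ _ => (pr_bounds h0 h1 _ _).1) fun _ _ => (pr_bounds h0 h1 _ _).2⟩

theorem wgt_meas (δ : ℝ) (n : ℕ) (w : ℕ → Bool) : Measurable (wgt (d := d) δ n w) := by
  refine Finset.measurable_prod _ fun i _ => ?_
  exact (Measurable.of_discrete (f := fun z : Bool => pr δ (w i) z)).comp
    ((measurable_pi_apply i).comp ZS_meas)

/-- The probability of a pattern of the thinned observations. -/
theorem pattern_prob (lam : ℝ≥0) (ν : Measure (ℕ → Site d)) [IsProbabilityMeasure ν]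
    (δ : unitInterval) (n : ℕ) (w : ℕ → Bool) :
    (((P lam).prod ν).prod (bern δ)).real {q | ∀ i < n, WW i q = w i} =
      ∫ p, wgt (δ : ℝ) n w p ∂((P lam).prod ν) := by
  have hm : MeasurableSet {q : (Om d × (ℕ → Site d)) × (ℕ → Bool) | ∀ i < n, WW i q = w i} := by
    have e : {q : (Om d × (ℕ → Site d)) × (ℕ → Bool) | ∀ i < n, WW i q = w i} =
        ⋂ i : ℕ, ⋂ _ : i < n, {q | WW i q = w i} := by
      ext q; simp
    rw [e]
    exact MeasurableSet.iInter fun i => MeasurableSet.iInter fun _ =>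
      measurableSet_eq_fun (WW_meas i) measurable_const
  rw [Measure.real, Measure.prod_apply hm, ← integral_toReal]
  · refine integral_congr_ae (Eventually.of_forall fun p => ?_)
    exact bern_formula δ n w (ZS p)
  · exact (measurable_measure_prodMk_left hm).aemeasurable
  · exact Eventually.of_forall fun p => measure_lt_top _ _

/-- The pattern `w` followed by a one. -/
theorem wgt_succ (δ : ℝ) (n : ℕ) (w : ℕ → Bool) (p : Om d × (ℕ → Site d)) :
    wgt δ (n + 1) (Function.update w n true) p = wgt δ n w p * (if ZS p n then δ else 0) := by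
  unfold wgt
  rw [Finset.prod_range_succ]
  congr 1
  · refine Finset.prod_congr rfl fun i hi => ?_
    rw [Function.update_of_ne (Finset.mem_range.1 hi).ne]
  · simp [pr]

open Classical in
/-- The weight in terms of the random set of times. -/
theorem wgt_eq (δ : ℝ) (n : ℕ) (w : ℕ → Bool) (ω : Om d) (X : ℕ → Site d) :
    wgt δ n w (ω, X) = δ ^ ((Finset.range n).filter fun i => w i = true).card *
      (if ((Finset.range n).filter fun i => w i = true) ⊆
          ((Finset.range (n + 1)).filter fun i : ℕ => EtaS ω (i : ℤ) (X i)) then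
        (1 - δ) ^ (((Finset.range (n + 1)).filter fun i : ℕ => EtaS ω (i : ℤ) (X i)) ∩
          ((Finset.range n).filter fun i => w i = false)).card else 0) := by
  set A := (Finset.range (n + 1)).filter fun i : ℕ => EtaS ω (i : ℤ) (X i) with hA
  set T := (Finset.range n).filter fun i => w i = true with hT
  set S := (Finset.range n).filter fun i => w i = false with hS
  have hmem : ∀ i, i < n → (ZS (ω, X) i = true ↔ i ∈ A) := by
    intro i hi
    simp only [ZS, decide_eq_true_eq, hA, Finset.mem_filter, Finset.mem_range]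
    constructor
    · intro h; exact ⟨by omega, h⟩
    · exact fun h => h.2
  have hsplit : wgt δ n w (ω, X) = (∏ i ∈ T, (if i ∈ A then δ else 0)) *
      ∏ i ∈ S, (if i ∈ A then 1 - δ else 1) := by
    unfold wgt
    rw [← Finset.prod_filter_mul_prod_filter_not (Finset.range n) (fun i => w i = true)]
    congr 1
    · refine Finset.prod_congr rfl fun i hi => ?_
      rw [Finset.mem_filter, Finset.mem_range] at hi
      have := hmem i hi.1
      by_cases h : i ∈ A
      · simp [pr, hi.2, this.2 h, h]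
      · have h' : ZS (ω, X) i = false := by
          rw [← Bool.not_eq_true]; exact fun h'' => h (this.1 h'')
        simp [pr, hi.2, h', h]
    · refine Finset.prod_congr (by rw [hS]; congr 1; ext i; simp) fun i hi => ?_
      rw [hS, Finset.mem_filter, Finset.mem_range] at hi
      have := hmem i hi.1
      by_cases h : i ∈ A
      · simp [pr, hi.2, this.2 h, h]
      · have h' : ZS (ω, X) i = false := by
          rw [← Bool.not_eq_true]; exact fun h'' => h (this.1 h'')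
        simp [pr, hi.2, h', h]
  have hprodS : ∏ i ∈ S, (if i ∈ A then 1 - δ else 1) = (1 - δ) ^ (A ∩ S).card := by
    rw [Finset.prod_ite, Finset.prod_const, Finset.prod_const_one, mul_one, Finset.filter_mem_eq_inter,
      Finset.inter_comm]
  rw [hsplit, hprodS]
  by_cases hTA : T ⊆ A
  · rw [if_pos hTA]
    congr 1
    rw [Finset.prod_congr rfl (g := fun _ => δ) (fun i hi => if_pos (hTA hi)), Finset.prod_const]
  · rw [if_neg hTA, mul_zero]
    obtain ⟨i, hi, hiA⟩ := Finset.not_subset.1 hTA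
    rw [Finset.prod_eq_zero hi (if_neg hiA), zero_mul]

open Classical in
/-- The random set of times. -/
noncomputable def At (X : ℕ → Site d) (n : ℕ) (ω : Om d) : Finset ℕ :=
  (Finset.range n).filter fun i : ℕ => EtaS ω (i : ℤ) (X i)

theorem At_meas (X : ℕ → Site d) (n : ℕ) : Measurable (At X n) := by
  refine measurable_to_countable' fun B => ?_
  have e : At X n ⁻¹' {B} = ⋂ i : ℕ, {ω : Om d | (i < n ∧ EtaS ω (i : ℤ) (X i)) ↔ i ∈ B} := by
    ext ω
    simp only [Set.mem_preimage, Set.mem_singleton_iff, Set.mem_iInter, Set.mem_ofPred_eq,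
      Finset.ext_iff, At, Finset.mem_filter, Finset.mem_range]
  rw [e]
  refine MeasurableSet.iInter fun i => ?_
  have h1 : MeasurableSet {ω : Om d | i < n ∧ EtaS ω (i : ℤ) (X i)} := by
    by_cases hi : i < n
    · have : {ω : Om d | i < n ∧ EtaS ω (i : ℤ) (X i)} = {ω : Om d | EtaS ω (i : ℤ) (X i)} := by
        ext ω; simp [hi]
      rw [this]
      exact Theta.etaS_meas (i : ℤ) (X i)
    · have : {ω : Om d | i < n ∧ EtaS ω (i : ℤ) (X i)} = ∅ := by
        ext ω; simp [hi]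
      rw [this]
      exact MeasurableSet.empty
  by_cases hB : i ∈ B
  · have : {ω : Om d | (i < n ∧ EtaS ω (i : ℤ) (X i)) ↔ i ∈ B} =
        {ω : Om d | i < n ∧ EtaS ω (i : ℤ) (X i)} := by
      ext ω; simp [hB]
    rw [this]; exact h1
  · have : {ω : Om d | (i < n ∧ EtaS ω (i : ℤ) (X i)) ↔ i ∈ B} =
        {ω : Om d | i < n ∧ EtaS ω (i : ℤ) (X i)}ᶜ := by
      ext ω
      simp only [hB, iff_false, Set.mem_ofPred_eq, Set.mem_compl_iff]
    rw [this]; exact h1.compl

theorem int_At (lam : ℝ≥0) (X : ℕ → Site d) (n : ℕ) (F : Finset ℕ → ℝ) :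
    ∫ A, F A ∂((P lam).map (At X n)) = ∫ ω, F (At X n ω) ∂(P lam) :=
  integral_map (At_meas X n).aemeasurable
    (measurable_from_top (f := F)).aestronglyMeasurable

/-- The key inequality for a fixed path. -/
theorem fixed_path (hZ : DFZ_spec) (hT : THIN_spec) (lam : ℝ≥0) {δ c : ℝ} (hδ0 : 0 < δ)
    (hδ1 : δ < 1) (X : ℕ → Site d) (n : ℕ)
    (hE : ∀ S : Finset ℕ, S ⊆ Finset.range n →
      c * ∫ ω, (1 - δ) ^ (At X (n + 1) ω ∩ S).card ∂(P lam) ≤
        ∫ ω, (if n ∈ At X (n + 1) ω then (1 - δ) ^ (At X (n + 1) ω ∩ S).card else 0) ∂(P lam))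
    (T S : Finset ℕ) (hTS : Disjoint S T) (hS : S ⊆ Finset.range n) :
    c * ∫ ω, (if T ⊆ At X (n + 1) ω then (1 - δ) ^ (At X (n + 1) ω ∩ S).card else 0) ∂(P lam) ≤
      ∫ ω, (if T ⊆ At X (n + 1) ω ∧ n ∈ At X (n + 1) ω then
        (1 - δ) ^ (At X (n + 1) ω ∩ S).card else 0) ∂(P lam) := by
  have hprob : IsProbabilityMeasure ((P lam).map (At X (n + 1))) :=
    Measure.isProbabilityMeasure_map (At_meas X (n + 1)).aemeasurable
  have hDF : DF ((P lam).map (At X (n + 1))) := hZ d lam X (n + 1)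
  have hthin := (hT _ hDF δ hδ0.le hδ1.le).1 S T n hTS (fun h => by
    have := hS h; simp at this)
  have hEn := hE S hS
  rw [int_At lam X (n + 1) (fun A => if T ⊆ A then (1 - δ) ^ (A ∩ S).card else 0),
    int_At lam X (n + 1) (fun A => if n ∈ A then (1 - δ) ^ (A ∩ S).card else 0),
    int_At lam X (n + 1) (fun A => if T ⊆ A ∧ n ∈ A then (1 - δ) ^ (A ∩ S).card else 0),
    int_At lam X (n + 1) (fun A => (1 - δ) ^ (A ∩ S).card)] at hthin
  set a := ∫ ω, (if T ⊆ At X (n + 1) ω then (1 - δ) ^ (At X (n + 1) ω ∩ S).card else 0) ∂(P lam)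
    with ha
  set b := ∫ ω, (if n ∈ At X (n + 1) ω then (1 - δ) ^ (At X (n + 1) ω ∩ S).card else 0) ∂(P lam)
  set e := ∫ ω, (if T ⊆ At X (n + 1) ω ∧ n ∈ At X (n + 1) ω then
        (1 - δ) ^ (At X (n + 1) ω ∩ S).card else 0) ∂(P lam)
  set m := ∫ ω, (1 - δ) ^ (At X (n + 1) ω ∩ S).card ∂(P lam) with hm
  have ha0 : 0 ≤ a := by
    refine integral_nonneg fun ω => ?_
    change (0 : ℝ) ≤ if T ⊆ At X (n + 1) ω then (1 - δ) ^ (At X (n + 1) ω ∩ S).card else 0
    split_ifs
    · exact pow_nonneg (by linarith) _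
    · exact le_rfl
  have hm0 : 0 < m := by
    have hlow : ∀ ω : Om d, (1 - δ) ^ S.card ≤ (1 - δ) ^ (At X (n + 1) ω ∩ S).card := fun ω =>
      pow_le_pow_of_le_one (by linarith) (by linarith)
        (Finset.card_le_card Finset.inter_subset_right)
    have hint : Integrable (fun ω : Om d => (1 - δ) ^ (At X (n + 1) ω ∩ S).card) (P lam) := by
      refine Integrable.of_bound (C := 1) ((measurable_from_top
        (f := fun A : Finset ℕ => (1 - δ) ^ (A ∩ S).card)).comp
          (At_meas X (n + 1))).aestronglyMeasurable (Eventually.of_forall fun ω => ?_)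
      rw [Real.norm_of_nonneg (pow_nonneg (by linarith) _)]
      exact pow_le_one₀ (by linarith) (by linarith)
    calc (0 : ℝ) < (1 - δ) ^ S.card := pow_pos (by linarith) _
      _ = ∫ _ω : Om d, (1 - δ) ^ S.card ∂(P lam) := by simp
      _ ≤ m := integral_mono (integrable_const _) hint hlow
  have h1 : c * a * m ≤ e * m := by
    calc c * a * m = a * (c * m) := by ring
      _ ≤ a * b := mul_le_mul_of_nonneg_left hEn ha0
      _ ≤ e * m := hthin
  exact le_of_mul_le_mul_right h1 hm0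

theorem wgt_int (δ : ℝ) (h0 : 0 ≤ δ) (h1 : δ ≤ 1) (lam : ℝ≥0) (ν : Measure (ℕ → Site d))
    [IsProbabilityMeasure ν] (n : ℕ) (w : ℕ → Bool) :
    Integrable (wgt (d := d) δ n w) ((P lam).prod ν) := by
  refine Integrable.of_bound (C := 1) (wgt_meas δ n w).aestronglyMeasurable
    (Eventually.of_forall fun p => ?_)
  rw [Real.norm_of_nonneg (wgt_bounds h0 h1 n w p).1]
  exact (wgt_bounds h0 h1 n w p).2

open Classical in
theorem step (hEst : EST_spec) (hZ : DFZ_spec) (hT : THIN_spec) (lam : ℝ≥0) (hlam : 0 < lam)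
    (hθ : hv lam ({0} : Finset (Site d)) < 1) :
    ∃ δ c : ℝ, 0 < δ ∧ δ < 1 ∧ 0 < c ∧ c ≤ 1 ∧ ∀ (ν : Measure (ℕ → Site d)),
      IsProbabilityMeasure ν → ∀ (n : ℕ) (w : ℕ → Bool),
      δ * c * ∫ p, wgt δ n w p ∂((P lam).prod ν) ≤
        ∫ p, wgt δ (n + 1) (Function.update w n true) p ∂((P lam).prod ν) := by
  obtain ⟨δ, c, hδ0, hδ1, hc, hest⟩ := hEst d lam hlam hθ
  refine ⟨δ, c, hδ0, hδ1, hc, ?_, ?_⟩
  · have h := hest (fun _ => 0) 0 ∅ (by simp)
    have h1 : ∫ ω, (if EtaS ω ((0 : ℕ) : ℤ) ((fun _ => 0 : ℕ → Site d) 0) then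
        (1 - δ) ^ ((∅ : Finset ℕ).filter fun i : ℕ =>
          EtaS ω (i : ℤ) ((fun _ => 0 : ℕ → Site d) i)).card else 0) ∂(P (d := d) lam) ≤
        ∫ _ω : Om d, (1 : ℝ) ∂(P lam) := by
      refine integral_mono_of_nonneg (Eventually.of_forall fun ω => ?_) (integrable_const _)
        (Eventually.of_forall fun ω => ?_)
      · change (0 : ℝ) ≤ ite _ _ _
        split_ifs
        · exact pow_nonneg (by linarith) _
        · exact le_rfl
      · change ite _ _ _ ≤ (1 : ℝ)
        split_ifs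
        · exact pow_le_one₀ (by linarith) (by linarith)
        · norm_num
    have h2 := h.trans h1
    simpa using h2
  · intro ν hν n w
    have hi1 := wgt_int (d := d) δ hδ0.le hδ1.le lam ν n w
    have hi2 := wgt_int (d := d) δ hδ0.le hδ1.le lam ν (n + 1) (Function.update w n true)
    rw [integral_prod_symm _ hi1, integral_prod_symm _ hi2, ← integral_const_mul]
    refine integral_mono (hi1.integral_prod_right.const_mul _) hi2.integral_prod_right
      fun X => ?_
    simp only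
    set T := (Finset.range n).filter fun i => w i = true with hTdef
    set S := (Finset.range n).filter fun i => w i = false with hSdef
    have hE : ∀ S : Finset ℕ, S ⊆ Finset.range n →
        c * ∫ ω, (1 - δ) ^ (At X (n + 1) ω ∩ S).card ∂(P lam) ≤
        ∫ ω, (if n ∈ At X (n + 1) ω then (1 - δ) ^ (At X (n + 1) ω ∩ S).card else 0) ∂(P lam) := by
      intro S hS
      have h := hest X n S hS
      have e1 : ∀ ω : Om d, (S.filter fun i : ℕ => EtaS ω (i : ℤ) (X i)) =
          At X (n + 1) ω ∩ S := by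
        intro ω
        ext i
        simp only [Finset.mem_filter, At, Finset.mem_inter, Finset.mem_range]
        constructor
        · rintro ⟨h1, h2⟩
          have := Finset.mem_range.1 (hS h1)
          exact ⟨⟨by omega, h2⟩, h1⟩
        · rintro ⟨⟨_, h2⟩, h1⟩
          exact ⟨h1, h2⟩
      have e2 : ∀ ω : Om d, EtaS ω (n : ℤ) (X n) ↔ n ∈ At X (n + 1) ω := by
        intro ω
        simp [At]
      simp only [e1, e2] at h
      exact h
    have hkey := fixed_path hZ hT lam hδ0 hδ1 X n hE T S (by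
      rw [Finset.disjoint_left]
      intro i hi hi'
      rw [hSdef, Finset.mem_filter] at hi
      rw [hTdef, Finset.mem_filter] at hi'
      rw [hi.2] at hi'
      exact absurd hi'.2 (by simp)) (Finset.filter_subset _ _)
    have e1 : ∀ ω : Om d, wgt δ n w (ω, X) = δ ^ T.card *
        (if T ⊆ At X (n + 1) ω then (1 - δ) ^ (At X (n + 1) ω ∩ S).card else 0) :=
      fun ω => wgt_eq δ n w ω X
    have e2 : ∀ ω : Om d, wgt δ (n + 1) (Function.update w n true) (ω, X) = δ ^ T.card * δ *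
        (if T ⊆ At X (n + 1) ω ∧ n ∈ At X (n + 1) ω then
          (1 - δ) ^ (At X (n + 1) ω ∩ S).card else 0) := by
      intro ω
      rw [wgt_succ, e1]
      have e3 : (ZS (ω, X) n = true) ↔ n ∈ At X (n + 1) ω := by
        simp [ZS, At]
      by_cases h1 : n ∈ At X (n + 1) ω
      · rw [if_pos (e3.2 h1)]
        by_cases h2 : T ⊆ At X (n + 1) ω
        · rw [if_pos h2, if_pos ⟨h2, h1⟩]; ring
        · rw [if_neg h2, if_neg (fun h => h2 h.1)]; ring
      · rw [if_neg (fun h => h1 (e3.1 h)), mul_zero,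
          if_neg (fun h : T ⊆ At X (n + 1) ω ∧ n ∈ At X (n + 1) ω => h1 h.2), mul_zero]
    simp only [e1, e2]
    rw [integral_const_mul, integral_const_mul]
    calc δ * c * (δ ^ T.card * ∫ ω, (if T ⊆ At X (n + 1) ω then
          (1 - δ) ^ (At X (n + 1) ω ∩ S).card else 0) ∂(P lam))
        = δ ^ T.card * δ * (c * ∫ ω, (if T ⊆ At X (n + 1) ω then
          (1 - δ) ^ (At X (n + 1) ω ∩ S).card else 0) ∂(P lam)) := by ring
      _ ≤ _ := mul_le_mul_of_nonneg_left hkey (by positivity)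

end Main

/-- The final assembly. -/
theorem main_holds (hEst : EST_spec) (hZ : DFZ_spec) (hT : THIN_spec) (hD : DOM_spec)
    (hTh : THETA_spec) (hB : BRIDGE_spec) : MainStatement := by
  intro d lam hlam
  have hne : (P (d := d) lam) {ω | Eta ω 0 0} ≠ 0 := by
    intro h
    have : (lam : ℝ≥0∞) ≤ lamc d := le_iSup₂_of_le lam h le_rfl
    exact absurd hlam (not_lt.2 this)
  have hlam0 : 0 < lam := by
    rw [pos_iff_ne_zero]
    rintro rfl
    simp at hlam
  have hθ : hv lam ({0} : Finset (Site d)) < 1 := by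
    have h1 := hTh d lam 0 0
    have h2 : (P (d := d) lam).real {ω | EtaS ω 0 0} ≠ 0 := by
      have h3 : (P (d := d) lam) {ω | Eta ω 0 0} = (P lam) {ω : Om d | EtaS ω 0 0} := by
        refine measure_congr ?_
        filter_upwards [hB d lam] with ω hω
        have := hω 0 0
        rw [Int.cast_zero] at this
        exact propext this
      rw [h3] at hne
      rw [Measure.real, ENNReal.toReal_ne_zero]
      exact ⟨hne, measure_ne_top _ _⟩
    rw [h1] at h2
    have h3 := Sv.hv_le_one lam ({0} : Finset (Site d))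
    rcases h3.lt_or_eq with h | h
    · exact h
    · rw [h] at h2; simp at h2
  obtain ⟨δ, c, hδ0, hδ1, hc0, hc1, hstep⟩ := Main.step hEst hZ hT lam hlam0 hθ
  have hρ0 : 0 < δ * c := mul_pos hδ0 hc0
  have hρ1 : δ * c ≤ 1 := by nlinarith
  set ρ : unitInterval := ⟨δ * c, hρ0.le, hρ1⟩ with hρ
  set δ' : unitInterval := ⟨δ, hδ0.le, hδ1.le⟩ with hδ'
  have key : ∀ ν : Measure (ℕ → Site d), IsProbabilityMeasure ν →
      Dominates (((P lam).prod ν).map Zseq) ρ := by
    intro ν hν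
    have hae := Main.Zseq_ae hB lam ν
    have hZm : AEMeasurable (Zseq (d := d)) ((P lam).prod ν) :=
      ⟨Main.ZS, Main.ZS_meas, hae⟩
    set μ := ((P (d := d) lam).prod ν).prod (bern δ') with hμ
    have hmap : μ.map (fun q => Zseq q.1) = ((P lam).prod ν).map Zseq := by
      have h1 : μ.map Prod.fst = (P lam).prod ν := by
        rw [hμ]; exact Measure.map_fst_prod.trans (by simp)
      rw [← h1] at hZm ⊢
      rw [AEMeasurable.map_map_of_aemeasurable hZm measurable_fst.aemeasurable]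
      rfl
    rw [← hmap]
    refine hD _ μ (fun i q => Main.WW i q) (fun i => Main.WW_meas i) ρ ?_
      (fun q => Zseq q.1) ?_ ?_
    · intro n w
      have h1 := Main.pattern_prob lam ν δ' n w
      have h2 := Main.pattern_prob lam ν δ' (n + 1) (Function.update w n true)
      have h3 : {q : (Om d × (ℕ → Site d)) × (ℕ → Bool) |
          ∀ i < n + 1, Main.WW i q = Function.update w n true i} =
          {q | (∀ i < n, Main.WW i q = w i) ∧ Main.WW n q = true} := by
        ext q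
        simp only [Set.mem_ofPred_eq]
        constructor
        · intro h
          refine ⟨fun i hi => ?_, ?_⟩
          · have := h i (by omega)
            rwa [Function.update_of_ne hi.ne] at this
          · have := h n (by omega)
            rwa [Function.update_self] at this
        · rintro ⟨h, h'⟩ i hi
          rcases Nat.lt_succ_iff_lt_or_eq.1 hi with hi | rfl
          · rw [Function.update_of_ne hi.ne]; exact h i hi
          · rw [Function.update_self]; exact h'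
      rw [h3] at h2
      rw [h1, h2]
      exact hstep ν hν n w
    · have hqm : Measure.QuasiMeasurePreserving (Prod.fst :
          (Om d × (ℕ → Site d)) × (ℕ → Bool) → Om d × (ℕ → Site d)) μ ((P lam).prod ν) :=
        Measure.quasiMeasurePreserving_fst
      exact hZm.comp_quasiMeasurePreserving hqm
    · have hae' : ∀ᵐ q ∂μ, Zseq q.1 = Main.ZS q.1 :=
        (Measure.quasiMeasurePreserving_fst).ae hae
      filter_upwards [hae'] with q hq i
      rw [hq]
      unfold Main.WW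
      cases q.2 i <;> simp
  refine ⟨ρ, by rw [hρ]; exact hρ0, ?_, key⟩
  refine key (srw d) ?_
  unfold srw
  refine Measure.isProbabilityMeasure_map ?_
  refine Measurable.aemeasurable ?_
  refine measurable_pi_lambda _ fun i => ?_
  unfold walk
  refine Finset.measurable_sum _ fun j _ => ?_
  exact (Measurable.of_discrete (f := fun a : Dir d => dir a)).comp (measurable_pi_apply j)

end Pool.Agent.Lib.MP_c12170_pr
end

section
open MeasureTheory ProbabilityTheory Filter Topology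
open scoped ENNReal NNReal

namespace Pool.Agent.Lib.MP_c12170_pr

namespace Full

variable {d : ℕ}

theorem run_meas' (Λ : Finset (Site d)) (s : ℤ) (m : ℕ) (A : Finset (Site d)) :
    Measurable (fun ω : Om d => run Λ s m ω A) :=
  Measurable.mono (Run.run_meas Λ s m A) (Ind.Fs_le _) le_rfl

theorem full_one (hG : GROW_spec) (lam : ℝ≥0) (s : ℤ) (m : ℕ) (A : Finset (Site d)) :
    ∀ᵐ ω ∂(P (d := d) lam), ∃ B, IsFull s m ω A B := by
  obtain ⟨_, hrun, _⟩ := hG d lam 1 (fun _ => 1) (by intro x a; simp)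
  have hb : ∀ L : ℕ, ∫⁻ ω, ((run (bx 0 L) s m ω A).card : ℝ≥0∞) ∂(P lam) ≤
      ENNReal.ofReal (Real.exp (2 * ((d : ℝ) + 1) * lam * (1 : ℝ≥0))) ^ m * A.card := by
    intro L
    have := hrun (bx 0 L) s m A
    simpa using this
  have hmeas : ∀ L : ℕ, Measurable (fun ω : Om d => ((run (bx 0 L) s m ω A).card : ℝ≥0∞)) :=
    fun L => (measurable_from_top (f := fun B : Finset (Site d) => (B.card : ℝ≥0∞))).comp
      (run_meas' (bx 0 L) s m A)
  have hmono : Monotone (fun (L : ℕ) (ω : Om d) => ((run (bx 0 L) s m ω A).card : ℝ≥0∞)) := by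
    intro L L' h ω
    change ((run (bx 0 L) s m ω A).card : ℝ≥0∞) ≤ (run (bx 0 L') s m ω A).card
    exact_mod_cast Finset.card_le_card (Run.run_mono (Sv.bx_mono 0 h) s m ω
      (Finset.Subset.refl A))
  have hsup : ∫⁻ ω, ⨆ L : ℕ, ((run (bx 0 L) s m ω A).card : ℝ≥0∞) ∂(P lam) ≠ ∞ := by
    rw [lintegral_iSup hmeas hmono]
    refine ne_top_of_le_ne_top ?_ (iSup_le hb)
    exact ENNReal.mul_ne_top (ENNReal.pow_ne_top ENNReal.ofReal_ne_top) (by simp)
  have hfin := ae_lt_top' (Measurable.iSup hmeas).aemeasurable hsup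
  filter_upwards [hfin] with ω hω
  obtain ⟨N, hN⟩ := ENNReal.exists_nat_gt hω.ne
  have hcard : ∀ L : ℕ, (run (bx 0 L) s m ω A).card < N := by
    intro L
    have h1 : ((run (bx 0 L) s m ω A).card : ℝ≥0∞) ≤
        ⨆ L : ℕ, ((run (bx 0 L) s m ω A).card : ℝ≥0∞) := le_iSup (f := fun L : ℕ =>
          ((run (bx 0 L) s m ω A).card : ℝ≥0∞)) L
    exact_mod_cast lt_of_le_of_lt h1 hN
  -- choose `L` with maximal cardinality
  obtain ⟨L, hL⟩ : ∃ L : ℕ, ∀ L' : ℕ, (run (bx 0 L') s m ω A).card ≤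
      (run (bx 0 L) s m ω A).card := by
    have hne : (Set.range fun L : ℕ => (run (bx 0 L) s m ω A).card).Nonempty :=
      Set.range_nonempty _
    have hbd : BddAbove (Set.range fun L : ℕ => (run (bx 0 L) s m ω A).card) :=
      ⟨N, by rintro _ ⟨L, rfl⟩; exact (hcard L).le⟩
    obtain ⟨L, hL⟩ := Nat.sSup_mem hne hbd
    refine ⟨L, fun L' => ?_⟩
    have hL2 : (run (bx 0 L) s m ω A).card =
      sSup (Set.range fun L : ℕ => (run (bx 0 L) s m ω A).card) := hL
    rw [hL2]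
    exact le_csSup hbd ⟨L', rfl⟩
  refine ⟨run (bx 0 L) s m ω A, fun Λ => ?_, bx 0 L, rfl⟩
  obtain ⟨L', hL'⟩ := Sv.exists_bx Λ
  have h1 : run (bx 0 L) s m ω A ⊆ run (bx 0 (max L L')) s m ω A :=
    Run.run_mono (Sv.bx_mono 0 (le_max_left _ _)) s m ω (Finset.Subset.refl A)
  have h2 := Finset.eq_of_subset_of_card_le h1 (hL _)
  rw [h2]
  exact Run.run_mono (hL'.trans (Sv.bx_mono 0 (le_max_right _ _))) s m ω
    (Finset.Subset.refl A)

theorem isFull_unique {s : ℤ} {m : ℕ} {ω : Om d} {A B B' : Finset (Site d)}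
    (h : IsFull s m ω A B) (h' : IsFull s m ω A B') : B = B' := by
  obtain ⟨h1, Λ, h2⟩ := h
  obtain ⟨h1', Λ', h2'⟩ := h'
  exact Finset.Subset.antisymm (h2 ▸ h1' Λ) (h2' ▸ h1 Λ')

theorem isFull_meas (s : ℤ) (m : ℕ) (A B : Finset (Site d)) :
    MeasurableSet[Fs {p : Site d × ℤ | s ≤ p.2 ∧ p.2 < s + m}]
      {ω : Om d | IsFull s m ω A B} := by
  have hsub : ∀ Λ : Finset (Site d), {p : Site d × ℤ | p.1 ∈ Λ ∧ s ≤ p.2 ∧ p.2 < s + m} ⊆
      {p : Site d × ℤ | s ≤ p.2 ∧ p.2 < s + m} := fun Λ p hp => ⟨hp.2.1, hp.2.2⟩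
  have e : {ω : Om d | IsFull s m ω A B} =
      (⋂ Λ : Finset (Site d), {ω | run Λ s m ω A ⊆ B}) ∩
        ⋃ Λ : Finset (Site d), {ω | run Λ s m ω A = B} := by
    ext ω; simp [IsFull]
  rw [e]
  refine MeasurableSet.inter (MeasurableSet.iInter fun Λ => ?_)
    (MeasurableSet.iUnion fun Λ => ?_)
  · exact Ind.Fs_mono (hsub Λ) _ (Run.run_meas Λ s m A (t := {C | C ⊆ B}) trivial)
  · exact Ind.Fs_mono (hsub Λ) _ (Run.run_meas Λ s m A (t := {B}) trivial)

/-- Semigroup property of the full process. -/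
theorem alive_add {t k : ℕ} {ω : Om d} {A B : Finset (Site d)} (h : IsFull 0 t ω A B) :
    alive 0 (t + k) ω A ↔ alive t k ω B := by
  obtain ⟨h1, Λ0, h2⟩ := h
  constructor
  · rintro ⟨Λ, hΛ⟩
    rw [Run.run_add, zero_add] at hΛ
    exact ⟨Λ, hΛ.mono (Run.run_mono (Finset.Subset.refl Λ) _ _ _ (h1 Λ))⟩
  · rintro ⟨Λ, hΛ⟩
    refine ⟨Λ ∪ Λ0, ?_⟩
    rw [Run.run_add, zero_add]
    refine hΛ.mono (Run.run_mono Finset.subset_union_left _ _ _ ?_)
    rw [← h2]
    exact Run.run_mono Finset.subset_union_right _ _ _ (Finset.Subset.refl A)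

end Full

theorem full_holds (hG : GROW_spec) : FULL_spec := by
  intro d lam
  rw [ae_all_iff]; intro s
  rw [ae_all_iff]; intro m
  rw [ae_all_iff]; intro A
  exact Full.full_one hG lam s m A

end Pool.Agent.Lib.MP_c12170_pr
end

section
open MeasureTheory ProbabilityTheory Filter Topology
open scoped ENNReal NNReal

namespace Pool.Agent.Lib.MP_c12170_pr

namespace Markov

variable {d : ℕ}

theorem ext_meas_Fs (t : ℕ) (B : Finset (Site d)) :
    MeasurableSet[Fs {p : Site d × ℤ | (t : ℤ) ≤ p.2}] {ω : Om d | ∃ m, ¬ alive t m ω B} := by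
  have e : {ω : Om d | ∃ m, ¬ alive t m ω B} = ⋃ m : ℕ, {ω : Om d | alive t m ω B}ᶜ := by
    ext ω; simp
  rw [e]
  refine MeasurableSet.iUnion fun m => MeasurableSet.compl ?_
  have hsub : {p : Site d × ℤ | (t : ℤ) ≤ p.2 ∧ p.2 < t + m} ⊆
      {p : Site d × ℤ | (t : ℤ) ≤ p.2} := fun p hp => hp.1
  exact Ind.Fs_mono hsub _ (Sv.alive_meas_Fs t m B)

theorem hv_shift (hS : SYM_spec) (lam : ℝ≥0) (t : ℕ) (B : Finset (Site d)) :
    (P lam).real {ω : Om d | ∃ m, ¬ alive t m ω B} = hv lam B := by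
  have hmono : Monotone (fun m : ℕ => {ω : Om d | ¬ alive t m ω B}) :=
    fun _ _ h _ hω ha => hω (Sv.alive_of_le h ha)
  have hmono0 : Monotone (fun m : ℕ => {ω : Om d | ¬ alive 0 m ω B}) :=
    fun _ _ h _ hω ha => hω (Sv.alive_of_le h ha)
  have h := tendsto_measure_iUnion_atTop (μ := P lam) hmono
  have h0 := tendsto_measure_iUnion_atTop (μ := P lam) hmono0
  have e : (⋃ m : ℕ, {ω : Om d | ¬ alive t m ω B}) = {ω : Om d | ∃ m, ¬ alive t m ω B} := by
    ext ω; simp
  have e0 : (⋃ m : ℕ, {ω : Om d | ¬ alive 0 m ω B}) = {ω : Om d | ∃ m, ¬ alive 0 m ω B} := by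
    ext ω; simp
  rw [e] at h
  rw [e0] at h0
  have heq : ∀ m : ℕ, (P lam) {ω : Om d | ¬ alive t m ω B} =
      (P lam) {ω : Om d | ¬ alive 0 m ω B} := by
    intro m
    have h1 := Sv.alive_shift hS lam t 0 m B
    have h2 : (P lam).real {ω : Om d | ¬ alive t m ω B} =
        (P lam).real {ω : Om d | ¬ alive 0 m ω B} := by
      have c1 : {ω : Om d | ¬ alive t m ω B} = {ω : Om d | alive t m ω B}ᶜ := rfl
      have c2 : {ω : Om d | ¬ alive 0 m ω B} = {ω : Om d | alive 0 m ω B}ᶜ := rfl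
      rw [c1, c2, measureReal_compl (Sv.alive_meas t m B), measureReal_compl (Sv.alive_meas 0 m B),
        h1]
    exact (measureReal_eq_measureReal_iff (by finiteness) (by finiteness)).1 h2
  have h' : Tendsto (fun m : ℕ => (P lam) {ω : Om d | ¬ alive 0 m ω B}) atTop
      (𝓝 ((P lam) {ω : Om d | ∃ m, ¬ alive t m ω B})) := by
    refine h.congr fun m => ?_
    exact heq m
  rw [Sv.hv_eq, Measure.real, Measure.real, tendsto_nhds_unique h' h0]

theorem strips_disj (t : ℕ) : Disjoint {p : Site d × ℤ | 0 ≤ p.2 ∧ p.2 < t}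
    {p : Site d × ℤ | (t : ℤ) ≤ p.2} := by
  rw [Set.disjoint_left]
  rintro p ⟨_, h1⟩ h2
  simp only [Set.mem_ofPred_eq] at h2
  omega

theorem EF_meas {t : ℕ} {E : Set (Om d)} (A B : Finset (Site d))
    (hE : MeasurableSet[Fs {p : Site d × ℤ | 0 ≤ p.2 ∧ p.2 < t}] E) :
    MeasurableSet[Fs {p : Site d × ℤ | 0 ≤ p.2 ∧ p.2 < t}] (E ∩ {ω | IsFull 0 t ω A B}) := by
  refine MeasurableSet.inter hE ?_
  have hsub : {p : Site d × ℤ | (0 : ℤ) ≤ p.2 ∧ p.2 < 0 + t} ⊆
      {p : Site d × ℤ | 0 ≤ p.2 ∧ p.2 < t} := fun p hp => ⟨hp.1, by have := hp.2; omega⟩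
  exact Ind.Fs_mono hsub _ (Full.isFull_meas 0 t A B)

theorem markov1 (hF : FULL_spec) (hS : SYM_spec) (lam : ℝ≥0) (t k m : ℕ) (A : Finset (Site d))
    (E : Set (Om d)) (c : ℝ) (hkm : k ≤ m)
    (hE : MeasurableSet[Fs {p : Site d × ℤ | 0 ≤ p.2 ∧ p.2 < t}] E)
    (h : ∀ ω ∈ E, ∀ B, IsFull 0 t ω A B → sv lam B k - sv lam B m ≤ c) (hc : 0 ≤ c) :
    (P lam).real (E ∩ {ω | alive 0 (t + k) ω A ∧ ¬ alive 0 (t + m) ω A}) ≤
      c * (P lam).real E := by
  have hEm : MeasurableSet E := Ind.Fs_le _ _ hE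
  set G : Set (Om d) := {ω | alive 0 (t + k) ω A ∧ ¬ alive 0 (t + m) ω A} with hG
  set F : Finset (Site d) → Set (Om d) := fun B => {ω | IsFull 0 t ω A B} with hFdef
  have hFm : ∀ B, MeasurableSet (F B) := fun B => Ind.Fs_le _ _ (Full.isFull_meas 0 t A B)
  have hone : ∀ B, (P lam) (E ∩ F B ∩ G) ≤ ENNReal.ofReal c * (P lam) (E ∩ F B) := by
    intro B
    rcases Set.eq_empty_or_nonempty (E ∩ F B) with he | ⟨ω0, hω0E, hω0F⟩
    · rw [he]; simp
    · have hle := h ω0 hω0E B hω0F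
      set GB : Set (Om d) := {ω | alive t k ω B} \ {ω | alive t m ω B} with hGB
      have hsub : E ∩ F B ∩ G ⊆ (E ∩ F B) ∩ GB := by
        rintro ω ⟨⟨h1, h2⟩, h3, h4⟩
        exact ⟨⟨h1, h2⟩, (Full.alive_add h2).1 h3, fun h5 => h4 ((Full.alive_add h2).2 h5)⟩
      have hGBm : MeasurableSet[Fs {p : Site d × ℤ | (t : ℤ) ≤ p.2}] GB := by
        refine MeasurableSet.diff ?_ ?_
        · have hsub : {p : Site d × ℤ | (t : ℤ) ≤ p.2 ∧ p.2 < t + k} ⊆
            {p : Site d × ℤ | (t : ℤ) ≤ p.2} := fun p hp => hp.1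
          exact Ind.Fs_mono hsub _ (Sv.alive_meas_Fs t k B)
        · have hsub : {p : Site d × ℤ | (t : ℤ) ≤ p.2 ∧ p.2 < t + m} ⊆
            {p : Site d × ℤ | (t : ℤ) ≤ p.2} := fun p hp => hp.1
          exact Ind.Fs_mono hsub _ (Sv.alive_meas_Fs t m B)
      have hind := Ind.inter lam (strips_disj t) (EF_meas A B hE) hGBm
      have hGBr : (P lam).real GB = sv lam B k - sv lam B m := by
        have hss : {ω : Om d | alive t m ω B} ⊆ {ω : Om d | alive t k ω B} :=
          fun ω hω => Sv.alive_of_le hkm hω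
        rw [hGB, measureReal_sdiff hss (Sv.alive_meas t m B),
          Sv.alive_shift hS lam t 0 k B, Sv.alive_shift hS lam t 0 m B]
        rfl
      have hreal : (P lam).real (E ∩ F B ∩ G) ≤ c * (P lam).real (E ∩ F B) := by
        calc (P lam).real (E ∩ F B ∩ G) ≤ (P lam).real ((E ∩ F B) ∩ GB) :=
              measureReal_mono hsub
          _ = (P lam).real (E ∩ F B) * (P lam).real GB := hind
          _ ≤ (P lam).real (E ∩ F B) * c := by
              rw [hGBr]
              exact mul_le_mul_of_nonneg_left hle measureReal_nonneg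
          _ = c * (P lam).real (E ∩ F B) := mul_comm _ _
      have h1 : (P lam) (E ∩ F B ∩ G) = ENNReal.ofReal ((P lam).real (E ∩ F B ∩ G)) :=
        (ofReal_measureReal (by finiteness)).symm
      have h2 : (P lam) (E ∩ F B) = ENNReal.ofReal ((P lam).real (E ∩ F B)) :=
        (ofReal_measureReal (by finiteness)).symm
      rw [h1, h2, ← ENNReal.ofReal_mul hc]
      exact ENNReal.ofReal_le_ofReal hreal
  have hcov : ∀ᵐ ω ∂(P (d := d) lam), ω ∈ ⋃ B, F B := by
    filter_upwards [hF d lam] with ω hω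
    obtain ⟨B, hB⟩ := hω 0 t A
    exact Set.mem_iUnion.2 ⟨B, hB⟩
  have hmain : (P lam) (E ∩ G) ≤ ENNReal.ofReal c * (P lam) E := by
    calc (P lam) (E ∩ G) ≤ (P lam) (⋃ B, E ∩ F B ∩ G) := by
          refine measure_mono_ae ?_
          filter_upwards [hcov] with ω hω hωG
          obtain ⟨B, hB⟩ := Set.mem_iUnion.1 hω
          exact Set.mem_iUnion.2 ⟨B, ⟨hωG.1, hB⟩, hωG.2⟩
      _ ≤ ∑' B, (P lam) (E ∩ F B ∩ G) := measure_iUnion_le _
      _ ≤ ∑' B, ENNReal.ofReal c * (P lam) (E ∩ F B) := ENNReal.tsum_le_tsum hone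
      _ = ENNReal.ofReal c * ∑' B, (P lam) (E ∩ F B) := ENNReal.tsum_mul_left
      _ = ENNReal.ofReal c * (P lam) (⋃ B, E ∩ F B) := by
          rw [measure_iUnion _ fun B => hEm.inter (hFm B)]
          intro B B' hne
          rw [Function.onFun, Set.disjoint_left]
          rintro ω ⟨_, h1⟩ ⟨_, h2⟩
          exact hne (Full.isFull_unique h1 h2)
      _ ≤ ENNReal.ofReal c * (P lam) E := by
          gcongr
          exact Set.iUnion_subset fun B => Set.inter_subset_left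
  have := ENNReal.toReal_mono (by finiteness) hmain
  rwa [ENNReal.toReal_mul, ENNReal.toReal_ofReal hc] at this

theorem markov2 (hF : FULL_spec) (hS : SYM_spec) (lam : ℝ≥0) (t : ℕ) (A : Finset (Site d))
    (E : Set (Om d)) (c : ℝ)
    (hE : MeasurableSet[Fs {p : Site d × ℤ | 0 ≤ p.2 ∧ p.2 < t}] E)
    (h : ∀ ω ∈ E, ∀ B, IsFull 0 t ω A B → c ≤ hv lam B) (hc : 0 ≤ c) :
    c * (P lam).real E ≤ (P lam).real (E ∩ {ω | ∃ m, ¬ alive 0 m ω A}) := by
  have hEm : MeasurableSet E := Ind.Fs_le _ _ hE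
  set G : Set (Om d) := {ω | ∃ m, ¬ alive 0 m ω A} with hG
  have hGm : MeasurableSet G := by
    have e : G = ⋃ m : ℕ, {ω : Om d | alive 0 m ω A}ᶜ := by
      ext ω; simp [hG]
    rw [e]
    exact MeasurableSet.iUnion fun m => (Sv.alive_meas 0 m A).compl
  set F : Finset (Site d) → Set (Om d) := fun B => {ω | IsFull 0 t ω A B} with hFdef
  have hFm : ∀ B, MeasurableSet (F B) := fun B => Ind.Fs_le _ _ (Full.isFull_meas 0 t A B)
  have hdisj : Pairwise (Function.onFun Disjoint F) := by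
    intro B B' hne
    rw [Function.onFun, Set.disjoint_left]
    intro ω h1 h2
    exact hne (Full.isFull_unique h1 h2)
  have hone : ∀ B, ENNReal.ofReal c * (P lam) (E ∩ F B) ≤ (P lam) (E ∩ F B ∩ G) := by
    intro B
    rcases Set.eq_empty_or_nonempty (E ∩ F B) with he | ⟨ω0, hω0E, hω0F⟩
    · rw [he]; simp
    · have hle := h ω0 hω0E B hω0F
      set GB : Set (Om d) := {ω | ∃ m, ¬ alive t m ω B} with hGB
      have hsub : (E ∩ F B) ∩ GB ⊆ E ∩ F B ∩ G := by
        rintro ω ⟨⟨h1, h2⟩, m, h3⟩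
        exact ⟨⟨h1, h2⟩, t + m, fun h5 => h3 ((Full.alive_add h2).1 h5)⟩
      have hind := Ind.inter lam (strips_disj t) (EF_meas A B hE) (ext_meas_Fs t B)
      have hreal : c * (P lam).real (E ∩ F B) ≤ (P lam).real (E ∩ F B ∩ G) := by
        calc c * (P lam).real (E ∩ F B) = (P lam).real (E ∩ F B) * c := mul_comm _ _
          _ ≤ (P lam).real (E ∩ F B) * (P lam).real GB := by
              rw [hGB, hv_shift hS]
              exact mul_le_mul_of_nonneg_left hle measureReal_nonneg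
          _ = (P lam).real ((E ∩ F B) ∩ GB) := hind.symm
          _ ≤ (P lam).real (E ∩ F B ∩ G) := measureReal_mono hsub
      have h1 : (P lam) (E ∩ F B ∩ G) = ENNReal.ofReal ((P lam).real (E ∩ F B ∩ G)) :=
        (ofReal_measureReal (by finiteness)).symm
      have h2 : (P lam) (E ∩ F B) = ENNReal.ofReal ((P lam).real (E ∩ F B)) :=
        (ofReal_measureReal (by finiteness)).symm
      rw [h1, h2, ← ENNReal.ofReal_mul hc]
      exact ENNReal.ofReal_le_ofReal hreal
  have hcov : ∀ᵐ ω ∂(P (d := d) lam), ω ∈ ⋃ B, F B := by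
    filter_upwards [hF d lam] with ω hω
    obtain ⟨B, hB⟩ := hω 0 t A
    exact Set.mem_iUnion.2 ⟨B, hB⟩
  have hmain : ENNReal.ofReal c * (P lam) E ≤ (P lam) (E ∩ G) := by
    calc ENNReal.ofReal c * (P lam) E ≤ ENNReal.ofReal c * (P lam) (⋃ B, E ∩ F B) := by
          gcongr ENNReal.ofReal c * ?_
          refine measure_mono_ae ?_
          filter_upwards [hcov] with ω hω hωE
          obtain ⟨B, hB⟩ := Set.mem_iUnion.1 hω
          exact Set.mem_iUnion.2 ⟨B, hωE, hB⟩
      _ ≤ ENNReal.ofReal c * ∑' B, (P lam) (E ∩ F B) := by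
          gcongr
          exact measure_iUnion_le _
      _ = ∑' B, ENNReal.ofReal c * (P lam) (E ∩ F B) := ENNReal.tsum_mul_left.symm
      _ ≤ ∑' B, (P lam) (E ∩ F B ∩ G) := ENNReal.tsum_le_tsum hone
      _ = (P lam) (⋃ B, E ∩ F B ∩ G) := by
          rw [measure_iUnion _ fun B => (hEm.inter (hFm B)).inter hGm]
          intro B B' hne
          rw [Function.onFun, Set.disjoint_left]
          rintro ω ⟨⟨_, h1⟩, _⟩ ⟨⟨_, h2⟩, _⟩
          exact hne (Full.isFull_unique h1 h2)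
      _ ≤ (P lam) (E ∩ G) := by
          refine measure_mono (Set.iUnion_subset fun B => ?_)
          rintro ω ⟨⟨h1, _⟩, h2⟩
          exact ⟨h1, h2⟩
  have := ENNReal.toReal_mono (by finiteness) hmain
  rwa [ENNReal.toReal_mul, ENNReal.toReal_ofReal hc] at this

end Markov

theorem markov_holds (hF : FULL_spec) (hS : SYM_spec) : MARKOV_spec :=
  ⟨fun _ lam t k m A E c hc hkm hE h => Markov.markov1 hF hS lam t k m A E c hkm hE h hc,
    fun _ lam t A E c hc hE h => Markov.markov2 hF hS lam t A E c hE h hc⟩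

end Pool.Agent.Lib.MP_c12170_pr
end

section
/-!
# MP_c12170_pr: TL (helper10)
-/
open MeasureTheory ProbabilityTheory Filter Topology
open scoped ENNReal NNReal

namespace Pool.Agent.Lib.MP_c12170_pr

namespace Tl

variable {d : ℕ}

open Classical in
/-- the observed set -/
noncomputable def obs (Λ A : Finset (Site d)) (T : ℕ) (ω : Om d) :
    Finset (Site d ⊕ Site d × ℕ) :=
  ((run Λ 0 T ω A).image Sum.inl ∪ (Finset.range T).biUnion fun k =>
        (exits Λ 0 k ω A).image fun x => Sum.inr (x, k))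

open Classical in
/-- the observed set as a function of the trace -/
noncomputable def obsT (Λ A : Finset (Site d)) (T : ℕ) (L : List (Finset (Site d))) :
    Finset (Site d ⊕ Site d × ℕ) :=
  ((SymRun.runT Λ A L).image Sum.inl ∪ (Finset.range T).biUnion fun k =>
        (L[k]?.getD ∅ \ Λ).image fun x => Sum.inr (x, k))

theorem obs_eq (Λ A : Finset (Site d)) (T : ℕ) (ω : Om d) :
    obs Λ A T ω = obsT Λ A T (trace Λ 0 T ω A) := by
  classical
  unfold obs obsT
  rw [← SymRun.run_eq]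
  congr 1
  refine Finset.biUnion_congr rfl fun k hk => ?_
  rw [SymRun.exits_eq Λ 0 T ω A k (Finset.mem_range.1 hk)]

theorem trace_meas' (Λ A : Finset (Site d)) (T : ℕ) :
    Measurable (fun ω : Om d => trace Λ 0 T ω A) :=
  Measurable.mono (Run.trace_meas Λ 0 T A) (Ind.Fs_le _) le_rfl

theorem obs_meas (Λ A : Finset (Site d)) (T : ℕ) : Measurable (fun ω : Om d => obs Λ A T ω) := by
  simp only [obs_eq]
  exact (measurable_from_top (f := fun L => obsT Λ A T L)).comp (trace_meas' Λ A T)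

theorem obs_left (Λ A : Finset (Site d)) (T : ℕ) (ω : Om d) :
    ((obs Λ A T ω).filter (fun p => p.isLeft = true)).card = (run Λ 0 T ω A).card := by
  classical
  have h : (obs Λ A T ω).filter (fun p => p.isLeft = true) = (run Λ 0 T ω A).image Sum.inl := by
    ext p
    simp only [obs, Finset.mem_filter, Finset.mem_union, Finset.mem_image, Finset.mem_biUnion]
    constructor
    · rintro ⟨h1 | ⟨k, -, x, -, rfl⟩, h2⟩
      · exact h1
      · simp at h2
    · rintro ⟨x, hx, rfl⟩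
      exact ⟨Or.inl ⟨x, hx, rfl⟩, rfl⟩
  rw [h, Finset.card_image_of_injective _ Sum.inl_injective]

theorem obs_right (Λ A : Finset (Site d)) (T : ℕ) (ω : Om d) :
    ((obs Λ A T ω).filter (fun p => p.isRight = true)).card =
      ∑ k ∈ Finset.range T, (exits Λ 0 k ω A).card := by
  classical
  have h : (obs Λ A T ω).filter (fun p => p.isRight = true) =
      (Finset.range T).biUnion fun k =>
        (exits Λ 0 k ω A).image fun x => (Sum.inr (x, k) : Site d ⊕ Site d × ℕ) := by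
    ext p
    simp only [obs, Finset.mem_filter, Finset.mem_union, Finset.mem_image, Finset.mem_biUnion]
    constructor
    · rintro ⟨⟨x, -, rfl⟩ | h1, h2⟩
      · simp at h2
      · exact h1
    · rintro ⟨k, hk, x, hx, rfl⟩
      exact ⟨Or.inr ⟨k, hk, x, hx, rfl⟩, rfl⟩
  rw [h, Finset.card_biUnion]
  · refine Finset.sum_congr rfl fun k _ => ?_
    rw [Finset.card_image_of_injective]
    intro x y hxy
    simpa using hxy
  · intro k _ k' _ hkk'
    rw [Function.onFun, Finset.disjoint_left]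
    intro p h1 h2
    obtain ⟨x, -, rfl⟩ := Finset.mem_image.1 h1
    obtain ⟨y, -, hy⟩ := Finset.mem_image.1 h2
    simp only [Sum.inr.injEq, Prod.mk.injEq] at hy
    exact hkk' hy.2.symm

/-- the two decreasing events are positively correlated -/
theorem corr (hA : ASSOC_spec) (lam : ℝ≥0) (Λ A : Finset (Site d)) (T C C' : ℕ) :
    (P lam).real {ω : Om d | (run Λ 0 T ω A).card ≤ C} *
      (P lam).real {ω : Om d | ∑ k ∈ Finset.range T, (exits Λ 0 k ω A).card ≤ C'} ≤
    (P lam).real {ω : Om d | (run Λ 0 T ω A).card ≤ C ∧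
      ∑ k ∈ Finset.range T, (exits Λ 0 k ω A).card ≤ C'} := by
  classical
  have hDF : DF ((P lam).map (fun ω : Om d => obs Λ A T ω)) := hA d lam Λ A T
  set μ : Measure (Finset (Site d ⊕ Site d × ℕ)) :=
    (P lam).map (fun ω : Om d => obs Λ A T ω) with hμ
  have : IsProbabilityMeasure μ := Measure.isProbabilityMeasure_map (obs_meas Λ A T).aemeasurable
  set S : Set (Finset (Site d ⊕ Site d × ℕ)) :=
    {X | C < (X.filter (fun p => p.isLeft = true)).card} with hS
  set S' : Set (Finset (Site d ⊕ Site d × ℕ)) :=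
    {X | C' < (X.filter (fun p => p.isRight = true)).card} with hS'
  have hSup : ∀ X Y, X ≤ Y → X ∈ S → Y ∈ S := by
    intro X Y hXY hX
    exact lt_of_lt_of_le (show C < _ from hX) (Finset.card_le_card (Finset.filter_subset_filter _ hXY))
  have hSup' : ∀ X Y, X ≤ Y → X ∈ S' → Y ∈ S' := by
    intro X Y hXY hX
    exact lt_of_lt_of_le (show C' < _ from hX)
      (Finset.card_le_card (Finset.filter_subset_filter _ hXY))
  have hmono : ∀ S : Set (Finset (Site d ⊕ Site d × ℕ)), (∀ X Y, X ≤ Y → X ∈ S → Y ∈ S) →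
      Monotone (S.indicator (fun _ => (1 : ℝ))) := by
    intro S hS X Y hXY
    by_cases hX : X ∈ S
    · rw [Set.indicator_of_mem hX, Set.indicator_of_mem (hS X Y hXY hX)]
    · rw [Set.indicator_of_notMem hX]
      exact Set.indicator_nonneg (fun _ _ => zero_le_one) Y
  have hval : ∀ (S : Set (Finset (Site d ⊕ Site d × ℕ))) (X : Finset (Site d ⊕ Site d × ℕ)),
      0 ≤ S.indicator (fun _ => (1 : ℝ)) X ∧ S.indicator (fun _ => (1 : ℝ)) X ≤ 1 := by
    intro S X
    constructor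
    · exact Set.indicator_nonneg (fun _ _ => zero_le_one) X
    · exact Set.indicator_le_self' (fun _ _ => zero_le_one) X
  have h := hDF ∅ _ _ (hmono S hSup) (hmono S' hSup') (hval S) (hval S')
  have huniv : {A : Finset (Site d ⊕ Site d × ℕ) | Disjoint A ∅} = Set.univ := by
    ext X
    simp
  rw [huniv, Measure.restrict_univ] at h
  have hint : ∀ S : Set (Finset (Site d ⊕ Site d × ℕ)),
      ∫ X, S.indicator (fun _ => (1 : ℝ)) X ∂μ = μ.real S := by
    intro S
    rw [integral_indicator (show MeasurableSet S from trivial)]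
    simp
  have hmul : (fun X => S.indicator (fun _ => (1 : ℝ)) X * S'.indicator (fun _ => (1 : ℝ)) X) =
      (S ∩ S').indicator (fun _ => (1 : ℝ)) := by
    funext X
    by_cases h1 : X ∈ S <;> by_cases h2 : X ∈ S' <;> simp [h1, h2]
  rw [hint, hint, hmul, hint, probReal_univ, mul_one] at h
  have hSm : ∀ S : Set (Finset (Site d ⊕ Site d × ℕ)), MeasurableSet S := fun _ => trivial
  have e1 : (P lam).real {ω : Om d | (run Λ 0 T ω A).card ≤ C} = 1 - μ.real S := by
    rw [← probReal_compl_eq_one_sub (hSm S), hμ, map_measureReal_apply (obs_meas Λ A T) (hSm _)]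
    congr 1
    ext ω
    simp [hS, obs_left]
  have e2 : (P lam).real {ω : Om d | ∑ k ∈ Finset.range T, (exits Λ 0 k ω A).card ≤ C'} =
      1 - μ.real S' := by
    rw [← probReal_compl_eq_one_sub (hSm S'), hμ, map_measureReal_apply (obs_meas Λ A T) (hSm _)]
    congr 1
    ext ω
    simp [hS', obs_right]
  have e3 : (P lam).real {ω : Om d | (run Λ 0 T ω A).card ≤ C ∧
      ∑ k ∈ Finset.range T, (exits Λ 0 k ω A).card ≤ C'} = 1 - μ.real (S ∪ S') := by
    rw [← probReal_compl_eq_one_sub (hSm _), hμ, map_measureReal_apply (obs_meas Λ A T) (hSm _)]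
    congr 1
    ext ω
    simp [hS, hS', obs_left, obs_right]
  have e4 : μ.real (S ∪ S') + μ.real (S ∩ S') = μ.real S + μ.real S' :=
    measureReal_union_add_inter (hSm _)
  rw [e1, e2, e3]
  nlinarith

end Tl

open Tl in
theorem tl_holds (hK : KILL_spec) (hE : EXIT0_spec) (hD : DIEBOX_spec) (hA : ASSOC_spec) :
    TL_spec := by
  intro d lam n δ hδ0 hδ4 hhv C C'
  obtain ⟨L0, t0, hKill⟩ := hK d lam (bx 0 n) (C + C') (δ ^ 2) (by positivity)
  obtain ⟨L1, hExit⟩ := hE d lam (bx 0 n) (2 * t0 + 1) (δ / 2) (by linarith)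
  set L : ℕ := max (max L0 L1) n with hL
  have hL0 : L0 ≤ L := (le_max_left _ _).trans (le_max_left _ _)
  have hL1 : L1 ≤ L := (le_max_right _ _).trans (le_max_left _ _)
  have hLn : n ≤ L := le_max_right _ _
  have hKill' : ∀ u, t0 ≤ u → (P lam).real {ω : Om d | (run (bx 0 L) 0 u ω (bx 0 n)).card +
      ∑ k ∈ Finset.range u, (exits (bx 0 L) 0 k ω (bx 0 n)).card ≤ C + C'} ≤ 2 * δ ^ 2 := by
    intro u hu
    have := hKill L u hL0 hu
    linarith
  -- small times
  have hsmall : ∀ u, t0 ≤ u → u ≤ 2 * t0 + 1 →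
      (P lam).real {ω : Om d | (run (bx 0 L) 0 u ω (bx 0 n)).card ≤ C} ≤ δ := by
    intro u hu1 hu2
    have hsub : {ω : Om d | (run (bx 0 L) 0 u ω (bx 0 n)).card ≤ C} ⊆
        {ω : Om d | (run (bx 0 L) 0 u ω (bx 0 n)).card +
          ∑ k ∈ Finset.range u, (exits (bx 0 L) 0 k ω (bx 0 n)).card ≤ C + C'} ∪
        {ω : Om d | ∃ k, k < 2 * t0 + 1 ∧ (exits (bx 0 L) 0 k ω (bx 0 n)).Nonempty} := by
      intro ω hω
      by_cases h : ∃ k, k < 2 * t0 + 1 ∧ (exits (bx 0 L) 0 k ω (bx 0 n)).Nonempty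
      · exact Or.inr h
      · left
        have h0 : ∑ k ∈ Finset.range u, (exits (bx 0 L) 0 k ω (bx 0 n)).card = 0 := by
          refine Finset.sum_eq_zero fun k hk => ?_
          rw [Finset.card_eq_zero]
          by_contra hne
          exact h ⟨k, by have := Finset.mem_range.1 hk; omega,
            Finset.nonempty_iff_ne_empty.2 hne⟩
        have h1 : (run (bx 0 L) 0 u ω (bx 0 n)).card ≤ C := hω
        change (run (bx 0 L) 0 u ω (bx 0 n)).card +
          ∑ k ∈ Finset.range u, (exits (bx 0 L) 0 k ω (bx 0 n)).card ≤ C + C'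
        omega
    have h1 := (measureReal_mono (μ := P lam) hsub).trans (measureReal_union_le _ _)
    have h2 := hKill' u hu1
    have h3 := hExit L hL1
    nlinarith
  -- for large times the probability is close to one
  obtain ⟨u2, hu2a, hu2b⟩ : ∃ u, t0 ≤ u ∧
      δ < (P lam).real {ω : Om d | (run (bx 0 L) 0 u ω (bx 0 n)).card ≤ C} := by
    have h1 := (hD d lam (bx 0 L) (bx 0 n)).eventually
      (gt_mem_nhds (show (0 : ℝ) < 1 / 2 by norm_num))
    obtain ⟨u, hu1, hu2⟩ := (h1.and (eventually_ge_atTop t0)).exists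
    refine ⟨u, hu2, ?_⟩
    have hm : MeasurableSet {ω : Om d | (run (bx 0 L) 0 u ω (bx 0 n)).Nonempty} :=
      Ind.Fs_le _ _ (Sv.run_nonempty_meas (bx 0 L) 0 u (bx 0 n))
    have hsub : {ω : Om d | (run (bx 0 L) 0 u ω (bx 0 n)).Nonempty}ᶜ ⊆
        {ω : Om d | (run (bx 0 L) 0 u ω (bx 0 n)).card ≤ C} := by
      intro ω hω
      have h0 : run (bx 0 L) 0 u ω (bx 0 n) = ∅ := Finset.not_nonempty_iff_eq_empty.1 hω
      change (run (bx 0 L) 0 u ω (bx 0 n)).card ≤ C
      rw [h0]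
      simp
    have h2 := measureReal_mono (μ := P lam) hsub
    rw [probReal_compl_eq_one_sub hm] at h2
    linarith
  classical
  have hex : ∃ u, t0 ≤ u ∧
      δ < (P lam).real {ω : Om d | (run (bx 0 L) 0 u ω (bx 0 n)).card ≤ C} := ⟨u2, hu2a, hu2b⟩
  set u1 := Nat.find hex with hu1
  obtain ⟨hu1a, hu1b⟩ := Nat.find_spec hex
  have hmin : ∀ u, t0 ≤ u → u < u1 →
      (P lam).real {ω : Om d | (run (bx 0 L) 0 u ω (bx 0 n)).card ≤ C} ≤ δ := by
    intro u h1 h2
    by_contra h3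
    exact Nat.find_min hex h2 ⟨h1, not_le.1 h3⟩
  have hbig : 2 * t0 + 1 < u1 := by
    by_contra h
    exact absurd (hsmall u1 hu1a (not_lt.1 h)) (not_le.2 hu1b)
  refine ⟨t0, L, u1 - 1, hLn, by omega, fun u h1 h2 => hmin u h1 (by omega), ?_⟩
  have hT : u1 - 1 + 1 = u1 := by omega
  rw [hT]
  have hc := corr hA lam (bx (0 : Site d) L) (bx (0 : Site d) n) u1 C C'
  have hsub2 : {ω : Om d | (run (bx 0 L) 0 u1 ω (bx 0 n)).card ≤ C ∧
      ∑ k ∈ Finset.range u1, (exits (bx 0 L) 0 k ω (bx 0 n)).card ≤ C'} ⊆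
      {ω : Om d | (run (bx 0 L) 0 u1 ω (bx 0 n)).card +
      ∑ k ∈ Finset.range u1, (exits (bx 0 L) 0 k ω (bx 0 n)).card ≤ C + C'} := by
    rintro ω ⟨h1, h2⟩
    exact add_le_add h1 h2
  have h3 := (measureReal_mono (μ := P lam) hsub2).trans (hKill' u1 hu1a)
  have h4 := hc.trans h3
  have h5 := measureReal_nonneg (μ := P lam)
    (s := {ω : Om d | ∑ k ∈ Finset.range u1, (exits (bx 0 L) 0 k ω (bx 0 n)).card ≤ C'})
  by_contra h6
  rw [not_le] at h6
  have h7 : δ * (2 * δ) < (P lam).real {ω : Om d | (run (bx 0 L) 0 u1 ω (bx 0 n)).card ≤ C} *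
      (P lam).real {ω : Om d | ∑ k ∈ Finset.range u1,
        (exits (bx 0 L) 0 k ω (bx 0 n)).card ≤ C'} := by
    apply mul_lt_mul'' hu1b h6 hδ0.le (by linarith)
  nlinarith

end Pool.Agent.Lib.MP_c12170_pr
end
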