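import Pool.Agent.Lib.MP_c12170_pr.Spec
import Pool.Agent.Lib.MP_c12170_pr.Infh
import Pool.Agent.Lib.MP_c12170_pr.Tl
import Pool.Agent.Lib.MP_c12170_pr.Sqrt
import Pool.Agent.Lib.MP_c12170_pr.Moves
import Pool.Agent.Lib.MP_c12170_pr.Tail

section
/-!
# DFZ: the observed set of times is dFKG
-/
open MeasureTheory ProbabilityTheory Filter Topology
open scoped ENNReal NNReal

namespace Pool.Agent.Lib.MP_c12170_pr

namespace Dfz

/-- DF is closed under pointwise limits of random finite sets. -/
lemma df_tendsto {V : Type} [DecidableEq V] {Ω : Type} [MeasurableSpace Ω] (μ : Measure Ω)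
    [IsFiniteMeasure μ] (X : ℕ → Ω → Finset V) (Y : Ω → Finset V) (hX : ∀ n, Measurable (X n))
    (hlim : ∀ ω, ∀ᶠ n in atTop, X n ω = Y ω) (hdf : ∀ n, DF (μ.map (X n))) :
    Measurable Y ∧ DF (μ.map Y) := by
  have hY : Measurable Y := by
    intro S hS
    have : Y ⁻¹' S = ⋃ N : ℕ, ⋂ n : ℕ, ⋂ _ : N ≤ n, X n ⁻¹' S := by
      ext ω
      simp only [Set.mem_preimage, Set.mem_iUnion, Set.mem_iInter]
      obtain ⟨N, hN⟩ := eventually_atTop.mp (hlim ω)
      constructor
      · intro h
        exact ⟨N, fun n hn => by rw [hN n hn]; exact h⟩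
      · rintro ⟨N', hN'⟩
        have := hN' (max N N') (le_max_right _ _)
        rwa [hN _ (le_max_left _ _)] at this
    rw [this]
    exact MeasurableSet.iUnion fun N => MeasurableSet.iInter fun n => MeasurableSet.iInter
      fun _ => hX n hS
  refine ⟨hY, ?_⟩
  intro Z f g hf hg hf1 hg1
  set D : Set (Finset V) := {A | Disjoint A Z} with hD
  have hDm : MeasurableSet D := trivial
  have hconv : ∀ u : Finset V → ℝ, (∀ A, 0 ≤ u A ∧ u A ≤ 1) →
      Tendsto (fun n => ∫ A in D, u A ∂(μ.map (X n))) atTop (𝓝 (∫ A in D, u A ∂(μ.map Y))) := by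
    intro u hu
    have e : ∀ (W : Ω → Finset V), Measurable W →
        ∫ A in D, u A ∂(μ.map W) = ∫ ω, D.indicator u (W ω) ∂μ := by
      intro W hW
      rw [← integral_indicator hDm, integral_map hW.aemeasurable
        measurable_from_top.aestronglyMeasurable]
    rw [e Y hY]
    simp only [fun n => e (X n) (hX n)]
    refine tendsto_integral_of_dominated_convergence (fun _ => (1 : ℝ)) ?_ (integrable_const _)
      ?_ ?_
    · intro n
      exact ((measurable_from_top (f := D.indicator u)).comp (hX n)).aestronglyMeasurable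
    · intro n
      refine Eventually.of_forall fun ω => ?_
      by_cases h : X n ω ∈ D
      · rw [Set.indicator_of_mem h, Real.norm_of_nonneg (hu _).1]; exact (hu _).2
      · rw [Set.indicator_of_notMem h]; simp
    · refine Eventually.of_forall fun ω => ?_
      refine tendsto_const_nhds.congr' ?_
      filter_upwards [hlim ω] with n hn
      rw [hn]
  have hfg : ∀ A, 0 ≤ f A * g A ∧ f A * g A ≤ 1 := fun A =>
    ⟨mul_nonneg (hf1 A).1 (hg1 A).1, mul_le_one₀ (hf1 A).2 (hg1 A).1 (hg1 A).2⟩
  have h1 : ∀ A : Finset V, (0 : ℝ) ≤ (fun _ => (1 : ℝ)) A ∧ (fun _ => (1 : ℝ)) A ≤ 1 :=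
    fun A => ⟨zero_le_one, le_rfl⟩
  have hr : ∀ (m : Measure (Finset V)) [IsFiniteMeasure m],
      m.real D = ∫ A in D, (fun _ => (1 : ℝ)) A ∂m := by
    intro m _
    rw [setIntegral_const]
    simp
  rw [hr]
  refine le_of_tendsto_of_tendsto ((hconv f hf1).mul (hconv g hg1))
    ((hconv _ hfg).mul (hconv _ h1)) (Eventually.of_forall fun n => ?_)
  have := hdf n Z f g hf hg hf1 hg1
  rw [hr] at this
  exact this

/-- A deterministic operation. -/
lemma df_app {V : Type} [DecidableEq V] {Ω : Type} [MeasurableSpace Ω] (μ : Measure Ω)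
    [IsFiniteMeasure μ] (X : Ω → Finset V) (hX : Measurable X) (h : DF (μ.map X)) (o : Op V) :
    DF (μ.map fun ω => o.app (X ω)) := by
  have h1 := dfop_holds V (μ.map X) h 1 zero_le_one le_rfl o
  have e : ENNReal.ofReal (1 - 1) • μ.map X + ENNReal.ofReal 1 • (μ.map X).map o.app =
      μ.map fun ω => o.app (X ω) := by
    rw [sub_self, ENNReal.ofReal_zero, zero_smul, zero_add, ENNReal.ofReal_one, one_smul,
      Measure.map_map measurable_from_top hX]
    rfl
  rwa [e] at h1

/-- Projection to the record. -/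
lemma df_proj {α : Type} [DecidableEq α] (μ : Measure (Finset (α ⊕ ℕ))) [IsFiniteMeasure μ]
    (h : DF μ) : DF (μ.map (Finset.toRight : Finset (α ⊕ ℕ) → Finset ℕ)) := by
  have hm : Measurable (Finset.toRight : Finset (α ⊕ ℕ) → Finset ℕ) := measurable_from_top
  have hmono : Monotone (Finset.toRight : Finset (α ⊕ ℕ) → Finset ℕ) := by
    intro A B hAB x hx
    rw [Finset.mem_toRight] at hx ⊢
    exact hAB hx
  intro Z f g hf hg hf1 hg1
  have e : (Finset.toRight : Finset (α ⊕ ℕ) → Finset ℕ) ⁻¹' {A | Disjoint A Z} =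
      {B | Disjoint B ((∅ : Finset α).disjSum Z)} := by
    ext B
    simp only [Set.mem_preimage, Set.mem_ofPred_eq, Finset.disjoint_left]
    constructor
    · rintro h (a | i) h1 h2
      · simp at h2
      · exact h (Finset.mem_toRight.mpr h1) (by simpa using h2)
    · intro h i h1 h2
      exact h (Finset.mem_toRight.mp h1) (by simpa using h2)
  have h1 := h ((∅ : Finset α).disjSum Z) (f ∘ Finset.toRight) (g ∘ Finset.toRight)
    (hf.comp hmono) (hg.comp hmono) (fun A => hf1 _) (fun A => hg1 _)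
  have key : ∀ u : Finset ℕ → ℝ, ∫ A in {A | Disjoint A Z}, u A
      ∂(μ.map (Finset.toRight : Finset (α ⊕ ℕ) → Finset ℕ)) =
      ∫ B in {B | Disjoint B ((∅ : Finset α).disjSum Z)}, u B.toRight ∂μ := by
    intro u
    rw [← e]
    exact setIntegral_map trivial measurable_from_top.aestronglyMeasurable hm.aemeasurable
  rw [key, key, key, map_measureReal_apply hm trivial, e]
  exact h1

variable {d : ℕ}

open Classical in
/-- The operations of the `Λ`-process; arrows leaving `Λ` do nothing. -/
noncomputable def opZ (Λ : Finset (Site d)) (l : Letter d) : Op (Site d ⊕ ℕ) :=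
  match l.2 with
  | none => .del (Sum.inl l.1)
  | some a => if l.1 + dir a ∈ Λ then .arr (Sum.inl l.1) (Sum.inl (l.1 + dir a))
      else .arr (Sum.inl l.1) (Sum.inl l.1)

lemma opZ_step (Λ : Finset (Site d)) (B : Finset (Site d)) (E : Finset ℕ) (l : Letter d)
    (hl : l.1 ∈ Λ) : (opZ Λ l).app ((B ∩ Λ).disjSum E) = ((upd B l) ∩ Λ).disjSum E := by
  obtain ⟨x, o⟩ := l
  simp only at hl
  have hmem : Sum.inl x ∈ (B ∩ Λ).disjSum E ↔ x ∈ B := by simp [hl]
  cases o with
  | none =>
    ext (v | v)
    · simp only [opZ, Op.app, upd, Finset.mem_erase, Finset.inl_mem_disjSum, Finset.mem_inter]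
      constructor
      · rintro ⟨h1, h2, h3⟩
        exact ⟨⟨fun h => h1 (by rw [h]), h2⟩, h3⟩
      · rintro ⟨⟨h1, h2⟩, h3⟩
        exact ⟨fun h => h1 (Sum.inl.inj h), h2, h3⟩
    · simp [opZ, Op.app]
  | some a =>
    by_cases hx : x ∈ B
    · have hupd : upd B (x, some a) = insert (x + dir a) B := by simp [upd, hx]
      by_cases hy : x + dir a ∈ Λ
      · have hop : opZ Λ (x, some a) = .arr (Sum.inl x) (Sum.inl (x + dir a)) := by
          simp [opZ, hy]
        rw [hop, hupd, Op.app, if_pos (hmem.mpr hx)]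
        ext (v | v)
        · simp only [Finset.mem_insert, Finset.inl_mem_disjSum, Finset.mem_inter,
            Sum.inl.injEq]
          constructor
          · rintro (rfl | ⟨h1, h2⟩)
            · exact ⟨Or.inl rfl, hy⟩
            · exact ⟨Or.inr h1, h2⟩
          · rintro ⟨rfl | h1, h2⟩
            · exact Or.inl rfl
            · exact Or.inr ⟨h1, h2⟩
        · simp
      · have hop : opZ Λ (x, some a) = .arr (Sum.inl x) (Sum.inl x) := by
          simp [opZ, hy]
        rw [hop, hupd, Op.app, if_pos (hmem.mpr hx), Finset.insert_eq_self.mpr (hmem.mpr hx),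
          Finset.insert_inter_of_notMem hy]
    · have hupd : upd B (x, some a) = B := by simp [upd, hx]
      rw [hupd]
      by_cases hy : x + dir a ∈ Λ
      · have hop : opZ Λ (x, some a) = .arr (Sum.inl x) (Sum.inl (x + dir a)) := by
          simp [opZ, hy]
        rw [hop, Op.app, if_neg (fun h => hx (hmem.mp h))]
      · have hop : opZ Λ (x, some a) = .arr (Sum.inl x) (Sum.inl x) := by
          simp [opZ, hy]
        rw [hop, Op.app, if_neg (fun h => hx (hmem.mp h))]

lemma opZ_fold (Λ : Finset (Site d)) (E : Finset ℕ) (w : List (Letter d))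
    (hw : ∀ l ∈ w, l.1 ∈ Λ) : ∀ B : Finset (Site d),
      w.foldl (fun Y l => (opZ Λ l).app Y) ((B ∩ Λ).disjSum E) =
        ((fold B w) ∩ Λ).disjSum E := by
  induction w with
  | nil => intro B; rfl
  | cons l w ih =>
    intro B
    rw [List.foldl_cons, opZ_step Λ B E l (hw l (by simp)),
      ih (fun l' hl' => hw l' (by simp [hl']))]
    rfl

/-- The code of the state with a record. -/
lemma code_succ (Λ : Finset (Site d)) (s : ℤ) (j : ℕ) (ω : Om d) (A : Finset (Site d))
    (E : Finset ℕ) :
    (run Λ s (j + 1) ω A).disjSum E = (word Λ (s + j) ω).foldl (fun Y l => (opZ Λ l).app Y)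
      ((run Λ s j ω A).disjSum E) := by
  have h2 : run Λ s j ω A ∩ Λ = run Λ s j ω A := Finset.inter_eq_left.2 (Run.run_sub _ _ _ _ _)
  rw [← h2, opZ_fold Λ E _ (fun l hl => Word.word_mem hl)]
  rfl

/-- DF of the law and measurability. -/
def Good (lam : ℝ≥0) (k : ℤ) (X : Om d → Finset (Site d ⊕ ℕ)) : Prop :=
  Measurable[Fs {p : Site d × ℤ | p.2 < k}] X ∧ DF ((P lam).map X)

lemma good_strip (lam : ℝ≥0) (Λ : Finset (Site d)) (k : ℤ) (X : Om d → Finset (Site d ⊕ ℕ))
    (h : Good lam k X) :
    Good lam (k + 1) fun ω => (word Λ k ω).foldl (fun Y l => (opZ Λ l).app Y) (X ω) := by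
  refine ⟨Assoc.step_meas Λ k (opZ Λ) X h.1 (fun p (hp : p.2 < k) => ?_) (fun p hp => ?_),
    Assoc.df_step lam Λ k (opZ Λ) X h.1 (fun p (hp : p.2 < k) => hp.ne) h.2⟩
  · show p.2 < k + 1
    omega
  · show p.2 < k + 1
    omega

lemma good_app (lam : ℝ≥0) (k : ℤ) (X : Om d → Finset (Site d ⊕ ℕ))
    (h : Good lam k X) (o : Op (Site d ⊕ ℕ)) : Good lam k fun ω => o.app (X ω) :=
  ⟨(measurable_from_top (f := o.app)).comp h.1,
    df_app _ X (h.1.mono (Ind.Fs_le _) le_rfl) h.2 o⟩

lemma good_run (lam : ℝ≥0) (Λ A : Finset (Site d)) (s : ℤ) (j : ℕ) :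
    Good lam (s + j) fun ω => (run Λ s j ω A).disjSum (∅ : Finset ℕ) := by
  induction j with
  | zero =>
    have : (fun ω : Om d => (run Λ s 0 ω A).disjSum (∅ : Finset ℕ)) =
        fun _ => (A ∩ Λ).disjSum (∅ : Finset ℕ) := rfl
    rw [this]
    exact ⟨measurable_const, Assoc.df_const _ _⟩
  | succ j ih =>
    have h := good_strip lam Λ (s + j) _ ih
    have e : (fun ω : Om d => (run Λ s (j + 1) ω A).disjSum (∅ : Finset ℕ)) = fun ω =>
        (word Λ (s + j) ω).foldl (fun Y l => (opZ Λ l).app Y)
          ((run Λ s j ω A).disjSum (∅ : Finset ℕ)) := funext fun ω => code_succ Λ s j ω A ∅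
    rw [e]
    have e2 : s + ((j + 1 : ℕ) : ℤ) = s + j + 1 := by push_cast; ring
    rw [e2]
    exact h

open Classical in
/-- The record of the first `i` observations. -/
noncomputable def rec' (Λ A : Finset (Site d)) (s : ℤ) (m : ℕ) (x : ℕ → Site d) (i : ℕ)
    (ω : Om d) : Finset ℕ :=
  (Finset.range i).filter fun j => x j ∈ run Λ s (m + j) ω A

lemma good_rec (lam : ℝ≥0) (Λ A : Finset (Site d)) (s : ℤ) (m : ℕ) (x : ℕ → Site d) (i : ℕ) :
    Good lam (s + ((m + i : ℕ) : ℤ)) fun ω =>
      (run Λ s (m + i) ω A).disjSum (rec' Λ A s m x i ω) := by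
  induction i with
  | zero =>
    have h := good_run lam Λ A s m
    have e : (fun ω : Om d => (run Λ s (m + 0) ω A).disjSum (rec' Λ A s m x 0 ω)) =
        fun ω => (run Λ s m ω A).disjSum (∅ : Finset ℕ) := by
      funext ω
      simp [rec']
    rw [e]
    exact h
  | succ i ih =>
    have h1 := good_app lam _ _ ih (.arr (Sum.inl (x i)) (Sum.inr i))
    have e1 : ∀ ω : Om d, (Op.arr (Sum.inl (x i)) (Sum.inr i)).app
        ((run Λ s (m + i) ω A).disjSum (rec' Λ A s m x i ω)) =
        (run Λ s (m + i) ω A).disjSum (rec' Λ A s m x (i + 1) ω) := by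
      intro ω
      rw [Op.app]
      by_cases h : x i ∈ run Λ s (m + i) ω A
      · rw [if_pos (by simpa using h)]
        have : rec' Λ A s m x (i + 1) ω = insert i (rec' Λ A s m x i ω) := by
          unfold rec'
          rw [Finset.range_add_one, Finset.filter_insert, if_pos h]
        rw [this]
        ext (v | v)
        · simp
        · simp
      · rw [if_neg (by simpa using h)]
        have : rec' Λ A s m x (i + 1) ω = rec' Λ A s m x i ω := by
          unfold rec'
          rw [Finset.range_add_one, Finset.filter_insert, if_neg h]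
        rw [this]
    simp only [e1] at h1
    have h2 := good_strip lam Λ _ _ h1
    have e2 : (fun ω : Om d => (run Λ s (m + (i + 1)) ω A).disjSum (rec' Λ A s m x (i + 1) ω)) =
        fun ω => (word Λ (s + ((m + i : ℕ) : ℤ)) ω).foldl (fun Y l => (opZ Λ l).app Y)
          ((run Λ s (m + i) ω A).disjSum (rec' Λ A s m x (i + 1) ω)) :=
      funext fun ω => code_succ Λ s (m + i) ω A _
    rw [e2]
    have e3 : s + ((m + (i + 1) : ℕ) : ℤ) = s + ((m + i : ℕ) : ℤ) + 1 := by push_cast; ring
    rw [e3]
    exact h2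

lemma df_rec (lam : ℝ≥0) (Λ A : Finset (Site d)) (s : ℤ) (m : ℕ) (x : ℕ → Site d) (i : ℕ) :
    Measurable (rec' Λ A s m x i) ∧ DF ((P lam).map (rec' Λ A s m x i)) := by
  obtain ⟨h1, h2⟩ := good_rec lam Λ A s m x i
  have hm := h1.mono (Ind.Fs_le _) le_rfl
  have : IsFiniteMeasure ((P lam).map fun ω =>
      (run Λ s (m + i) ω A).disjSum (rec' Λ A s m x i ω)) := by
    have := Measure.isProbabilityMeasure_map (μ := P lam) hm.aemeasurable
    infer_instance
  have h3 := df_proj _ h2
  have e : (fun ω : Om d => ((run Λ s (m + i) ω A).disjSum (rec' Λ A s m x i ω)).toRight) =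
      rec' Λ A s m x i := by
    funext ω
    rw [Finset.toRight_disjSum]
  constructor
  · rw [← e]
    exact (measurable_from_top (f := Finset.toRight)).comp hm
  · rw [Measure.map_map measurable_from_top hm] at h3
    rw [← e]
    exact h3

lemma exists_bx' (Λ : Finset (Site d)) : ∃ n0 : ℕ, ∀ n, n0 ≤ n → Λ ⊆ bx 0 n := by
  classical
  refine ⟨Λ.sup fun x => Finset.univ.sup fun j => (x j).natAbs, fun n hn x hx => ?_⟩
  have h1 : (Finset.univ.sup fun j => (x j).natAbs) ≤ n :=
    (Finset.le_sup (f := fun x : Site d => Finset.univ.sup fun j => (x j).natAbs) hx).trans hn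
  have h2 : ∀ j, (x j).natAbs ≤ n := fun j =>
    (Finset.le_sup (f := fun j => (x j).natAbs) (Finset.mem_univ j)).trans h1
  rw [bx, Finset.mem_Icc]
  constructor
  · intro j
    have := h2 j
    simp only [Pi.zero_apply]
    omega
  · intro j
    have := h2 j
    simp only [Pi.zero_apply]
    omega

lemma run_anti (Λ : Finset (Site d)) (i : ℤ) (m0 r : ℕ) (ω : Om d) :
    run Λ (i - ((r + m0 : ℕ) : ℤ)) (r + m0) ω Λ ⊆ run Λ (i - m0) m0 ω Λ := by
  rw [Run.run_add]
  have e : i - ((r + m0 : ℕ) : ℤ) + r = i - m0 := by push_cast; ring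
  rw [e]
  exact Run.run_mono (Finset.Subset.refl _) _ _ _ (Run.run_sub _ _ _ _ _)

end Dfz

open Dfz in
theorem dfz_holds : DFZ_spec := by
  classical
  intro d lam x n
  -- the limit in `L`
  have h1 : ∀ m : ℕ, Measurable (fun ω : Om d => (Finset.range n).filter fun i : ℕ =>
        ∃ Λ : Finset (Site d), x i ∈ run Λ (-(m : ℤ)) (m + i) ω Λ) ∧
      DF ((P lam).map fun ω : Om d => (Finset.range n).filter fun i : ℕ =>
        ∃ Λ : Finset (Site d), x i ∈ run Λ (-(m : ℤ)) (m + i) ω Λ) := by
    intro m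
    refine df_tendsto (P lam) (fun L => rec' (bx 0 L) (bx 0 L) (-(m : ℤ)) m x n) _
      (fun L => (df_rec lam _ _ _ m x n).1) ?_ (fun L => (df_rec lam _ _ _ m x n).2)
    intro ω
    have h2 : ∀ i ∈ Finset.range n, ∀ᶠ L : ℕ in atTop,
        (x i ∈ run (bx 0 L) (-(m : ℤ)) (m + i) ω (bx 0 L) ↔
          ∃ Λ : Finset (Site d), x i ∈ run Λ (-(m : ℤ)) (m + i) ω Λ) := by
      intro i _
      by_cases h : ∃ Λ : Finset (Site d), x i ∈ run Λ (-(m : ℤ)) (m + i) ω Λ
      · obtain ⟨Λ, hΛ⟩ := h
        obtain ⟨n0, hn0⟩ := exists_bx' Λ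
        filter_upwards [eventually_ge_atTop n0] with L hL
        exact ⟨fun h => ⟨_, h⟩, fun _ => Run.run_mono (hn0 L hL) _ _ _ (hn0 L hL) hΛ⟩
      · exact Eventually.of_forall fun L => ⟨fun h => ⟨_, h⟩, fun h' => absurd h' h⟩
    rw [← Finset.eventually_all] at h2
    filter_upwards [h2] with L hL
    exact Finset.filter_congr fun i hi => hL i hi
  have h3 := (df_tendsto (P lam) _ (fun ω : Om d =>
    (Finset.range n).filter fun i : ℕ => EtaS ω (i : ℤ) (x i)) (fun m => (h1 m).1) ?_
    (fun m => (h1 m).2)).2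
  · convert h3
  · intro ω
    have h2 : ∀ i ∈ Finset.range n, ∀ᶠ m : ℕ in atTop,
        ((∃ Λ : Finset (Site d), x i ∈ run Λ (-(m : ℤ)) (m + i) ω Λ) ↔
          EtaS ω (i : ℤ) (x i)) := by
      intro i _
      by_cases h : EtaS ω (i : ℤ) (x i)
      · refine Eventually.of_forall fun m => ⟨fun _ => h, fun _ => ?_⟩
        obtain ⟨Λ, hΛ⟩ := h (m + i)
        refine ⟨Λ, ?_⟩
        have e : (i : ℤ) - ((m + i : ℕ) : ℤ) = -(m : ℤ) := by push_cast; ring
        rwa [e] at hΛ
      · have h' := h
        unfold EtaS at h'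
        push Not at h'
        obtain ⟨m0, hm0⟩ := h'
        filter_upwards [eventually_ge_atTop m0] with m hm
        refine ⟨fun h4 => ?_, fun h4 => absurd h4 h⟩
        obtain ⟨Λ, hΛ⟩ := h4
        obtain ⟨r, hr⟩ : ∃ r, m + i = r + m0 := ⟨m + i - m0, by omega⟩
        exfalso
        have e : -(m : ℤ) = (i : ℤ) - ((r + m0 : ℕ) : ℤ) := by
          rw [← hr]; push_cast; ring
        rw [hr, e] at hΛ
        exact hm0 Λ (run_anti Λ i m0 r ω hΛ)
    rw [← Finset.eventually_all] at h2
    filter_upwards [h2] with m hm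
    exact Finset.filter_congr fun i hi => hm i hi

end Pool.Agent.Lib.MP_c12170_pr
end

section
/-!
# MP_c12170_pr: all modules together, without hypotheses
-/
namespace Pool.Agent.Lib.MP_c12170_pr

namespace All

theorem sym : SYM_spec := sym_holds wlaw_holds
theorem dual : DUAL_spec := dual_holds wlaw_holds
theorem grow : GROW_spec := grow_holds wlaw_holds
theorem full : FULL_spec := full_holds grow
theorem sv : SV_spec := sv_holds sym
theorem markov : MARKOV_spec := markov_holds full sym
theorem theta : THETA_spec := theta_holds sym dual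
theorem infh : INFH_spec := infh_holds markov
theorem fill : FILL_spec := fill_holds wlaw_holds
theorem diebox : DIEBOX_spec := diebox_holds wlaw_holds
theorem exit0 : EXIT0_spec := exit0_holds grow
theorem killdet : KILLDET_spec := killdet_holds word_holds run_holds
theorem kill : KILL_spec := kill_holds wlaw_holds killdet exit0
theorem tl : TL_spec := tl_holds kill exit0 diebox assoc_holds
theorem sqrt : SQRT_spec := sqrt_holds assoc_holds sym
theorem topmove : TOPMOVE_spec := topmove_holds fill
theorem sidemove : SIDEMOVE_spec := sidemove_holds wlaw_holds fill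
theorem moves : MOVES_spec := moves_holds infh tl sqrt topmove sidemove
theorem compose : COMPOSE_spec := compose_holds sym
theorem block : BLOCK_spec := block_holds moves compose
theorem tail : TAIL_spec := tail_holds ind_holds run_holds sv markov super_holds block fill
theorem est : EST_spec :=
  est_holds ind_holds run_holds sv dual theta infh dfz_holds thin_holds fill tail

/-- The main statement, without hypotheses. -/
theorem main : MainStatement :=
  main_holds est dfz_holds thin_holds dom_holds theta bridge_holds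

end All

end Pool.Agent.Lib.MP_c12170_pr
end
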