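import Pool.Agent.Lib.MP_c12170_pr.Statement

/-!
# MP_c12170_pr: working definitions (integer strips)

See `/team-store/MP_c12170_pr_PROOF.md`.  Strip `k` is the time interval `[k, k+1]`.
-/

open MeasureTheory ProbabilityTheory
open scoped ENNReal NNReal

namespace Pool.Agent.Lib.MP_c12170_pr

instance instMSFinset (α : Type) : MeasurableSpace (Finset α) := ⊤
instance instMSList (α : Type) : MeasurableSpace (List α) := ⊤
instance instDMSFinset (α : Type) : DiscreteMeasurableSpace (Finset α) := ⟨fun _ => trivial⟩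
instance instDMSList (α : Type) : DiscreteMeasurableSpace (List α) := ⟨fun _ => trivial⟩

section words

variable {d : ℕ}

/-- The marks of strip `k` with source in `Λ`: pairs (letter, number of the mark). -/
def marks (Λ : Finset (Site d)) (k : ℤ) (ω : Om d) : Finset (Σ _ : Letter d, ℕ) :=
  (Λ ×ˢ (Finset.univ : Finset (Option (Dir d)))).sigma fun l => Finset.range (ω (l, k)).1

/-- The sorting key of a mark: its position, ties are broken by a code. -/
noncomputable def key (k : ℤ) (ω : Om d) (m : Σ _ : Letter d, ℕ) : unitInterval ×ₗ ℕ :=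
  toLex ((ω (m.1, k)).2 m.2, Encodable.encode m)

/-- The order of the marks. -/
def keyLE (k : ℤ) (ω : Om d) (m m' : Σ _ : Letter d, ℕ) : Prop := key k ω m ≤ key k ω m'

noncomputable instance (k : ℤ) (ω : Om d) : DecidableRel (keyLE k ω) := fun _ _ =>
  inferInstanceAs (Decidable (_ ≤ _))

instance (k : ℤ) (ω : Om d) : IsTrans _ (keyLE k ω) := ⟨fun _ _ _ h h' => le_trans h h'⟩

instance (k : ℤ) (ω : Om d) : Std.Total (keyLE k ω) := ⟨fun _ _ => le_total _ _⟩

theorem key_injective (k : ℤ) (ω : Om d) : Function.Injective (key k ω) := by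
  intro m m' h
  have h2 := congrArg (fun z => (ofLex z).2) h
  exact Encodable.encode_injective h2

instance (k : ℤ) (ω : Om d) : Std.Antisymm (keyLE k ω) :=
  ⟨fun _ _ h h' => key_injective k ω (le_antisymm h h')⟩

/-- The word of strip `k`: the letters of the marks with source in `Λ`, in the order of time. -/
noncomputable def word (Λ : Finset (Site d)) (k : ℤ) (ω : Om d) : List (Letter d) :=
  ((marks Λ k ω).sort (keyLE k ω)).map Sigma.fst

/-- The σ-algebra of the coordinates `(x, ·, k)` with `(x, k) ∈ J`. -/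
@[reducible] def Fs (J : Set (Site d × ℤ)) : MeasurableSpace (Om d) :=
  ⨆ p ∈ {p : Letter d × ℤ | (p.1.1, p.2) ∈ J},
    MeasurableSpace.comap (fun ω : Om d => ω p) inferInstance

end words

section runs

variable {d : ℕ}

/-- Effect of one letter on the set of infected sites. -/
def upd (A : Finset (Site d)) (l : Letter d) : Finset (Site d) :=
  match l.2 with
  | none => A.erase l.1
  | some a => if l.1 ∈ A then insert (l.1 + dir a) A else A

/-- Effect of a word. -/
def fold (A : Finset (Site d)) (w : List (Letter d)) : Finset (Site d) := w.foldl upd A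

/-- The state at the end of strip `k` when only the marks with source in `Λ` are used: infected
sites in `Λ` and all sites outside `Λ` which were hit. -/
noncomputable def strip (Λ : Finset (Site d)) (k : ℤ) (ω : Om d) (A : Finset (Site d)) :
    Finset (Site d) := fold A (word Λ k ω)

/-- The `Λ`-process started from `A ∩ Λ` at time `s`, after `m` strips. -/
noncomputable def run (Λ : Finset (Site d)) (s : ℤ) (m : ℕ) (ω : Om d) (A : Finset (Site d)) :
    Finset (Site d) :=
  match m with
  | 0 => A ∩ Λ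
  | m + 1 => strip Λ (s + m) ω (run Λ s m ω A) ∩ Λ

/-- The sites outside `Λ` which are hit by the `Λ`-process in strip `s + k`. -/
noncomputable def exits (Λ : Finset (Site d)) (s : ℤ) (k : ℕ) (ω : Om d) (A : Finset (Site d)) :
    Finset (Site d) := strip Λ (s + k) ω (run Λ s k ω A) \ Λ

/-- The list of the end-of-strip states of the `Λ`-process: everything about the `Λ`-process
(states at integer times and exits) is a function of it. -/
noncomputable def trace (Λ : Finset (Site d)) (s : ℤ) (m : ℕ) (ω : Om d) (A : Finset (Site d)) :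
    List (Finset (Site d)) :=
  (List.range m).map fun j : ℕ => strip Λ (s + j) ω (run Λ s j ω A)

/-- The full process from `A` (started at time `s`) is alive after `m` strips. -/
def alive (s : ℤ) (m : ℕ) (ω : Om d) (A : Finset (Site d)) : Prop :=
  ∃ Λ : Finset (Site d), (run Λ s m ω A).Nonempty

/-- `B` is the state of the full process after `m` strips. -/
def IsFull (s : ℤ) (m : ℕ) (ω : Om d) (A B : Finset (Site d)) : Prop :=
  (∀ Λ : Finset (Site d), run Λ s m ω A ⊆ B) ∧ ∃ Λ : Finset (Site d), run Λ s m ω A = B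

/-- The survival probabilities `s_A(m)`. -/
noncomputable def sv (lam : ℝ≥0) (A : Finset (Site d)) (m : ℕ) : ℝ :=
  (P lam).real {ω : Om d | alive 0 m ω A}

/-- The extinction probability `h(A)`. -/
noncomputable def hv (lam : ℝ≥0) (A : Finset (Site d)) : ℝ := 1 - ⨅ m : ℕ, sv lam A m

/-- The box `z + [-n, n]^{d+1}`. -/
noncomputable def bx (z : Site d) (n : ℕ) : Finset (Site d) :=
  Finset.Icc (fun j => z j - (n : ℤ)) (fun j => z j + (n : ℤ))

/-- The strip version of the upper stationary process at integer times. -/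
def EtaS (ω : Om d) (i : ℤ) (x : Site d) : Prop :=
  ∀ m : ℕ, ∃ Λ : Finset (Site d), x ∈ run Λ (i - m) m ω Λ

/-- Automorphisms of the lattice. -/
structure Aut (d : ℕ) where
  /-- action on sites -/
  e : Site d ≃ Site d
  /-- action on signed directions -/
  de : Dir d ≃ Dir d
  h : ∀ x a, e (x + dir a) = e x + dir (de a)

/-- Translations. -/
def Aut.tr {d : ℕ} (y : Site d) : Aut d where
  e := Equiv.addRight y
  de := Equiv.refl _
  h := fun x a => by simp [add_right_comm]

/-- Image of a finite set of sites. -/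
def Aut.im {d : ℕ} (π : Aut d) (A : Finset (Site d)) : Finset (Site d) := A.map π.e.toEmbedding

/-- Closed orthants: `InOrth σ x`: the coordinate `x j` is `≥ 0` if `σ j`, and `≤ 0` otherwise. -/
def InOrth {d : ℕ} (σ : Fin (d + 1) → Bool) (x : Site d) : Prop :=
  ∀ j, if σ j then 0 ≤ x j else x j ≤ 0

/-- The side class of a signed direction `a` and an orthant `σ`: sites just outside the box of
radius `L` behind the face `a`, the other coordinates in the box and with signs `σ`. -/
def InSide {d : ℕ} (L : ℕ) (a : Dir d) (σ : Fin (d + 1) → Bool) (x : Site d) : Prop :=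
  x a.1 = (if a.2 then 1 else -1) * ((L : ℤ) + 1) ∧
    ∀ j, j ≠ a.1 → |x j| ≤ L ∧ if σ j then 0 ≤ x j else x j ≤ 0

end runs

section dfkg

variable {V : Type} [DecidableEq V]

/-- Elementary operations on finite subsets of `V`. -/
inductive Op (V : Type) : Type
  /-- delete `v` -/
  | del (v : V) : Op V
  /-- if `v` is present, insert `v'` -/
  | arr (v v' : V) : Op V

/-- Action of an operation. -/
def Op.app (o : Op V) (A : Finset V) : Finset V :=
  match o with
  | .del v => A.erase v
  | .arr v v' => if v ∈ A then insert v' A else A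

/-- The property dFKG (downward FKG): the measure conditioned on `{A | A ∩ Z = ∅}` is positively
associated for every finite `Z`. -/
def DF (μ : Measure (Finset V)) : Prop :=
  ∀ (Z : Finset V) (f g : Finset V → ℝ), Monotone f → Monotone g →
    (∀ A, 0 ≤ f A ∧ f A ≤ 1) → (∀ A, 0 ≤ g A ∧ g A ≤ 1) →
    (∫ A in {A | Disjoint A Z}, f A ∂μ) * (∫ A in {A | Disjoint A Z}, g A ∂μ) ≤
      (∫ A in {A | Disjoint A Z}, f A * g A ∂μ) * μ.real {A | Disjoint A Z}

end dfkg

section moves

variable {d : ℕ}

/-- From the full box around `z` at time `s`, the `Λ`-process reaches a full box `p.1 + [-n,n]` at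
time `p.2` for some `p ∈ S`. -/
def Hit (Λ : Finset (Site d)) (n : ℕ) (z : Site d) (s : ℕ) (S : Set (Site d × ℕ)) (ω : Om d) :
    Prop :=
  ∃ p ∈ S, s ≤ p.2 ∧ bx p.1 n ⊆ run Λ (s : ℤ) (p.2 - s) ω (bx z n)

/-- Targets of a top move of duration `t`. -/
def topS (L : ℕ) (t : ℕ) (σ : Fin (d + 1) → Bool) : Set (Site d × ℕ) :=
  {p | p.1 ∈ bx (0 : Site d) L ∧ InOrth σ p.1 ∧ p.2 = t}

/-- Targets of a side move. -/
def sideS (L n T : ℕ) (a : Dir d) (σ : Fin (d + 1) → Bool) : Set (Site d × ℕ) :=
  {p | p.1 a.1 = (if a.2 then 1 else -1) * ((L : ℤ) + 1 + n) ∧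
    (∀ j, j ≠ a.1 → |p.1 j| ≤ L ∧ if σ j then 0 ≤ p.1 j else p.1 j ≤ 0) ∧
    2 ≤ p.2 ∧ p.2 ≤ T + 2}

/-- The windows. -/
def win (ℓ : ℕ) (i : ℤ) : Set (Site d) :=
  {z | |z 0 - 4 * ℓ * i| ≤ ℓ ∧ ∀ j, j ≠ 0 → |z j| ≤ ℓ}

/-- The region of block `i`. -/
noncomputable def reg (ℓ : ℕ) (i : ℤ) : Finset (Site d) :=
  Finset.Icc (fun j => if j = 0 then 4 * ℓ * i - 7 * ℓ else -(3 * ℓ))
    (fun j => if j = 0 then 4 * ℓ * i + 7 * ℓ else 3 * ℓ)

/-- `Q y j ω`: in strip `j` there is no arrow from `y` and there is at least one recovery. -/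
def Qk (y : Site d) (j : ℤ) (ω : Om d) : Prop :=
  (∀ l ∈ word {y} j ω, l.2 = none) ∧ word {y} j ω ≠ []

/-- Block success: from the full box around `z` (with `z` in window `i`) the process in the region
of block `i` reaches in `H` strips full boxes centred in the windows `i - 1`, `i`, `i + 1`. -/
def BlockGood (n ℓ H : ℕ) (i : ℤ) (z : Site d) (ω : Om d) : Prop :=
  ∀ i' : ℤ, |i' - i| ≤ 1 → ∃ z' ∈ win ℓ i', bx z' n ⊆ run (reg ℓ i) 0 H ω (bx z n)

/-- `X ↦ X + {-1, 0, 1}`. -/
def plus (X : Finset ℤ) : Finset ℤ := X.image (· - 1) ∪ X ∪ X.image (· + 1)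

end moves

end Pool.Agent.Lib.MP_c12170_pr
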