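import Pool.Agent.Lib.MP_c12170_pr.Defs

/-!
# MP_c12170_pr: the statements of the modules

See `/team-store/MP_c12170_pr_PROOF.md` for the proofs.
-/

open MeasureTheory ProbabilityTheory Filter Topology
open scoped ENNReal NNReal

namespace Pool.Agent.Lib.MP_c12170_pr

/-! ### Words and independence -/

/-- WORD: filter property, support and measurability of the words. -/
def WORD_spec : Prop :=
  (∀ (d : ℕ) (Λ Λ' : Finset (Site d)) (k : ℤ) (ω : Om d), Λ ⊆ Λ' →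
    word Λ k ω = (word Λ' k ω).filter (fun l => l.1 ∈ Λ)) ∧
  (∀ (d : ℕ) (Λ : Finset (Site d)) (k : ℤ) (ω : Om d), ∀ l ∈ word Λ k ω, l.1 ∈ Λ) ∧
  (∀ (d : ℕ) (Λ : Finset (Site d)) (k : ℤ),
    Measurable[Fs {p : Site d × ℤ | p.1 ∈ Λ ∧ p.2 = k}] (word Λ k))

/-- WLAW: the law of a word. -/
def WLAW_spec : Prop :=
  ∀ (d : ℕ) (lam : ℝ≥0) (Λ : Finset (Site d)) (k : ℤ) (w : List (Letter d)),
    (∀ l ∈ w, l.1 ∈ Λ) →
    (P lam).real {ω : Om d | word Λ k ω = w} =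
      Real.exp (-((Λ.card : ℝ) * (1 + 2 * ((d : ℝ) + 1) * lam))) *
        (w.map fun l => (rate lam l.2 : ℝ)).prod / (w.length.factorial : ℝ)

/-- IND: disjoint sets of coordinates are independent. -/
def IND_spec : Prop :=
  (∀ (d : ℕ) (lam : ℝ≥0), IsProbabilityMeasure (P (d := d) lam)) ∧
  (∀ (d : ℕ) (J : Set (Site d × ℤ)), Fs J ≤ (MeasurableSpace.pi : MeasurableSpace (Om d))) ∧
  (∀ (d : ℕ) (J J' : Set (Site d × ℤ)), J ⊆ J' → Fs J ≤ Fs J') ∧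
  (∀ (d : ℕ) (lam : ℝ≥0) (J J' : Set (Site d × ℤ)), Disjoint J J' →
    Indep (Fs J) (Fs J') (P lam)) ∧
  (∀ (d : ℕ) (lam : ℝ≥0) (ι : Type) (I : Finset ι) (J : ι → Set (Site d × ℤ))
    (E : ι → Set (Om d)), (∀ i ∈ I, ∀ j ∈ I, i ≠ j → Disjoint (J i) (J j)) →
    (∀ i ∈ I, MeasurableSet[Fs (J i)] (E i)) →
    (P lam).real (⋂ i ∈ I, E i) = ∏ i ∈ I, (P lam).real (E i))

/-- RUN: deterministic properties and measurability of the `Λ`-process. -/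
def RUN_spec : Prop :=
  (∀ (d : ℕ) (Λ Λ' : Finset (Site d)) (s : ℤ) (m : ℕ) (ω : Om d) (A A' : Finset (Site d)),
    Λ ⊆ Λ' → A ⊆ A' → run Λ s m ω A ⊆ run Λ' s m ω A') ∧
  (∀ (d : ℕ) (Λ : Finset (Site d)) (s : ℤ) (m m' : ℕ) (ω : Om d) (A : Finset (Site d)),
    run Λ s (m + m') ω A = run Λ (s + m) m' ω (run Λ s m ω A)) ∧
  (∀ (d : ℕ) (Λ : Finset (Site d)) (s : ℤ) (m : ℕ) (ω : Om d) (A B : Finset (Site d)),
    run Λ s m ω (A ∪ B) = run Λ s m ω A ∪ run Λ s m ω B) ∧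
  (∀ (d : ℕ) (Λ : Finset (Site d)) (s : ℤ) (m : ℕ) (ω : Om d) (A : Finset (Site d)),
    run Λ s m ω A ⊆ Λ) ∧
  (∀ (d : ℕ) (Λ : Finset (Site d)) (s : ℤ) (m : ℕ) (A : Finset (Site d)),
    Measurable[Fs {p : Site d × ℤ | p.1 ∈ Λ ∧ s ≤ p.2 ∧ p.2 < s + m}]
      (fun ω : Om d => run Λ s m ω A)) ∧
  (∀ (d : ℕ) (Λ : Finset (Site d)) (s : ℤ) (m : ℕ) (A : Finset (Site d)),
    Measurable[Fs {p : Site d × ℤ | p.1 ∈ Λ ∧ s ≤ p.2 ∧ p.2 < s + m}]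
      (fun ω : Om d => trace Λ s m ω A)) ∧
  (∀ (d : ℕ) (Λ : Finset (Site d)) (s : ℤ) (k : ℕ) (A : Finset (Site d)),
    Measurable[Fs {p : Site d × ℤ | p.1 ∈ Λ ∧ s ≤ p.2 ∧ p.2 < s + k + 1}]
      (fun ω : Om d => exits Λ s k ω A))

/-- SYM: the law of the trace is invariant under lattice automorphisms and time shifts. -/
def SYM_spec : Prop :=
  ∀ (d : ℕ) (lam : ℝ≥0) (π : Aut d) (Λ : Finset (Site d)) (s s' : ℤ) (m : ℕ)
    (A : Finset (Site d)) (Q : List (Finset (Site d)) → Prop),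
    (P lam).real {ω : Om d | Q (trace (π.im Λ) s m ω (π.im A))} =
      (P lam).real {ω : Om d | Q ((trace Λ s' m ω A).map π.im)}

/-- DUAL: self-duality of the `Λ`-process. -/
def DUAL_spec : Prop :=
  ∀ (d : ℕ) (lam : ℝ≥0) (Λ : Finset (Site d)) (s s' : ℤ) (m : ℕ) (A B : Finset (Site d)),
    (P lam).real {ω : Om d | (run Λ s m ω A ∩ B).Nonempty} =
      (P lam).real {ω : Om d | (run Λ s' m ω B ∩ A).Nonempty}

/-- GROW: exponential growth bound for weighted counts. -/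
def GROW_spec : Prop :=
  ∀ (d : ℕ) (lam K : ℝ≥0) (g : Site d → ℝ≥0∞), (∀ x a, g (x + dir a) ≤ K * g x) →
    (∀ (Λ : Finset (Site d)) (k : ℤ) (A : Finset (Site d)),
      ∫⁻ ω, ∑ x ∈ strip Λ k ω A, g x ∂(P lam) ≤
        ENNReal.ofReal (Real.exp (2 * ((d : ℝ) + 1) * lam * K)) * ∑ x ∈ A, g x) ∧
    (∀ (Λ : Finset (Site d)) (s : ℤ) (m : ℕ) (A : Finset (Site d)),
      ∫⁻ ω, ∑ x ∈ run Λ s m ω A, g x ∂(P lam) ≤
        ENNReal.ofReal (Real.exp (2 * ((d : ℝ) + 1) * lam * K)) ^ m * ∑ x ∈ A, g x) ∧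
    (∀ (Λ : Finset (Site d)) (s : ℤ) (m : ℕ) (A : Finset (Site d)),
      ∫⁻ ω, ∑ x ∈ exits Λ s m ω A, g x ∂(P lam) ≤
        ENNReal.ofReal (Real.exp (2 * ((d : ℝ) + 1) * lam * K)) ^ (m + 1) * ∑ x ∈ A, g x)

/-! ### The full process -/

/-- FULL: almost surely the full process stays finite. -/
def FULL_spec : Prop :=
  ∀ (d : ℕ) (lam : ℝ≥0), ∀ᵐ ω ∂(P (d := d) lam), ∀ (s : ℤ) (m : ℕ) (A : Finset (Site d)),
    ∃ B, IsFull s m ω A B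

/-- SV: basic properties of the survival probabilities. -/
def SV_spec : Prop :=
  (∀ (d : ℕ) (lam : ℝ≥0) (A : Finset (Site d)) (m : ℕ), 0 ≤ sv lam A m ∧ sv lam A m ≤ 1) ∧
  (∀ (d : ℕ) (lam : ℝ≥0) (A : Finset (Site d)) (m m' : ℕ), m ≤ m' →
    sv lam A m' ≤ sv lam A m) ∧
  (∀ (d : ℕ) (lam : ℝ≥0) (A A' : Finset (Site d)) (m : ℕ), A ⊆ A' →
    sv lam A m ≤ sv lam A' m) ∧
  (∀ (d : ℕ) (lam : ℝ≥0) (A : Finset (Site d)) (m : ℕ) (y : Site d),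
    sv lam ((Aut.tr y).im A) m = sv lam A m) ∧
  (∀ (d : ℕ) (lam : ℝ≥0) (A : Finset (Site d)) (s : ℤ) (m : ℕ),
    (P lam).real {ω : Om d | alive s m ω A} = sv lam A m) ∧
  (∀ (d : ℕ) (lam : ℝ≥0) (A : Finset (Site d)) (s : ℤ) (m : ℕ), Tendsto
    (fun L : ℕ => (P lam).real {ω : Om d | (run (bx 0 L) s m ω A).Nonempty}) atTop
    (𝓝 (sv lam A m))) ∧
  (∀ (d : ℕ) (lam : ℝ≥0) (A : Finset (Site d)),
    Tendsto (fun m => sv lam A m) atTop (𝓝 (1 - hv lam A))) ∧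
  (∀ (d : ℕ) (lam : ℝ≥0) (A : Finset (Site d)),
    hv lam A = (P lam).real {ω : Om d | ∃ m, ¬ alive 0 m ω A}) ∧
  (∀ (d : ℕ) (s : ℤ) (m m' : ℕ) (ω : Om d) (A : Finset (Site d)), m ≤ m' →
    alive s m' ω A → alive s m ω A)

/-- MARKOV: the Markov property of the full process at time `t`. -/
def MARKOV_spec : Prop :=
  (∀ (d : ℕ) (lam : ℝ≥0) (t k m : ℕ) (A : Finset (Site d)) (E : Set (Om d)) (c : ℝ),
    0 ≤ c → k ≤ m → MeasurableSet[Fs {p : Site d × ℤ | 0 ≤ p.2 ∧ p.2 < t}] E →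
    (∀ ω ∈ E, ∀ B, IsFull 0 t ω A B → sv lam B k - sv lam B m ≤ c) →
    (P lam).real (E ∩ {ω | alive 0 (t + k) ω A ∧ ¬ alive 0 (t + m) ω A}) ≤
      c * (P lam).real E) ∧
  (∀ (d : ℕ) (lam : ℝ≥0) (t : ℕ) (A : Finset (Site d)) (E : Set (Om d)) (c : ℝ),
    0 ≤ c → MeasurableSet[Fs {p : Site d × ℤ | 0 ≤ p.2 ∧ p.2 < t}] E →
    (∀ ω ∈ E, ∀ B, IsFull 0 t ω A B → c ≤ hv lam B) →
    c * (P lam).real E ≤ (P lam).real (E ∩ {ω | ∃ m, ¬ alive 0 m ω A}))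

/-- THETA: the density of the upper stationary process, by duality. -/
def THETA_spec : Prop :=
  ∀ (d : ℕ) (lam : ℝ≥0) (i : ℤ) (x : Site d),
    (P lam).real {ω : Om d | EtaS ω i x} = 1 - hv lam ({0} : Finset (Site d))

/-- INFH: extinction probabilities of large boxes are small. -/
def INFH_spec : Prop :=
  ∀ (d : ℕ) (lam : ℝ≥0), hv lam ({0} : Finset (Site d)) < 1 →
    ∀ ε : ℝ, 0 < ε → ∃ n : ℕ, hv lam (bx (0 : Site d) n) ≤ ε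

/-! ### dFKG -/

/-- DFOP: a Bernoulli letter step preserves dFKG. -/
def DFOP_spec : Prop :=
  ∀ (V : Type) [DecidableEq V] (μ : Measure (Finset V)) [IsFiniteMeasure μ], DF μ →
    ∀ (q : ℝ), 0 ≤ q → q ≤ 1 → ∀ o : Op V,
      DF (ENNReal.ofReal (1 - q) • μ + ENNReal.ofReal q • μ.map o.app)

/-- DFW: a strip preserves dFKG. -/
def DFW_spec : Prop :=
  ∀ (V : Type) [DecidableEq V] [Countable V] (d : ℕ) (lam : ℝ≥0) (Λ : Finset (Site d)) (k : ℤ)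
    (opm : Letter d → Op V) (μ : Measure (Finset V)) [IsFiniteMeasure μ], DF μ →
      DF ((μ.prod (P lam)).map fun p : Finset V × Om d =>
        (word Λ k p.2).foldl (fun X l => (opm l).app X) p.1)

open Classical in
/-- ASSOC: the top state and the exits are jointly dFKG. -/
def ASSOC_spec : Prop :=
  ∀ (d : ℕ) (lam : ℝ≥0) (Λ A : Finset (Site d)) (T : ℕ),
    DF ((P lam).map fun ω : Om d =>
      ((run Λ 0 T ω A).image Sum.inl ∪ (Finset.range T).biUnion fun k =>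
        (exits Λ 0 k ω A).image fun x => Sum.inr (x, k) : Finset (Site d ⊕ Site d × ℕ)))

open Classical in
/-- DFZ: the observed set of times is dFKG. -/
def DFZ_spec : Prop :=
  ∀ (d : ℕ) (lam : ℝ≥0) (x : ℕ → Site d) (n : ℕ),
    DF ((P lam).map fun ω : Om d => (Finset.range n).filter fun i : ℕ => EtaS ω (i : ℤ) (x i))

/-- THIN: weighted correlation inequalities for a dFKG law of a random subset of `ℕ`. -/
def THIN_spec : Prop :=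
  ∀ (μ : Measure (Finset ℕ)) [IsProbabilityMeasure μ], DF μ → ∀ (δ : ℝ), 0 ≤ δ → δ ≤ 1 →
    (∀ (S T : Finset ℕ) (n : ℕ), Disjoint S T → n ∉ S →
      (∫ A, (if T ⊆ A then (1 - δ) ^ (A ∩ S).card else 0) ∂μ) *
        (∫ A, (if n ∈ A then (1 - δ) ^ (A ∩ S).card else 0) ∂μ) ≤
      (∫ A, (if T ⊆ A ∧ n ∈ A then (1 - δ) ^ (A ∩ S).card else 0) ∂μ) *
        (∫ A, (1 - δ) ^ (A ∩ S).card ∂μ)) ∧
    (∀ (S S' : Finset ℕ), Disjoint S S' →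
      (∫ A, (1 - δ) ^ (A ∩ S).card ∂μ) * (∫ A, (1 - δ) ^ (A ∩ S').card ∂μ) ≤
        ∫ A, (1 - δ) ^ (A ∩ (S ∪ S')).card ∂μ)

/-! ### Local events -/

/-- FILL: one strip fills a box from any of its points with positive probability. -/
def FILL_spec : Prop :=
  ∀ (d : ℕ) (lam : ℝ≥0), 0 < lam → ∀ n : ℕ, ∃ f : ℝ, 0 < f ∧ ∀ (y x : Site d) (k : ℤ),
    x ∈ bx y n → f ≤ (P lam).real {ω : Om d | bx y n ⊆ run (bx y n) k 1 ω {x}}

/-- DIEBOX: the process in a finite set dies out. -/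
def DIEBOX_spec : Prop :=
  ∀ (d : ℕ) (lam : ℝ≥0) (Λ A : Finset (Site d)), Tendsto
    (fun u : ℕ => (P lam).real {ω : Om d | (run Λ 0 u ω A).Nonempty}) atTop (𝓝 0)

/-- EXIT0: for a fixed time there are no exits from large boxes. -/
def EXIT0_spec : Prop :=
  ∀ (d : ℕ) (lam : ℝ≥0) (A : Finset (Site d)) (t : ℕ) (ε : ℝ), 0 < ε → ∃ L0 : ℕ, ∀ L, L0 ≤ L →
    (P lam).real {ω : Om d | ∃ k, k < t ∧ (exits (bx 0 L) 0 k ω A).Nonempty} ≤ ε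

/-- KILLDET: if the final state and all exits are killed, the full process is dead. -/
def KILLDET_spec : Prop :=
  ∀ (d : ℕ) (ω : Om d) (Λ A : Finset (Site d)) (T : ℕ), A ⊆ Λ →
    (∀ x ∈ run Λ 0 T ω A, Qk x T ω) →
    (∀ k : ℕ, k < T → ∀ x ∈ exits Λ 0 k ω A, Qk x k ω ∧ Qk x (k + 1) ω) →
    ¬ alive 0 (T + 1) ω A

/-- KILL: few points at the top and few exits only if the process dies out. -/
def KILL_spec : Prop :=
  ∀ (d : ℕ) (lam : ℝ≥0) (A : Finset (Site d)) (C : ℕ) (ε : ℝ), 0 < ε → ∃ L0 t0 : ℕ,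
    ∀ L T : ℕ, L0 ≤ L → t0 ≤ T →
      (P lam).real {ω : Om d | (run (bx 0 L) 0 T ω A).card +
        ∑ k ∈ Finset.range T, (exits (bx 0 L) 0 k ω A).card ≤ C} ≤ hv lam A + ε

/-- TL: choice of the time scale `T = T_L`. -/
def TL_spec : Prop :=
  ∀ (d : ℕ) (lam : ℝ≥0) (n : ℕ) (δ : ℝ), 0 < δ → δ ≤ 1 / 4 →
    hv lam (bx (0 : Site d) n) ≤ δ ^ 2 → ∀ C C' : ℕ, ∃ u0 L T : ℕ, n ≤ L ∧
      2 * (u0 + 1) ≤ T + 1 ∧
      (∀ u, u0 ≤ u → u ≤ T →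
        (P lam).real {ω : Om d | (run (bx 0 L) 0 u ω (bx 0 n)).card ≤ C} ≤ δ) ∧
      (P lam).real {ω : Om d |
        ∑ k ∈ Finset.range (T + 1), (exits (bx 0 L) 0 k ω (bx 0 n)).card ≤ C'} ≤ 2 * δ

open Classical in
/-- SQRT: square root trick with symmetries. -/
def SQRT_spec : Prop :=
  (∀ (d : ℕ) (lam : ℝ≥0) (L n u C : ℕ) (σ : Fin (d + 1) → Bool),
    (P lam).real {ω : Om d | ((run (bx 0 L) 0 u ω (bx 0 n)).filter (InOrth σ)).card ≤ C} ^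
        (Fintype.card (Fin (d + 1) → Bool)) ≤
      (P lam).real {ω : Om d | (run (bx 0 L) 0 u ω (bx 0 n)).card ≤
        Fintype.card (Fin (d + 1) → Bool) * C}) ∧
  (∀ (d : ℕ) (lam : ℝ≥0) (L n T C : ℕ) (a : Dir d) (σ : Fin (d + 1) → Bool),
    (P lam).real {ω : Om d | ∑ k ∈ Finset.range T,
        ((exits (bx 0 L) 0 k ω (bx 0 n)).filter (InSide L a σ)).card ≤ C} ^
        (Fintype.card (Dir d × (Fin (d + 1) → Bool))) ≤
      (P lam).real {ω : Om d | ∑ k ∈ Finset.range T, (exits (bx 0 L) 0 k ω (bx 0 n)).card ≤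
        Fintype.card (Dir d × (Fin (d + 1) → Bool)) * C})

open Classical in
/-- TRIALS: many separated independent trials. -/
def TRIALS_spec : Prop :=
  ∀ (d : ℕ) (lam : ℝ≥0) (ι : Type) [Countable ι] (J0 : Set (Site d × ℤ))
    (S : Om d → Finset ι) (J : ι → Set (Site d × ℤ)) (Tr : ι → Set (Om d)) (f : ℝ) (K r : ℕ),
    0 ≤ f → f ≤ 1 → 1 ≤ K → (∀ S0, MeasurableSet[Fs J0] {ω | S ω = S0}) →
    (∀ ω, ∀ i ∈ S ω, Disjoint (J i) J0 ∧ MeasurableSet[Fs (J i)] (Tr i) ∧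
      f ≤ (P lam).real (Tr i) ∧
      ((S ω).filter fun j => ¬ Disjoint (J i) (J j)).card ≤ K) →
    (P lam).real {ω | K * r ≤ (S ω).card ∧ ∀ i ∈ S ω, ω ∉ Tr i} ≤ (1 - f) ^ r

open Classical in
/-- TOPMOVE. -/
def TOPMOVE_spec : Prop :=
  ∀ (d : ℕ) (lam : ℝ≥0), 0 < lam → ∀ (n : ℕ) (ε : ℝ), 0 < ε → ∃ C : ℕ,
    ∀ (L u : ℕ) (σ : Fin (d + 1) → Bool),
      (P lam).real {ω : Om d | ((run (bx 0 L) 0 u ω (bx 0 n)).filter (InOrth σ)).card ≤ C} ≤ ε →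
      1 - 2 * ε ≤ (P lam).real {ω : Om d | Hit (bx 0 (L + n)) n 0 0 (topS L (u + 1) σ) ω}

open Classical in
/-- SIDEMOVE. -/
def SIDEMOVE_spec : Prop :=
  ∀ (d : ℕ) (lam : ℝ≥0), 0 < lam → ∀ (n : ℕ) (ε : ℝ), 0 < ε → ∃ C : ℕ,
    ∀ (L T : ℕ) (a : Dir d) (σ : Fin (d + 1) → Bool),
      (P lam).real {ω : Om d | ∑ k ∈ Finset.range (T + 1),
        ((exits (bx 0 L) 0 k ω (bx 0 n)).filter (InSide L a σ)).card ≤ C} ≤ ε →
      1 - 2 * ε ≤ (P lam).real {ω : Om d | Hit (bx 0 (L + 2 * n + 1)) n 0 0 (sideS L n T a σ) ω}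

/-- MOVES: all moves succeed with high probability. -/
def MOVES_spec : Prop :=
  ∀ (d : ℕ) (lam : ℝ≥0), 0 < lam → hv lam ({0} : Finset (Site d)) < 1 → ∀ ε : ℝ, 0 < ε →
    ∃ n L u0 T : ℕ, n ≤ L ∧ 2 * (u0 + 1) ≤ T + 1 ∧
      (∀ u, u0 ≤ u → u ≤ T → ∀ σ : Fin (d + 1) → Bool,
        1 - ε ≤ (P lam).real {ω : Om d | Hit (bx 0 (L + n)) n 0 0 (topS L (u + 1) σ) ω}) ∧
      (∀ (a : Dir d) (σ : Fin (d + 1) → Bool),
        1 - ε ≤ (P lam).real {ω : Om d | Hit (bx 0 (L + 2 * n + 1)) n 0 0 (sideS L n T a σ) ω})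

/-- COMPOSE: invariance, monotonicity and composition of `Hit`. -/
def COMPOSE_spec : Prop :=
  (∀ (d : ℕ) (lam : ℝ≥0) (Λ : Finset (Site d)) (n : ℕ) (z y : Site d) (s t : ℕ)
    (S : Set (Site d × ℕ)),
    (P lam).real {ω : Om d | Hit ((Aut.tr y).im Λ) n (z + y) (s + t)
      ((fun p => (p.1 + y, p.2 + t)) '' S) ω} = (P lam).real {ω : Om d | Hit Λ n z s S ω}) ∧
  (∀ (d : ℕ) (Λ Λ' : Finset (Site d)) (n : ℕ) (z : Site d) (s : ℕ) (S S' : Set (Site d × ℕ))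
    (ω : Om d), Λ ⊆ Λ' → S ⊆ S' → Hit Λ n z s S ω → Hit Λ' n z s S' ω) ∧
  (∀ (d : ℕ) (lam : ℝ≥0) (Λ : Finset (Site d)) (n : ℕ) (z : Site d) (s : ℕ)
    (S S' : Set (Site d × ℕ)) (c : ℝ), 0 ≤ c →
    (∀ p ∈ S, s ≤ p.2 → c ≤ (P lam).real {ω : Om d | Hit Λ n p.1 p.2 S' ω}) →
    c * (P lam).real {ω : Om d | Hit Λ n z s S ω} ≤ (P lam).real {ω : Om d | Hit Λ n z s S' ω})

/-- BLOCK: block events have probability close to one. -/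
def BLOCK_spec : Prop :=
  ∀ (d : ℕ) (lam : ℝ≥0), 0 < lam → hv lam ({0} : Finset (Site d)) < 1 → ∀ ε : ℝ, 0 < ε →
    ∃ n ℓ H : ℕ, 0 < ℓ ∧ 0 < H ∧ ∀ (i : ℤ) (z : Site d), z ∈ win ℓ i →
      1 - ε ≤ (P lam).real {ω : Om d | BlockGood n ℓ H i z ω}

/-- SUPER: a super-solution for the set dynamics `X ↦ (X \ F) + {-1, 0, 1}`. -/
def SUPER_spec : Prop :=
  ∃ (φ : Finset ℤ → ℝ) (q1 : ℝ), 0 < q1 ∧ q1 ≤ 1 ∧ (∀ X, 0 ≤ φ X) ∧ (∀ i, φ {i} ≤ 1) ∧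
    ∀ q : ℝ, 0 ≤ q → q ≤ q1 → ∀ X : Finset ℤ, X.Nonempty → ∀ p : Finset ℤ → ℝ,
      (∀ F, 0 ≤ p F) →
      (∀ B, B ⊆ X → ∑ F ∈ X.powerset.filter (B ⊆ ·), p F ≤ q ^ B.card) →
      ∑ F ∈ X.powerset.erase X, p F * φ (plus (X \ F)) ≤ 1 / 4 * φ X ∧ p X ≤ 1 / 8 * φ X

/-- TAIL: exponential bound for the finite extinction times (Bezuidenhout–Grimmett). -/
def TAIL_spec : Prop :=
  ∀ (d : ℕ) (lam : ℝ≥0), 0 < lam → hv lam ({0} : Finset (Site d)) < 1 → ∃ γ : ℝ, 0 < γ ∧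
    ∀ (A : Finset (Site d)) (k m : ℕ), k ≤ m →
      sv lam A k - sv lam A m ≤ Real.exp (-(γ * k))

open Classical in
/-- EST: the main estimate. -/
def EST_spec : Prop :=
  ∀ (d : ℕ) (lam : ℝ≥0), 0 < lam → hv lam ({0} : Finset (Site d)) < 1 →
    ∃ δ c : ℝ, 0 < δ ∧ δ < 1 ∧ 0 < c ∧ ∀ (x : ℕ → Site d) (n : ℕ) (S : Finset ℕ),
      S ⊆ Finset.range n →
      c * ∫ ω, (1 - δ) ^ (S.filter fun i : ℕ => EtaS ω (i : ℤ) (x i)).card ∂(P lam) ≤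
        ∫ ω, (if EtaS ω (n : ℤ) (x n) then
          (1 - δ) ^ (S.filter fun i : ℕ => EtaS ω (i : ℤ) (x i)).card else 0) ∂(P lam)

/-- DOM: conditional lower bounds give a coupling. -/
def DOM_spec : Prop :=
  ∀ (Ω : Type) [MeasurableSpace Ω] (μ : Measure Ω) [IsProbabilityMeasure μ]
    (W : ℕ → Ω → Bool) (_ : ∀ i, Measurable (W i)) (ρ : unitInterval)
    (_ : ∀ (n : ℕ) (w : ℕ → Bool),
      (ρ : ℝ) * μ.real {ω | ∀ i < n, W i ω = w i} ≤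
        μ.real {ω | (∀ i < n, W i ω = w i) ∧ W n ω = true})
    (Z : Ω → ℕ → Bool) (_ : AEMeasurable Z μ) (_ : ∀ᵐ ω ∂μ, ∀ i, W i ω ≤ Z ω i),
    Dominates (μ.map Z) ρ

/-- BRIDGE: the strip version agrees with the continuous-time graphical representation. -/
def BRIDGE_spec : Prop :=
  ∀ (d : ℕ) (lam : ℝ≥0), ∀ᵐ ω ∂(P (d := d) lam), ∀ (i : ℤ) (x : Site d),
    Eta ω (i : ℝ) x ↔ EtaS ω i x

end Pool.Agent.Lib.MP_c12170_pr
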