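import Mathlib

/-!
# MP_c12170_pr: statement

The contact process on `ℤ^{d+1}` (so every dimension `≥ 1`) with infection rate `lam`, through
Harris' graphical representation, the upper stationary process, the critical value, the simple
random walk, and the statement of Q1.

The graphical representation.  A *letter* is a pair `(x, o)`, where `x` is a site and `o` is an
option: `none` (recovery marks at `x`, rate `1`) or `some a` (arrows from `x` to its neighbour
`x + dir a`, rate `lam`).  For every letter `l` and every `k : ℤ` the sample point `ω` gives a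
number `(ω (l, k)).1` of marks of type `l` in the time interval `[k, k + 1]`, Poisson distributed
with the rate of `l`, and positions `k + (ω (l, k)).2 j` (`j < (ω (l, k)).1`), with independent
uniform `(ω (l, k)).2 j` in `[0, 1]`.  So the marks of the different letters are independent
Poisson processes on `ℝ`.
-/

open MeasureTheory ProbabilityTheory
open scoped ENNReal NNReal

namespace Pool.Agent.Lib.MP_c12170_pr

/-- The sites of `ℤ^{d+1}`. -/
abbrev Site (d : ℕ) : Type := Fin (d + 1) → ℤ

/-- A signed direction. -/
abbrev Dir (d : ℕ) : Type := Fin (d + 1) × Bool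

/-- The unit vector `± e_i`. -/
def dir {d : ℕ} (a : Dir d) : Site d := Pi.single a.1 (if a.2 then 1 else -1)

/-- Letters: a site, and `none` (recovery at the site) or `some a` (arrow `x → x + dir a`). -/
abbrev Letter (d : ℕ) : Type := Site d × Option (Dir d)

/-- The rate of a letter: `1` for recoveries, `lam` for arrows. -/
def rate {d : ℕ} (lam : ℝ≥0) (o : Option (Dir d)) : ℝ≥0 :=
  match o with
  | none => 1
  | some _ => lam

/-- The sample space: for every letter and every unit time interval `[k, k+1]` a number of marks
and the relative positions of the marks. -/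
abbrev Om (d : ℕ) : Type := Letter d × ℤ → ℕ × (ℕ → unitInterval)

/-- The law: all coordinates are independent, the numbers are Poisson and the positions are
uniform. -/
noncomputable def P {d : ℕ} (lam : ℝ≥0) : Measure (Om d) :=
  Measure.infinitePi fun p : Letter d × ℤ =>
    (poissonMeasure (rate lam p.1.2)).prod
      (Measure.infinitePi fun _ : ℕ => (volume : Measure unitInterval))

/-- `IsMark ω l t`: there is a mark of type `l` at time `t`. -/
def IsMark {d : ℕ} (ω : Om d) (l : Letter d) (t : ℝ) : Prop :=
  ∃ (k : ℤ) (j : ℕ), j < (ω (l, k)).1 ∧ t = k + ((ω (l, k)).2 j : ℝ)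

/-- `Active ω x s y t`: there is an active (infection) path from `(x, s)` to `(y, t)`: it goes up
in time through intervals without recovery marks, and it may follow arrows. -/
inductive Active {d : ℕ} (ω : Om d) (x : Site d) (s : ℝ) : Site d → ℝ → Prop
  | refl : Active ω x s x s
  | stay {y : Site d} {t t' : ℝ} (h : Active ω x s y t) (ht : t ≤ t')
      (hr : ∀ r, t < r → r ≤ t' → ¬ IsMark ω (y, none) r) : Active ω x s y t'
  | arrow {y : Site d} {t : ℝ} {a : Dir d} (h : Active ω x s y t)
      (ha : IsMark ω (y, some a) t) : Active ω x s (y + dir a) t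

/-- The upper stationary contact process `η_t(x)`: `x` is infected at time `t` if it is reached
by active paths from arbitrarily early times (the limit, as `s → -∞`, of the process started from
all sites infected at time `s`). -/
def Eta {d : ℕ} (ω : Om d) (t : ℝ) (x : Site d) : Prop :=
  ∀ s : ℝ, s ≤ t → ∃ y : Site d, Active ω y s x t

/-- The critical value of the contact process on `ℤ^{d+1}`: the supremum of the rates for which the
upper stationary process is trivial. -/
noncomputable def lamc (d : ℕ) : ℝ≥0∞ :=
  ⨆ (lam : ℝ≥0) (_ : P (d := d) lam {ω | Eta ω 0 0} = 0), (lam : ℝ≥0∞)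

/-- The path of the walk with steps `dir (a 0), dir (a 1), …` started at the origin. -/
def walk {d : ℕ} (a : ℕ → Dir d) (i : ℕ) : Site d := ∑ j ∈ Finset.range i, dir (a j)

/-- The law of the path of simple random walk: the image of the law of i.i.d. uniform signed
directions. -/
noncomputable def srw (d : ℕ) : Measure (ℕ → Site d) :=
  (Measure.infinitePi fun _ : ℕ =>
    ((PMF.uniformOfFintype (Dir d)).toMeasure : Measure (Dir d))).map walk

open Classical in
/-- The observed sequence `Z_i = η_i(X_i)`. -/
noncomputable def Zseq {d : ℕ} (p : Om d × (ℕ → Site d)) (i : ℕ) : Bool :=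
  decide (Eta p.1 (i : ℝ) (p.2 i))

/-- The i.i.d. Bernoulli(`ρ`) law on `{0,1}^ℕ`. -/
noncomputable def bern (ρ : unitInterval) : Measure (ℕ → Bool) :=
  Measure.infinitePi fun _ : ℕ => bernoulliMeasure true false ρ

/-- A law `μ` on `{0,1}^ℕ` stochastically dominates the Bernoulli(`ρ`) product law: there is a
coupling `κ` of `μ` (first coordinate `Z`) and of the Bernoulli law (second coordinate `Y`) with
`Y i ≤ Z i` for all `i` almost surely. -/
def Dominates (μ : Measure (ℕ → Bool)) (ρ : unitInterval) : Prop :=
  ∃ κ : Measure ((ℕ → Bool) × (ℕ → Bool)), κ.map Prod.fst = μ ∧ κ.map Prod.snd = bern ρ ∧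
    ∀ᵐ p ∂κ, ∀ i, p.2 i ≤ p.1 i

/-- Q1 of MP_c12170_pr, and its version for every random path which is independent of the contact
process (with the same `ρ` for all of them; the Dirac masses are the deterministic paths). -/
def MainStatement : Prop :=
  ∀ (d : ℕ) (lam : ℝ≥0), lamc d < lam → ∃ ρ : unitInterval, 0 < ρ ∧
    Dominates (((P lam).prod (srw d)).map Zseq) ρ ∧
    ∀ ν : Measure (ℕ → Site d), IsProbabilityMeasure ν →
      Dominates (((P lam).prod ν).map Zseq) ρ

end Pool.Agent.Lib.MP_c12170_pr
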